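import Pool.Agent.Lib.Pex.Est

set_option autoImplicit false

/-!
# Pinched closed two-forms on the projective plane, with an explicit constant
-/

open MeasureTheory Set Metric
open scoped ContDiff

namespace Pool.Agent.Lib.Pex

open Pool.Agent.P28b04d Pool.Agent.Lib.Psd

theorem Pf_UV {T : Fin 4 → Fin 4 → ℝ} (h : Skew T) :
    4 * Pf T = ∑ i, Uc T i ^ 2 - ∑ i, Vc T i ^ 2 := by
  obtain ⟨⟨e1, e2, e3, e4⟩, ⟨e5, e6, e7⟩, ⟨e8, e9, e10⟩⟩ := AlgAux.sk h
  simp only [Pf, Fin.sum_univ_three, Uc, Vc, Matrix.cons_val_zero,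
    Matrix.cons_val_one, Matrix.cons_val, e1, e2, e3, e4, e5, e6, e7, e8, e9, e10]
  ring

theorem Pf_pos {T : Fin 4 → Fin 4 → ℝ} (h : Skew T) (hlt : n3 (Vc T) < n3 (Uc T)) : 0 < Pf T := by
  have h1 := Pf_UV h
  have h2 : n3 (Vc T) ^ 2 < n3 (Uc T) ^ 2 := pow_lt_pow_left₀ hlt (n3_nonneg _) two_ne_zero
  rw [n3_sq, n3_sq] at h2
  linarith

section
variable {α : W → W →L[ℝ] ℝ} {z u v : W}

/-- the averages are non-degenerate -/
theorem Ak_pos (hα : Conn α) (hp : Pinched (1 / 100) α) (h : ON3 z u v) {s : ℝ} (h0 : 0 < s)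
    (h1 : s ≤ 1 / 100) : 0 < Pf (Psd.cmp (dd (Ak s α) z) u v) := by
  have hd := D_pos hα hp h h0 h1
  have hU := near_U hα hp h h0 h1
  have hV := near_V hα hp h h0 h1
  refine Pf_pos (Psd.cmp_skew _ z u v) ?_
  have h2 := n3_le_add (Dm' α z u v s) (Uc (Psd.cmp (dd (Ak s α) z) u v))
  rw [n3_sub_comm] at h2
  linarith

theorem sin_five : Real.sin r0 ≤ 2 ^ 5 * Real.sin (Real.arctan (1 / 100)) := by
  have h1 := r0_sin
  have hs := sin_arctan_pos (by norm_num : (0 : ℝ) < 1 / 100)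
  obtain ⟨s1, s2, s3⟩ := sc (1 / 100)
  have h0 : 0 < Real.sin r0 := (sin_cos_pos r0_pos r0_lt).1
  have h2 : Real.sin r0 ^ 2 ≤ (2 ^ 5 * Real.sin (Real.arctan (1 / 100))) ^ 2 := by
    rw [h1, s1]
    have h3 : Real.cos (Real.arctan (1 / 100)) ^ 2 = 10000 / 10001 := by
      have e : (1 : ℝ) + (1 / 100) ^ 2 = 10001 / 10000 := by norm_num
      rw [e] at s3
      linarith
    have h4 : (2 ^ 5 * (1 / 100 * Real.cos (Real.arctan (1 / 100)))) ^ 2 =
        1024 / 10000 * Real.cos (Real.arctan (1 / 100)) ^ 2 := by ring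
    rw [h4, h3]
    norm_num
  exact (sq_le_sq₀ h0.le (by positivity)).1 h2

/-- closeness to the Fubini-Study form at the scale `1 / 100` -/
theorem close (hα : Conn α) (hp : Pinched (1 / 100) α) (h : ON3 z u v) :
    n3 (Dm' α z u v (1 / 100) - c3) ≤ 148 / 100 := by
  obtain ⟨hg, hn⟩ := start hα (by norm_num) le_rfl hp h
  have hR := rd_of_pinched hα hp h
  have h1 := (all_down hR (by norm_num) le_rfl r0_pos r0_lt r0_sin.le hg 5
    (Real.arctan (1 / 100)) (Real.arctan_pos.2 (by norm_num))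
    (arctan_le_r0 (by norm_num) le_rfl) sin_five).2.1
  have hc3 : n3 c3 = 4 := by
    unfold n3
    rw [Fin.sum_univ_three]
    simp only [c3, Matrix.cons_val_zero, Matrix.cons_val_one, Matrix.cons_val]
    rw [show (0 : ℝ) ^ 2 + 0 ^ 2 + 4 ^ 2 = 4 ^ 2 by norm_num, Real.sqrt_sq (by norm_num)]
  have h2 := n3_le_add (dvec (bm α z u v) r0) c3
  rw [hc3] at h2
  have h3 := n3_tri (Dm' α z u v (1 / 100)) (dvec (bm α z u v) r0) c3
  have h4 : ((1 + 89 / 20 * (1 / 100 : ℝ)) ^ 5 - 1) * n3 (dvec (bm α z u v) r0) ≤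
      ((1 + 89 / 20 * (1 / 100 : ℝ)) ^ 5 - 1) * (4406 / 1000) :=
    mul_le_mul_of_nonneg_left (by linarith) (by norm_num)
  have h5 : ((1 + 89 / 20 * (1 / 100 : ℝ)) ^ 5 - 1) * (4406 / 1000) ≤ 1073 / 1000 := by norm_num
  have h6 : n3 (Dm' α z u v (1 / 100) - dvec (bm α z u v) r0) ≤
      ((1 + 89 / 20 * (1 / 100 : ℝ)) ^ 5 - 1) * n3 (dvec (bm α z u v) r0) := h1
  linarith

/-- the linear path at the scale `1 / 100` -/
theorem lin_pos (hα : Conn α) (hp : Pinched (1 / 100) α) (h : ON3 z u v) {t : ℝ} (ht0 : 0 ≤ t)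
    (ht1 : t ≤ 1) : 0 < Pf (fun i j => (1 - t) * Psd.cmp (dd (Ak (1 / 100) α) z) u v i j +
      t * c0 i j) := by
  have hU := near_U hα hp h (by norm_num : (0 : ℝ) < 1 / 100) le_rfl
  have hV := near_V hα hp h (by norm_num : (0 : ℝ) < 1 / 100) le_rfl
  have hD := close hα hp h
  set D := Dm' α z u v (1 / 100) with hDd
  set T := Psd.cmp (dd (Ak (1 / 100) α) z) u v with hT
  have hTs : Skew T := Psd.cmp_skew _ z u v
  have hc3 : n3 c3 = 4 := by
    unfold n3
    rw [Fin.sum_univ_three]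
    simp only [c3, Matrix.cons_val_zero, Matrix.cons_val_one, Matrix.cons_val]
    rw [show (0 : ℝ) ^ 2 + 0 ^ 2 + 4 ^ 2 = 4 ^ 2 by norm_num, Real.sqrt_sq (by norm_num)]
  have hd : n3 D ≤ 548 / 100 := by
    have := n3_le_add D c3
    linarith
  have hUc : n3 (Uc T - c3) + n3 (Vc T) < 4 := by
    have := n3_tri (Uc T) D c3
    linarith
  have hS : Skew fun i j => (1 - t) * T i j + t * c0 i j := by
    intro i j
    show (1 - t) * T i j + t * c0 i j = -((1 - t) * T j i + t * c0 j i)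
    rw [hTs i j, c0_facts.1 i j]
    ring
  refine Pf_pos hS ?_
  have eU : Uc (fun i j => (1 - t) * T i j + t * c0 i j) = (1 - t) • (Uc T - c3) + c3 := by
    funext i
    fin_cases i
    · simp only [Uc, c3, c0, Pi.add_apply, Pi.smul_apply, Pi.sub_apply, smul_eq_mul,
        Matrix.cons_val_zero, Matrix.cons_val_one, Matrix.cons_val, Fin.zero_eta]
      ring
    · simp only [Uc, c3, c0, Pi.add_apply, Pi.smul_apply, Pi.sub_apply, smul_eq_mul,
        Matrix.cons_val_zero, Matrix.cons_val_one, Matrix.cons_val, Fin.mk_one]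
      ring
    · simp only [Uc, c3, c0, Pi.add_apply, Pi.smul_apply, Pi.sub_apply, smul_eq_mul,
        Matrix.cons_val_zero, Matrix.cons_val_one, Matrix.cons_val, Fin.reduceFinMk]
      ring
  have eV : Vc (fun i j => (1 - t) * T i j + t * c0 i j) = (1 - t) • Vc T := by
    funext i
    fin_cases i
    · simp only [Vc, c0, Pi.smul_apply, smul_eq_mul,
        Matrix.cons_val_zero, Matrix.cons_val_one, Matrix.cons_val, Fin.zero_eta]
      ring
    · simp only [Vc, c0, Pi.smul_apply, smul_eq_mul,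
        Matrix.cons_val_zero, Matrix.cons_val_one, Matrix.cons_val, Fin.mk_one]
      ring
    · simp only [Vc, c0, Pi.smul_apply, smul_eq_mul,
        Matrix.cons_val_zero, Matrix.cons_val_one, Matrix.cons_val, Fin.reduceFinMk]
      ring
  rw [eU, eV, n3_smul, abs_of_nonneg (by linarith)]
  have h1 : n3 c3 ≤ n3 ((1 - t) • (Uc T - c3) + c3) + n3 ((1 - t) • (Uc T - c3)) := by
    have h2 := n3_le_add c3 ((1 - t) • (Uc T - c3) + c3)
    have h3 : c3 - ((1 - t) • (Uc T - c3) + c3) = -((1 - t) • (Uc T - c3)) := by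
      rw [sub_add_cancel_right]
    rw [h3, n3_neg] at h2
    linarith
  rw [hc3, n3_smul, abs_of_nonneg (by linarith)] at h1
  have h0 : 0 ≤ n3 (Uc T - c3) := n3_nonneg _
  have h0' : 0 ≤ n3 (Vc T) := n3_nonneg _
  have h4 : (1 - t) * (n3 (Uc T - c3) + n3 (Vc T)) ≤ 1 * (n3 (Uc T - c3) + n3 (Vc T)) :=
    mul_le_mul_of_nonneg_right (by linarith) (by positivity)
  linarith

end

theorem mainP : ∀ α : W → W →L[ℝ] ℝ, Conn α → Pinched (1 / 100) α → Nondeg α ∧
    ∃ K : ℝ × W → W →L[ℝ] ℝ, ContDiffOn ℝ ∞ K (univ ×ˢ {0}ᶜ) ∧ (∀ z : W, z ≠ 0 → K (0, z) = α z) ∧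
      (∀ z : W, z ≠ 0 → K (1, z) = a0 z) ∧
      ∀ t : ℝ, Conn (fun z => K (t, z)) ∧ Nondeg (fun z => K (t, z)) := by
  intro α hα hP
  have hA0 : ∀ z u v : W, ON3 z u v → 0 < Pf (Psd.cmp (dd α z) u v) := by
    intro z u v hz
    obtain ⟨i, j, hij⟩ := center hα (by norm_num) le_rfl hP hz
    exact MainAAux.pf_pos_of_ne (by norm_num) (by norm_num) (Psd.cmp_skew α z u v) (hP z u v hz) hij
  set χ : ℝ → ℝ := Real.smoothTransition with hχ
  have hχc : ContDiff ℝ ∞ χ := Real.smoothTransition.contDiff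
  have hχ0 : ∀ x, 0 ≤ χ x := fun x => Real.smoothTransition.nonneg x
  have hχ1 : ∀ x, χ x ≤ 1 := fun x => Real.smoothTransition.le_one x
  refine ⟨nondeg_of_Pf hα fun z u v hz => (hA0 z u v hz).ne',
    fun p => (1 - χ (2 * p.1 - 1)) • Ak (1 / 100 * χ (2 * p.1)) α p.2 + χ (2 * p.1 - 1) • a0 p.2,
    ?_, ?_, ?_, ?_⟩
  · have h1 : ContDiffOn ℝ ∞ (fun p : ℝ × W => Ak (1 / 100 * χ (2 * p.1)) α p.2)
        (univ ×ˢ {0}ᶜ) := by
      have hmap : ContDiffOn ℝ ∞ (fun p : ℝ × W => (1 / 100 * χ (2 * p.1), p.2))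
          (univ ×ˢ {0}ᶜ) := by
        apply ContDiff.contDiffOn
        exact (contDiff_const.mul (hχc.comp (contDiff_const.mul contDiff_fst))).prodMk contDiff_snd
      refine (Ak_smooth hα).comp hmap ?_
      rintro ⟨t, z⟩ ⟨-, hz⟩
      exact ⟨mem_univ _, hz⟩
    have h2 : ContDiffOn ℝ ∞ (fun p : ℝ × W => a0 p.2) (univ ×ˢ {0}ᶜ) :=
      a0_conn.smooth.comp contDiff_snd.contDiffOn fun p hp => hp.2
    have h3 : ContDiff ℝ ∞ (fun p : ℝ × W => χ (2 * p.1 - 1)) :=
      hχc.comp ((contDiff_const.mul contDiff_fst).sub contDiff_const)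
    exact ((contDiff_const.sub h3).contDiffOn.smul h1).add (h3.contDiffOn.smul h2)
  · intro z hz
    have e1 : χ (2 * 0 - 1) = 0 := Real.smoothTransition.zero_of_nonpos (by norm_num)
    have e2 : χ (2 * 0) = 0 := Real.smoothTransition.zero_of_nonpos (by norm_num)
    show (1 - χ (2 * 0 - 1)) • Ak (1 / 100 * χ (2 * 0)) α z + χ (2 * 0 - 1) • a0 z = α z
    rw [e1, e2, mul_zero, sub_zero, one_smul, zero_smul, add_zero]
    exact Ak_zero hα hz
  · intro z hz
    have e1 : χ (2 * 1 - 1) = 1 := Real.smoothTransition.one_of_one_le (by norm_num)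
    show (1 - χ (2 * 1 - 1)) • Ak (1 / 100 * χ (2 * 1)) α z + χ (2 * 1 - 1) • a0 z = a0 z
    rw [e1, sub_self, zero_smul, one_smul, zero_add]
  · intro t
    have hcA : Conn (Ak (1 / 100 * χ (2 * t)) α) := Ak_conn hα _
    have hK : Conn (fun z => (1 - χ (2 * t - 1)) • Ak (1 / 100 * χ (2 * t)) α z +
        χ (2 * t - 1) • a0 z) := hcA.lin a0_conn _
    refine ⟨hK, nondeg_of_Pf hK fun z u v hz => ne_of_gt ?_⟩
    have hzz := MainAAux.ne_zero hz
    have hcmp : Psd.cmp (dd (fun z => (1 - χ (2 * t - 1)) • Ak (1 / 100 * χ (2 * t)) α z +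
        χ (2 * t - 1) • a0 z) z) u v = fun i j =>
        (1 - χ (2 * t - 1)) * Psd.cmp (dd (Ak (1 / 100 * χ (2 * t)) α) z) u v i j +
          χ (2 * t - 1) * c0 i j := by
      funext i j
      rw [← MainAAux.cmp_a0 hz]
      exact dd_lin hcA.smooth a0_conn.smooth _ hzz _ _
    rw [hcmp]
    by_cases ht : 2 * t - 1 ≤ 0
    · have e1 : χ (2 * t - 1) = 0 := Real.smoothTransition.zero_of_nonpos ht
      have hfun : (fun i j => (1 - χ (2 * t - 1)) *
          Psd.cmp (dd (Ak (1 / 100 * χ (2 * t)) α) z) u v i j + χ (2 * t - 1) * c0 i j) =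
          Psd.cmp (dd (Ak (1 / 100 * χ (2 * t)) α) z) u v := by
        funext i j
        rw [e1]
        ring
      rw [hfun]
      by_cases hs : χ (2 * t) = 0
      · have e3 : dd (Ak (1 / 100 * χ (2 * t)) α) z = dd α z := by
          have hev : Ak (1 / 100 * χ (2 * t)) α =ᶠ[nhds z] α := by
            filter_upwards [isOpen_compl_singleton.mem_nhds (by simpa using hzz)] with y hy
            rw [hs, mul_zero]
            exact Ak_zero hα hy
          funext a b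
          unfold dd
          rw [hev.fderiv_eq]
        rw [e3]
        exact hA0 z u v hz
      · have hpos : 0 < χ (2 * t) := lt_of_le_of_ne (hχ0 _) (Ne.symm hs)
        exact Ak_pos hα hP hz (by positivity) (by linarith [hχ1 (2 * t)])
    · push Not at ht
      have e2 : χ (2 * t) = 1 := Real.smoothTransition.one_of_one_le (by linarith)
      rw [e2, mul_one]
      exact lin_pos hα hP hz (hχ0 _) (hχ1 _)

end Pool.Agent.Lib.Pex
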