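import Pool.Agent.Lib.Psd.AmbC
import Pool.Agent.Lib.Pex.MainP

set_option autoImplicit false

/-!
# Pinched closed two-forms on `ℂP²` with an explicit constant, ambient version
-/

open MeasureTheory Set Metric
open scoped ContDiff

namespace Pool.Agent.Lib.Pex

open Pool.Agent.P28b04d Pool.Agent.Lib.Psd Pool.Agent.Lib.Psd.AmbCAux

theorem mainQ : ∀ β : Mat → Mat →L[ℝ] ℝ, ContDiff ℝ ∞ β → PinchedM (1 / 100) (form β) →
    NondegM (form β) ∧
    ∃ K : ℝ × Mat → Mat →L[ℝ] ℝ, ContDiff ℝ ∞ K ∧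
      (∀ P ∈ CP 2, ∀ Y ∈ Tan P, K (0, P) Y = β P Y) ∧
      (∀ P ∈ CP 2, ∀ Y ∈ Tan P, K (1, P) Y = 0) ∧
      ∀ t : ℝ, NondegM (form fun P => K (t, P)) := by
  intro β hβ hpin
  have hα : Conn (fun z => a0 z + pb β z) := conn_add a0_conn (pb_basic hβ)
  have hP : Pinched (1 / 100) (fun z => a0 z + pb β z) := by
    intro z u v h
    have h1 : Psd.cmp (dd (fun z => a0 z + pb β z) z) u v = cmpM (form β) z u v := by
      funext i j
      unfold Psd.cmp cmpM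
      exact dd_conn hβ (nsq_of_ON3 h) (hp_fr h i) (hp_fr h j)
    rw [h1]
    exact hpin z u v h
  obtain ⟨hn, K, hKs, hK0, hK1, hKt⟩ := mainP _ hα hP
  refine ⟨nondeg_amb hα hn fun z v w hz hv hw => dd_conn hβ hz hv hw, ?_⟩
  set Γ : ℝ × W → W →L[ℝ] ℝ := fun q => K q - a0 q.2 with hΓ
  have hΓs : ContDiffOn ℝ ∞ Γ (univ ×ˢ {0}ᶜ) := by
    refine hKs.sub ?_
    exact a0_conn.smooth.comp contDiffOn_snd fun q hq => hq.2
  have hΓb : ∀ t, Basic (fun z => Γ (t, z)) := fun t => (hKt t).1.sub a0_conn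
  have hΓt : ∀ t : ℝ, ∀ z : W, z ≠ 0 → a0 z + pb (fun P => ext1 Γ (t, P)) z = K (t, z) := by
    intro t z hz
    rw [pb_ext1 hΓb t hz]
    simp [hΓ]
  have hs := ext1_smooth hΓs
  refine ⟨ext1 Γ, hs, ?_, ?_, ?_⟩
  · intro P hP Y hY
    obtain ⟨z, hz1, rfl⟩ := exists_unit hP
    obtain ⟨v, hv, rfl⟩ := tan_eq hz1 hY
    rw [ext1_apply hΓb 0 hz1 hv]
    have h1 : Γ (0, z) = pb β z := by
      simp only [hΓ]
      rw [hK0 z (ne_of_nsq hz1), add_sub_cancel_left]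
    rw [h1, pb, ContinuousLinearMap.comp_apply, fderiv_pt hz1 hv]
  · intro P hP Y hY
    obtain ⟨z, hz1, rfl⟩ := exists_unit hP
    obtain ⟨v, hv, rfl⟩ := tan_eq hz1 hY
    rw [ext1_apply hΓb 1 hz1 hv]
    have h1 : Γ (1, z) = 0 := by
      simp only [hΓ]
      rw [hK1 z (ne_of_nsq hz1), sub_self]
    rw [h1, zero_apply]
  · intro t
    have hst : ContDiff ℝ ∞ (fun P => ext1 Γ (t, P)) := hs.comp (contDiff_const.prodMk contDiff_id)
    refine nondeg_amb (hKt t).1 (hKt t).2 fun z v w hz hv hw => ?_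
    rw [← dd_conn hst hz hv hw]
    exact dd_congr (fun y hy => (hΓt t y hy).symm) (ne_of_nsq hz) v w

end Pool.Agent.Lib.Pex
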