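import Pool.Agent.Lib.Pex.SkM

set_option autoImplicit false

/-!
# Averages over the maps `1 + s X`, `X` skew Hermitian
-/

open MeasureTheory Set Metric
open scoped ContDiff

namespace Pool.Agent.Lib.Pex

open Pool.Agent.P28b04d Pool.Agent.Lib.Psd

/-- Volume of the unit ball of the parameters. -/
noncomputable def cK : ℝ := (volume (Kp)).toReal

theorem cK_pos : 0 < cK := ENNReal.toReal_pos Kp_pos.ne' Kp_fin

/-- The transformation. -/
noncomputable def gk (s : ℝ) (p : Pp) (z : W) : W := act s (Sk p) z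

/-- Average of a one-form over the maps `1 + s X`. -/
noncomputable def Ak (s : ℝ) (α : W → W →L[ℝ] ℝ) (z : W) : W →L[ℝ] ℝ :=
  cK⁻¹ • ∫ p in Kp, (α (gk s p z)).comp (actL s (Sk p))

theorem nsq_pos' {z : W} (hz : z ≠ 0) : 0 < nsq z := ConnBAux.nsq_pos hz

theorem gk_ne (s : ℝ) (p : Pp) {z : W} (hz : z ≠ 0) : gk s p z ≠ 0 := by
  intro h
  have h1 : hp z (gk s p z) = (nsq z : ℂ) + (s : ℂ) * hp z (mx (Sk p) z) := by
    unfold gk Psd.act
    rw [hp_add_right, hp_smul_right, nsq_eq_hp]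
  have h2 : hp z (gk s p z) = 0 := by
    rw [h]
    simp [hp]
  rw [h2] at h1
  have h3 := congrArg Complex.re h1
  have h4 := hp_self_re p z
  have h5 := nsq_pos' hz
  simp only [Complex.zero_re, Complex.add_re, Complex.ofReal_re, Complex.mul_re,
    Complex.ofReal_im, h4, mul_zero, zero_mul, sub_zero, add_zero] at h3
  linarith

theorem gk_smul (s : ℝ) (p : Pp) (c : ℂ) (z : W) : gk s p (c • z) = c • gk s p z :=
  act_smul s (Sk p) c z

theorem gk_zero (p : Pp) (z : W) : gk 0 p z = z := AvCAux.act_zero0 (Sk p) z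

/-- the domain of the parameters -/
def Og : Set (ℝ × W) := univ ×ˢ {0}ᶜ

theorem Og_open : IsOpen Og := isOpen_univ.prod isOpen_compl_singleton

theorem Sk_smooth : ContDiff ℝ ∞ (fun p : Pp => Sk p) :=
  (LinearMap.toContinuousLinearMap Sk).contDiff

/-- the integrand -/
noncomputable def Pk (α : W → W →L[ℝ] ℝ) (q : (ℝ × W) × Pp) : W →L[ℝ] ℝ :=
  (α (gk q.1.1 q.2 q.1.2)).comp (actL q.1.1 (Sk q.2))

theorem chg_smooth : ContDiff ℝ ∞ (fun q : (ℝ × W) × Pp => (((q.1, Sk q.2)) : (ℝ × W) × XX)) :=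
  contDiff_fst.prodMk (Sk_smooth.comp contDiff_snd)

theorem gk_smooth : ContDiff ℝ ∞ (fun q : (ℝ × W) × Pp => gk q.1.1 q.2 q.1.2) :=
  AvCAux.smooth_act.comp chg_smooth

theorem gL_smooth : ContDiff ℝ ∞ (fun q : (ℝ × W) × Pp => actL q.1.1 (Sk q.2)) :=
  AvCAux.smooth_actL.comp chg_smooth

variable {α : W → W →L[ℝ] ℝ}

theorem Pk_smooth (h : Conn α) : ContDiffOn ℝ ∞ (Pk α) (Og ×ˢ (univ : Set Pp)) := by
  unfold Pk
  have h2 : ContDiffOn ℝ ∞ (fun q : (ℝ × W) × Pp => α (gk q.1.1 q.2 q.1.2))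
      (Og ×ˢ (univ : Set Pp)) :=
    h.smooth.comp gk_smooth.contDiffOn (by
      rintro ⟨⟨s, z⟩, p⟩ ⟨⟨-, hz⟩, -⟩
      exact gk_ne s p hz)
  exact h2.clm_comp gL_smooth.contDiffOn

theorem Ak_eq (α : W → W →L[ℝ] ℝ) (s : ℝ) (z : W) :
    Ak s α z = cK⁻¹ • ∫ p in Kp, Pk α ((s, z), p) := rfl

theorem Ak_smooth (h : Conn α) :
    ContDiffOn ℝ ∞ (fun p : ℝ × W => Ak p.1 α p.2) (univ ×ˢ {0}ᶜ) := by
  have h1 := Pool.Agent.Lib.P28e.contDiffOn_param (E := ℝ × W) (F := Pp) volume Og_open isOpen_univ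
    Kp_compact (subset_univ _) (Pk_smooth h)
  refine (h1.const_smul (cK⁻¹)).congr fun p _ => ?_
  exact Ak_eq α p.1 p.2

theorem slice_cont (h : Conn α) (s : ℝ) {z : W} (hz : z ≠ 0) :
    ContinuousOn (fun p => Pk α ((s, z), p)) Kp :=
  (Pk_smooth h).continuousOn.comp (Continuous.prodMk_right (s, z)).continuousOn
    (fun _ _ => ⟨⟨mem_univ _, hz⟩, mem_univ _⟩)

theorem Ak_apply (h : Conn α) (s : ℝ) {z : W} (hz : z ≠ 0) (v : W) :
    Ak s α z v = cK⁻¹ * ∫ p in Kp, α (gk s p z) (gk s p v) := by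
  have h1 : IntegrableOn (fun p => Pk α ((s, z), p)) Kp :=
    (slice_cont h s hz).integrableOn_compact Kp_compact
  rw [Ak_eq, smul_apply, ContinuousLinearMap.integral_apply h1, smul_eq_mul]
  congr 1

theorem int_one : cK⁻¹ * ∫ _p in Kp, (1 : ℝ) = 1 := by
  rw [setIntegral_const, smul_eq_mul, mul_one]
  exact inv_mul_cancel₀ cK_pos.ne'

theorem Ak_conn (h : Conn α) (s : ℝ) : Conn (Ak s α) := by
  refine ⟨?_, ?_, ?_, ?_⟩
  · exact (Ak_smooth h).comp (g := fun p : ℝ × W => Ak p.1 α p.2) (f := fun z : W => (s, z))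
      (s := {0}ᶜ) (contDiff_const.prodMk contDiff_id).contDiffOn (fun z hz => ⟨mem_univ _, hz⟩)
  · intro c hc z hz v
    rw [Ak_apply h s hz, Ak_apply h s (smul_ne_zero hc hz)]
    congr 1
    refine setIntegral_congr_fun Kp_compact.measurableSet fun p _ => ?_
    simp only [gk_smul]
    rw [h.hom c hc _ (gk_ne s p hz)]
  · intro z hz
    rw [Ak_apply h s hz]
    have e : ∫ p in Kp, α (gk s p z) (gk s p z) = ∫ _p in Kp, (0 : ℝ) :=
      setIntegral_congr_fun Kp_compact.measurableSet fun p _ => h.rad _ (gk_ne s p hz)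
    rw [e]
    simp
  · intro z hz
    rw [Ak_apply h s hz]
    have e : ∫ p in Kp, α (gk s p z) (gk s p (Complex.I • z)) = ∫ _p in Kp, (1 : ℝ) :=
      setIntegral_congr_fun Kp_compact.measurableSet fun p _ => by
        simp only [gk_smul]
        exact h.rot _ (gk_ne s p hz)
    rw [e]
    exact int_one

theorem Ak_zero (h : Conn α) {z : W} (hz : z ≠ 0) : Ak 0 α z = α z := by
  ext v
  rw [Ak_apply h 0 hz]
  simp only [gk_zero]
  rw [setIntegral_const, smul_eq_mul, ← mul_assoc]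
  have : cK⁻¹ * volume.real Kp = 1 := inv_mul_cancel₀ cK_pos.ne'
  rw [this, one_mul]

theorem Pk_smooth' (h : Conn α) (s : ℝ) :
    ContDiffOn ℝ ∞ (fun p : W × Pp => Pk α ((s, p.1), p.2)) (({0}ᶜ : Set W) ×ˢ univ) := by
  refine (Pk_smooth h).comp (f := fun p : W × Pp => (((s, p.1), p.2) : (ℝ × W) × Pp))
    (((contDiff_const.prodMk contDiff_fst).prodMk contDiff_snd).contDiffOn) ?_
  rintro ⟨z, p⟩ ⟨hz, -⟩
  exact ⟨⟨mem_univ _, hz⟩, mem_univ _⟩

theorem hasFDerivAt_Pk (h : Conn α) (s : ℝ) (p : Pp) {z : W} (hz : z ≠ 0) :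
    HasFDerivAt (fun z' => Pk α ((s, z'), p))
      ((ContinuousLinearMap.precomp ℝ (actL s (Sk p)) : (W →L[ℝ] ℝ) →L[ℝ] (W →L[ℝ] ℝ)).comp
        ((fderiv ℝ α (gk s p z)).comp (actL s (Sk p)))) z := by
  have h1 : HasFDerivAt (fun z' => gk s p z') (actL s (Sk p)) z := by
    have : (fun z' => gk s p z') = fun z' => actL s (Sk p) z' := by
      funext z'
      rw [Psd.actL_apply]
      rfl
    rw [this]
    exact (actL s (Sk p)).hasFDerivAt
  have h2 : HasFDerivAt α (fderiv ℝ α (gk s p z)) (gk s p z) :=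
    ConnBAux.diffAt h.smooth (gk_ne s p hz)
  have h3 := (h2.comp z h1)
  exact ((ContinuousLinearMap.precomp ℝ (actL s (Sk p)) :
    (W →L[ℝ] ℝ) →L[ℝ] (W →L[ℝ] ℝ)).hasFDerivAt (x := α (gk s p z))).comp z h3

theorem fdk_apply (h : Conn α) (s : ℝ) {z : W} (hz : z ≠ 0) (p : Pp) (v w : W) :
    (fderiv ℝ (fun z' => Pk α ((s, z'), p)) z v) w =
      fderiv ℝ α (gk s p z) (gk s p v) (gk s p w) := by
  rw [(hasFDerivAt_Pk h s p hz).fderiv]
  simp [Psd.actL_apply, gk]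

theorem intk_fd (h : Conn α) (s : ℝ) {z : W} (hz : z ≠ 0) (v w : W) :
    IntegrableOn (fun p => fderiv ℝ α (gk s p z) (gk s p v) (gk s p w)) Kp ∧
    fderiv ℝ (Ak s α) z v w =
      cK⁻¹ * ∫ p in Kp, fderiv ℝ α (gk s p z) (gk s p v) (gk s p w) := by
  obtain ⟨h1, h2⟩ := AvCAux.fderiv_param (volume : Measure Pp) (isOpen_compl_singleton)
    isOpen_univ Kp_compact (subset_univ _) (Pk_smooth' h s) hz v
  have h3 : IntegrableOn (fun p => fderiv ℝ α (gk s p z) (gk s p v) (gk s p w)) Kp :=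
    IntegrableOn.congr_fun (f := fun p => (fderiv ℝ (fun z' => Pk α ((s, z'), p)) z v) w)
      (h1.apply_continuousLinearMap w) (fun p _ => fdk_apply h s hz p v w)
      Kp_compact.measurableSet
  refine ⟨h3, ?_⟩
  have hd : DifferentiableAt ℝ (fun z' => ∫ p in Kp, Pk α ((s, z'), p)) z := by
    have h5 := Pool.Agent.Lib.P28e.contDiffOn_param (E := W) (F := Pp) volume
      isOpen_compl_singleton isOpen_univ Kp_compact (subset_univ _) (Pk_smooth' h s)
    exact (h5.differentiableOn (by simp)).differentiableAt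
      (isOpen_compl_singleton.mem_nhds (show z ∈ ({0}ᶜ : Set W) from hz))
  have h4 : (Ak s α) = fun z' => cK⁻¹ • ∫ p in Kp, Pk α ((s, z'), p) := by
    funext z'
    exact Ak_eq α s z'
  rw [h4, fderiv_fun_const_smul hd, smul_apply, smul_apply, smul_eq_mul]
  congr 1
  have h2' : fderiv ℝ (fun z' => ∫ p in Kp, Pk α ((s, z'), p)) z v =
    ∫ p in Kp, fderiv ℝ (fun z' => Pk α ((s, z'), p)) z v := h2
  rw [h2', ContinuousLinearMap.integral_apply h1]
  exact setIntegral_congr_fun Kp_compact.measurableSet fun p _ => fdk_apply h s hz p v w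

theorem dd_Ak (h : Conn α) (s : ℝ) {z : W} (hz : z ≠ 0) (v w : W) :
    dd (Ak s α) z v w = cK⁻¹ * ∫ p in Kp, dd α (gk s p z) (gk s p v) (gk s p w) := by
  obtain ⟨i1, e1⟩ := intk_fd h s hz v w
  obtain ⟨i2, e2⟩ := intk_fd h s hz w v
  unfold dd
  rw [e1, e2, integral_sub i1 i2]
  ring

end Pool.Agent.Lib.Pex
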