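import Pool.Agent.Lib.Pex.Rad

set_option autoImplicit false

/-!
# The form does not vanish at the centre
-/

open MeasureTheory Set Metric
open scoped ContDiff

namespace Pool.Agent.Lib.Pex

open Pool.Agent.P28b04d Pool.Agent.Lib.Psd

section
variable {α : W → W →L[ℝ] ℝ} {z u v : W}

theorem dvec_ub (hα : Conn α) (h : ON3 z u v) {r : ℝ} (hs : Real.sin r ≠ 0) (i : Fin 3) :
    dvec (bm α z u v) r i = (![Real.cos r ^ 3, Real.cos r ^ 3, 1] : Fin 3 → ℝ) i *
      (ub α z u v r i - vb α z u v r i) := by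
  unfold dvec
  rw [bm_eq' (HK.of_conn hα) h]
  fin_cases i
  · simp only [ww, Matrix.cons_val_zero, Fin.zero_eta]
    field_simp
  · simp only [ww, Matrix.cons_val_zero, Matrix.cons_val_one, Fin.mk_one]
    field_simp
  · simp only [ww, Matrix.cons_val, Fin.reduceFinMk]
    field_simp

theorem lip_zero {f : ℝ → ℝ} (hf : ContDiff ℝ ∞ f) (h0 : f 0 = 0) :
    ∃ C : ℝ, 0 ≤ C ∧ ∀ r ∈ Icc (0 : ℝ) 1, |f r| ≤ C * r := by
  have hc : ContinuousOn (deriv f) (Icc (0 : ℝ) 1) :=
    (hf.continuous_deriv (by simp)).continuousOn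
  obtain ⟨C, hC⟩ := isCompact_Icc.exists_bound_of_continuousOn hc
  refine ⟨max C 0, le_max_right _ _, fun r hr => ?_⟩
  have h1 := (convex_Icc (0 : ℝ) 1).norm_image_sub_le_of_norm_deriv_le
    (f := f) (C := max C 0) (fun x _ => hf.differentiable (by simp) x)
    (fun x hx => (hC x hx).trans (le_max_left _ _)) (left_mem_Icc.2 zero_le_one) hr
  rw [h0, sub_zero, sub_zero, Real.norm_eq_abs, Real.norm_eq_abs, abs_of_nonneg hr.1] at h1
  exact h1

/-- the components at the centre -/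
theorem TT_zero (hz : ∀ i j, Psd.cmp (dd α z) u v i j = 0) (x : E) (i j : Fin 4) :
    TT α z u v 0 x i j = 0 := by
  have h1 : ∀ a b : E, dd α z (Lf u v a) (Lf u v b) = 0 := by
    intro a b
    rw [Lf_apply, Lf_apply]
    simp only [Fin.sum_univ_four, dd_add_left, dd_add_right, dd_smul_left, dd_smul_right]
    have h2 : ∀ i j, dd α z (fr u v i) (fr u v j) = 0 := hz
    simp only [h2, mul_zero, add_zero]
  have e1 : zt z u v 0 x = z := by
    unfold zt
    rw [Real.sin_zero, Real.cos_zero, one_smul, zero_smul, add_zero]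
  have e2 : zr z u v 0 x = Lf u v x := by
    unfold zr
    rw [Real.sin_zero, Real.cos_zero, neg_zero, zero_smul, zero_add, one_smul]
  have h3 : ∀ i, ∃ a : E, fr (zr z u v 0 x) (Lf u v (Mv 0 x)) i = Lf u v a := by
    intro i
    rw [e2]
    fin_cases i
    · exact ⟨x, rfl⟩
    · exact ⟨J4 x, (Lf_J4 u v x).symm⟩
    · exact ⟨Mv 0 x, rfl⟩
    · exact ⟨J4 (Mv 0 x), (Lf_J4 u v _).symm⟩
  obtain ⟨a, ha⟩ := h3 i
  obtain ⟨b, hb⟩ := h3 j
  unfold TT Psd.cmp
  rw [e1, ha, hb]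
  exact h1 a b

theorem ub_zero (hz : ∀ i j, Psd.cmp (dd α z) u v i j = 0) (i : Fin 3) :
    ub α z u v 0 i = 0 ∧ vb α z u v 0 i = 0 := by
  have h1 : ∀ x, UU α z u v 0 i x = 0 := by
    intro x
    unfold UU
    fin_cases i <;> simp [Uc, TT_zero hz]
  have h2 : ∀ x, VV α z u v 0 i x = 0 := by
    intro x
    unfold VV
    fin_cases i <;> simp [Vc, TT_zero hz]
  constructor
  · have e : ub α z u v 0 i = SA fun _ => 0 := SA_congr fun x _ => h1 x
    rw [e, SA_const]
  · have e : vb α z u v 0 i = SA fun _ => 0 := SA_congr fun x _ => h2 x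
    rw [e, SA_const]

theorem n3_le_sum (w : Fin 3 → ℝ) : n3 w ≤ |w 0| + |w 1| + |w 2| := by
  refine (Real.sqrt_le_left (by positivity)).2 ?_
  rw [Fin.sum_univ_three]
  nlinarith [abs_nonneg (w 0), abs_nonneg (w 1), abs_nonneg (w 2), sq_abs (w 0), sq_abs (w 1),
    sq_abs (w 2), mul_nonneg (abs_nonneg (w 0)) (abs_nonneg (w 1)),
    mul_nonneg (abs_nonneg (w 0)) (abs_nonneg (w 2)),
    mul_nonneg (abs_nonneg (w 1)) (abs_nonneg (w 2))]

/-- the form does not vanish at the centre -/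
theorem center (hα : Conn α) {κ : ℝ} (hκ0 : 0 ≤ κ) (hκ : κ ≤ 1 / 100) (hp : Pinched κ α)
    (h : ON3 z u v) : ∃ i j, Psd.cmp (dd α z) u v i j ≠ 0 := by
  by_contra hcon
  push Not at hcon
  obtain ⟨hg, -⟩ := start hα hκ0 hκ hp h
  have hR := rd_of_pinched hα hp h
  have hd : 0 < n3 (dvec (bm α z u v) r0) :=
    (M_pos_iff r0_pos r0_lt r0_sin.le).1 hg.1
  -- the linear bound
  have hsm : ∀ i, ∃ C : ℝ, 0 ≤ C ∧ ∀ r ∈ Icc (0 : ℝ) 1,
      |ub α z u v r i - vb α z u v r i| ≤ C * r := by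
    intro i
    have s1 : ContDiff ℝ ∞ fun r => ub α z u v r i := SA_smooth (UU_joint hα.smooth h i)
    have s2 : ContDiff ℝ ∞ fun r => vb α z u v r i := SA_smooth (VV_joint hα.smooth h i)
    obtain ⟨z1, z2⟩ := ub_zero hcon i
    exact lip_zero (s1.sub s2) (by rw [z1, z2, sub_zero])
  obtain ⟨C0, hC0, h0⟩ := hsm 0
  obtain ⟨C1, hC1, h1⟩ := hsm 1
  obtain ⟨C2, hC2, h2⟩ := hsm 2
  set C := (C0 + C1 + C2) with hC
  have hCn : 0 ≤ C := by positivity
  have hlin : ∀ r ∈ Ioc (0 : ℝ) 1, n3 (dvec (bm α z u v) r) ≤ C * r := by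
    intro r hr
    have hr2 : r < Real.pi / 2 := by
      have := Real.pi_gt_three
      linarith [hr.2]
    obtain ⟨hs0, hc0⟩ := sin_cos_pos hr.1 hr2
    have hc1 : Real.cos r ^ 3 ≤ 1 := pow_le_one₀ hc0.le (Real.cos_le_one r)
    have hmem : r ∈ Icc (0 : ℝ) 1 := ⟨hr.1.le, hr.2⟩
    refine (n3_le_sum _).trans ?_
    have k0 : |dvec (bm α z u v) r 0| ≤ C0 * r := by
      rw [dvec_ub hα h hs0.ne', abs_mul]
      refine le_trans ?_ (h0 r hmem)
      refine mul_le_of_le_one_left (abs_nonneg _) ?_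
      show |Real.cos r ^ 3| ≤ 1
      rw [abs_of_nonneg (by positivity)]
      exact hc1
    have k1 : |dvec (bm α z u v) r 1| ≤ C1 * r := by
      rw [dvec_ub hα h hs0.ne', abs_mul]
      refine le_trans ?_ (h1 r hmem)
      refine mul_le_of_le_one_left (abs_nonneg _) ?_
      show |Real.cos r ^ 3| ≤ 1
      rw [abs_of_nonneg (by positivity)]
      exact hc1
    have k2 : |dvec (bm α z u v) r 2| ≤ C2 * r := by
      rw [dvec_ub hα h hs0.ne', abs_mul]
      refine le_trans ?_ (h2 r hmem)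
      refine mul_le_of_le_one_left (abs_nonneg _) ?_
      show |(1 : ℝ)| ≤ 1
      rw [abs_one]
    rw [hC]
    linarith
  obtain ⟨hs0, hc0⟩ := sin_cos_pos r0_pos r0_lt
  -- the contradiction
  have hs1 : Real.sin r0 ≤ 1 / 2 := by
    have := r0_sin
    nlinarith
  have key : ∀ n : ℕ, (19 / 10 : ℝ) ^ n * n3 (dvec (bm α z u v) r0) ≤ C * (Real.pi / 2) := by
    intro n
    have h2n : (1 : ℝ) ≤ 2 ^ n := one_le_pow₀ (by norm_num)
    set y := Real.sin r0 / 2 ^ n with hy
    have hy0 : 0 < y := by positivity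
    have hy1 : y ≤ Real.sin r0 := div_le_self hs0.le h2n
    have hsy : Real.sin (Real.arcsin y) = y := Real.sin_arcsin (by linarith) (by linarith)
    have hr0 : 0 < Real.arcsin y := Real.arcsin_pos.2 hy0
    have hrr : Real.arcsin y ≤ r0 := by
      have : r0 = Real.arcsin (Real.sin r0) :=
        (Real.arcsin_sin (by linarith [Real.pi_pos, r0_pos]) r0_lt.le).symm
      rw [this]
      exact Real.arcsin_le_arcsin hy1
    have h3 := (all_down hR hκ0 hκ r0_pos r0_lt r0_sin.le hg n (Real.arcsin y) hr0 hrr (by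
      rw [hsy, hy]
      exact (mul_div_cancel₀ _ (by positivity)).ge)).2.2
    have hj : Real.arcsin y ≤ Real.pi / 2 * y := by
      have h4 := Real.mul_le_sin hr0.le (Real.arcsin_le_pi_div_two y)
      rw [hsy] at h4
      have hpi := Real.pi_pos
      calc Real.arcsin y = Real.pi / 2 * (2 / Real.pi * Real.arcsin y) := by field_simp
        _ ≤ Real.pi / 2 * y := by gcongr
    have hle1 : Real.arcsin y ≤ 1 := by
      have hpi := Real.pi_le_four
      refine hj.trans ?_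
      nlinarith
    have h5 := hlin _ ⟨hr0, hle1⟩
    have h6 : (1 - 89 / 20 * κ) ^ n * n3 (dvec (bm α z u v) r0) ≤ C * (Real.pi / 2 * y) :=
      h3.trans (h5.trans (mul_le_mul_of_nonneg_left hj hCn))
    have h7 : (19 / 20 : ℝ) ^ n * n3 (dvec (bm α z u v) r0) ≤
        (1 - 89 / 20 * κ) ^ n * n3 (dvec (bm α z u v) r0) := by
      refine mul_le_mul_of_nonneg_right ?_ hd.le
      exact pow_le_pow_left₀ (by norm_num) (by linarith) n
    have h8 : C * (Real.pi / 2 * y) * 2 ^ n = C * (Real.pi / 2) * Real.sin r0 := by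
      rw [hy]
      field_simp
    calc (19 / 10 : ℝ) ^ n * n3 (dvec (bm α z u v) r0)
        = ((19 / 20 : ℝ) ^ n * n3 (dvec (bm α z u v) r0)) * 2 ^ n := by
          rw [show (19 / 10 : ℝ) = 19 / 20 * 2 by norm_num, mul_pow]
          ring
      _ ≤ C * (Real.pi / 2 * y) * 2 ^ n :=
          mul_le_mul_of_nonneg_right (h7.trans h6) (by positivity)
      _ = C * (Real.pi / 2) * Real.sin r0 := h8
      _ ≤ C * (Real.pi / 2) * 1 := by
          have hpi := Real.pi_pos
          gcongr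
          exact Real.sin_le_one _
      _ = _ := mul_one _
  obtain ⟨n, hn⟩ := pow_unbounded_of_one_lt (C * (Real.pi / 2) / n3 (dvec (bm α z u v) r0))
    (by norm_num : (1 : ℝ) < 19 / 10)
  rw [div_lt_iff₀ hd] at hn
  exact absurd (key n) (not_le.2 hn)

end

end Pool.Agent.Lib.Pex
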