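import Pool.Agent.Lib.Pex.Sph

set_option autoImplicit false

/-!
# Polar coordinates
-/

open MeasureTheory Set Metric
open scoped ContDiff

namespace Pool.Agent.Lib.Pex

open Pool.Agent.Lib.Psd

/-- Volume of the unit ball of `ℝ⁴`. -/
noncomputable def vB : ℝ := (volume : Measure E).real (ball (0 : E) 1)

theorem finrank_E : Module.finrank ℝ E = 4 := by
  rw [finrank_euclideanSpace, Fintype.card_fin]

theorem vB_pos : 0 < vB :=
  ENNReal.toReal_pos (measure_ball_pos _ _ one_pos).ne' measure_ball_lt_top.ne

theorem ts_real : (volume : Measure E).toSphere.real univ = 4 * vB := by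
  rw [Measure.toSphere_real_apply_univ, finrank_E]
  norm_num
  rfl

/-- the mean in terms of the surface measure -/
theorem ts_integral (f : E → ℝ) :
    ∫ ξ : sphere (0 : E) 1, f ξ ∂(volume : Measure E).toSphere = 4 * vB * SA f := by
  have h1 : SA f = (((volume : Measure E).toSphere univ)⁻¹).toReal *
      ∫ ξ : sphere (0 : E) 1, f ξ ∂(volume : Measure E).toSphere := by
    unfold SA sg
    rw [integral_smul_measure, smul_eq_mul]
    congr 1
    exact (MeasurableEmbedding.subtype_coe isClosed_sphere.measurableSet).integral_map _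
  have h2 : (((volume : Measure E).toSphere univ)⁻¹).toReal = (4 * vB)⁻¹ := by
    rw [ENNReal.toReal_inv]
    congr 1
    exact ts_real
  rw [h1, h2, ← mul_assoc, mul_inv_cancel₀ (by have := vB_pos; positivity), one_mul]

theorem polar {f : E → ℝ} (hf : Integrable f) :
    ∫ x, f x = 4 * vB * ∫ t in Ioi (0 : ℝ), t ^ 3 * SA (fun ξ => f (t • ξ)) := by
  have hmp := (volume : Measure E).measurePreserving_homeomorphUnitSphereProd
  have hemb := (homeomorphUnitSphereProd E).measurableEmbedding
  set g : sphere (0 : E) 1 × Ioi (0 : ℝ) → ℝ := fun p => f (p.2.1 • p.1.1) with hg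
  have hcomp : g ∘ (homeomorphUnitSphereProd E) = fun x : ({0}ᶜ : Set E) => f x.1 := by
    funext x
    simp only [hg, Function.comp_apply]
    congr 1
    have h1 := congrArg Subtype.val ((homeomorphUnitSphereProd E).symm_apply_apply x)
    exact h1
  have e1 : ∫ x, f x = ∫ x : ({0}ᶜ : Set E), f x.1 ∂((volume : Measure E).comap (↑)) := by
    rw [integral_subtype_comap (measurableSet_singleton _).compl f, restrict_compl_singleton]
  have e2 : ∫ x : ({0}ᶜ : Set E), f x.1 ∂((volume : Measure E).comap (↑)) =
      ∫ p, g p ∂((volume : Measure E).toSphere.prod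
        (Measure.volumeIoiPow (Module.finrank ℝ E - 1))) := by
    rw [← hmp.integral_comp hemb g]
    exact congrArg (fun φ => ∫ x, φ x ∂((volume : Measure E).comap (↑))) hcomp.symm
  have hint : Integrable g ((volume : Measure E).toSphere.prod
        (Measure.volumeIoiPow (Module.finrank ℝ E - 1))) := by
    rw [← hmp.integrable_comp_emb hemb, hcomp]
    have h1 : IntegrableOn f ({0}ᶜ : Set E) := hf.integrableOn
    exact (integrableOn_iff_comap_subtypeVal (measurableSet_singleton _).compl).1 h1
  rw [e1, e2, integral_prod_symm g hint]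
  have e3 : ∀ r : Ioi (0 : ℝ), ∫ ξ : sphere (0 : E) 1, g (ξ, r) ∂(volume : Measure E).toSphere =
      4 * vB * SA (fun ξ => f (r.1 • ξ)) := fun r => ts_integral fun ξ => f (r.1 • ξ)
  simp only [e3]
  rw [integral_const_mul]
  congr 1
  simp only [Measure.volumeIoiPow, ENNReal.ofReal, finrank_E]
  rw [integral_withDensity_eq_integral_smul,
    integral_subtype_comap measurableSet_Ioi fun a => Real.toNNReal (a ^ (4 - 1)) •
      SA (fun ξ => f (a • ξ)),
    setIntegral_congr_fun measurableSet_Ioi fun x hx => ?_]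
  · rw [NNReal.smul_def, Real.coe_toNNReal _ (pow_nonneg (mem_Ioi.1 hx).le _)]
    rfl
  · exact (measurable_subtype_coe.pow_const _).real_toNNReal

theorem SA_scale_indicator {F : E → ℝ} {R t : ℝ} (ht : 0 < t) :
    SA (fun ξ => (closedBall (0 : E) R).indicator F (t • ξ)) =
      (Iic R).indicator (fun t => SA fun ξ => F (t • ξ)) t := by
  by_cases h : t ≤ R
  · rw [indicator_of_mem (mem_Iic.2 h)]
    refine SA_congr fun ξ hξ => ?_
    rw [indicator_of_mem]
    rw [mem_closedBall_zero_iff, norm_smul, hξ, mul_one, Real.norm_eq_abs, abs_of_pos ht]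
    exact h
  · rw [indicator_of_notMem (fun h' => h (mem_Iic.1 h')), ← SA_const 0]
    refine SA_congr fun ξ hξ => ?_
    rw [indicator_of_notMem]
    rw [mem_closedBall_zero_iff, norm_smul, hξ, mul_one, Real.norm_eq_abs, abs_of_pos ht]
    exact h

theorem polar_ball {F : E → ℝ} {R : ℝ} (hF : IntegrableOn F (closedBall (0 : E) R)) (hR : 0 ≤ R) :
    ∫ x in closedBall (0 : E) R, F x =
      4 * vB * ∫ t in (0 : ℝ)..R, t ^ 3 * SA (fun ξ => F (t • ξ)) := by
  have h1 : Integrable ((closedBall (0 : E) R).indicator F) :=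
    (integrable_indicator_iff measurableSet_closedBall).2 hF
  rw [← integral_indicator measurableSet_closedBall, polar h1]
  congr 1
  have h2 : ∫ t in Ioi (0 : ℝ), t ^ 3 * SA (fun ξ => (closedBall (0 : E) R).indicator F (t • ξ)) =
      ∫ t in Ioi (0 : ℝ), (Iic R).indicator (fun t => t ^ 3 * SA fun ξ => F (t • ξ)) t := by
    refine setIntegral_congr_fun measurableSet_Ioi fun t ht => ?_
    rw [SA_scale_indicator (mem_Ioi.1 ht)]
    by_cases h : t ∈ Iic R
    · rw [indicator_of_mem h, indicator_of_mem h]
    · rw [indicator_of_notMem h, indicator_of_notMem h, mul_zero]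
  rw [h2, setIntegral_indicator measurableSet_Iic, Ioi_inter_Iic,
    intervalIntegral.integral_of_le hR]

end Pool.Agent.Lib.Pex
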