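import Pool.Agent.Lib.Pex.Cen
import Pool.Agent.Lib.Pex.Pol

set_option autoImplicit false

/-!
# Means over balls in the affine chart
-/

open MeasureTheory Set Metric
open scoped ContDiff

namespace Pool.Agent.Lib.Pex

open Pool.Agent.P28b04d Pool.Agent.Lib.Psd

/-- The bilinear form with the components `T`. -/
def bf (T : Fin 4 → Fin 4 → ℝ) (a b : E) : ℝ := ∑ k, ∑ l, a k * b l * T k l

theorem bf_U {T : Fin 4 → Fin 4 → ℝ} (h : Skew T) (x : E) (i : Fin 3) :
    bf T x (Mv i x) + bf T (Mv (i + 1) x) (Mv (i + 2) x) = ‖x‖ ^ 2 * Uc T i := by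
  obtain ⟨⟨e1, e2, e3, e4⟩, ⟨e5, e6, e7⟩, ⟨e8, e9, e10⟩⟩ := AlgAux.sk h
  rw [norm_sq_four]
  fin_cases i
  · simp [bf, Fin.sum_univ_four, Mv_apply, Mf, Uc, e1, e2, e3, e4, e5, e6, e7, e8, e9, e10]
    ring
  · simp [bf, Fin.sum_univ_four, Mv_apply, Mf, Uc, e1, e2, e3, e4, e5, e6, e7, e8, e9, e10]
    ring
  · simp [bf, Fin.sum_univ_four, Mv_apply, Mf, Uc, e1, e2, e3, e4, e5, e6, e7, e8, e9, e10]
    ring

theorem bf_V {T : Fin 4 → Fin 4 → ℝ} (h : Skew T) (x : E) :
    ∑ i, (bf T x (Mv i x) - bf T (Mv (i + 1) x) (Mv (i + 2) x)) ^ 2 =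
      ‖x‖ ^ 4 * ∑ i, Vc T i ^ 2 := by
  obtain ⟨⟨e1, e2, e3, e4⟩, ⟨e5, e6, e7⟩, ⟨e8, e9, e10⟩⟩ := AlgAux.sk h
  have e : ‖x‖ ^ 4 = (‖x‖ ^ 2) ^ 2 := by ring
  rw [e, norm_sq_four, Fin.sum_univ_three, Fin.sum_univ_three]
  simp [bf, Fin.sum_univ_four, Mv_apply, Mf, Vc, e1, e2, e3, e4, e5, e6, e7, e8, e9, e10]
  ring

section
variable {α : W → W →L[ℝ] ℝ} {z u v : W}

/-- Components in the chart. -/
noncomputable def tE (α : W → W →L[ℝ] ℝ) (z u v : W) (x : E) (i j : Fin 4) : ℝ :=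
  co (ch α z u v) i j x

noncomputable def Ue (α : W → W →L[ℝ] ℝ) (z u v : W) (i : Fin 3) (x : E) : ℝ :=
  Uc (tE α z u v x) i

noncomputable def Ve (α : W → W →L[ℝ] ℝ) (z u v : W) (i : Fin 3) (x : E) : ℝ :=
  Vc (tE α z u v x) i

theorem tE_skew (x : E) : Skew (tE α z u v x) := fun _ _ => dd_skew _ _ _ _

theorem bf_tE (hα : Conn α) (h : ON3 z u v) (x a b : E) :
    bf (tE α z u v x) a b = dd α (sig z u v x) (Lf u v a) (Lf u v b) := by
  rw [← dd_ch h hα.smooth, AvNearAux.dd_expand]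
  rfl

theorem tE_smooth (hα : Conn α) (h : ON3 z u v) (i j : Fin 4) :
    ContDiff ℝ ∞ fun x => tE α z u v x i j := by
  unfold tE co dd
  have h1 := ch_smooth h hα.smooth
  have h2 : ContDiff ℝ ∞ (fderiv ℝ (ch α z u v)) := h1.fderiv_right (by simp)
  exact ((h2.clm_apply contDiff_const).clm_apply contDiff_const).sub
    ((h2.clm_apply contDiff_const).clm_apply contDiff_const)

theorem Ue_smooth (hα : Conn α) (h : ON3 z u v) (i : Fin 3) : ContDiff ℝ ∞ (Ue α z u v i) := by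
  fin_cases i
  · exact (tE_smooth hα h 0 2).add (tE_smooth hα h 3 1)
  · exact (tE_smooth hα h 0 3).add (tE_smooth hα h 1 2)
  · exact (tE_smooth hα h 0 1).add (tE_smooth hα h 2 3)

theorem Ve_smooth (hα : Conn α) (h : ON3 z u v) (i : Fin 3) : ContDiff ℝ ∞ (Ve α z u v i) := by
  fin_cases i
  · exact (tE_smooth hα h 0 2).sub (tE_smooth hα h 3 1)
  · exact (tE_smooth hα h 0 3).sub (tE_smooth hα h 1 2)
  · exact (tE_smooth hα h 0 1).sub (tE_smooth hα h 2 3)

/-! ### relation with the moving frame -/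

theorem sc (t : ℝ) : Real.sin (Real.arctan t) = t * Real.cos (Real.arctan t) ∧
    0 < Real.cos (Real.arctan t) ∧ Real.cos (Real.arctan t) ^ 2 * (1 + t ^ 2) = 1 := by
  have h1 : 0 < 1 + t ^ 2 := by positivity
  have h2 : 0 < Real.sqrt (1 + t ^ 2) := Real.sqrt_pos.2 h1
  rw [Real.sin_arctan, Real.cos_arctan]
  refine ⟨by ring, by positivity, ?_⟩
  rw [div_pow, Real.sq_sqrt h1.le]
  field_simp

theorem zt_sig (t : ℝ) (x : E) : zt z u v (Real.arctan t) x =
    (Real.cos (Real.arctan t) : ℂ) • sig z u v (t • x) := by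
  obtain ⟨h1, -, -⟩ := sc t
  unfold zt sig
  rw [h1, ← CmpFAux.rsmul, smul_add, map_smul, smul_smul, mul_comm t]

theorem dd_sig (hα : Conn α) (h : ON3 z u v) (t : ℝ) (x : E) (a b : W) :
    dd α (sig z u v (t • x)) a b = Real.cos (Real.arctan t) ^ 2 *
      dd α (zt z u v (Real.arctan t) x) a b := by
  obtain ⟨-, h2, -⟩ := sc t
  have hc : (Real.cos (Real.arctan t) : ℂ) ≠ 0 := by exact_mod_cast h2.ne'
  have h3 := hα.dd_hom hc (sig_ne h (t • x)) a b
  rw [← zt_sig, ← CmpFAux.rsmul, ← CmpFAux.rsmul, dd_smul_left, dd_smul_right] at h3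
  rw [← h3]
  ring

/-- The factors. -/
noncomputable def pe (r : ℝ) : Fin 3 → ℝ := ![Real.cos r ^ 3, Real.cos r ^ 3, Real.cos r ^ 4]

noncomputable def qe (r : ℝ) : Fin 3 → ℝ := ![Real.cos r ^ 3, Real.cos r ^ 3, Real.cos r ^ 2]

theorem sin_arctan_pos {t : ℝ} (ht : 0 < t) : 0 < Real.sin (Real.arctan t) := by
  obtain ⟨h1, h2, -⟩ := sc t
  rw [h1]
  positivity

theorem pE_eq (hα : Conn α) (h : ON3 z u v) {t : ℝ} (ht : 0 < t) {x : E} (hx : x ≠ 0)
    (i : Fin 3) : bf (tE α z u v (t • x)) x (Mv i x) = pe (Real.arctan t) i *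
      ((UU α z u v (Real.arctan t) i x + VV α z u v (Real.arctan t) i x) / 2) := by
  have hs := sin_arctan_pos ht
  set r := Real.arctan t with hr
  have hne := zt_ne h r hx
  have h1 : bf (tE α z u v (t • x)) x (Mv i x) = Real.cos r ^ 3 *
      dd α (zt z u v r x) (zr z u v r x) (Lf u v (Mv i x)) := by
    rw [bf_tE hα h, dd_sig hα h, ← hr]
    conv_lhs => rw [Lx_eq (z := z) r x]
    rw [dd_add_left, hα.dd_left hne, zero_add, ← CmpFAux.rsmul, dd_smul_left]
    ring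
  have h2 := AA_eq (HK.of_conn hα) h r i hx
  unfold AA at h2
  rw [dd_smul_right] at h2
  have h3 : Real.sin r * bf (tE α z u v (t • x)) x (Mv i x) =
      Real.sin r * (pe r i * ((UU α z u v r i x + VV α z u v r i x) / 2)) := by
    rw [h1]
    calc _ = Real.cos r ^ 3 * (Real.sin r *
          dd α (zt z u v r x) (zr z u v r x) (Lf u v (Mv i x))) := by ring
      _ = _ := by
          rw [h2]
          fin_cases i
          · simp only [pw, pe, Matrix.cons_val_zero, Fin.zero_eta]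
            ring
          · simp only [pw, pe, Matrix.cons_val_one, Matrix.cons_val_zero, Fin.mk_one]
            ring
          · simp only [pw, pe, Matrix.cons_val, Fin.reduceFinMk]
            ring
  exact mul_left_cancel₀ hs.ne' h3

theorem qE_eq (hα : Conn α) (h : ON3 z u v) {t : ℝ} (ht : 0 < t) {x : E} (hx : x ≠ 0)
    (i : Fin 3) : bf (tE α z u v (t • x)) (Mv (i + 1) x) (Mv (i + 2) x) =
      qe (Real.arctan t) i *
      ((UU α z u v (Real.arctan t) i x - VV α z u v (Real.arctan t) i x) / 2) := by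
  have hs := sin_arctan_pos ht
  set r := Real.arctan t with hr
  have h1 : bf (tE α z u v (t • x)) (Mv (i + 1) x) (Mv (i + 2) x) = Real.cos r ^ 2 *
      dd α (zt z u v r x) (Lf u v (Mv (i + 1) x)) (Lf u v (Mv (i + 2) x)) := by
    rw [bf_tE hα h, dd_sig hα h, ← hr]
  have h2 := BB_eq (HK.of_conn hα) h r i hx
  unfold BB at h2
  rw [dd_smul_right, dd_smul_left] at h2
  have h3 : Real.sin r ^ 2 * bf (tE α z u v (t • x)) (Mv (i + 1) x) (Mv (i + 2) x) =
      Real.sin r ^ 2 * (qe r i * ((UU α z u v r i x - VV α z u v r i x) / 2)) := by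
    rw [h1]
    calc _ = Real.cos r ^ 2 * (Real.sin r * (Real.sin r *
          dd α (zt z u v r x) (Lf u v (Mv (i + 1) x)) (Lf u v (Mv (i + 2) x)))) := by ring
      _ = _ := by
          rw [h2]
          fin_cases i
          · simp only [ww, qe, Matrix.cons_val_zero, Fin.zero_eta]
            ring
          · simp only [ww, qe, Matrix.cons_val_one, Matrix.cons_val_zero, Fin.mk_one]
            ring
          · simp only [ww, qe, Matrix.cons_val, Fin.reduceFinMk]
            ring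
  exact mul_left_cancel₀ (pow_ne_zero 2 hs.ne') h3

theorem Ue_eq (hα : Conn α) (h : ON3 z u v) {t : ℝ} (ht : 0 < t) {x : E} (hx : ‖x‖ = 1)
    (i : Fin 3) : Ue α z u v i (t • x) =
      (pe (Real.arctan t) i + qe (Real.arctan t) i) / 2 * UU α z u v (Real.arctan t) i x +
      (pe (Real.arctan t) i - qe (Real.arctan t) i) / 2 * VV α z u v (Real.arctan t) i x := by
  have h1 := bf_U (tE_skew (α := α) (z := z) (u := u) (v := v) (t • x)) x i
  rw [pE_eq hα h ht (ne_of_norm hx), qE_eq hα h ht (ne_of_norm hx), hx] at h1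
  have e : Ue α z u v i (t • x) = Uc (tE α z u v (t • x)) i := rfl
  rw [e]
  linarith

/-- the mean over a sphere -/
theorem SA_Ue (hα : Conn α) (h : ON3 z u v) {t : ℝ} (ht : 0 < t) (i : Fin 3) :
    SA (fun x => Ue α z u v i (t • x)) =
      (pe (Real.arctan t) i + qe (Real.arctan t) i) / 2 * ub α z u v (Real.arctan t) i +
      (pe (Real.arctan t) i - qe (Real.arctan t) i) / 2 * vb α z u v (Real.arctan t) i := by
  have hU := UU_Sm hα.smooth h (Real.arctan t) i
  have hV := VV_Sm hα.smooth h (Real.arctan t) i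
  have e : SA (fun x => Ue α z u v i (t • x)) = SA fun x =>
      (pe (Real.arctan t) i + qe (Real.arctan t) i) / 2 * UU α z u v (Real.arctan t) i x +
      (pe (Real.arctan t) i - qe (Real.arctan t) i) / 2 * VV α z u v (Real.arctan t) i x :=
    SA_congr fun x hx => Ue_eq hα h ht hx i
  rw [e, SA_add (hU.smul _).cont (hV.smul _).cont, SA_smul, SA_smul]
  rfl

/-- continuity of spherical means of functions on `E` -/
theorem SA_scale_cont {F : E → ℝ} (hF : ContDiff ℝ ∞ F) :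
    Continuous fun t : ℝ => SA fun x => F (t • x) := by
  have h1 : ContDiffOn ℝ ∞ (fun p : ℝ × E => F (p.1 • p.2)) Dm :=
    (hF.comp (contDiff_fst.smul contDiff_snd)).contDiffOn
  exact (SA_smooth h1).continuous

/-- the integral over a ball -/
theorem int_Ue (hα : Conn α) (h : ON3 z u v) {R : ℝ} (hR : 0 ≤ R) (i : Fin 3) :
    ∫ x in closedBall (0 : E) R, Ue α z u v i x =
      2 * vB * R ^ 2 * bm α z u v (Real.arctan R) i := by
  have hK := HK.of_conn hα
  have hsm := Ue_smooth hα h i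
  rw [polar_ball ((hsm.continuous.continuousOn).integrableOn_compact (isCompact_closedBall _ _))
    hR]
  have hbm : ∀ r, HasDerivAt (fun r => bm α z u v r i)
      (pw r i * (ub α z u v r i + vb α z u v r i)) r := fun r => bm_deriv' hK h r i
  have hcont : Continuous fun t : ℝ => t ^ 2 / 2 * bm α z u v (Real.arctan t) i := by
    have h1 : Continuous fun r => bm α z u v r i :=
      continuous_iff_continuousAt.2 fun r => (hbm r).continuousAt
    exact ((continuous_id.pow 2).div_const 2).mul (h1.comp Real.continuous_arctan)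
  have h2 : ∫ t in (0 : ℝ)..R, t ^ 3 * SA (fun ξ => Ue α z u v i (t • ξ)) =
      R ^ 2 / 2 * bm α z u v (Real.arctan R) i - 0 ^ 2 / 2 * bm α z u v (Real.arctan 0) i := by
    refine intervalIntegral.integral_eq_sub_of_hasDerivAt_of_le hR hcont.continuousOn ?_ ?_
    · intro t ht
      have ht0 := ht.1
      obtain ⟨s1, s2, s3⟩ := sc t
      have h3 := (hbm (Real.arctan t)).comp t (Real.hasDerivAt_arctan t)
      have h4 := (((hasDerivAt_pow 2 t).div_const 2).mul h3)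
      refine HasDerivAt.congr_deriv
        (f := fun t : ℝ => t ^ 2 / 2 * bm α z u v (Real.arctan t) i) h4 ?_
      rw [SA_Ue hα h ht0]
      simp only [Function.comp_apply]
      rw [bm_eq' hK h]
      have s4 : 1 / (1 + t ^ 2) = Real.cos (Real.arctan t) ^ 2 := by
        rw [eq_comm, eq_div_iff (by positivity)]
        exact s3
      rw [s4]
      set c := Real.cos (Real.arctan t) with hc
      set p := ub α z u v (Real.arctan t) i with hp
      set q := vb α z u v (Real.arctan t) i with hq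
      simp only [Nat.cast_ofNat, Nat.add_one_sub_one, pow_one]
      fin_cases i
      · simp only [pe, qe, pw, ww, Matrix.cons_val_zero, Fin.zero_eta, ← hc, s1]
        ring
      · simp only [pe, qe, pw, ww, Matrix.cons_val_zero, Matrix.cons_val_one, Fin.mk_one,
          ← hc, s1]
        ring
      · simp only [pe, qe, pw, ww, Matrix.cons_val, Fin.reduceFinMk, ← hc, s1]
        ring
    · exact ((continuous_id.pow 3).mul (SA_scale_cont hsm)).intervalIntegrable _ _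
  rw [h2]
  ring

/-! ### energies -/

noncomputable def QU (α : W → W →L[ℝ] ℝ) (z u v : W) (x : E) : ℝ := ∑ i, Ue α z u v i x ^ 2

noncomputable def QV (α : W → W →L[ℝ] ℝ) (z u v : W) (x : E) : ℝ := ∑ i, Ve α z u v i x ^ 2

theorem QU_smooth (hα : Conn α) (h : ON3 z u v) : ContDiff ℝ ∞ (QU α z u v) :=
  ContDiff.sum fun i _ => (Ue_smooth hα h i).pow 2

theorem QV_smooth (hα : Conn α) (h : ON3 z u v) : ContDiff ℝ ∞ (QV α z u v) :=
  ContDiff.sum fun i _ => (Ve_smooth hα h i).pow 2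

theorem QV_eq (hα : Conn α) (h : ON3 z u v) {t : ℝ} (ht : 0 < t) {x : E} (hx : ‖x‖ = 1) :
    QV α z u v (t • x) = ∑ i, ((pe (Real.arctan t) i - qe (Real.arctan t) i) / 2 *
      UU α z u v (Real.arctan t) i x + (pe (Real.arctan t) i + qe (Real.arctan t) i) / 2 *
      VV α z u v (Real.arctan t) i x) ^ 2 := by
  have h1 := bf_V (tE_skew (α := α) (z := z) (u := u) (v := v) (t • x)) x
  rw [hx, one_pow, one_mul] at h1
  have e : QV α z u v (t • x) = ∑ i, Vc (tE α z u v (t • x)) i ^ 2 := rfl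
  rw [e, ← h1]
  refine Finset.sum_congr rfl fun i _ => ?_
  rw [pE_eq hα h ht (ne_of_norm hx), qE_eq hα h ht (ne_of_norm hx)]
  ring

theorem QV_le (hα : Conn α) (h : ON3 z u v) {t : ℝ} (ht : 0 < t) {x : E} (hx : ‖x‖ = 1) :
    QV α z u v (t • x) ≤ Real.cos (Real.arctan t) ^ 4 *
      (2 * ∑ i, VV α z u v (Real.arctan t) i x ^ 2 +
        t ^ 4 / 2 * ∑ i, UU α z u v (Real.arctan t) i x ^ 2) := by
  rw [QV_eq hα h ht hx]
  obtain ⟨s1, s2, s3⟩ := sc t
  have hc1 := Real.cos_le_one (Real.arctan t)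
  have hsc := Real.sin_sq_add_cos_sq (Real.arctan t)
  set c := Real.cos (Real.arctan t) with hc
  simp only [Fin.sum_univ_three, pe, qe, Matrix.cons_val_zero, Matrix.cons_val_one,
    Matrix.cons_val, ← hc]
  set a := UU α z u v (Real.arctan t) with ha
  set b := VV α z u v (Real.arctan t) with hb
  have hc2 : c ^ 2 ≤ 1 := by nlinarith
  have hc4 : c ^ 6 ≤ c ^ 4 := by
    have : c ^ 6 = c ^ 4 * c ^ 2 := by ring
    rw [this]
    exact mul_le_of_le_one_right (by positivity) hc2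
  -- the first two terms
  have k : ∀ i : Fin 3, ((c ^ 3 - c ^ 3) / 2 * a i x + (c ^ 3 + c ^ 3) / 2 * b i x) ^ 2 ≤
      c ^ 4 * b i x ^ 2 := by
    intro i
    have : ((c ^ 3 - c ^ 3) / 2 * a i x + (c ^ 3 + c ^ 3) / 2 * b i x) ^ 2 =
        c ^ 6 * b i x ^ 2 := by ring
    rw [this]
    exact mul_le_mul_of_nonneg_right hc4 (sq_nonneg _)
  -- the third term
  have ht2 : 1 - c ^ 2 ≤ t ^ 2 := by
    have h5 : c ^ 2 * t ^ 2 = 1 - c ^ 2 := by linarith
    have h6 : c ^ 2 * t ^ 2 ≤ 1 * t ^ 2 := mul_le_mul_of_nonneg_right hc2 (sq_nonneg t)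
    linarith
  have k3 : ((c ^ 4 - c ^ 2) / 2 * a 2 x + (c ^ 4 + c ^ 2) / 2 * b 2 x) ^ 2 ≤
      c ^ 4 * (2 * b 2 x ^ 2 + t ^ 4 / 2 * a 2 x ^ 2) := by
    have e1 : ((c ^ 4 - c ^ 2) / 2 * a 2 x + (c ^ 4 + c ^ 2) / 2 * b 2 x) ^ 2 =
        c ^ 4 * (-((1 - c ^ 2) / 2 * a 2 x) + (1 + c ^ 2) / 2 * b 2 x) ^ 2 := by ring
    rw [e1]
    refine mul_le_mul_of_nonneg_left ?_ (by positivity)
    have h7 : (-((1 - c ^ 2) / 2 * a 2 x) + (1 + c ^ 2) / 2 * b 2 x) ^ 2 ≤
        2 * ((1 - c ^ 2) / 2 * a 2 x) ^ 2 + 2 * ((1 + c ^ 2) / 2 * b 2 x) ^ 2 := by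
      nlinarith [sq_nonneg ((1 - c ^ 2) / 2 * a 2 x + (1 + c ^ 2) / 2 * b 2 x)]
    have h8 : 2 * ((1 - c ^ 2) / 2 * a 2 x) ^ 2 ≤ t ^ 4 / 2 * a 2 x ^ 2 := by
      have h9 : (1 - c ^ 2) ^ 2 ≤ (t ^ 2) ^ 2 := pow_le_pow_left₀ (by linarith) ht2 2
      have h10 := mul_le_mul_of_nonneg_right h9 (sq_nonneg (a 2 x))
      nlinarith
    have h9 : 2 * ((1 + c ^ 2) / 2 * b 2 x) ^ 2 ≤ 2 * b 2 x ^ 2 := by
      have h10 : ((1 + c ^ 2) / 2) ^ 2 ≤ 1 := by
        have : (1 + c ^ 2) / 2 ≤ 1 := by linarith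
        exact pow_le_one₀ (by positivity) this
      have h11 := mul_le_mul_of_nonneg_right h10 (sq_nonneg (b 2 x))
      nlinarith
    linarith
  have k0 := k 0
  have k1 := k 1
  have p0 : 0 ≤ c ^ 4 * b 0 x ^ 2 := by positivity
  have p1 : 0 ≤ c ^ 4 * b 1 x ^ 2 := by positivity
  have p2 : 0 ≤ c ^ 4 * (t ^ 4 / 2 * a 0 x ^ 2) := by positivity
  have p3 : 0 ≤ c ^ 4 * (t ^ 4 / 2 * a 1 x ^ 2) := by positivity
  linarith

theorem QUV_le (hα : Conn α) (h : ON3 z u v) {t : ℝ} (ht : 0 < t) {x : E} (hx : ‖x‖ = 1) :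
    QU α z u v (t • x) + QV α z u v (t • x) ≤ Real.cos (Real.arctan t) ^ 4 *
      (∑ i, UU α z u v (Real.arctan t) i x ^ 2 + ∑ i, VV α z u v (Real.arctan t) i x ^ 2) := by
  rw [QV_eq hα h ht hx]
  unfold QU
  obtain ⟨s1, s2, s3⟩ := sc t
  have hc1 := Real.cos_le_one (Real.arctan t)
  simp only [Ue_eq hα h ht hx]
  set c := Real.cos (Real.arctan t) with hc
  simp only [Fin.sum_univ_three, pe, qe, Matrix.cons_val_zero, Matrix.cons_val_one,
    Matrix.cons_val, ← hc]
  set a := UU α z u v (Real.arctan t) with ha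
  set b := VV α z u v (Real.arctan t) with hb
  have hc2 : c ^ 2 ≤ 1 := by nlinarith
  have hc6 : c ^ 6 ≤ c ^ 4 := by
    have : c ^ 6 = c ^ 4 * c ^ 2 := by ring
    rw [this]
    exact mul_le_of_le_one_right (by positivity) hc2
  have hc8 : c ^ 8 ≤ c ^ 4 := by
    have : c ^ 8 = c ^ 4 * c ^ 4 := by ring
    rw [this]
    refine mul_le_of_le_one_right (by positivity) ?_
    exact pow_le_one₀ s2.le hc1
  have k : ∀ i : Fin 3, ((c ^ 3 + c ^ 3) / 2 * a i x + (c ^ 3 - c ^ 3) / 2 * b i x) ^ 2 +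
      ((c ^ 3 - c ^ 3) / 2 * a i x + (c ^ 3 + c ^ 3) / 2 * b i x) ^ 2 ≤
        c ^ 4 * (a i x ^ 2 + b i x ^ 2) := by
    intro i
    have : ((c ^ 3 + c ^ 3) / 2 * a i x + (c ^ 3 - c ^ 3) / 2 * b i x) ^ 2 +
      ((c ^ 3 - c ^ 3) / 2 * a i x + (c ^ 3 + c ^ 3) / 2 * b i x) ^ 2 =
        c ^ 6 * (a i x ^ 2 + b i x ^ 2) := by ring
    rw [this]
    exact mul_le_mul_of_nonneg_right hc6 (by positivity)
  have k3 : ((c ^ 4 + c ^ 2) / 2 * a 2 x + (c ^ 4 - c ^ 2) / 2 * b 2 x) ^ 2 +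
      ((c ^ 4 - c ^ 2) / 2 * a 2 x + (c ^ 4 + c ^ 2) / 2 * b 2 x) ^ 2 ≤
        c ^ 4 * (a 2 x ^ 2 + b 2 x ^ 2) := by
    have e1 : ((c ^ 4 + c ^ 2) / 2 * a 2 x + (c ^ 4 - c ^ 2) / 2 * b 2 x) ^ 2 +
      ((c ^ 4 - c ^ 2) / 2 * a 2 x + (c ^ 4 + c ^ 2) / 2 * b 2 x) ^ 2 =
        c ^ 8 * ((a 2 x + b 2 x) ^ 2 / 2) + c ^ 4 * ((a 2 x - b 2 x) ^ 2 / 2) := by ring
    rw [e1]
    have h3 : c ^ 8 * ((a 2 x + b 2 x) ^ 2 / 2) ≤ c ^ 4 * ((a 2 x + b 2 x) ^ 2 / 2) :=
      mul_le_mul_of_nonneg_right hc8 (by positivity)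
    have h4 : c ^ 4 * ((a 2 x + b 2 x) ^ 2 / 2) + c ^ 4 * ((a 2 x - b 2 x) ^ 2 / 2) =
        c ^ 4 * (a 2 x ^ 2 + b 2 x ^ 2) := by ring
    linarith
  have k0 := k 0
  have k1 := k 1
  linarith

/-- the weighted energy integral -/
theorem W_le (hα : Conn α) (h : ON3 z u v) {R : ℝ} (hR : 0 ≤ R) :
    ∫ t in (0 : ℝ)..R, t ^ 3 * (Real.cos (Real.arctan t) ^ 4 * u2 α z u v (Real.arctan t)) ≤
      2 * (1 + R ^ 2) * Nn α z u v (Real.arctan R) := by
  have hu := (u2_smooth hα.smooth h).continuous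
  have hc : Continuous fun t : ℝ =>
      t ^ 3 * (Real.cos (Real.arctan t) ^ 4 * u2 α z u v (Real.arctan t)) := by
    have h1 : Continuous fun t : ℝ => u2 α z u v (Real.arctan t) := hu.comp Real.continuous_arctan
    have h2 : Continuous fun t : ℝ => Real.cos (Real.arctan t) :=
      Real.continuous_cos.comp Real.continuous_arctan
    exact (continuous_id.pow 3).mul ((h2.pow 4).mul h1)
  have hNc : Continuous (Nn α z u v) :=
    continuous_iff_continuousAt.2 fun r => (Nn_deriv hα.smooth h r).continuousAt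
  have hc' : Continuous fun t : ℝ => 4 * t * Nn α z u v (Real.arctan t) +
      t ^ 3 * (Real.cos (Real.arctan t) ^ 4 * u2 α z u v (Real.arctan t)) :=
    ((continuous_const.mul continuous_id).mul (hNc.comp Real.continuous_arctan)).add hc
  have hder : ∀ t, HasDerivAt (fun t => 2 * (1 + t ^ 2) * Nn α z u v (Real.arctan t))
      (4 * t * Nn α z u v (Real.arctan t) +
        t ^ 3 * (Real.cos (Real.arctan t) ^ 4 * u2 α z u v (Real.arctan t))) t := by
    intro t
    obtain ⟨s1, s2, s3⟩ := sc t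
    have h3 := (Nn_deriv hα.smooth h (Real.arctan t)).comp t (Real.hasDerivAt_arctan t)
    have h4 := (((hasDerivAt_pow 2 t).const_add 1).const_mul 2).mul h3
    refine HasDerivAt.congr_deriv
      (f := fun t => 2 * (1 + t ^ 2) * Nn α z u v (Real.arctan t)) h4 ?_
    simp only [Function.comp_apply, Nat.cast_ofNat, Nat.add_one_sub_one, pow_one]
    rw [s1]
    field_simp
    ring
  have h5 := intervalIntegral.integral_eq_sub_of_hasDerivAt (a := 0) (b := R)
    (fun t _ => hder t) (hc'.intervalIntegrable _ _)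
  rw [Real.arctan_zero, Nn_zero, mul_zero, sub_zero] at h5
  rw [← h5]
  refine intervalIntegral.integral_mono_on hR (hc.intervalIntegrable _ _)
    (hc'.intervalIntegrable _ _) fun t ht => ?_
  have hN : 0 ≤ Nn α z u v (Real.arctan t) :=
    nonneg_of_wt (fun r => Nn_deriv hα.smooth h r) Nn_zero (fun r _ => u2_nonneg r)
      ⟨Real.arctan_nonneg.2 ht.1, (Real.arctan_lt_pi_div_two t).le⟩
  have : 0 ≤ 4 * t * Nn α z u v (Real.arctan t) := by
    have := ht.1
    positivity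
  linarith

/-- bounding the integral over a ball by the energy -/
theorem int_Q_le (hα : Conn α) (h : ON3 z u v) {R : ℝ} (hR : 0 ≤ R) {F : E → ℝ}
    (hF : ContDiff ℝ ∞ F) {k : ℝ} (hk : 0 ≤ k)
    (hb : ∀ t : ℝ, 0 < t → t ≤ R → SA (fun x => F (t • x)) ≤
      k * (Real.cos (Real.arctan t) ^ 4 * u2 α z u v (Real.arctan t))) :
    ∫ x in closedBall (0 : E) R, F x ≤
      8 * vB * k * (1 + R ^ 2) * Nn α z u v (Real.arctan R) := by
  rw [polar_ball ((hF.continuous.continuousOn).integrableOn_compact (isCompact_closedBall _ _))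
    hR]
  have hu := (u2_smooth hα.smooth h).continuous
  have hc : Continuous fun t : ℝ =>
      k * (t ^ 3 * (Real.cos (Real.arctan t) ^ 4 * u2 α z u v (Real.arctan t))) := by
    have h1 : Continuous fun t : ℝ => u2 α z u v (Real.arctan t) := hu.comp Real.continuous_arctan
    have h2 : Continuous fun t : ℝ => Real.cos (Real.arctan t) :=
      Real.continuous_cos.comp Real.continuous_arctan
    exact continuous_const.mul ((continuous_id.pow 3).mul ((h2.pow 4).mul h1))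
  have h1 : ∫ t in (0 : ℝ)..R, t ^ 3 * SA (fun ξ => F (t • ξ)) ≤
      ∫ t in (0 : ℝ)..R, k * (t ^ 3 *
        (Real.cos (Real.arctan t) ^ 4 * u2 α z u v (Real.arctan t))) := by
    refine intervalIntegral.integral_mono_on hR
      (((continuous_id.pow 3).mul (SA_scale_cont hF)).intervalIntegrable _ _)
      (hc.intervalIntegrable _ _) fun t ht => ?_
    rcases ht.1.lt_or_eq with h0 | h0
    · have := mul_le_mul_of_nonneg_left (hb t h0 ht.2) (by positivity : 0 ≤ t ^ 3)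
      calc _ ≤ t ^ 3 * (k * (Real.cos (Real.arctan t) ^ 4 * u2 α z u v (Real.arctan t))) := this
        _ = _ := by ring
    · rw [← h0]
      simp
  rw [intervalIntegral.integral_const_mul] at h1
  have h2 := mul_le_mul_of_nonneg_left (W_le hα h hR) hk
  have h3 : 0 ≤ 4 * vB := by
    have := vB_pos
    positivity
  have h4 := mul_le_mul_of_nonneg_left (h1.trans h2) h3
  calc _ ≤ _ := h4
    _ = _ := by ring

theorem int_QUV (hα : Conn α) {κ : ℝ} (hp : Pinched κ α) (h : ON3 z u v) {R : ℝ} (hR : 0 ≤ R) :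
    ∫ x in closedBall (0 : E) R, (QU α z u v x + QV α z u v x) ≤
      8 * vB * (1 + κ ^ 2) * (1 + R ^ 2) * Nn α z u v (Real.arctan R) := by
  refine int_Q_le hα h hR ((QU_smooth hα h).add (QV_smooth hα h)) (by positivity) ?_
  intro t ht _
  have s1 : Sm fun x => ∑ i, UU α z u v (Real.arctan t) i x ^ 2 :=
    Sm.sum _ fun i _ => (UU_Sm hα.smooth h _ i).pow 2
  have s2 : Sm fun x => ∑ i, VV α z u v (Real.arctan t) i x ^ 2 :=
    Sm.sum _ fun i _ => (VV_Sm hα.smooth h _ i).pow 2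
  have hF : Continuous fun x => QU α z u v (t • x) + QV α z u v (t • x) :=
    ((QU_smooth hα h).continuous.comp (continuous_const_smul t)).add
      ((QV_smooth hα h).continuous.comp (continuous_const_smul t))
  have h1 := SA_mono (f := fun x => QU α z u v (t • x) + QV α z u v (t • x))
    (g := fun x => Real.cos (Real.arctan t) ^ 4 * (∑ i, UU α z u v (Real.arctan t) i x ^ 2 +
      ∑ i, VV α z u v (Real.arctan t) i x ^ 2)) hF.continuousOn
    ((s1.add s2).smul _).cont fun x hx => QUV_le hα h ht hx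
  refine h1.trans ?_
  rw [SA_smul, SA_add s1.cont s2.cont]
  have h2 := pin_v2 hα hp h (Real.arctan t)
  have h3 : 0 ≤ Real.cos (Real.arctan t) ^ 4 := by positivity
  have h4 : Real.cos (Real.arctan t) ^ 4 * (u2 α z u v (Real.arctan t) +
      v2 α z u v (Real.arctan t)) ≤ Real.cos (Real.arctan t) ^ 4 *
      ((1 + κ ^ 2) * u2 α z u v (Real.arctan t)) := by
    refine mul_le_mul_of_nonneg_left ?_ h3
    linarith
  calc _ ≤ _ := h4
    _ = _ := by ring

theorem int_QV (hα : Conn α) {κ : ℝ} (hp : Pinched κ α) (h : ON3 z u v) {R : ℝ} (hR : 0 ≤ R) :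
    ∫ x in closedBall (0 : E) R, QV α z u v x ≤
      8 * vB * (2 * κ ^ 2 + R ^ 4 / 2) * (1 + R ^ 2) * Nn α z u v (Real.arctan R) := by
  refine int_Q_le hα h hR (QV_smooth hα h) (by positivity) ?_
  intro t ht htR
  have s1 : Sm fun x => t ^ 4 / 2 * ∑ i, UU α z u v (Real.arctan t) i x ^ 2 :=
    (Sm.sum _ fun i _ => (UU_Sm hα.smooth h _ i).pow 2).smul _
  have s2 : Sm fun x => 2 * ∑ i, VV α z u v (Real.arctan t) i x ^ 2 :=
    (Sm.sum _ fun i _ => (VV_Sm hα.smooth h _ i).pow 2).smul _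
  have hF : Continuous fun x => QV α z u v (t • x) :=
    (QV_smooth hα h).continuous.comp (continuous_const_smul t)
  have h1 := SA_mono (f := fun x => QV α z u v (t • x))
    (g := fun x => Real.cos (Real.arctan t) ^ 4 * (2 * ∑ i, VV α z u v (Real.arctan t) i x ^ 2 +
      t ^ 4 / 2 * ∑ i, UU α z u v (Real.arctan t) i x ^ 2)) hF.continuousOn
    ((s2.add s1).smul _).cont fun x hx => QV_le hα h ht hx
  refine h1.trans ?_
  rw [SA_smul, SA_add s2.cont s1.cont, SA_smul, SA_smul]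
  have h2 := pin_v2 hα hp h (Real.arctan t)
  have h3 : 0 ≤ Real.cos (Real.arctan t) ^ 4 := by positivity
  have hu := u2_nonneg (γ := α) (z := z) (u := u) (v := v) (Real.arctan t)
  have h5 : t ^ 4 ≤ R ^ 4 := pow_le_pow_left₀ ht.le htR 4
  have h6 : t ^ 4 / 2 * u2 α z u v (Real.arctan t) ≤ R ^ 4 / 2 * u2 α z u v (Real.arctan t) :=
    mul_le_mul_of_nonneg_right (by linarith) hu
  have h4 : Real.cos (Real.arctan t) ^ 4 * (2 * v2 α z u v (Real.arctan t) +
      t ^ 4 / 2 * u2 α z u v (Real.arctan t)) ≤ Real.cos (Real.arctan t) ^ 4 *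
      ((2 * κ ^ 2 + R ^ 4 / 2) * u2 α z u v (Real.arctan t)) := by
    refine mul_le_mul_of_nonneg_left ?_ h3
    linarith
  calc _ ≤ _ := h4
    _ = _ := by ring

end

end Pool.Agent.Lib.Pex
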