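import Pool.Agent.Lib.Pex.SphD

set_option autoImplicit false

/-!
# The curl operator of the three-sphere

`crl a i = Y_{i+1} a_{i+2} - Y_{i+2} a_{i+1} + 2 a_i`. `key`: the inequality
`∫ a · curl a ≤ (1/3) ∫ |curl a|² + (1/6) |∫ curl a|²` (the positive eigenvalues of the curl are `2`, with the constant fields, and at
least `3`). PROOF. Integral identity `crl_id`; for gradients it is Bochner's formula, hence `3 ∫ |∇g|² ≤ ∫ (Lp g)²`; with the density of the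
range of `Lp` the inequality of Poincaré `3 ∫ f² ≤ ∫ |∇f|²`; finally `crl_id` for `a - ∇f` with `Lp f` close to the divergence of `a`.
-/

open MeasureTheory Set Metric
open scoped ContDiff

namespace Pool.Agent.Lib.Pex

open Pool.Agent.Lib.Psd

/-- The curl. -/
noncomputable def crl (a : Fin 3 → E → ℝ) (i : Fin 3) (x : E) : ℝ :=
  Y (i + 1) (a (i + 2)) x - Y (i + 2) (a (i + 1)) x + 2 * a i x

/-- The divergence. -/
noncomputable def dv (a : Fin 3 → E → ℝ) (x : E) : ℝ := ∑ i, Y i (a i) x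

theorem crl_Sm {a : Fin 3 → E → ℝ} (h : ∀ i, Sm (a i)) (i : Fin 3) : Sm (crl a i) :=
  (((h (i + 2)).Y (i + 1)).sub ((h (i + 1)).Y (i + 2))).add ((h i).smul 2)

theorem dv_Sm {a : Fin 3 → E → ℝ} (h : ∀ i, Sm (a i)) : Sm (dv a) := Sm.sum _ fun i _ => (h i).Y i

theorem ne_of_norm {x : E} (hx : ‖x‖ = 1) : x ≠ 0 := sphere_sub (mem_sphere_zero_iff_norm.2 hx)

theorem comm0 {f : E → ℝ} (hf : Sm f) {x : E} (hx : x ≠ 0) :
    Y 0 (Y 1 f) x - Y 1 (Y 0 f) x = -2 * Y 2 f x := Y_comm hf 0 hx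

theorem comm1 {f : E → ℝ} (hf : Sm f) {x : E} (hx : x ≠ 0) :
    Y 1 (Y 2 f) x - Y 2 (Y 1 f) x = -2 * Y 0 f x := Y_comm hf 1 hx

theorem comm2 {f : E → ℝ} (hf : Sm f) {x : E} (hx : x ≠ 0) :
    Y 2 (Y 0 f) x - Y 0 (Y 2 f) x = -2 * Y 1 f x := Y_comm hf 2 hx

theorem crl0 (a : Fin 3 → E → ℝ) (x : E) : crl a 0 x = Y 1 (a 2) x - Y 2 (a 1) x + 2 * a 0 x := rfl

theorem crl1 (a : Fin 3 → E → ℝ) (x : E) : crl a 1 x = Y 2 (a 0) x - Y 0 (a 2) x + 2 * a 1 x := rfl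

theorem crl2 (a : Fin 3 → E → ℝ) (x : E) : crl a 2 x = Y 0 (a 1) x - Y 1 (a 0) x + 2 * a 2 x := rfl

/-- mean of a sum of six derivatives -/
theorem SA_six {f₁ f₂ f₃ f₄ f₅ f₆ : E → ℝ} (h₁ : Sm f₁) (h₂ : Sm f₂) (h₃ : Sm f₃) (h₄ : Sm f₄)
    (h₅ : Sm f₅) (h₆ : Sm f₆) (i₁ i₂ i₃ i₄ i₅ i₆ : Fin 3) :
    SA (fun x => Y i₁ f₁ x + Y i₂ f₂ x + Y i₃ f₃ x + Y i₄ f₄ x + Y i₅ f₅ x + Y i₆ f₆ x) = 0 := by
  have c₁ := h₁.Y i₁
  have c₂ := h₂.Y i₂
  have c₃ := h₃.Y i₃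
  have c₄ := h₄.Y i₄
  have c₅ := h₅.Y i₅
  have c₆ := h₆.Y i₆
  rw [SA_add ((((c₁.add c₂).add c₃).add c₄).add c₅).cont c₆.cont,
    SA_add (((c₁.add c₂).add c₃).add c₄).cont c₅.cont, SA_add ((c₁.add c₂).add c₃).cont c₄.cont,
    SA_add (c₁.add c₂).cont c₃.cont, SA_add c₁.cont c₂.cont, SA_Y h₁, SA_Y h₂, SA_Y h₃, SA_Y h₄,
    SA_Y h₅, SA_Y h₆]
  norm_num

/-- symmetry of the curl -/
theorem crl_symm {a b : Fin 3 → E → ℝ} (ha : ∀ i, Sm (a i)) (hb : ∀ i, Sm (b i)) :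
    SA (fun x => ∑ i, a i x * crl b i x) = SA (fun x => ∑ i, crl a i x * b i x) := by
  have hA : Sm fun x => ∑ i, a i x * crl b i x := Sm.sum _ fun i _ => (ha i).mul (crl_Sm hb i)
  have hB : Sm fun x => ∑ i, crl a i x * b i x := Sm.sum _ fun i _ => (crl_Sm ha i).mul (hb i)
  have h1 := SA_six ((ha 0).mul (hb 2)) (((ha 0).mul (hb 1)).smul (-1)) ((ha 1).mul (hb 0))
    (((ha 1).mul (hb 2)).smul (-1)) ((ha 2).mul (hb 1)) (((ha 2).mul (hb 0)).smul (-1)) 1 2 2 0 0 1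
  have h2 : SA (fun x => (∑ i, a i x * crl b i x) - ∑ i, crl a i x * b i x) = 0 := by
    rw [← h1]
    refine SA_congr fun x hx => ?_
    have hx0 := ne_of_norm hx
    rw [Y_smul _ ((ha 0).mul (hb 1)) _ hx0, Y_smul _ ((ha 1).mul (hb 2)) _ hx0,
      Y_smul _ ((ha 2).mul (hb 0)) _ hx0, Y_mul (ha 0) (hb 2) _ hx0, Y_mul (ha 0) (hb 1) _ hx0,
      Y_mul (ha 1) (hb 0) _ hx0, Y_mul (ha 1) (hb 2) _ hx0, Y_mul (ha 2) (hb 1) _ hx0,
      Y_mul (ha 2) (hb 0) _ hx0]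
    simp only [Fin.sum_univ_three, crl0, crl1, crl2]
    ring
  rw [SA_sub hA.cont hB.cont] at h2
  linarith

/-- the integral identity -/
theorem crl_id {a : Fin 3 → E → ℝ} (ha : ∀ i, Sm (a i)) :
    SA (fun x => ∑ i, crl a i x ^ 2) - 2 * SA (fun x => ∑ i, a i x * crl a i x) =
      SA (fun x => ∑ i, ∑ j, Y i (a j) x ^ 2) - SA (fun x => dv a x ^ 2) := by
  have hA : Sm fun x => ∑ i, crl a i x ^ 2 := Sm.sum _ fun i _ => (crl_Sm ha i).pow 2
  have hB : Sm fun x => ∑ i, a i x * crl a i x := Sm.sum _ fun i _ => (ha i).mul (crl_Sm ha i)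
  have hC : Sm fun x => ∑ i, ∑ j, Y i (a j) x ^ 2 :=
    Sm.sum _ fun i _ => Sm.sum _ fun j _ => ((ha j).Y i).pow 2
  have hD : Sm fun x => dv a x ^ 2 := (dv_Sm ha).pow 2
  have u0 := (ha 0).Y
  have u1 := (ha 1).Y
  have u2 := (ha 2).Y
  -- the nine products
  have h1 := SA_six (((ha 1).mul (u2 2)).smul 2) (((ha 1).mul (u2 1)).smul (-2))
    (((ha 2).mul (u0 0)).smul 2) (((ha 2).mul (u0 2)).smul (-2)) (((ha 0).mul (u1 1)).smul 2)
    (((ha 0).mul (u1 0)).smul (-2)) 1 2 2 0 0 1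
  have h1' := SA_six (((ha 0).mul (ha 1)).smul 2) (((ha 1).mul (ha 2)).smul 2)
    (((ha 2).mul (ha 0)).smul 2) (Sm.const 0) (Sm.const 0) (Sm.const 0) 2 0 1 0 0 0
  have h2 : SA (fun x => ((∑ i, crl a i x ^ 2) - 2 * ∑ i, a i x * crl a i x) -
      ((∑ i, ∑ j, Y i (a j) x ^ 2) - dv a x ^ 2)) = 0 := by
    have h3 : SA (fun x => ((∑ i, crl a i x ^ 2) - 2 * ∑ i, a i x * crl a i x) -
      ((∑ i, ∑ j, Y i (a j) x ^ 2) - dv a x ^ 2)) =
      SA (fun x => (Y 1 (fun x => 2 * (a 1 x * Y 2 (a 2) x)) x +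
        Y 2 (fun x => -2 * (a 1 x * Y 1 (a 2) x)) x + Y 2 (fun x => 2 * (a 2 x * Y 0 (a 0) x)) x +
        Y 0 (fun x => -2 * (a 2 x * Y 2 (a 0) x)) x + Y 0 (fun x => 2 * (a 0 x * Y 1 (a 1) x)) x +
        Y 1 (fun x => -2 * (a 0 x * Y 0 (a 1) x)) x) +
        (Y 2 (fun x => 2 * (a 0 x * a 1 x)) x + Y 0 (fun x => 2 * (a 1 x * a 2 x)) x +
        Y 1 (fun x => 2 * (a 2 x * a 0 x)) x + Y 0 (fun _ => 0) x + Y 0 (fun _ => 0) x +
        Y 0 (fun _ => 0) x)) := by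
      refine SA_congr fun x hx => ?_
      have hx0 := ne_of_norm hx
      rw [Y_smul _ ((ha 1).mul (u2 2)) _ hx0, Y_smul _ ((ha 1).mul (u2 1)) _ hx0,
        Y_smul _ ((ha 2).mul (u0 0)) _ hx0, Y_smul _ ((ha 2).mul (u0 2)) _ hx0,
        Y_smul _ ((ha 0).mul (u1 1)) _ hx0, Y_smul _ ((ha 0).mul (u1 0)) _ hx0,
        Y_smul _ ((ha 0).mul (ha 1)) _ hx0, Y_smul _ ((ha 1).mul (ha 2)) _ hx0,
        Y_smul _ ((ha 2).mul (ha 0)) _ hx0, Y_const, Y_mul (ha 1) (u2 2) _ hx0,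
        Y_mul (ha 1) (u2 1) _ hx0, Y_mul (ha 2) (u0 0) _ hx0, Y_mul (ha 2) (u0 2) _ hx0,
        Y_mul (ha 0) (u1 1) _ hx0, Y_mul (ha 0) (u1 0) _ hx0, Y_mul (ha 0) (ha 1) _ hx0,
        Y_mul (ha 1) (ha 2) _ hx0, Y_mul (ha 2) (ha 0) _ hx0]
      have k1 := comm1 (ha 2) hx0
      have k2 := comm2 (ha 0) hx0
      have k0 := comm0 (ha 1) hx0
      simp only [Fin.sum_univ_three, crl0, crl1, crl2, dv]
      linear_combination (-2 * a 1 x) * k1 - 2 * a 2 x * k2 - 2 * a 0 x * k0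
    rw [h3]
    have s1 : Sm (fun x => Y 1 (fun x => 2 * (a 1 x * Y 2 (a 2) x)) x +
        Y 2 (fun x => -2 * (a 1 x * Y 1 (a 2) x)) x + Y 2 (fun x => 2 * (a 2 x * Y 0 (a 0) x)) x +
        Y 0 (fun x => -2 * (a 2 x * Y 2 (a 0) x)) x + Y 0 (fun x => 2 * (a 0 x * Y 1 (a 1) x)) x +
        Y 1 (fun x => -2 * (a 0 x * Y 0 (a 1) x)) x) :=
      ((((((((ha 1).mul (u2 2)).smul 2).Y 1).add ((((ha 1).mul (u2 1)).smul (-2)).Y 2)).add
        ((((ha 2).mul (u0 0)).smul 2).Y 2)).add ((((ha 2).mul (u0 2)).smul (-2)).Y 0)).add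
        ((((ha 0).mul (u1 1)).smul 2).Y 0)).add ((((ha 0).mul (u1 0)).smul (-2)).Y 1)
    have s2 : Sm (fun x => Y 2 (fun x => 2 * (a 0 x * a 1 x)) x +
        Y 0 (fun x => 2 * (a 1 x * a 2 x)) x +
        Y 1 (fun x => 2 * (a 2 x * a 0 x)) x + Y 0 (fun _ => 0) x + Y 0 (fun _ => 0) x +
        Y 0 (fun _ => 0) x) :=
      ((((((((ha 0).mul (ha 1)).smul 2).Y 2).add ((((ha 1).mul (ha 2)).smul 2).Y 0)).add
        ((((ha 2).mul (ha 0)).smul 2).Y 1)).add ((Sm.const 0).Y 0)).add ((Sm.const 0).Y 0)).add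
        ((Sm.const 0).Y 0)
    rw [SA_add s1.cont s2.cont, h1, h1']
    norm_num
  have c1 : Sm fun x => 2 * ∑ i, a i x * crl a i x := hB.smul 2
  have c2 : Sm fun x => (∑ i, crl a i x ^ 2) - 2 * ∑ i, a i x * crl a i x := hA.sub c1
  have c3 : Sm fun x => (∑ i, ∑ j, Y i (a j) x ^ 2) - dv a x ^ 2 := hC.sub hD
  rw [SA_sub c2.cont c3.cont, SA_sub hA.cont c1.cont, SA_smul, SA_sub hC.cont hD.cont] at h2
  linarith

/-- curl of a gradient -/
theorem crl_grad {g : E → ℝ} (hg : Sm g) (i : Fin 3) {x : E} (hx : x ≠ 0) :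
    crl (fun i => Y i g) i x = 0 := by
  have k0 := comm0 hg hx
  have k1 := comm1 hg hx
  have k2 := comm2 hg hx
  fin_cases i
  · show Y 1 (Y 2 g) x - Y 2 (Y 1 g) x + 2 * Y 0 g x = 0
    linarith
  · show Y 2 (Y 0 g) x - Y 0 (Y 2 g) x + 2 * Y 1 g x = 0
    linarith
  · show Y 0 (Y 1 g) x - Y 1 (Y 0 g) x + 2 * Y 2 g x = 0
    linarith

/-- Bochner -/
theorem bochner {g : E → ℝ} (hg : Sm g) :
    3 * SA (fun x => ∑ i, Y i g x ^ 2) ≤ SA (fun x => Lp g x ^ 2) := by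
  have ha : ∀ i, Sm (Y i g) := fun i => hg.Y i
  have h1 := crl_id ha
  have z1 : SA (fun x => ∑ i, crl (fun i => Y i g) i x ^ 2) = 0 := by
    rw [← SA_const 0]
    refine SA_congr fun x hx => Finset.sum_eq_zero fun i _ => ?_
    rw [crl_grad hg i (ne_of_norm hx)]
    norm_num
  have z2 : SA (fun x => ∑ i, Y i g x * crl (fun i => Y i g) i x) = 0 := by
    rw [← SA_const 0]
    refine SA_congr fun x hx => Finset.sum_eq_zero fun i _ => ?_
    rw [crl_grad hg i (ne_of_norm hx), mul_zero]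
  have z3 : SA (fun x => dv (fun i => Y i g) x ^ 2) = SA (fun x => Lp g x ^ 2) := rfl
  rw [z1, z2, z3] at h1
  have hS1 : Sm fun x => Lp g x ^ 2 := hg.Lp.pow 2
  have hS2 : Sm fun x => ∑ i, Y i g x ^ 2 := Sm.sum _ fun i _ => (ha i).pow 2
  have hS3 : Sm fun x => ∑ i, ∑ j, Y i (Y j g) x ^ 2 :=
    Sm.sum _ fun i _ => Sm.sum _ fun j _ => ((ha j).Y i).pow 2
  have h2 : SA (fun x => (1 / 3) * Lp g x ^ 2 + 2 * ∑ i, Y i g x ^ 2) ≤
      SA (fun x => ∑ i, ∑ j, Y i (Y j g) x ^ 2) := by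
    refine SA_mono ((hS1.smul (1 / 3)).add (hS2.smul 2)).cont hS3.cont fun x hx => ?_
    have hx0 := ne_of_norm hx
    have k0 := comm0 hg hx0
    have k1 := comm1 hg hx0
    have k2 := comm2 hg hx0
    simp only [Lp, Fin.sum_univ_three]
    have e0 : Y 2 g x = -(Y 0 (Y 1 g) x - Y 1 (Y 0 g) x) / 2 := by linarith
    have e1 : Y 0 g x = -(Y 1 (Y 2 g) x - Y 2 (Y 1 g) x) / 2 := by linarith
    have e2 : Y 1 g x = -(Y 2 (Y 0 g) x - Y 0 (Y 2 g) x) / 2 := by linarith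
    rw [e0, e1, e2]
    nlinarith [sq_nonneg (Y 0 (Y 1 g) x + Y 1 (Y 0 g) x), sq_nonneg (Y 1 (Y 2 g) x + Y 2 (Y 1 g) x),
      sq_nonneg (Y 2 (Y 0 g) x + Y 0 (Y 2 g) x), sq_nonneg (Y 0 (Y 0 g) x - Y 1 (Y 1 g) x),
      sq_nonneg (Y 1 (Y 1 g) x - Y 2 (Y 2 g) x), sq_nonneg (Y 2 (Y 2 g) x - Y 0 (Y 0 g) x)]
  have c1 : Sm fun x => (1 / 3) * Lp g x ^ 2 := hS1.smul (1 / 3)
  have c2 : Sm fun x => 2 * ∑ i, Y i g x ^ 2 := hS2.smul 2
  rw [SA_add c1.cont c2.cont, SA_smul, SA_smul] at h2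
  linarith

/-- Poincaré -/
theorem poincare {f : E → ℝ} (hf : Sm f) (h0 : SA f = 0) :
    3 * SA (fun x => f x ^ 2) ≤ SA (fun x => ∑ i, Y i f x ^ 2) := by
  refine le_of_forall_pos_le_add fun δ hδ => ?_
  obtain ⟨ε, hε, hεδ⟩ : ∃ ε : ℝ, 0 < ε ∧ 3 * ε ^ 2 ≤ δ := by
    refine ⟨Real.sqrt (δ / 3), Real.sqrt_pos.2 (by positivity), ?_⟩
    rw [Real.sq_sqrt (by positivity)]
    linarith
  obtain ⟨g, hg, hgε⟩ := dense hf.cont h0 hε
  have hL := hg.Lp
  have hB := bochner hg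
  have sY : ∀ i, Sm (Y i f) := fun i => hf.Y i
  have sG : ∀ i, Sm (Y i g) := fun i => hg.Y i
  have c1 : Sm fun x => ∑ i, Y i f x ^ 2 := Sm.sum _ fun i _ => (sY i).pow 2
  have c2 : Sm fun x => ∑ i, Y i f x * Y i g x := Sm.sum _ fun i _ => (sY i).mul (sG i)
  have c3 : Sm fun x => ∑ i, Y i g x ^ 2 := Sm.sum _ fun i _ => (sG i).pow 2
  have h1 : 0 ≤ SA (fun x => ∑ i, (Y i f x + 3 * Y i g x) ^ 2) :=
    SA_nonneg fun x _ => Finset.sum_nonneg fun i _ => sq_nonneg _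
  have h2 : SA (fun x => ∑ i, (Y i f x + 3 * Y i g x) ^ 2) =
      SA (fun x => ∑ i, Y i f x ^ 2) + 6 * SA (fun x => ∑ i, Y i f x * Y i g x) +
        9 * SA (fun x => ∑ i, Y i g x ^ 2) := by
    have e : (fun x => ∑ i, (Y i f x + 3 * Y i g x) ^ 2) =
        fun x => ((∑ i, Y i f x ^ 2) + 6 * ∑ i, Y i f x * Y i g x) + 9 * ∑ i, Y i g x ^ 2 := by
      funext x
      simp only [Fin.sum_univ_three]
      ring
    have d1 : Sm fun x => 6 * ∑ i, Y i f x * Y i g x := c2.smul 6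
    have d2 : Sm fun x => 9 * ∑ i, Y i g x ^ 2 := c3.smul 9
    have d3 : Sm fun x => (∑ i, Y i f x ^ 2) + 6 * ∑ i, Y i f x * Y i g x := c1.add d1
    rw [e, SA_add d3.cont d2.cont, SA_add c1.cont d1.cont, SA_smul, SA_smul]
  have h3 : SA (fun x => ∑ i, Y i f x * Y i g x) = -SA (fun x => f x * Lp g x) := by
    have e1 : SA (fun x => f x * Lp g x) = ∑ i, SA (fun x => f x * Y i (Y i g) x) := by
      have e2 : (fun x => f x * Lp g x) = fun x => ∑ i, f x * Y i (Y i g) x := by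
        funext x
        simp only [Lp, Finset.mul_sum]
      rw [e2]
      exact SA_sum _ fun i _ => (hf.mul ((sG i).Y i)).cont
    have e3 : SA (fun x => ∑ i, Y i f x * Y i g x) = ∑ i, SA (fun x => Y i f x * Y i g x) :=
      SA_sum _ fun i _ => ((sY i).mul (sG i)).cont
    rw [e1, e3, ← Finset.sum_neg_distrib]
    refine Finset.sum_congr rfl fun i _ => ?_
    rw [SA_ibp hf (sG i) i]
    ring
  have d1 : Sm fun x => f x ^ 2 := hf.pow 2
  have d2 : Sm fun x => f x * Lp g x := hf.mul hL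
  have d3 : Sm fun x => Lp g x ^ 2 := hL.pow 2
  have h4 : SA (fun x => (Lp g x - f x) ^ 2) =
      SA (fun x => Lp g x ^ 2) - 2 * SA (fun x => f x * Lp g x) + SA (fun x => f x ^ 2) := by
    have e : (fun x => (Lp g x - f x) ^ 2) =
        fun x => (Lp g x ^ 2 - 2 * (f x * Lp g x)) + f x ^ 2 := by
      funext x
      ring
    have d4 : Sm fun x => 2 * (f x * Lp g x) := d2.smul 2
    have d5 : Sm fun x => Lp g x ^ 2 - 2 * (f x * Lp g x) := d3.sub d4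
    rw [e, SA_add d5.cont d1.cont, SA_sub d3.cont d4.cont, SA_smul]
  have h5 : SA (fun x => (Lp g x - f x) ^ 2) ≤ ε ^ 2 := by
    rw [← SA_const (ε ^ 2)]
    have d6 : Sm fun x => (Lp g x - f x) ^ 2 := (hL.sub hf).pow 2
    refine SA_mono d6.cont continuousOn_const fun x hx => ?_
    have := hgε x hx
    rw [← sq_abs]
    exact pow_le_pow_left₀ (abs_nonneg _) this 2
  rw [h2, h3] at h1
  linarith

/-- the inequality for fields of mean zero -/
theorem key0 {a : Fin 3 → E → ℝ} (ha : ∀ i, Sm (a i)) (h0 : ∀ i, SA (a i) = 0) :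
    3 * SA (fun x => ∑ i, a i x * crl a i x) ≤ SA (fun x => ∑ i, crl a i x ^ 2) := by
  refine le_of_forall_pos_le_add fun δ hδ => ?_
  obtain ⟨ε, hε, hεδ⟩ : ∃ ε : ℝ, 0 < ε ∧ ε ^ 2 ≤ δ := by
    refine ⟨Real.sqrt δ, Real.sqrt_pos.2 hδ, ?_⟩
    rw [Real.sq_sqrt hδ.le]
  have hdv0 : SA (dv a) = 0 := by
    have h1 : SA (dv a) = ∑ i, SA (Y i (a i)) := SA_sum _ fun i _ => ((ha i).Y i).cont
    rw [h1]
    exact Finset.sum_eq_zero fun i _ => SA_Y (ha i) i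
  obtain ⟨f, hf, hfε⟩ := dense (dv_Sm ha).cont hdv0 hε
  set b : Fin 3 → E → ℝ := fun i x => a i x - Y i f x with hb
  have hbS : ∀ i, Sm (b i) := fun i => (ha i).sub (hf.Y i)
  have hb0 : ∀ i, SA (b i) = 0 := fun i => by
    simp only [hb]
    rw [SA_sub (ha i).cont (hf.Y i).cont, h0, SA_Y hf, sub_zero]
  have hcrl : ∀ i, ∀ x : E, x ≠ 0 → crl b i x = crl a i x := by
    intro i x hx
    have h1 := crl_grad hf i hx
    have h2 : crl b i x = crl a i x - crl (fun i => Y i f) i x := by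
      unfold crl
      simp only [hb]
      rw [Y_sub (ha _) (hf.Y _) _ hx, Y_sub (ha _) (hf.Y _) _ hx]
      ring
    rw [h2, h1, sub_zero]
  have hdv : ∀ x : E, x ≠ 0 → dv b x = dv a x - Lp f x := by
    intro x hx
    unfold dv Lp
    rw [← Finset.sum_sub_distrib]
    exact Finset.sum_congr rfl fun i _ => Y_sub (ha _) (hf.Y _) _ hx
  have hid := crl_id hbS
  -- the terms
  set H := SA (fun x => ∑ i, crl a i x ^ 2) with hH
  set q := SA (fun x => ∑ i, a i x * crl a i x) with hq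
  have t1 : SA (fun x => ∑ i, crl b i x ^ 2) = H := SA_congr fun x hx =>
    Finset.sum_congr rfl fun i _ => by rw [hcrl i x (ne_of_norm hx)]
  have t2 : SA (fun x => ∑ i, b i x * crl b i x) = q := by
    have e1 : SA (fun x => ∑ i, b i x * crl b i x) =
        SA (fun x => (∑ i, a i x * crl a i x) - ∑ i, Y i f x * crl a i x) :=
      SA_congr fun x hx => by
        rw [← Finset.sum_sub_distrib]
        refine Finset.sum_congr rfl fun i _ => ?_
        rw [hcrl i x (ne_of_norm hx)]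
        simp only [hb]
        ring
    have s1 : Sm fun x => ∑ i, a i x * crl a i x := Sm.sum _ fun i _ => (ha i).mul (crl_Sm ha i)
    have s2 : Sm fun x => ∑ i, Y i f x * crl a i x :=
      Sm.sum _ fun i _ => (hf.Y i).mul (crl_Sm ha i)
    have e2 : SA (fun x => ∑ i, Y i f x * crl a i x) = 0 := by
      rw [crl_symm (a := fun i => Y i f) (fun i => hf.Y i) ha, ← SA_const 0]
      refine SA_congr fun x hx => Finset.sum_eq_zero fun i _ => ?_
      rw [crl_grad hf i (ne_of_norm hx), zero_mul]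
    rw [e1, SA_sub s1.cont s2.cont, e2, sub_zero]
  have t3 : SA (fun x => dv b x ^ 2) ≤ ε ^ 2 := by
    rw [← SA_const (ε ^ 2)]
    have d6 : Sm fun x => dv b x ^ 2 := (dv_Sm hbS).pow 2
    refine SA_mono d6.cont continuousOn_const fun x hx => ?_
    have h1 := hfε x hx
    rw [hdv x (ne_of_norm hx), ← sq_abs, abs_sub_comm]
    exact pow_le_pow_left₀ (abs_nonneg _) h1 2
  have s3 : ∀ i, Sm fun x => b i x ^ 2 := fun i => (hbS i).pow 2
  have s4 : Sm fun x => ∑ i, b i x ^ 2 := Sm.sum _ fun i _ => s3 i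
  have t4 : 3 * SA (fun x => ∑ i, b i x ^ 2) ≤ SA (fun x => ∑ i, ∑ j, Y i (b j) x ^ 2) := by
    have e1 : SA (fun x => ∑ i, b i x ^ 2) = ∑ i, SA (fun x => b i x ^ 2) :=
      SA_sum _ fun i _ => (s3 i).cont
    have e2 : SA (fun x => ∑ i, ∑ j, Y i (b j) x ^ 2) =
        ∑ j, SA (fun x => ∑ i, Y i (b j) x ^ 2) := by
      rw [← SA_sum _ fun j _ => (Sm.sum _ fun i _ => ((hbS j).Y i).pow 2).cont]
      refine SA_congr fun x _ => ?_
      exact Finset.sum_comm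
    rw [e1, e2, Finset.mul_sum]
    exact Finset.sum_le_sum fun j _ => poincare (hbS j) (hb0 j)
  have t5 : 0 ≤ H - 6 * q + 9 * SA (fun x => ∑ i, b i x ^ 2) := by
    have h1 : 0 ≤ SA (fun x => ∑ i, (crl b i x - 3 * b i x) ^ 2) :=
      SA_nonneg fun x _ => Finset.sum_nonneg fun i _ => sq_nonneg _
    have s5 : Sm fun x => ∑ i, crl b i x ^ 2 := Sm.sum _ fun i _ => (crl_Sm hbS i).pow 2
    have s6 : Sm fun x => ∑ i, b i x * crl b i x :=
      Sm.sum _ fun i _ => (hbS i).mul (crl_Sm hbS i)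
    have e : (fun x => ∑ i, (crl b i x - 3 * b i x) ^ 2) =
        fun x => ((∑ i, crl b i x ^ 2) - 6 * ∑ i, b i x * crl b i x) + 9 * ∑ i, b i x ^ 2 := by
      funext x
      simp only [Fin.sum_univ_three]
      ring
    have d1 : Sm fun x => 6 * ∑ i, b i x * crl b i x := s6.smul 6
    have d2 : Sm fun x => 9 * ∑ i, b i x ^ 2 := s4.smul 9
    have d3 : Sm fun x => (∑ i, crl b i x ^ 2) - 6 * ∑ i, b i x * crl b i x := s5.sub d1
    rw [e, SA_add d3.cont d2.cont, SA_sub s5.cont d1.cont, SA_smul, SA_smul, t1, t2] at h1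
    exact h1
  rw [t1, t2] at hid
  linarith

/-- the inequality between `a` and its curl -/
theorem key {a : Fin 3 → E → ℝ} (ha : ∀ i, Sm (a i)) :
    SA (fun x => ∑ i, a i x * crl a i x) ≤
      1 / 3 * SA (fun x => ∑ i, crl a i x ^ 2) + 1 / 6 * ∑ i, SA (crl a i) ^ 2 := by
  set m : Fin 3 → ℝ := fun i => SA (a i) with hm
  have hcm : ∀ i, SA (crl a i) = 2 * m i := by
    intro i
    have e : SA (crl a i) = SA (Y (i + 1) (a (i + 2))) - SA (Y (i + 2) (a (i + 1))) +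
        2 * SA (a i) := by
      have s1 := (ha (i + 2)).Y (i + 1)
      have s2 := (ha (i + 1)).Y (i + 2)
      have s3 : Sm fun x => Y (i + 1) (a (i + 2)) x - Y (i + 2) (a (i + 1)) x := s1.sub s2
      have s4 : Sm fun x => 2 * a i x := (ha i).smul 2
      have e1 : crl a i = fun x => (Y (i + 1) (a (i + 2)) x - Y (i + 2) (a (i + 1)) x) +
        2 * a i x := rfl
      rw [e1, SA_add s3.cont s4.cont, SA_sub s1.cont s2.cont, SA_smul]
    rw [e, SA_Y (ha _), SA_Y (ha _)]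
    ring
  set b : Fin 3 → E → ℝ := fun i x => a i x - m i with hb
  have hbS : ∀ i, Sm (b i) := fun i => (ha i).sub (Sm.const _)
  have hb0 : ∀ i, SA (b i) = 0 := fun i => by
    simp only [hb]
    rw [SA_sub (ha i).cont continuousOn_const, SA_const, hm]
    ring
  have hcrl : ∀ i, ∀ x : E, x ≠ 0 → crl b i x = crl a i x - 2 * m i := by
    intro i x hx
    unfold crl
    simp only [hb]
    rw [Y_sub (ha _) (Sm.const _) _ hx, Y_sub (ha _) (Sm.const _) _ hx, Y_const, Y_const]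
    ring
  have h1 := key0 hbS hb0
  have hc := crl_Sm ha
  have s1 : Sm fun x => ∑ i, a i x * crl a i x := Sm.sum _ fun i _ => (ha i).mul (hc i)
  have s2 : Sm fun x => ∑ i, crl a i x ^ 2 := Sm.sum _ fun i _ => (hc i).pow 2
  have s3 : Sm fun x => ∑ i, m i * crl a i x := Sm.sum _ fun i _ => (hc i).smul (m i)
  have s4 : Sm fun x => ∑ i, m i * a i x := Sm.sum _ fun i _ => (ha i).smul (m i)
  have q3 : SA (fun x => ∑ i, m i * crl a i x) = 2 * ∑ i, m i ^ 2 := by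
    rw [SA_sum _ fun i _ => ((hc i).smul (m i)).cont, Finset.mul_sum]
    refine Finset.sum_congr rfl fun i _ => ?_
    rw [SA_smul, hcm]
    ring
  have q4 : SA (fun x => ∑ i, m i * a i x) = ∑ i, m i ^ 2 := by
    rw [SA_sum _ fun i _ => ((ha i).smul (m i)).cont]
    refine Finset.sum_congr rfl fun i _ => ?_
    rw [SA_smul, hm]
    ring
  have e1 : SA (fun x => ∑ i, b i x * crl b i x) =
      SA (fun x => ∑ i, a i x * crl a i x) - 2 * ∑ i, m i ^ 2 := by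
    have e2 : SA (fun x => ∑ i, b i x * crl b i x) =
        SA (fun x => (((∑ i, a i x * crl a i x) - ∑ i, m i * crl a i x) -
          2 * ∑ i, m i * a i x) + 2 * ∑ i, m i ^ 2) := SA_congr fun x hx => by
      have hx0 := ne_of_norm hx
      simp only [Fin.sum_univ_three, hcrl _ x hx0]
      simp only [hb]
      ring
    have d1 : Sm fun x => 2 * ∑ i, m i * a i x := s4.smul 2
    have d2 : Sm fun x => (∑ i, a i x * crl a i x) - ∑ i, m i * crl a i x := s1.sub s3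
    have d3 : Sm fun x => ((∑ i, a i x * crl a i x) - ∑ i, m i * crl a i x) -
      2 * ∑ i, m i * a i x := d2.sub d1
    rw [e2, SA_add d3.cont continuousOn_const, SA_sub d2.cont d1.cont, SA_sub s1.cont s3.cont,
      SA_smul, q3, q4, SA_const]
    ring
  have e3 : SA (fun x => ∑ i, crl b i x ^ 2) =
      SA (fun x => ∑ i, crl a i x ^ 2) - 4 * ∑ i, m i ^ 2 := by
    have e2 : SA (fun x => ∑ i, crl b i x ^ 2) =
        SA (fun x => ((∑ i, crl a i x ^ 2) - 4 * ∑ i, m i * crl a i x) + 4 * ∑ i, m i ^ 2) :=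
      SA_congr fun x hx => by
        have hx0 := ne_of_norm hx
        simp only [Fin.sum_univ_three, hcrl _ x hx0]
        ring
    have d1 : Sm fun x => 4 * ∑ i, m i * crl a i x := s3.smul 4
    have d2 : Sm fun x => (∑ i, crl a i x ^ 2) - 4 * ∑ i, m i * crl a i x := s2.sub d1
    rw [e2, SA_add d2.cont continuousOn_const, SA_sub s2.cont d1.cont, SA_smul, q3, SA_const]
    ring
  have e4 : ∑ i, SA (crl a i) ^ 2 = 4 * ∑ i, m i ^ 2 := by
    rw [Finset.mul_sum]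
    refine Finset.sum_congr rfl fun i _ => ?_
    rw [hcm]
    ring
  rw [e1, e3] at h1
  rw [e4]
  linarith

/-- the mean of the curl -/
theorem SA_crl {a : Fin 3 → E → ℝ} (ha : ∀ i, Sm (a i)) (i : Fin 3) :
    SA (crl a i) = 2 * SA (a i) := by
  have s1 := (ha (i + 2)).Y (i + 1)
  have s2 := (ha (i + 1)).Y (i + 2)
  have s3 : Sm fun x => Y (i + 1) (a (i + 2)) x - Y (i + 2) (a (i + 1)) x := s1.sub s2
  have s4 : Sm fun x => 2 * a i x := (ha i).smul 2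
  have e1 : crl a i = fun x => (Y (i + 1) (a (i + 2)) x - Y (i + 2) (a (i + 1)) x) +
    2 * a i x := rfl
  rw [e1, SA_add s3.cont s4.cont, SA_sub s1.cont s2.cont, SA_smul, SA_Y (ha _), SA_Y (ha _)]
  ring

end Pool.Agent.Lib.Pex
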