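import Pool.Agent.Lib.Pex.AvK

set_option autoImplicit false

/-!
# Disintegration
-/

open MeasureTheory Set Metric
open scoped ContDiff Pointwise

namespace Pool.Agent.Lib.Pex

open Pool.Agent.P28b04d Pool.Agent.Lib.Psd

abbrev E5 : Type := EuclideanSpace ℝ (Fin 5)

/-- bounding an integral over the ball of the parameters -/
theorem dis_le {G : Pp → ℝ} (hG : ContinuousOn G Kp) {g : E5 → ℝ} (hg : Continuous g)
    (h : ∀ o : E5, ‖o‖ ≤ 1 →
      ∫ y in closedBall (0 : E) (Real.sqrt (1 - ‖o‖ ^ 2)), G (o, y) ≤ g o) :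
    ∫ p in Kp, G p ≤ ∫ o in closedBall (0 : E5) 1, g o := by
  have hi : Integrable (Kp.indicator G) := (integrable_indicator_iff Kp_compact.measurableSet).2
    (hG.integrableOn_compact Kp_compact)
  have hi' : Integrable (Kp.indicator G) ((volume : Measure E5).prod (volume : Measure E)) := hi
  have e1 : ∫ p in Kp, G p = ∫ o : E5, ∫ y : E, Kp.indicator G (o, y) := by
    rw [← integral_indicator Kp_compact.measurableSet]
    exact integral_prod _ hi'
  have hg1 : IntegrableOn g (closedBall (0 : E5) 1) :=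
    hg.continuousOn.integrableOn_compact (isCompact_closedBall _ _)
  rw [e1, ← integral_indicator measurableSet_closedBall]
  refine integral_mono hi'.integral_prod_left
    ((integrable_indicator_iff measurableSet_closedBall).2 hg1) fun o => ?_
  by_cases ho : ‖o‖ ≤ 1
  · have hρ : 0 ≤ 1 - ‖o‖ ^ 2 := by nlinarith [norm_nonneg o]
    have e2 : (fun y : E => Kp.indicator G (o, y)) =
        (closedBall (0 : E) (Real.sqrt (1 - ‖o‖ ^ 2))).indicator fun y => G (o, y) := by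
      funext y
      have hmem : ((o, y) : Pp) ∈ Kp ↔ y ∈ closedBall (0 : E) (Real.sqrt (1 - ‖o‖ ^ 2)) := by
        rw [mem_closedBall_zero_iff, Real.le_sqrt (norm_nonneg _) hρ]
        show ‖o‖ ^ 2 + ‖y‖ ^ 2 ≤ 1 ↔ _
        constructor <;> intro h' <;> linarith
      by_cases hy : ((o, y) : Pp) ∈ Kp
      · rw [indicator_of_mem hy, indicator_of_mem (hmem.1 hy)]
      · rw [indicator_of_notMem hy, indicator_of_notMem (fun h' => hy (hmem.2 h'))]
    show ∫ y : E, Kp.indicator G (o, y) ≤ _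
    rw [e2, integral_indicator measurableSet_closedBall,
      indicator_of_mem (mem_closedBall_zero_iff.2 ho)]
    exact h o ho
  · have e2 : (fun y : E => Kp.indicator G (o, y)) = fun _ => 0 := by
      funext y
      have hy : ((o, y) : Pp) ∉ Kp := by
        intro h'
        have h1 : ‖o‖ ^ 2 + ‖y‖ ^ 2 ≤ 1 := h'
        push Not at ho
        nlinarith [sq_nonneg ‖y‖]
      rw [indicator_of_notMem hy]
    show ∫ y : E, Kp.indicator G (o, y) ≤ _
    rw [e2, indicator_of_notMem (fun h' => ho (mem_closedBall_zero_iff.1 h'))]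
    simp

/-! ### radial integrals in five variables -/

theorem finrank_E5 : Module.finrank ℝ E5 = 5 := by
  rw [finrank_euclideanSpace, Fintype.card_fin]

theorem radial5 {g : ℝ → ℝ} (hg : Continuous g) : ∫ o in closedBall (0 : E5) 1, g ‖o‖ =
    5 * (volume : Measure E5).real (ball 0 1) * ∫ y in (0 : ℝ)..1, y ^ 4 * g y := by
  have h1 : ∫ o in closedBall (0 : E5) 1, g ‖o‖ = ∫ o : E5, (Iic 1).indicator g ‖o‖ := by
    rw [← integral_indicator measurableSet_closedBall]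
    refine integral_congr_ae (Filter.Eventually.of_forall fun o => ?_)
    by_cases h : ‖o‖ ≤ 1
    · show (closedBall (0 : E5) 1).indicator (fun o => g ‖o‖) o = (Iic 1).indicator g ‖o‖
      rw [indicator_of_mem (mem_closedBall_zero_iff.2 h), indicator_of_mem (mem_Iic.2 h)]
    · show (closedBall (0 : E5) 1).indicator (fun o => g ‖o‖) o = (Iic 1).indicator g ‖o‖
      rw [indicator_of_notMem (fun h' => h (mem_closedBall_zero_iff.1 h')),
        indicator_of_notMem (fun h' => h (mem_Iic.1 h'))]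
  rw [h1, integral_fun_norm_addHaar, finrank_E5]
  have h2 : ∫ y in Ioi (0 : ℝ), y ^ (5 - 1) • (Iic 1).indicator g y =
      ∫ y in (0 : ℝ)..1, y ^ 4 * g y := by
    have h3 : ∀ y : ℝ, y ^ (5 - 1) • (Iic 1).indicator g y =
        (Iic 1).indicator (fun y => y ^ 4 * g y) y := by
      intro y
      by_cases h : y ∈ Iic (1 : ℝ)
      · rw [indicator_of_mem h, indicator_of_mem h, smul_eq_mul]
      · rw [indicator_of_notMem h, indicator_of_notMem h, smul_zero]
    simp only [h3]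
    rw [setIntegral_indicator measurableSet_Iic, Ioi_inter_Iic,
      intervalIntegral.integral_of_le zero_le_one]
  rw [h2]
  simp only [smul_eq_mul, nsmul_eq_mul]
  push_cast
  ring

noncomputable def I4 : ℝ := ∫ o in closedBall (0 : E5) 1, (1 - ‖o‖ ^ 2) ^ 2

theorem V5_pos : 0 < (volume : Measure E5).real (ball (0 : E5) 1) :=
  ENNReal.toReal_pos (measure_ball_pos _ _ one_pos).ne' measure_ball_lt_top.ne

theorem I4_eq : I4 = 8 / 63 * (volume : Measure E5).real (ball (0 : E5) 1) := by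
  unfold I4
  rw [radial5 (g := fun y => (1 - y ^ 2) ^ 2) (by fun_prop)]
  have h1 : ∫ y in (0 : ℝ)..1, y ^ 4 * (1 - y ^ 2) ^ 2 = 8 / 315 := by
    have e : ∀ y : ℝ, y ^ 4 * (1 - y ^ 2) ^ 2 = y ^ 4 - 2 * y ^ 6 + y ^ 8 := fun y => by ring
    simp only [e]
    rw [intervalIntegral.integral_add, intervalIntegral.integral_sub,
      intervalIntegral.integral_const_mul, integral_pow, integral_pow, integral_pow]
    · norm_num
    all_goals exact Continuous.intervalIntegrable (by fun_prop) _ _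
  rw [h1]
  ring

theorem I4_pos : 0 < I4 := by
  rw [I4_eq]
  have := V5_pos
  positivity

theorem I2_eq : ∫ o in closedBall (0 : E5) 1, (1 - ‖o‖ ^ 2) = 9 / 4 * I4 := by
  rw [I4_eq, radial5 (g := fun y => 1 - y ^ 2) (by fun_prop)]
  have h1 : ∫ y in (0 : ℝ)..1, y ^ 4 * (1 - y ^ 2) = 2 / 35 := by
    have e : ∀ y : ℝ, y ^ 4 * (1 - y ^ 2) = y ^ 4 - y ^ 6 := fun y => by ring
    simp only [e]
    rw [intervalIntegral.integral_sub, integral_pow, integral_pow]
    · norm_num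
    all_goals exact Continuous.intervalIntegrable (by fun_prop) _ _
  rw [h1]
  ring

/-! ### complex multiplication -/

/-- Multiplication by a complex number on `ℝ⁴ = ℂ²`. -/
noncomputable def cm (c : ℂ) (x : E) : E := c.re • x + c.im • J4 x

theorem cm_norm (c : ℂ) (x : E) : ‖cm c x‖ = ‖c‖ * ‖x‖ := by
  have h : ‖cm c x‖ ^ 2 = (‖c‖ * ‖x‖) ^ 2 := by
    rw [mul_pow, ← Complex.normSq_eq_norm_sq, Complex.normSq_apply, norm_sq_four, norm_sq_four]
    simp [cm, J4]
    ring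
  exact (sq_eq_sq₀ (norm_nonneg _) (by positivity)).1 h

theorem Lf_cm (u v : W) (c : ℂ) (x : E) : Lf u v (cm c x) = c • Lf u v x := by
  unfold cm
  rw [map_add, map_smul, map_smul, Lf_J4, CmpFAux.rsmul, CmpFAux.rsmul, smul_smul, ← add_smul]
  congr 1
  exact Complex.re_add_im c

theorem cm_add (c : ℂ) (x y : E) : cm c (x + y) = cm c x + cm c y := by
  have hJ : J4 (x + y) = J4 x + J4 y := (Mv 2).map_add x y
  unfold cm
  rw [hJ, smul_add, smul_add]
  abel

theorem cm_smul (c : ℂ) (r : ℝ) (x : E) : cm c (r • x) = r • cm c x := by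
  have hJ : J4 (r • x) = r • J4 x := (Mv 2).map_smul r x
  unfold cm
  rw [hJ, smul_add, smul_comm c.re, smul_comm c.im]

theorem cm_real_mul (c : ℂ) (r : ℝ) (x : E) : cm ((r : ℂ) * c) x = r • cm c x := by
  unfold cm
  rw [smul_add, smul_smul, smul_smul]
  simp

/-- rotations -/
noncomputable def cmO (c : ℂ) (hc : ‖c‖ = 1) : E ≃ₗᵢ[ℝ] E :=
  LinearIsometry.toLinearIsometryEquiv
    { toFun := cm c
      map_add' := cm_add c
      map_smul' := cm_smul c
      norm_map' := fun x => by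
        show ‖cm c x‖ = ‖x‖
        rw [cm_norm, hc, one_mul] } rfl

theorem cmO_apply (c : ℂ) (hc : ‖c‖ = 1) (x : E) : cmO c hc x = cm c x := rfl

theorem int_cm {c : ℂ} (hc : c ≠ 0) (F : E → ℝ) (ρ : ℝ) (hρ : 0 ≤ ρ) :
    ∫ y in closedBall (0 : E) ρ, F (cm c y) =
      (‖c‖ ^ 4)⁻¹ * ∫ x in closedBall (0 : E) (‖c‖ * ρ), F x := by
  have hn : 0 < ‖c‖ := norm_pos_iff.2 hc
  set w : ℂ := c / (‖c‖ : ℂ) with hw
  have hw1 : ‖w‖ = 1 := by
    rw [hw, norm_div, Complex.norm_real, norm_norm, div_self hn.ne']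
  have hcw : c = (‖c‖ : ℂ) * w := by
    rw [hw, mul_div_cancel₀]
    exact_mod_cast hn.ne'
  set O := cmO w hw1 with hO
  have h1 : ∀ y, F (cm c y) = (fun x => F (O x)) (‖c‖ • y) := by
    intro y
    show F (cm c y) = F (cm w (‖c‖ • y))
    rw [cm_smul, ← cm_real_mul, ← hcw]
  simp only [h1]
  have h2 := Measure.setIntegral_comp_smul_of_pos (volume : Measure E) (fun x => F (O x))
    (closedBall (0 : E) ρ) hn
  rw [finrank_E, smul_eq_mul] at h2
  rw [show (∫ y in closedBall (0 : E) ρ, F (O (‖c‖ • y))) =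
    ∫ x in closedBall (0 : E) ρ, (fun x => F (O x)) (‖c‖ • x) from rfl, h2]
  congr 1
  have h3 : ‖c‖ • closedBall (0 : E) ρ = closedBall (0 : E) (‖c‖ * ρ) := by
    rw [_root_.smul_closedBall _ _ hρ, smul_zero, norm_norm]
  rw [h3]
  have h4 := O.measurePreserving.setIntegral_preimage_emb
    O.toHomeomorph.measurableEmbedding F (closedBall (0 : E) (‖c‖ * ρ))
  have h5 : O ⁻¹' closedBall (0 : E) (‖c‖ * ρ) = closedBall (0 : E) (‖c‖ * ρ) := by
    ext x
    rw [mem_preimage, mem_closedBall_zero_iff, mem_closedBall_zero_iff, O.norm_map]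
  rw [h5] at h4
  exact h4

/-- The factor of the radial direction. -/
noncomputable def k0 (s : ℝ) (p : Pp) : ℂ := 1 + (s : ℂ) * mt p 0 0

theorem k0_eq (s : ℝ) (p : Pp) : k0 s p = 1 + ((s * (Real.sqrt 2 * p.1 0) : ℝ) : ℂ) * Complex.I := by
  unfold k0
  show 1 + (s : ℂ) * (Complex.I * ((Real.sqrt 2 * p.1 0 : ℝ) : ℂ)) = _
  push_cast
  ring

theorem k0_norm_sq (s : ℝ) (p : Pp) : ‖k0 s p‖ ^ 2 = 1 + 2 * s ^ 2 * p.1 0 ^ 2 := by
  have h2 : Real.sqrt 2 * Real.sqrt 2 = 2 := Real.mul_self_sqrt (by norm_num)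
  have e : k0 s p = ((1 : ℝ) : ℂ) + ((s * (Real.sqrt 2 * p.1 0) : ℝ) : ℂ) * Complex.I := by
    rw [k0_eq, Complex.ofReal_one]
  rw [← Complex.normSq_eq_norm_sq, e, Complex.normSq_add_mul_I]
  linear_combination (s ^ 2 * p.1 0 ^ 2) * h2

theorem k0_ge (s : ℝ) (p : Pp) : 1 ≤ ‖k0 s p‖ := by
  have h := k0_norm_sq s p
  have h1 : (1 : ℝ) ^ 2 ≤ ‖k0 s p‖ ^ 2 := by
    rw [h]
    nlinarith [mul_nonneg (sq_nonneg s) (sq_nonneg (p.1 0))]
  exact (abs_le_of_sq_le_sq' h1 (norm_nonneg _)).2.trans le_rfl |> fun h => by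
    simpa using h

theorem k0_ne (s : ℝ) (p : Pp) : k0 s p ≠ 0 := by
  intro h
  have := k0_ge s p
  rw [h, norm_zero] at this
  linarith

theorem coord_le (o : E5) (i : Fin 5) : o i ^ 2 ≤ ‖o‖ ^ 2 := by
  rw [EuclideanSpace.norm_sq_eq]
  have h := Finset.single_le_sum (f := fun i => ‖o i‖ ^ 2) (fun _ _ => sq_nonneg _)
    (Finset.mem_univ i)
  simpa using h

theorem k0_le {s : ℝ} {p : Pp} (hp : ‖p.1‖ ≤ 1) : ‖k0 s p‖ ≤ 1 + s ^ 2 := by
  have h := k0_norm_sq s p
  have h1 := coord_le p.1 0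
  have h2 : p.1 0 ^ 2 ≤ 1 := by nlinarith [norm_nonneg p.1]
  have h3 : ‖k0 s p‖ ^ 2 ≤ (1 + s ^ 2) ^ 2 := by
    rw [h]
    nlinarith [sq_nonneg s, sq_nonneg (s ^ 2), mul_le_mul_of_nonneg_left h2 (sq_nonneg s)]
  exact (sq_le_sq₀ (norm_nonneg _) (by positivity)).1 h3

/-- The chart coordinate. -/
noncomputable def zeta (s : ℝ) (p : Pp) : E := cm ((s : ℂ) / k0 s p) p.2

theorem mt_cont (i j : Fin 3) : Continuous fun p : Pp => mt p i j := by
  have h : (fun p : Pp => mt p i j) = fun p => Sk p j i := rfl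
  rw [h]
  exact (continuous_apply i).comp ((continuous_apply j).comp Sk_smooth.continuous)

theorem k0_cont (s : ℝ) : Continuous fun p : Pp => k0 s p :=
  continuous_const.add (continuous_const.mul (mt_cont 0 0))

theorem zeta_cont (s : ℝ) : Continuous fun p : Pp => zeta s p := by
  have h1 : Continuous fun p : Pp => (s : ℂ) / k0 s p :=
    continuous_const.div (k0_cont s) fun p => k0_ne s p
  have h2 : Continuous fun p : Pp => J4 p.2 := (Mv 2).continuous.comp continuous_snd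
  unfold zeta cm
  exact ((Complex.continuous_re.comp h1).smul continuous_snd).add
    ((Complex.continuous_im.comp h1).smul h2)

/-- the volume of the ball of the parameters -/
theorem cK_eq : cK = vB * I4 := by
  have hg : ∀ c : ℝ, Continuous fun o : E5 => c * (vB * (1 - ‖o‖ ^ 2) ^ 2) := by
    intro c
    fun_prop
  have hvol : ∀ o : E5, ‖o‖ ≤ 1 → ∀ c : ℝ,
      ∫ _y in closedBall (0 : E) (Real.sqrt (1 - ‖o‖ ^ 2)), c = c * (vB * (1 - ‖o‖ ^ 2) ^ 2) := by
    intro o ho c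
    have hρ : 0 ≤ 1 - ‖o‖ ^ 2 := by nlinarith [norm_nonneg o]
    rw [setIntegral_const, smul_eq_mul, measureReal_def,
      Measure.addHaar_closedBall _ _ (Real.sqrt_nonneg _), ENNReal.toReal_mul, finrank_E,
      ENNReal.toReal_ofReal (by positivity)]
    have e : Real.sqrt (1 - ‖o‖ ^ 2) ^ 4 = (1 - ‖o‖ ^ 2) ^ 2 := by
      rw [show Real.sqrt (1 - ‖o‖ ^ 2) ^ 4 = (Real.sqrt (1 - ‖o‖ ^ 2) ^ 2) ^ 2 by ring,
        Real.sq_sqrt hρ]
    rw [e]
    unfold vB
    rw [measureReal_def]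
    ring
  have hc1 : ∀ c : ℝ, ∫ _p in Kp, c = cK * c := by
    intro c
    rw [setIntegral_const, smul_eq_mul]
    rfl
  have h2 : ∀ c : ℝ, ∫ o in closedBall (0 : E5) 1, c * (vB * (1 - ‖o‖ ^ 2) ^ 2) =
      c * (vB * I4) := by
    intro c
    rw [integral_const_mul, integral_const_mul]
    rfl
  have h3 := dis_le (G := fun _ => 1) continuousOn_const (hg 1) fun o ho => (hvol o ho 1).le
  have h4 := dis_le (G := fun _ => -1) continuousOn_const (hg (-1)) fun o ho => (hvol o ho (-1)).le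
  rw [hc1, h2] at h3 h4
  linarith

/-- the averaging lemma -/
theorem avg_le {F : E → ℝ} (hF : Continuous F) {s A B C : ℝ} (hs0 : 0 < s)
    (hB : 0 ≤ B) (hC : 0 ≤ C)
    (hm : ∀ R, 0 < R → R ≤ s → ∫ x in closedBall (0 : E) R, F x ≤
      vB * R ^ 4 * (A + B * (s / R) + C * (s / R) ^ 2)) :
    cK⁻¹ * ∫ p in Kp, F (zeta s p) ≤ A + 3 / 2 * (1 + s ^ 2) * B + 9 / 4 * (1 + s ^ 2) ^ 2 * C := by
  have hv := vB_pos
  have hI := I4_pos
  set a := A + 3 / 4 * ((1 + s ^ 2) * B) with ha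
  set b := 1 / 3 * ((1 + s ^ 2) * B) + (1 + s ^ 2) ^ 2 * C with hb
  have hg : Continuous fun o : E5 => vB * (a * (1 - ‖o‖ ^ 2) ^ 2 + b * (1 - ‖o‖ ^ 2)) := by
    fun_prop
  have h1 : ∫ p in Kp, F (zeta s p) ≤ ∫ o in closedBall (0 : E5) 1,
      vB * (a * (1 - ‖o‖ ^ 2) ^ 2 + b * (1 - ‖o‖ ^ 2)) := by
    refine dis_le (hF.comp (zeta_cont s)).continuousOn hg fun o ho => ?_
    have hρ : 0 ≤ 1 - ‖o‖ ^ 2 := by nlinarith [norm_nonneg o]
    set ρ := Real.sqrt (1 - ‖o‖ ^ 2) with hρd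
    have hρ2 : ρ ^ 2 = 1 - ‖o‖ ^ 2 := Real.sq_sqrt hρ
    have hρ0 : 0 ≤ ρ := Real.sqrt_nonneg _
    have hρ1 : ρ ≤ 1 := by
      rw [hρd, Real.sqrt_le_one]
      nlinarith [sq_nonneg ‖o‖]
    set K := k0 s (o, (0 : E)) with hK
    have hKy : ∀ y : E, k0 s (o, y) = K := fun y => rfl
    have hK1 : 1 ≤ ‖K‖ := k0_ge s _
    have hK2 : ‖K‖ ≤ 1 + s ^ 2 := k0_le (p := (o, (0 : E))) ho
    have hc : (s : ℂ) / K ≠ 0 := div_ne_zero (by exact_mod_cast hs0.ne') (k0_ne s _)
    have hcn : ‖(s : ℂ) / K‖ = s / ‖K‖ := by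
      rw [norm_div, Complex.norm_real, Real.norm_eq_abs, abs_of_pos hs0]
    have e1 : ∫ y in closedBall (0 : E) ρ, F (zeta s (o, y)) =
        ((s / ‖K‖) ^ 4)⁻¹ * ∫ x in closedBall (0 : E) (s / ‖K‖ * ρ), F x := by
      have := int_cm hc F ρ hρ0
      rw [hcn] at this
      exact this
    show ∫ y in closedBall (0 : E) ρ, F (zeta s (o, y)) ≤ _
    rw [e1]
    have hsK : 0 < s / ‖K‖ := by positivity
    rw [← hρ2]
    rcases hρ0.lt_or_eq with hpos | hzero
    · have hR0 : 0 < s / ‖K‖ * ρ := by positivity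
      have hRs : s / ‖K‖ * ρ ≤ s := by
        have : s / ‖K‖ ≤ s := div_le_self hs0.le hK1
        calc s / ‖K‖ * ρ ≤ s * 1 := mul_le_mul this hρ1 hρ0 hs0.le
          _ = s := mul_one s
      have h2 := hm _ hR0 hRs
      have h3 := mul_le_mul_of_nonneg_left h2
        (inv_nonneg.2 (by positivity : 0 ≤ (s / ‖K‖) ^ 4))
      refine h3.trans ?_
      have e2 : s / (s / ‖K‖ * ρ) = ‖K‖ / ρ := by
        field_simp
      rw [e2]
      have e3 : ((s / ‖K‖) ^ 4)⁻¹ * (vB * (s / ‖K‖ * ρ) ^ 4 *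
          (A + B * (‖K‖ / ρ) + C * (‖K‖ / ρ) ^ 2)) =
          vB * (A * (ρ ^ 2) ^ 2 + B * ‖K‖ * ρ ^ 3 + C * ‖K‖ ^ 2 * ρ ^ 2) := by
        field_simp
      rw [e3]
      refine mul_le_mul_of_nonneg_left ?_ hv.le
      have h4 : ρ ^ 3 ≤ 1 / 3 * ρ ^ 2 + 3 / 4 * ρ ^ 4 := by
        have : 0 ≤ ρ ^ 2 * (3 / 4 * (ρ - 2 / 3) ^ 2) := by positivity
        nlinarith
      have h5 : B * ‖K‖ * ρ ^ 3 ≤ B * (1 + s ^ 2) * (1 / 3 * ρ ^ 2 + 3 / 4 * ρ ^ 4) := by
        have h6 : B * ‖K‖ ≤ B * (1 + s ^ 2) := mul_le_mul_of_nonneg_left hK2 hB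
        exact mul_le_mul h6 h4 (by positivity) (by positivity)
      have h7 : C * ‖K‖ ^ 2 * ρ ^ 2 ≤ C * (1 + s ^ 2) ^ 2 * ρ ^ 2 := by
        have : ‖K‖ ^ 2 ≤ (1 + s ^ 2) ^ 2 := pow_le_pow_left₀ (norm_nonneg _) hK2 2
        gcongr
      rw [ha, hb]
      nlinarith
    · rw [← hzero]
      have : ∫ x in closedBall (0 : E) (s / ‖K‖ * 0), F x = 0 := by
        rw [mul_zero, closedBall_zero]
        exact setIntegral_measure_zero _ (measure_singleton _)
      rw [this]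
      simp
  have h2 : ∫ o in closedBall (0 : E5) 1,
      vB * (a * (1 - ‖o‖ ^ 2) ^ 2 + b * (1 - ‖o‖ ^ 2)) = vB * (a * I4 + b * (9 / 4 * I4)) := by
    rw [integral_const_mul, integral_add, integral_const_mul, integral_const_mul, I2_eq]
    · rfl
    all_goals
      exact (Continuous.continuousOn (by fun_prop)).integrableOn_compact (isCompact_closedBall _ _)
  rw [h2] at h1
  have h3 := mul_le_mul_of_nonneg_left h1 (inv_nonneg.2 cK_pos.le)
  refine h3.trans (le_of_eq ?_)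
  rw [cK_eq, ha, hb]
  field_simp
  ring

end Pool.Agent.Lib.Pex
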