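import Pool.Agent.Lib.Pex.Frb

set_option autoImplicit false

/-!
# The estimates for the averages
-/

open MeasureTheory Set Metric
open scoped ContDiff

namespace Pool.Agent.Lib.Pex

open Pool.Agent.P28b04d Pool.Agent.Lib.Psd

/-! ### radii -/

theorem arctan_le_r0 {R : ℝ} (h0 : 0 < R) (h1 : R ≤ 1 / 100) : Real.arctan R ≤ r0 := by
  have hs := sin_arctan_pos h0
  obtain ⟨s1, s2, s3⟩ := sc R
  have hc1 := Real.cos_le_one (Real.arctan R)
  have h2 : Real.sin (Real.arctan R) ≤ R := by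
    rw [s1]
    nlinarith
  by_contra hcon
  push Not at hcon
  have h3 : Real.sin r0 < Real.sin (Real.arctan R) :=
    Real.sin_lt_sin_of_lt_of_le_pi_div_two (by linarith [Real.pi_pos, r0_pos])
      (Real.arctan_lt_pi_div_two R).le hcon
  have h4 := r0_sin
  have h5 : 0 < Real.sin r0 := (sin_cos_pos r0_pos r0_lt).1
  nlinarith

/-- ratio of the sines -/
theorem sin_ratio {R s : ℝ} (hR : 0 < R) (hRs : R ≤ s) :
    Real.sin (Real.arctan s) / Real.sin (Real.arctan R) ≤ s / R := by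
  have hs : 0 < s := lt_of_lt_of_le hR hRs
  obtain ⟨a1, a2, a3⟩ := sc R
  obtain ⟨b1, b2, b3⟩ := sc s
  have hc : Real.cos (Real.arctan s) ≤ Real.cos (Real.arctan R) := by
    have h1 : Real.cos (Real.arctan s) ^ 2 ≤ Real.cos (Real.arctan R) ^ 2 := by
      have e1 : Real.cos (Real.arctan s) ^ 2 = 1 / (1 + s ^ 2) := by
        rw [eq_div_iff (by positivity)]
        exact b3
      have e2 : Real.cos (Real.arctan R) ^ 2 = 1 / (1 + R ^ 2) := by
        rw [eq_div_iff (by positivity)]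
        exact a3
      rw [e1, e2]
      refine one_div_le_one_div_of_le (by positivity) ?_
      have := pow_le_pow_left₀ hR.le hRs 2
      linarith
    exact (sq_le_sq₀ b2.le a2.le).1 h1
  rw [a1, b1, div_le_div_iff₀ (by positivity) hR]
  have : 0 ≤ s * R := by positivity
  nlinarith

section
variable {α : W → W →L[ℝ] ℝ} {z u v : W}

/-- The value at the scale `s`. -/
noncomputable def Dm' (α : W → W →L[ℝ] ℝ) (z u v : W) (s : ℝ) : Fin 3 → ℝ :=
  dvec (bm α z u v) (Real.arctan s)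

theorem good_at (hα : Conn α) (hp : Pinched (1 / 100) α) (h : ON3 z u v) {R : ℝ} (h0 : 0 < R)
    (h1 : R ≤ 1 / 100) : Good (bm α z u v) (Nn α z u v) (Real.arctan R) := by
  obtain ⟨hg, -⟩ := start hα (by norm_num) le_rfl hp h
  have hR := rd_of_pinched hα hp h
  have hs := sin_arctan_pos h0
  obtain ⟨n, hn⟩ := pow_unbounded_of_one_lt (Real.sin r0 / Real.sin (Real.arctan R))
    (by norm_num : (1 : ℝ) < 2)
  rw [div_lt_iff₀ hs] at hn
  exact (all_down hR (by norm_num) le_rfl r0_pos r0_lt r0_sin.le hg n (Real.arctan R)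
    (Real.arctan_pos.2 h0) (arctan_le_r0 h0 h1) hn.le).1

/-- variation below the scale `s` -/
theorem var_le (hα : Conn α) (hp : Pinched (1 / 100) α) (h : ON3 z u v) {R s : ℝ} (hR : 0 < R)
    (hRs : R ≤ s) (hs1 : s ≤ 1 / 100) :
    n3 (Dm' α z u v R - Dm' α z u v s) ≤
      89 / 2000 * (2 * (s / R) - 1) * n3 (Dm' α z u v s) := by
  have hs0 : 0 < s := lt_of_lt_of_le hR hRs
  have hRD := rd_of_pinched hα hp h
  have hg := good_at hα hp h hs0 hs1
  have hle := arctan_le_r0 hs0 hs1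
  have hsin : Real.sin (Real.arctan s) ^ 2 ≤ 1 / 10 := by
    have h2 : Real.sin (Real.arctan s) ≤ Real.sin r0 :=
      Real.sin_le_sin_of_le_of_le_pi_div_two (by linarith [Real.pi_pos, Real.arctan_pos.2 hs0])
        r0_lt.le hle
    have h3 := pow_le_pow_left₀ (sin_arctan_pos hs0).le h2 2
    rw [r0_sin] at h3
    exact h3
  have h2 := ratio_bound hRD (by norm_num) le_rfl (Real.arctan_pos.2 hs0)
    (Real.arctan_lt_pi_div_two s) hsin hg (r := Real.arctan R) (Real.arctan_pos.2 hR)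
    (Real.arctan_mono hRs)
  refine h2.trans (mul_le_mul_of_nonneg_right ?_ (n3_nonneg _))
  have h3 := sin_ratio hR hRs
  have e : 2 * Real.sin (Real.arctan s) / Real.sin (Real.arctan R) =
      2 * (Real.sin (Real.arctan s) / Real.sin (Real.arctan R)) := by ring
  rw [e]
  linarith

theorem D_pos (hα : Conn α) (hp : Pinched (1 / 100) α) (h : ON3 z u v) {s : ℝ} (h0 : 0 < s)
    (h1 : s ≤ 1 / 100) : 0 < n3 (Dm' α z u v s) := by
  have hg := good_at hα hp h h0 h1
  have hsin : Real.sin (Real.arctan s) ^ 2 ≤ 1 / 10 := by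
    have h2 : Real.sin (Real.arctan s) ≤ Real.sin r0 :=
      Real.sin_le_sin_of_le_of_le_pi_div_two (by linarith [Real.pi_pos, Real.arctan_pos.2 h0])
        r0_lt.le (arctan_le_r0 h0 h1)
    have h3 := pow_le_pow_left₀ (sin_arctan_pos h0).le h2 2
    rw [r0_sin] at h3
    exact h3
  exact (M_pos_iff (Real.arctan_pos.2 h0) (Real.arctan_lt_pi_div_two s) hsin).1 hg.1

/-- the energy in terms of the means -/
theorem N_le (hα : Conn α) (hp : Pinched (1 / 100) α) (h : ON3 z u v) {R : ℝ} (h0 : 0 < R)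
    (h1 : R ≤ 1 / 100) : Nn α z u v (Real.arctan R) ≤
      17 / 16 * (R ^ 4 / 8 * n3 (Dm' α z u v R) ^ 2) := by
  have hg := (good_at hα hp h h0 h1).2
  obtain ⟨s1, s2, s3⟩ := sc R
  have hs := sin_arctan_pos h0
  have hM := M_dvec (b := bm α z u v) hs.ne' s2.ne'
  rw [hM] at hg
  refine hg.trans ?_
  have hc1 := Real.cos_le_one (Real.arctan R)
  have e : n3 (Dm' α z u v R) ^ 2 = dvec (bm α z u v) (Real.arctan R) 0 ^ 2 +
      dvec (bm α z u v) (Real.arctan R) 1 ^ 2 + dvec (bm α z u v) (Real.arctan R) 2 ^ 2 := by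
    rw [n3_sq, Fin.sum_univ_three]
    rfl
  rw [e, s1]
  set c := Real.cos (Real.arctan R) with hc
  set x := dvec (bm α z u v) (Real.arctan R) with hx
  have hc4 : c ^ 4 ≤ 1 := pow_le_one₀ s2.le hc1
  have e2 : (R * c) ^ 4 / 8 * ((x 0 ^ 2 + x 1 ^ 2) / c ^ 4 + x 2 ^ 2) =
      R ^ 4 / 8 * (x 0 ^ 2 + x 1 ^ 2 + c ^ 4 * x 2 ^ 2) := by
    field_simp
  rw [e2]
  have h3 : c ^ 4 * x 2 ^ 2 ≤ 1 * x 2 ^ 2 := mul_le_mul_of_nonneg_right hc4 (sq_nonneg _)
  have h4 : 0 ≤ R ^ 4 / 8 := by positivity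
  have h5 : R ^ 4 / 8 * (x 0 ^ 2 + x 1 ^ 2 + c ^ 4 * x 2 ^ 2) ≤
      R ^ 4 / 8 * (x 0 ^ 2 + x 1 ^ 2 + x 2 ^ 2) := mul_le_mul_of_nonneg_left (by linarith) h4
  linarith

theorem D_le (hα : Conn α) (hp : Pinched (1 / 100) α) (h : ON3 z u v) {R s : ℝ} (hR : 0 < R)
    (hRs : R ≤ s) (hs1 : s ≤ 1 / 100) :
    n3 (Dm' α z u v R) ≤ (1 + 89 / 2000 * (2 * (s / R) - 1)) * n3 (Dm' α z u v s) := by
  have h1 := var_le hα hp h hR hRs hs1
  have h2 := n3_le_add (Dm' α z u v R) (Dm' α z u v s)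
  linarith

/-! ### the averages -/

/-- average over the parameters -/
noncomputable def Ev (f : Pp → ℝ) : ℝ := cK⁻¹ * ∫ q in Kp, f q

theorem intOn {f : Pp → ℝ} (hf : Continuous f) : IntegrableOn f Kp :=
  hf.continuousOn.integrableOn_compact Kp_compact

theorem Ev_add {f g : Pp → ℝ} (hf : Continuous f) (hg : Continuous g) :
    Ev (fun q => f q + g q) = Ev f + Ev g := by
  unfold Ev
  rw [integral_add (intOn hf) (intOn hg)]
  ring

theorem Ev_smul (c : ℝ) (f : Pp → ℝ) : Ev (fun q => c * f q) = c * Ev f := by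
  unfold Ev
  rw [integral_const_mul]
  ring

theorem Ev_const (c : ℝ) : Ev (fun _ => c) = c := by
  unfold Ev
  rw [setIntegral_const, smul_eq_mul, ← mul_assoc]
  have : cK⁻¹ * volume.real Kp = 1 := inv_mul_cancel₀ cK_pos.ne'
  rw [this, one_mul]

theorem Ev_mono {f g : Pp → ℝ} (hf : Continuous f) (hg : Continuous g)
    (h : ∀ q ∈ Kp, f q ≤ g q) : Ev f ≤ Ev g := by
  unfold Ev
  refine mul_le_mul_of_nonneg_left ?_ (inv_nonneg.2 cK_pos.le)
  exact setIntegral_mono_on (intOn hf) (intOn hg) Kp_compact.measurableSet h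

theorem Ev_aff (c b : ℝ) {f : Pp → ℝ} (hf : Continuous f) :
    Ev (fun q => c * f q + b) = c * Ev f + b := by
  have h1 := Ev_add (f := fun q => c * f q) (g := fun _ => b) (continuous_const.mul hf)
    continuous_const
  rw [Ev_smul, Ev_const] at h1
  exact h1

theorem Ev_aff2 (c c' b : ℝ) {f : Pp → ℝ} (hf : Continuous f) :
    Ev (fun q => c * (c' * f q) + b) = c * (c' * Ev f) + b := by
  have h1 := Ev_aff c b (f := fun q => c' * f q) (continuous_const.mul hf)
  rw [Ev_smul] at h1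
  exact h1

theorem Ev_sum {f : Fin 3 → Pp → ℝ} (hf : ∀ i, Continuous (f i)) (e : Fin 3 → ℝ) :
    Ev (fun q => ∑ i, e i * f i q) = ∑ i, e i * Ev (f i) := by
  have h0 : Continuous fun q => e 0 * f 0 q := continuous_const.mul (hf 0)
  have h1 : Continuous fun q => e 1 * f 1 q := continuous_const.mul (hf 1)
  have h2 : Continuous fun q => e 2 * f 2 q := continuous_const.mul (hf 2)
  have k1 := Ev_add (f := fun q => e 0 * f 0 q + e 1 * f 1 q) (g := fun q => e 2 * f 2 q)
    (h0.add h1) h2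
  have k2 := Ev_add h0 h1
  simp only [Fin.sum_univ_three]
  rw [k1, k2, Ev_smul, Ev_smul, Ev_smul]

/-- the direction `e` of the mean of the self-dual part -/
theorem EU (hα : Conn α) (hp : Pinched (1 / 100) α) (h : ON3 z u v) {s : ℝ} (h0 : 0 < s)
    (h1 : s ≤ 1 / 100) {e : Fin 3 → ℝ} (he : ∑ i, e i ^ 2 = 1) :
    Ev (fun q => ∑ i, e i * Ue α z u v i (zeta s q)) ≤
      ∑ i, e i * Dm' α z u v s i + 893 / 10000 * n3 (Dm' α z u v s) := by
  set D := Dm' α z u v s with hD
  set d := n3 D with hd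
  have hd0 : 0 ≤ d := n3_nonneg _
  set F : E → ℝ := fun x => ∑ i, e i * Ue α z u v i x with hF
  have hFc : Continuous F := continuous_finsetSum _ fun i _ =>
    continuous_const.mul (Ue_smooth hα h i).continuous
  have hs2 : s ^ 2 ≤ 1 / 10000 := by nlinarith
  have hcs : ∀ w : Fin 3 → ℝ, ∑ i, e i * w i ≤ n3 w := by
    intro w
    have h2 := Finset.sum_mul_sq_le_sq_mul_sq Finset.univ e w
    rw [he, one_mul, ← n3_sq] at h2
    exact (abs_le.1 (abs_le_of_sq_le_sq h2 (n3_nonneg w))).2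
  have he2 : |e 2| ≤ 1 := by
    have h2 : e 2 ^ 2 ≤ 1 := by
      rw [← he, Fin.sum_univ_three]
      nlinarith [sq_nonneg (e 0), sq_nonneg (e 1)]
    exact abs_le_one_iff_mul_self_le_one.2 (by nlinarith)
  have key := avg_le hFc (s := s)
    (A := ∑ i, e i * D i + (s ^ 2 - 89 / 2000 * (1 + s ^ 2)) * d)
    (B := 2 * (89 / 2000) * (1 + s ^ 2) * d) (C := 0) h0 (by positivity) le_rfl (by
      intro R hR hRs
      have hR1 : R ≤ 1 / 100 := hRs.trans h1
      obtain ⟨s1, s2, s3⟩ := sc R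
      have hs := sin_arctan_pos hR
      set r := Real.arctan R with hr
      set x := dvec (bm α z u v) r with hx
      -- the integral
      have e1 : ∫ y in closedBall (0 : E) R, F y = ∑ i, e i * (2 * vB * R ^ 2 *
          bm α z u v r i) := by
        rw [hF, integral_finsetSum]
        · refine Finset.sum_congr rfl fun i _ => ?_
          rw [integral_const_mul, int_Ue hα h hR.le]
        · intro i _
          exact ((continuous_const.mul (Ue_smooth hα h i).continuous).continuousOn).integrableOn_compact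
            (isCompact_closedBall _ _)
      have e2 : ∑ i, e i * (2 * vB * R ^ 2 * bm α z u v r i) =
          vB * R ^ 4 * (∑ i, e i * x i - Real.sin r ^ 2 * (e 2 * x 2)) := by
        have hc0 : Real.cos r ≠ 0 := s2.ne'
        have hsc := Real.sin_sq_add_cos_sq r
        have hb : ∀ i, x i = (![2 * Real.cos r ^ 2 / Real.sin r ^ 2,
            2 * Real.cos r ^ 2 / Real.sin r ^ 2, 2 / Real.sin r ^ 2] : Fin 3 → ℝ) i *
              bm α z u v r i := fun i => rfl
        have hsn : Real.sin r ^ 2 = 1 - Real.cos r ^ 2 := by linarith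
        have x0 : R ^ 2 * x 0 = 2 * bm α z u v r 0 := by
          rw [hb 0, s1]
          simp only [Matrix.cons_val_zero]
          field_simp
        have x1 : R ^ 2 * x 1 = 2 * bm α z u v r 1 := by
          rw [hb 1, s1]
          simp only [Matrix.cons_val_one, Matrix.cons_val_zero]
          field_simp
        have x2 : R ^ 2 * (Real.cos r ^ 2 * x 2) = 2 * bm α z u v r 2 := by
          rw [hb 2, s1]
          simp only [Matrix.cons_val]
          field_simp
        simp only [Fin.sum_univ_three]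
        rw [hsn]
        linear_combination (-(vB * R ^ 2 * e 0)) * x0 - (vB * R ^ 2 * e 1) * x1 -
          (vB * R ^ 2 * e 2) * x2
      rw [e1, e2]
      refine mul_le_mul_of_nonneg_left ?_ (by have := vB_pos; positivity)
      -- bounds
      set X := s / R with hX
      have hX1 : 1 ≤ X := by
        rw [hX, le_div_iff₀ hR]
        linarith
      have v1 := var_le hα hp h hR hRs h1
      have v2 := D_le hα hp h hR hRs h1
      have v3 : ∑ i, e i * x i ≤ ∑ i, e i * D i + 89 / 2000 * (2 * X - 1) * d := by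
        have v4 := hcs (Dm' α z u v R - D)
        have v5 : ∑ i, e i * (Dm' α z u v R - D) i = ∑ i, e i * x i - ∑ i, e i * D i := by
          rw [← Finset.sum_sub_distrib]
          refine Finset.sum_congr rfl fun i _ => ?_
          rw [Pi.sub_apply]
          show e i * (x i - D i) = _
          ring
        linarith
      have v6 : -(Real.sin r ^ 2 * (e 2 * x 2)) ≤
          s ^ 2 * ((1 + 89 / 2000 * (2 * X - 1)) * d) := by
        have w1 : |x 2| ≤ n3 (Dm' α z u v R) := by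
          have : x 2 ^ 2 ≤ n3 (Dm' α z u v R) ^ 2 := by
            rw [n3_sq, Fin.sum_univ_three]
            show x 2 ^ 2 ≤ x 0 ^ 2 + x 1 ^ 2 + x 2 ^ 2
            nlinarith [sq_nonneg (x 0), sq_nonneg (x 1)]
          exact abs_le_of_sq_le_sq this (n3_nonneg _)
        have w2 : -(e 2 * x 2) ≤ n3 (Dm' α z u v R) := by
          have : |e 2 * x 2| ≤ 1 * n3 (Dm' α z u v R) := by
            rw [abs_mul]
            exact mul_le_mul he2 w1 (abs_nonneg _) zero_le_one
          rw [one_mul] at this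
          linarith [(abs_le.1 this).1]
        have w3 : Real.sin r ^ 2 ≤ s ^ 2 := by
          have hsR : Real.sin r ≤ R := by
            rw [s1]
            have := Real.cos_le_one r
            nlinarith
          exact pow_le_pow_left₀ hs.le (hsR.trans hRs) 2
        have w4 : 0 ≤ n3 (Dm' α z u v R) := n3_nonneg _
        calc -(Real.sin r ^ 2 * (e 2 * x 2)) = Real.sin r ^ 2 * (-(e 2 * x 2)) := by ring
          _ ≤ Real.sin r ^ 2 * n3 (Dm' α z u v R) :=
              mul_le_mul_of_nonneg_left w2 (sq_nonneg _)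
          _ ≤ s ^ 2 * ((1 + 89 / 2000 * (2 * X - 1)) * d) :=
              mul_le_mul w3 v2 w4 (sq_nonneg _)
      rw [zero_mul, add_zero]
      calc ∑ i, e i * x i - Real.sin r ^ 2 * (e 2 * x 2) ≤
            ∑ i, e i * D i + 89 / 2000 * (2 * X - 1) * d +
              s ^ 2 * ((1 + 89 / 2000 * (2 * X - 1)) * d) := by linarith
        _ = _ := by ring)
  refine key.trans ?_
  have h2 : (s ^ 2 - 89 / 2000 * (1 + s ^ 2)) * d + 3 / 2 * (1 + s ^ 2) *
      (2 * (89 / 2000) * (1 + s ^ 2) * d) ≤ 893 / 10000 * d := by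
    have h3 : (s ^ 2 - 89 / 2000 * (1 + s ^ 2)) + 3 / 2 * (1 + s ^ 2) *
      (2 * (89 / 2000) * (1 + s ^ 2)) ≤ 893 / 10000 := by
      nlinarith [sq_nonneg s]
    have h4 := mul_le_mul_of_nonneg_right h3 hd0
    calc _ = ((s ^ 2 - 89 / 2000 * (1 + s ^ 2)) + 3 / 2 * (1 + s ^ 2) *
      (2 * (89 / 2000) * (1 + s ^ 2))) * d := by ring
      _ ≤ _ := h4
  linarith

/-- averages of functions bounded by the energy -/
theorem EQ (hα : Conn α) (hp : Pinched (1 / 100) α) (h : ON3 z u v) {s : ℝ} (h0 : 0 < s)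
    (h1 : s ≤ 1 / 100) {F : E → ℝ} (hF : Continuous F) {k : ℝ} (hk : 0 ≤ k)
    (hb : ∀ R, 0 < R → R ≤ s → ∫ x in closedBall (0 : E) R, F x ≤
      8 * vB * k * (1 + R ^ 2) * Nn α z u v (Real.arctan R)) :
    Ev (fun q => F (zeta s q)) ≤ 1262 / 1000 * k * n3 (Dm' α z u v s) ^ 2 := by
  set d := n3 (Dm' α z u v s) with hd
  have hd0 : 0 ≤ d := n3_nonneg _
  have hs2 : s ^ 2 ≤ 1 / 10000 := by nlinarith
  have key := avg_le hF (s := s)
    (A := 10627 / 10000 * k * (1911 / 2000) ^ 2 * d ^ 2)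
    (B := 10627 / 10000 * k * (2 * (1911 / 2000) * (89 / 1000)) * d ^ 2)
    (C := 10627 / 10000 * k * (89 / 1000) ^ 2 * d ^ 2) h0 (by positivity) (by positivity) (by
      intro R hR hRs
      have hR1 : R ≤ 1 / 100 := hRs.trans h1
      refine (hb R hR hRs).trans ?_
      have n1 := N_le hα hp h hR hR1
      have n2 := D_le hα hp h hR hRs h1
      rw [← hd] at n2
      set X := s / R with hX
      have hv := vB_pos
      have hR2 : R ^ 2 ≤ 1 / 10000 := by nlinarith
      have hX1 : 1 ≤ X := by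
        rw [hX, le_div_iff₀ hR]
        linarith
      have n3' : n3 (Dm' α z u v R) ^ 2 ≤ ((1911 / 2000 + 89 / 1000 * X) * d) ^ 2 := by
        refine pow_le_pow_left₀ (n3_nonneg _) (n2.trans (le_of_eq ?_)) 2
        ring
      have n4 : Nn α z u v (Real.arctan R) ≤
          17 / 16 * (R ^ 4 / 8 * ((1911 / 2000 + 89 / 1000 * X) * d) ^ 2) := by
        refine n1.trans ?_
        gcongr
      have n5 : (1 + R ^ 2) * (17 / 16) ≤ 10627 / 10000 := by linarith
      have hQ : 0 ≤ vB * R ^ 4 * k * ((1911 / 2000 + 89 / 1000 * X) * d) ^ 2 := by positivity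
      calc 8 * vB * k * (1 + R ^ 2) * Nn α z u v (Real.arctan R) ≤
            8 * vB * k * (1 + R ^ 2) *
              (17 / 16 * (R ^ 4 / 8 * ((1911 / 2000 + 89 / 1000 * X) * d) ^ 2)) :=
            mul_le_mul_of_nonneg_left n4 (by positivity)
        _ = ((1 + R ^ 2) * (17 / 16)) *
              (vB * R ^ 4 * k * ((1911 / 2000 + 89 / 1000 * X) * d) ^ 2) := by ring
        _ ≤ 10627 / 10000 * (vB * R ^ 4 * k * ((1911 / 2000 + 89 / 1000 * X) * d) ^ 2) :=
            mul_le_mul_of_nonneg_right n5 hQ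
        _ = _ := by ring)
  refine key.trans ?_
  have h3 : 10627 / 10000 * (1911 / 2000) ^ 2 + 3 / 2 * (1 + s ^ 2) *
      (10627 / 10000 * (2 * (1911 / 2000) * (89 / 1000))) + 9 / 4 * (1 + s ^ 2) ^ 2 *
      (10627 / 10000 * (89 / 1000) ^ 2) ≤ 1262 / 1000 := by
    nlinarith [sq_nonneg s]
  have h4 : 0 ≤ k * d ^ 2 := by positivity
  have h5 := mul_le_mul_of_nonneg_right h3 h4
  calc _ = (10627 / 10000 * (1911 / 2000) ^ 2 + 3 / 2 * (1 + s ^ 2) *
      (10627 / 10000 * (2 * (1911 / 2000) * (89 / 1000))) + 9 / 4 * (1 + s ^ 2) ^ 2 *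
      (10627 / 10000 * (89 / 1000) ^ 2)) * (k * d ^ 2) := by ring
    _ ≤ 1262 / 1000 * (k * d ^ 2) := h5
    _ = _ := by ring

theorem EG (hα : Conn α) (hp : Pinched (1 / 100) α) (h : ON3 z u v) {s : ℝ} (h0 : 0 < s)
    (h1 : s ≤ 1 / 100) : Ev (fun q => QU α z u v (zeta s q) + QV α z u v (zeta s q)) ≤
      1263 / 1000 * n3 (Dm' α z u v s) ^ 2 := by
  refine (EQ hα hp h h0 h1 (F := fun x => QU α z u v x + QV α z u v x)
    ((QU_smooth hα h).continuous.add (QV_smooth hα h).continuous)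
    (k := 1 + (1 / 100) ^ 2) (by norm_num) fun R hR _ => int_QUV hα hp h hR.le).trans ?_
  exact mul_le_mul_of_nonneg_right (by norm_num) (sq_nonneg _)

theorem EV (hα : Conn α) (hp : Pinched (1 / 100) α) (h : ON3 z u v) {s : ℝ} (h0 : 0 < s)
    (h1 : s ≤ 1 / 100) : Ev (fun q => QV α z u v (zeta s q)) ≤
      254 / 1000000 * n3 (Dm' α z u v s) ^ 2 := by
  refine (EQ hα hp h h0 h1 (F := fun x => QV α z u v x)
    (QV_smooth hα h).continuous
    (k := 2001 / 10000000) (by norm_num) fun R hR hRs => ?_).trans ?_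
  · refine (int_QV hα hp h hR.le).trans ?_
    have hR1 : R ≤ 1 / 100 := hRs.trans h1
    have hR4 : R ^ 4 ≤ (1 / 100) ^ 4 := pow_le_pow_left₀ hR.le hR1 4
    have hN : 0 ≤ Nn α z u v (Real.arctan R) :=
      nonneg_of_wt (fun r => Nn_deriv hα.smooth h r) Nn_zero (fun r _ => u2_nonneg r)
        ⟨Real.arctan_nonneg.2 hR.le, (Real.arctan_lt_pi_div_two R).le⟩
    have hv := vB_pos
    have h2 : 2 * (1 / 100 : ℝ) ^ 2 + R ^ 4 / 2 ≤ 2001 / 10000000 := by linarith
    gcongr
  · exact mul_le_mul_of_nonneg_right (by norm_num) (sq_nonneg _)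

/-! ### continuity of the components -/

theorem cm_cont {X : Type} [TopologicalSpace X] {c : X → ℂ} {f : X → E} (hc : Continuous c)
    (hf : Continuous f) : Continuous fun x => cm (c x) (f x) := by
  have h2 : Continuous fun x => J4 (f x) := (Mv 2).continuous.comp hf
  unfold cm
  exact ((Complex.continuous_re.comp hc).smul hf).add ((Complex.continuous_im.comp hc).smul h2)

theorem mkE_cont {X : Type} [TopologicalSpace X] {a b : X → ℂ} (ha : Continuous a)
    (hb : Continuous b) : Continuous fun x => mkE (a x) (b x) := by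
  unfold mkE
  refine (PiLp.continuous_toLp 2 _).comp (continuous_pi fun i => ?_)
  fin_cases i
  · exact Complex.continuous_re.comp ha
  · exact Complex.continuous_im.comp ha
  · exact Complex.continuous_re.comp hb
  · exact Complex.continuous_im.comp hb

theorem at_cont (s : ℝ) (w : E) : Continuous fun q : Pp => at' s q w := by
  have h1 : Continuous fun q : Pp => (k0 s q)⁻¹ := (k0_cont s).inv₀ fun q => k0_ne s q
  have h2 : Continuous fun q : Pp => Np q w := by
    unfold Np
    exact mkE_cont ((continuous_const.mul (mt_cont 1 1)).add (continuous_const.mul (mt_cont 1 2)))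
      ((continuous_const.mul (mt_cont 2 1)).add (continuous_const.mul (mt_cont 2 2)))
  have h3 : Continuous fun q : Pp => (s : ℂ) * ll q w := by
    unfold ll
    exact continuous_const.mul ((continuous_const.mul (mt_cont 0 1)).add
      (continuous_const.mul (mt_cont 0 2)))
  unfold at'
  exact cm_cont h1 ((continuous_const.add (h2.const_smul s)).sub (cm_cont h3 (zeta_cont s)))

theorem Tq_cont (hα : Conn α) (h : ON3 z u v) (s : ℝ) (i j : Fin 4) :
    Continuous fun q => Tq α z u v s q i j := by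
  unfold Tq bf
  refine continuous_finsetSum _ fun k _ => continuous_finsetSum _ fun l _ => ?_
  have h1 : Continuous fun q : Pp => at' s q (ev i) k :=
    (EuclideanSpace.proj (𝕜 := ℝ) k).continuous.comp (at_cont s (ev i))
  have h2 : Continuous fun q : Pp => at' s q (ev j) l :=
    (EuclideanSpace.proj (𝕜 := ℝ) l).continuous.comp (at_cont s (ev j))
  exact (h1.mul h2).mul ((tE_smooth hα h k l).continuous.comp (zeta_cont s))

theorem UT_cont (hα : Conn α) (h : ON3 z u v) (s : ℝ) (i : Fin 3) :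
    Continuous fun q => Uc (Tq α z u v s q) i := by
  fin_cases i
  · exact (Tq_cont hα h s 0 2).add (Tq_cont hα h s 3 1)
  · exact (Tq_cont hα h s 0 3).add (Tq_cont hα h s 1 2)
  · exact (Tq_cont hα h s 0 1).add (Tq_cont hα h s 2 3)

theorem VT_cont (hα : Conn α) (h : ON3 z u v) (s : ℝ) (i : Fin 3) :
    Continuous fun q => Vc (Tq α z u v s q) i := by
  fin_cases i
  · exact (Tq_cont hα h s 0 2).sub (Tq_cont hα h s 3 1)
  · exact (Tq_cont hα h s 0 3).sub (Tq_cont hα h s 1 2)
  · exact (Tq_cont hα h s 0 1).sub (Tq_cont hα h s 2 3)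

/-- components of the average -/
theorem Uc_Ak (hα : Conn α) (h : ON3 z u v) (s : ℝ) (i : Fin 3) :
    Uc (Psd.cmp (dd (Ak s α) z) u v) i = Ev fun q => Uc (Tq α z u v s q) i := by
  have hT := fun i j => cmp_Ak hα h s i j
  have hE : ∀ i j, Psd.cmp (dd (Ak s α) z) u v i j = Ev fun q => Tq α z u v s q i j := hT
  fin_cases i
  · show Psd.cmp (dd (Ak s α) z) u v 0 2 + Psd.cmp (dd (Ak s α) z) u v 3 1 = _
    rw [hE, hE, ← Ev_add (Tq_cont hα h s 0 2) (Tq_cont hα h s 3 1)]
    rfl
  · show Psd.cmp (dd (Ak s α) z) u v 0 3 + Psd.cmp (dd (Ak s α) z) u v 1 2 = _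
    rw [hE, hE, ← Ev_add (Tq_cont hα h s 0 3) (Tq_cont hα h s 1 2)]
    rfl
  · show Psd.cmp (dd (Ak s α) z) u v 0 1 + Psd.cmp (dd (Ak s α) z) u v 2 3 = _
    rw [hE, hE, ← Ev_add (Tq_cont hα h s 0 1) (Tq_cont hα h s 2 3)]
    rfl

theorem Ev_sub {f g : Pp → ℝ} (hf : Continuous f) (hg : Continuous g) :
    Ev (fun q => f q - g q) = Ev f - Ev g := by
  unfold Ev
  rw [integral_sub (intOn hf) (intOn hg)]
  ring

theorem Vc_Ak (hα : Conn α) (h : ON3 z u v) (s : ℝ) (i : Fin 3) :
    Vc (Psd.cmp (dd (Ak s α) z) u v) i = Ev fun q => Vc (Tq α z u v s q) i := by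
  have hT := fun i j => cmp_Ak hα h s i j
  have hE : ∀ i j, Psd.cmp (dd (Ak s α) z) u v i j = Ev fun q => Tq α z u v s q i j := hT
  fin_cases i
  · show Psd.cmp (dd (Ak s α) z) u v 0 2 - Psd.cmp (dd (Ak s α) z) u v 3 1 = _
    rw [hE, hE, ← Ev_sub (Tq_cont hα h s 0 2) (Tq_cont hα h s 3 1)]
    rfl
  · show Psd.cmp (dd (Ak s α) z) u v 0 3 - Psd.cmp (dd (Ak s α) z) u v 1 2 = _
    rw [hE, hE, ← Ev_sub (Tq_cont hα h s 0 3) (Tq_cont hα h s 1 2)]
    rfl
  · show Psd.cmp (dd (Ak s α) z) u v 0 1 - Psd.cmp (dd (Ak s α) z) u v 2 3 = _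
    rw [hE, hE, ← Ev_sub (Tq_cont hα h s 0 1) (Tq_cont hα h s 2 3)]
    rfl

/-- scalar products with unit vectors -/
theorem dir_le {e w : Fin 3 → ℝ} (he : ∑ i, e i ^ 2 = 1) {a g : ℝ} (ha : 0 < a)
    (hg : ∑ i, w i ^ 2 ≤ g) : ∑ i, e i * w i ≤ (2 * a)⁻¹ * g + a / 2 := by
  have h1 := Finset.sum_mul_sq_le_sq_mul_sq Finset.univ e w
  rw [he, one_mul] at h1
  set x := ∑ i, e i * w i with hx
  have h2 : x ≤ (2 * a)⁻¹ * x ^ 2 + a / 2 := by
    have : (2 * a)⁻¹ * x ^ 2 + a / 2 - x = (2 * a)⁻¹ * (x - a) ^ 2 := by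
      field_simp
      ring
    have h3 : 0 ≤ (2 * a)⁻¹ * (x - a) ^ 2 := by positivity
    linarith
  have h3 : (2 * a)⁻¹ * x ^ 2 ≤ (2 * a)⁻¹ * g :=
    mul_le_mul_of_nonneg_left (h1.trans hg) (by positivity)
  linarith

theorem eta_le {s : ℝ} (h0 : 0 < s) (h1 : s ≤ 1 / 100) :
    (8 * s + 16 * s ^ 2) ^ 2 ≤ (816 / 10000) ^ 2 := by
  refine pow_le_pow_left₀ (by positivity) ?_ 2
  nlinarith

theorem QU_nonneg (x : E) : 0 ≤ QU α z u v x := Finset.sum_nonneg fun _ _ => sq_nonneg _

theorem QV_nonneg (x : E) : 0 ≤ QV α z u v x := Finset.sum_nonneg fun _ _ => sq_nonneg _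

/-- the self-dual part of the average -/
theorem near_U (hα : Conn α) (hp : Pinched (1 / 100) α) (h : ON3 z u v) {s : ℝ} (h0 : 0 < s)
    (h1 : s ≤ 1 / 100) :
    n3 (Uc (Psd.cmp (dd (Ak s α) z) u v) - Dm' α z u v s) ≤
      182 / 1000 * n3 (Dm' α z u v s) := by
  have hd := D_pos hα hp h h0 h1
  set D := Dm' α z u v s with hD
  set d := n3 D with hdd
  refine n3_le_of_dir (by positivity) fun e he => ?_
  have hs1 : s ≤ 1 := by linarith
  set w : Pp → Fin 3 → ℝ := fun q i => Uc (Tq α z u v s q) i - Ue α z u v i (zeta s q) with hw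
  have hUe : ∀ i, Continuous fun q : Pp => Ue α z u v i (zeta s q) := fun i =>
    (Ue_smooth hα h i).continuous.comp (zeta_cont s)
  have hwc : ∀ i, Continuous fun q => w q i := fun i => (UT_cont hα h s i).sub (hUe i)
  have c1 : Continuous fun q : Pp => ∑ i, e i * Ue α z u v i (zeta s q) :=
    continuous_finsetSum _ fun i _ => continuous_const.mul (hUe i)
  have c2 : Continuous fun q => ∑ i, e i * w q i :=
    continuous_finsetSum _ fun i _ => continuous_const.mul (hwc i)
  have hG : Continuous fun q : Pp => QU α z u v (zeta s q) + QV α z u v (zeta s q) :=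
    ((QU_smooth hα h).continuous.comp (zeta_cont s)).add
      ((QV_smooth hα h).continuous.comp (zeta_cont s))
  -- splitting
  have e1 : ∑ i, e i * (Uc (Psd.cmp (dd (Ak s α) z) u v) - D) i =
      Ev (fun q => ∑ i, e i * Ue α z u v i (zeta s q)) + Ev (fun q => ∑ i, e i * w q i) -
        ∑ i, e i * D i := by
    rw [← Ev_add c1 c2]
    have e2 : (fun q => ∑ i, e i * Ue α z u v i (zeta s q) + ∑ i, e i * w q i) =
        fun q => ∑ i, e i * Uc (Tq α z u v s q) i := by
      funext q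
      rw [← Finset.sum_add_distrib]
      exact Finset.sum_congr rfl fun i _ => by
        rw [hw]
        ring
    rw [e2]
    have e3 : Ev (fun q => ∑ i, e i * Uc (Tq α z u v s q) i) =
        ∑ i, e i * Uc (Psd.cmp (dd (Ak s α) z) u v) i := by
      simp only [Uc_Ak hα h s]
      exact Ev_sum (fun i => UT_cont hα h s i) e
    rw [e3, ← Finset.sum_sub_distrib]
    exact Finset.sum_congr rfl fun i _ => by
      rw [Pi.sub_apply]
      ring
  have b1 := EU hα hp h h0 h1 he
  have ha : 0 < 917 / 10000 * d := by positivity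
  have b2 : Ev (fun q => ∑ i, e i * w q i) ≤ Ev (fun q =>
      (2 * (917 / 10000 * d))⁻¹ * ((816 / 10000) ^ 2 *
        (QU α z u v (zeta s q) + QV α z u v (zeta s q))) + 917 / 10000 * d / 2) := by
    refine Ev_mono c2 ((continuous_const.mul (continuous_const.mul hG)).add
      continuous_const) fun q hq => ?_
    refine dir_le he ha ?_
    have h2 := diff_le (z := z) (u := u) (v := v) α h0 hs1 hq
    have h3 : 0 ≤ ∑ i, (Vc (Tq α z u v s q) i - Ve α z u v i (zeta s q)) ^ 2 :=
      Finset.sum_nonneg fun _ _ => sq_nonneg _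
    have h4 := mul_le_mul_of_nonneg_right (eta_le h0 h1)
      (add_nonneg (QU_nonneg (α := α) (z := z) (u := u) (v := v) (zeta s q))
        (QV_nonneg (α := α) (z := z) (u := u) (v := v) (zeta s q)))
    show ∑ i, (Uc (Tq α z u v s q) i - Ue α z u v i (zeta s q)) ^ 2 ≤ _
    linarith
  rw [Ev_aff2 _ _ _ hG] at b2
  have b3 := EG hα hp h h0 h1
  rw [← hD, ← hdd] at b3
  have b4 : (2 * (917 / 10000 * d))⁻¹ * ((816 / 10000) ^ 2 *
      Ev (fun q => QU α z u v (zeta s q) + QV α z u v (zeta s q))) ≤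
      (2 * (917 / 10000 * d))⁻¹ * ((816 / 10000) ^ 2 * (1263 / 1000 * d ^ 2)) := by gcongr
  have b5 : (2 * (917 / 10000 * d))⁻¹ * ((816 / 10000) ^ 2 * (1263 / 1000 * d ^ 2)) =
      (816 / 10000) ^ 2 * (1263 / 1000) / (2 * (917 / 10000)) * d := by
    field_simp
  rw [e1]
  rw [b5] at b4
  have b6 : (816 / 10000 : ℝ) ^ 2 * (1263 / 1000) / (2 * (917 / 10000)) * d ≤
      4588 / 100000 * d := mul_le_mul_of_nonneg_right (by norm_num) hd.le
  linarith

/-- the anti-self-dual part of the average -/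
theorem near_V (hα : Conn α) (hp : Pinched (1 / 100) α) (h : ON3 z u v) {s : ℝ} (h0 : 0 < s)
    (h1 : s ≤ 1 / 100) :
    n3 (Vc (Psd.cmp (dd (Ak s α) z) u v)) ≤ 108 / 1000 * n3 (Dm' α z u v s) := by
  have hd := D_pos hα hp h h0 h1
  set D := Dm' α z u v s with hD
  set d := n3 D with hdd
  refine n3_le_of_dir (by positivity) fun e he => ?_
  have hs1 : s ≤ 1 := by linarith
  set w : Pp → Fin 3 → ℝ := fun q i => Vc (Tq α z u v s q) i - Ve α z u v i (zeta s q) with hw
  have hVe : ∀ i, Continuous fun q : Pp => Ve α z u v i (zeta s q) := fun i =>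
    (Ve_smooth hα h i).continuous.comp (zeta_cont s)
  have hwc : ∀ i, Continuous fun q => w q i := fun i => (VT_cont hα h s i).sub (hVe i)
  have c1 : Continuous fun q : Pp => ∑ i, e i * Ve α z u v i (zeta s q) :=
    continuous_finsetSum _ fun i _ => continuous_const.mul (hVe i)
  have c2 : Continuous fun q => ∑ i, e i * w q i :=
    continuous_finsetSum _ fun i _ => continuous_const.mul (hwc i)
  have hG : Continuous fun q : Pp => QU α z u v (zeta s q) + QV α z u v (zeta s q) :=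
    ((QU_smooth hα h).continuous.comp (zeta_cont s)).add
      ((QV_smooth hα h).continuous.comp (zeta_cont s))
  have hGV : Continuous fun q : Pp => QV α z u v (zeta s q) :=
    (QV_smooth hα h).continuous.comp (zeta_cont s)
  have e1 : ∑ i, e i * Vc (Psd.cmp (dd (Ak s α) z) u v) i =
      Ev (fun q => ∑ i, e i * Ve α z u v i (zeta s q)) + Ev (fun q => ∑ i, e i * w q i) := by
    rw [← Ev_add c1 c2]
    have e2 : (fun q => ∑ i, e i * Ve α z u v i (zeta s q) + ∑ i, e i * w q i) =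
        fun q => ∑ i, e i * Vc (Tq α z u v s q) i := by
      funext q
      rw [← Finset.sum_add_distrib]
      exact Finset.sum_congr rfl fun i _ => by
        rw [hw]
        ring
    rw [e2]
    simp only [Vc_Ak hα h s]
    exact (Ev_sum (fun i => VT_cont hα h s i) e).symm
  have ha : 0 < 917 / 10000 * d := by positivity
  have ha' : 0 < 16 / 1000 * d := by positivity
  have b1 : Ev (fun q => ∑ i, e i * Ve α z u v i (zeta s q)) ≤ Ev (fun q =>
      (2 * (16 / 1000 * d))⁻¹ * QV α z u v (zeta s q) + 16 / 1000 * d / 2) :=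
    Ev_mono c1 ((continuous_const.mul hGV).add continuous_const) fun q _ =>
      dir_le he ha' le_rfl
  have b2 : Ev (fun q => ∑ i, e i * w q i) ≤ Ev (fun q =>
      (2 * (917 / 10000 * d))⁻¹ * ((816 / 10000) ^ 2 *
        (QU α z u v (zeta s q) + QV α z u v (zeta s q))) + 917 / 10000 * d / 2) := by
    refine Ev_mono c2 ((continuous_const.mul (continuous_const.mul hG)).add
      continuous_const) fun q hq => ?_
    refine dir_le he ha ?_
    have h2 := diff_le (z := z) (u := u) (v := v) α h0 hs1 hq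
    have h3 : 0 ≤ ∑ i, (Uc (Tq α z u v s q) i - Ue α z u v i (zeta s q)) ^ 2 :=
      Finset.sum_nonneg fun _ _ => sq_nonneg _
    have h4 := mul_le_mul_of_nonneg_right (eta_le h0 h1)
      (add_nonneg (QU_nonneg (α := α) (z := z) (u := u) (v := v) (zeta s q))
        (QV_nonneg (α := α) (z := z) (u := u) (v := v) (zeta s q)))
    show ∑ i, (Vc (Tq α z u v s q) i - Ve α z u v i (zeta s q)) ^ 2 ≤ _
    linarith
  rw [Ev_aff _ _ hGV] at b1
  rw [Ev_aff2 _ _ _ hG] at b2
  have b3 := EG hα hp h h0 h1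
  have b3' := EV hα hp h h0 h1
  rw [← hD, ← hdd] at b3 b3'
  have b4 : (2 * (917 / 10000 * d))⁻¹ * ((816 / 10000) ^ 2 *
      Ev (fun q => QU α z u v (zeta s q) + QV α z u v (zeta s q))) ≤
      (2 * (917 / 10000 * d))⁻¹ * ((816 / 10000) ^ 2 * (1263 / 1000 * d ^ 2)) := by gcongr
  have b5 : (2 * (917 / 10000 * d))⁻¹ * ((816 / 10000) ^ 2 * (1263 / 1000 * d ^ 2)) =
      (816 / 10000) ^ 2 * (1263 / 1000) / (2 * (917 / 10000)) * d := by
    field_simp
  have b4' : (2 * (16 / 1000 * d))⁻¹ * Ev (fun q => QV α z u v (zeta s q)) ≤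
      (2 * (16 / 1000 * d))⁻¹ * (254 / 1000000 * d ^ 2) := by gcongr
  have b5' : (2 * (16 / 1000 * d))⁻¹ * (254 / 1000000 * d ^ 2) =
      254 / 1000000 / (2 * (16 / 1000)) * d := by
    field_simp
  rw [e1]
  rw [b5] at b4
  rw [b5'] at b4'
  have b6 : (816 / 10000 : ℝ) ^ 2 * (1263 / 1000) / (2 * (917 / 10000)) * d ≤
      4588 / 100000 * d := mul_le_mul_of_nonneg_right (by norm_num) hd.le
  have b6' : (254 / 1000000 : ℝ) / (2 * (16 / 1000)) * d ≤ 794 / 100000 * d :=
    mul_le_mul_of_nonneg_right (by norm_num) hd.le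
  linarith

end

end Pool.Agent.Lib.Pex
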