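import Pool.Agent.Lib.Psd.AmbC
import Pool.Agent.Lib.Psd.NdP

set_option autoImplicit false

/-!
# A closed two-form of the Fubini-Study class with `|w⁻| = |w⁺| / 3` and a zero
-/

open MeasureTheory Set Metric
open scoped ContDiff

namespace Pool.Agent.Lib.Pex

open Pool.Agent.P28b04d Pool.Agent.Lib.Psd Pool.Agent.Lib.Psd.AmbCAux

/-- `P, Y ↦ -Im (P Y)₀₀`. -/
noncomputable def b3 (P : Mat) : Mat →L[ℝ] ℝ :=
  ∑ k, ((-(P 0 k).re) • (Complex.imCLM.comp ((ContinuousLinearMap.proj (R := ℝ) 0 : W →L[ℝ] ℂ).comp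
      (ContinuousLinearMap.proj (R := ℝ) k : Mat →L[ℝ] W))) -
    (P 0 k).im • (Complex.reCLM.comp ((ContinuousLinearMap.proj (R := ℝ) 0 : W →L[ℝ] ℂ).comp
      (ContinuousLinearMap.proj (R := ℝ) k : Mat →L[ℝ] W))))

theorem b3_apply (P Y : Mat) : b3 P Y = -(∑ k, P 0 k * Y k 0).im := by
  simp only [b3, ContinuousLinearMap.sum_apply, ContinuousLinearMap.sub_apply, ContinuousLinearMap.smul_apply,
    ContinuousLinearMap.comp_apply, ContinuousLinearMap.proj_apply, Complex.imCLM_apply, Complex.reCLM_apply,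
    smul_eq_mul, Complex.im_sum, Complex.mul_im, ← Finset.sum_neg_distrib]
  refine Finset.sum_congr rfl fun k _ => ?_
  ring

/-- `b3` as a linear map. -/
noncomputable def b3L : Mat →ₗ[ℝ] Mat →L[ℝ] ℝ where
  toFun := b3
  map_add' P Q := by
    ext Y
    simp only [b3_apply, ContinuousLinearMap.add_apply, Pi.add_apply, add_mul, Finset.sum_add_distrib,
      Complex.add_im]
    ring
  map_smul' c P := by
    ext Y
    simp only [b3_apply, ContinuousLinearMap.smul_apply, Pi.smul_apply, RingHom.id_apply, smul_eq_mul,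
      Complex.im_sum, Finset.mul_sum, Complex.mul_im, Complex.smul_re, Complex.smul_im]
    rw [mul_neg, Finset.mul_sum]
    congr 1
    refine Finset.sum_congr rfl fun k _ => ?_
    ring

theorem b3_smooth : ContDiff ℝ ∞ b3 := (LinearMap.toContinuousLinearMap b3L).contDiff

theorem dd_b3 (P Y Z : Mat) : dd b3 P Y Z = b3 Y Z - b3 Z Y := by
  have h : fderiv ℝ b3 P = LinearMap.toContinuousLinearMap b3L :=
    (LinearMap.toContinuousLinearMap b3L).hasFDerivAt.fderiv
  unfold dd
  rw [h]
  rfl

theorem b3_tv {z v w : W} (hv : hp z v = 0) (hw : hp z w = 0) (hz : nsq z = 1) :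
    b3 (tv z v) (tv z w) = -(v 0 * star (w 0) + hp v w * (z 0 * star (z 0))).im := by
  rw [b3_apply]
  congr 2
  have e1 : ∑ k, star (z k) * w k = 0 := hw
  have e2 : ∑ k, star (z k) * z k = 1 := by
    have := nsq_eq_hp z
    rw [hz] at this
    unfold hp at this
    rw [← this]
    simp
  have e3 : ∑ k, star (v k) * z k = 0 := by
    have : star (hp z v) = 0 := by rw [hv, star_zero]
    unfold hp at this
    rw [star_sum] at this
    rw [← this]
    refine Finset.sum_congr rfl fun k _ => ?_
    rw [star_mul', star_star]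
    ring
  have e4 : hp v w = ∑ k, star (v k) * w k := rfl
  rw [e4]
  simp only [Fin.sum_univ_three] at e1 e2 e3 ⊢
  simp only [tv]
  linear_combination v 0 * star (z 0) * e1 + v 0 * star (w 0) * e2 + z 0 * star (w 0) * e3

theorem fs_tv {z v w : W} (hz : nsq z = 1) (hv : hp z v = 0) (hw : hp z w = 0) :
    fs (pt z) (tv z v) (tv z w) = 2 * (hp v w).im := by
  unfold fs
  congr 2
  have e1 : ∑ k, star (z k) * w k = 0 := hw
  have e2 : ∑ k, star (z k) * z k = 1 := by
    have := nsq_eq_hp z
    rw [hz] at this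
    unfold hp at this
    rw [← this]
    simp
  have e3 : ∑ k, star (v k) * z k = 0 := by
    have : star (hp z v) = 0 := by rw [hv, star_zero]
    unfold hp at this
    rw [star_sum] at this
    rw [← this]
    refine Finset.sum_congr rfl fun k _ => ?_
    rw [star_mul', star_star]
    ring
  have e5 : ∑ k, star (w k) * z k = 0 := by
    have : star (hp z w) = 0 := by rw [hw, star_zero]
    unfold hp at this
    rw [star_sum] at this
    rw [← this]
    refine Finset.sum_congr rfl fun k _ => ?_
    rw [star_mul', star_star]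
    ring
  have e0 : ∑ k, star (z k) * v k = 0 := hv
  have e4 : hp v w = ∑ k, star (v k) * w k := rfl
  have h1 : ∑ i : Fin 3, ∑ j : Fin 3, ∑ k : Fin 3, pt z i j * tv z v j k * tv z w k i =
      ((∑ i, star (z i) * z i) * (∑ j, star (z j) * v j) * (∑ k, star (z k) * w k) +
      (∑ j, star (z j) * v j) * (∑ k, star (z k) * z k) * (∑ i, star (w i) * z i)) +
      ((∑ j, star (z j) * z j) * (∑ k, star (v k) * w k) * (∑ i, star (z i) * z i) +
      (∑ j, star (z j) * z j) * (∑ k, star (v k) * z k) * (∑ i, star (w i) * z i)) := by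
    simp only [AmbBAux.pt_unit hz, tv, Fin.sum_univ_three]
    ring
  refine h1.trans ?_
  rw [e0, e1, e2, e3, e4]
  ring

theorem form_b3 {z v w : W} (hz : nsq z = 1) (hv : hp z v = 0) (hw : hp z w = 0) :
    form b3 (pt z) (tv z v) (tv z w) =
      2 * (1 - Complex.normSq (z 0)) * (hp v w).im + 2 * (star (v 0) * w 0).im := by
  have h1 : hp w v = star (hp v w) := (hp_star v w).symm
  have h2 : z 0 * star (z 0) = ((Complex.normSq (z 0) : ℝ) : ℂ) := Complex.mul_conj _
  have h3 : ∀ a b : ℂ, (a * star b).im = -(star a * b).im := by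
    intro a b
    simp only [Complex.star_def, Complex.mul_im, Complex.conj_re, Complex.conj_im]
    ring
  unfold form
  rw [dd_b3, fs_tv hz hv hw, b3_tv hv hw hz, b3_tv hw hv hz, h1, h2, Complex.add_im, Complex.add_im, h3 (v 0), h3 (w 0),
    Complex.im_mul_ofReal, Complex.im_mul_ofReal]
  have h4 : (star (w 0) * v 0).im = -(star (v 0) * w 0).im := by
    simp only [Complex.star_def, Complex.mul_im, Complex.conj_re, Complex.conj_im]
    ring
  have h5 : (star (hp v w)).im = -(hp v w).im := by simp [Complex.star_def]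
  rw [h4, h5]
  ring

theorem row {z u v : W} (h : ON3 z u v) :
    Complex.normSq (u 0) + Complex.normSq (v 0) = 1 - Complex.normSq (z 0) := by
  have h1 := congrFun (NdPAux.expand h (Pi.single 0 1)) 0
  have h2 : ∀ a : W, hp a (Pi.single 0 1) = star (a 0) := by
    intro a
    unfold hp
    rw [Fin.sum_univ_three]
    simp
  have h3 : ∀ a : ℂ, star a * a = ((Complex.normSq a : ℝ) : ℂ) := fun a => Complex.normSq_eq_conj_mul_self.symm
  rw [h2, h2, h2] at h1
  simp only [Pi.single_eq_same, Pi.add_apply, Pi.smul_apply, smul_eq_mul, h3] at h1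
  have h4 : (1 : ℝ) = Complex.normSq (z 0) + Complex.normSq (u 0) + Complex.normSq (v 0) := by exact_mod_cast h1
  linarith

theorem key (a b : ℂ) {T : Fin 4 → Fin 4 → ℝ}
    (hT : ∀ i j, T i j = (Complex.normSq a + Complex.normSq b) * c0 i j +
      2 * (star (![a, Complex.I * a, b, Complex.I * b] i) * ![a, Complex.I * a, b, Complex.I * b] j).im) :
    nrm2 (asd T) = 4 * (Complex.normSq a + Complex.normSq b) ^ 2 ∧
      nrm2 (sd T) = 36 * (Complex.normSq a + Complex.normSq b) ^ 2 := by
  constructor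
  · simp only [nrm2, Fin.sum_univ_four, asd, st, hT, c0, Matrix.cons_val_zero, Matrix.cons_val_one, Matrix.cons_val,
      Complex.star_def, Complex.mul_im, Complex.conj_re, Complex.conj_im, Complex.mul_re, Complex.I_re, Complex.I_im,
      Complex.normSq_apply]
    ring
  · simp only [nrm2, Fin.sum_univ_four, sd, st, hT, c0, Matrix.cons_val_zero, Matrix.cons_val_one, Matrix.cons_val,
      Complex.star_def, Complex.mul_im, Complex.conj_re, Complex.conj_im, Complex.mul_re, Complex.I_re, Complex.I_im,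
      Complex.normSq_apply]
    ring

theorem pinched_b3 : PinchedM (1 / 3) (form b3) := by
  intro z u v h
  have hz := nsq_of_ON3 h
  have hr := row h
  have hfr : ∀ i, fr u v i 0 = ![u 0, Complex.I * u 0, v 0, Complex.I * v 0] i := by
    intro i
    fin_cases i <;> rfl
  have hc : ∀ i j, cmpM (form b3) z u v i j = (Complex.normSq (u 0) + Complex.normSq (v 0)) * c0 i j +
      2 * (star (![u 0, Complex.I * u 0, v 0, Complex.I * v 0] i) *
        ![u 0, Complex.I * u 0, v 0, Complex.I * v 0] j).im := by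
    intro i j
    rw [hr, ← CmpFAux.hp_fr h i j, ← hfr, ← hfr]
    have h1 : cmpM (form b3) z u v i j = _ := form_b3 hz (AmbCAux.hp_fr h i) (AmbCAux.hp_fr h j)
    rw [h1]
    ring
  obtain ⟨h1, h2⟩ := key (u 0) (v 0) hc
  rw [h1, h2]
  apply le_of_eq
  ring

theorem not_nondeg_b3 : ¬ NondegM (form b3) := by
  intro hn
  set z : W := Pi.single 0 1 with hz
  have hz1 : nsq z = 1 := by
    unfold nsq
    rw [Fin.sum_univ_three]
    simp [hz]
  obtain ⟨u, v, h⟩ := exists_ON3 hz1
  have hz0 : z 0 = 1 := by simp [hz]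
  have h0 : ∀ w : W, hp z w = 0 → w 0 = 0 := by
    intro w hw
    unfold hp at hw
    rw [Fin.sum_univ_three] at hw
    simpa [hz] using hw
  have h1 : tv z u = 0 := by
    refine hn (pt z) ?_ _ (tv_mem hz1 h.zu) fun Z hZ => ?_
    · exact pt_mem (ne_of_nsq hz1)
    · obtain ⟨w, hw, rfl⟩ := tan_eq hz1 hZ
      rw [form_b3 hz1 h.zu hw, hz0, h0 w hw]
      simp
  have h2 := tv_zero hz1 h.zu h1
  have h3 := h.uu
  rw [h2] at h3
  simp [hp] at h3

end Pool.Agent.Lib.Pex
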