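import Pool.Agent.Lib.Pex.Dis

set_option autoImplicit false

/-!
# The transformed components
-/

open MeasureTheory Set Metric
open scoped ContDiff

namespace Pool.Agent.Lib.Pex

open Pool.Agent.P28b04d Pool.Agent.Lib.Psd

section
variable {z u v : W}

/-- complex coordinates -/
noncomputable def w1 (w : E) : ℂ := (w 0 : ℂ) + w 1 * Complex.I

noncomputable def w2 (w : E) : ℂ := (w 2 : ℂ) + w 3 * Complex.I

theorem Lf_w (u v : W) (w : E) : Lf u v w = w1 w • u + w2 w • v := ActXAux.Lf_eq u v w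

/-- vector with given complex coordinates -/
noncomputable def mkE (a b : ℂ) : E := !₂[a.re, a.im, b.re, b.im]

theorem w1_mkE (a b : ℂ) : w1 (mkE a b) = a := Complex.re_add_im a

theorem w2_mkE (a b : ℂ) : w2 (mkE a b) = b := Complex.re_add_im b

theorem norm_w (w : E) : ‖w‖ ^ 2 = Complex.normSq (w1 w) + Complex.normSq (w2 w) := by
  unfold w1 w2
  rw [norm_sq_four, Complex.normSq_add_mul_I, Complex.normSq_add_mul_I]
  ring

/-- Action on the tangential part. -/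
noncomputable def Np (q : Pp) (w : E) : E :=
  mkE (w1 w * mt q 1 1 + w2 w * mt q 1 2) (w1 w * mt q 2 1 + w2 w * mt q 2 2)

noncomputable def ll (q : Pp) (w : E) : ℂ := w1 w * mt q 0 1 + w2 w * mt q 0 2

/-- The transformed vector. -/
noncomputable def at' (s : ℝ) (q : Pp) (w : E) : E :=
  cm (k0 s q)⁻¹ (w + s • Np q w - cm ((s : ℂ) * ll q w) (zeta s q))

theorem mx_add_right (X : XX) (a b : W) : mx X (a + b) = mx X a + mx X b := by
  unfold mx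
  rw [← Finset.sum_add_distrib]
  exact Finset.sum_congr rfl fun j _ => by rw [Pi.add_apply, add_smul]

theorem mx_smul_right (X : XX) (c : ℂ) (a : W) : mx X (c • a) = c • mx X a := by
  unfold mx
  rw [Finset.smul_sum]
  exact Finset.sum_congr rfl fun j _ => by rw [Pi.smul_apply, smul_eq_mul, mul_smul]

theorem mx_z (h : ON3 z u v) (p : Pp) : mx (Sk p) z =
    mt (phi z u v p) 0 0 • z + Lf u v (phi z u v p).2 := by
  have h1 := ActXAux.expand h (mx (Sk p) z)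
  have e0 : hp z (mx (Sk p) z) = mt (phi z u v p) 0 0 := (mt_phi z u v p 0 0).symm
  have e1 : hp u (mx (Sk p) z) = mt (phi z u v p) 1 0 := (mt_phi z u v p 1 0).symm
  have e2 : hp v (mx (Sk p) z) = mt (phi z u v p) 2 0 := (mt_phi z u v p 2 0).symm
  rw [e0, e1, e2] at h1
  rw [Lf_w, ← add_assoc]
  exact h1

theorem mx_u (h : ON3 z u v) (p : Pp) : mx (Sk p) u =
    mt (phi z u v p) 0 1 • z + mt (phi z u v p) 1 1 • u + mt (phi z u v p) 2 1 • v := by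
  have h1 := ActXAux.expand h (mx (Sk p) u)
  have e0 : hp z (mx (Sk p) u) = mt (phi z u v p) 0 1 := (mt_phi z u v p 0 1).symm
  have e1 : hp u (mx (Sk p) u) = mt (phi z u v p) 1 1 := (mt_phi z u v p 1 1).symm
  have e2 : hp v (mx (Sk p) u) = mt (phi z u v p) 2 1 := (mt_phi z u v p 2 1).symm
  rwa [e0, e1, e2] at h1

theorem mx_v (h : ON3 z u v) (p : Pp) : mx (Sk p) v =
    mt (phi z u v p) 0 2 • z + mt (phi z u v p) 1 2 • u + mt (phi z u v p) 2 2 • v := by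
  have h1 := ActXAux.expand h (mx (Sk p) v)
  have e0 : hp z (mx (Sk p) v) = mt (phi z u v p) 0 2 := (mt_phi z u v p 0 2).symm
  have e1 : hp u (mx (Sk p) v) = mt (phi z u v p) 1 2 := (mt_phi z u v p 1 2).symm
  have e2 : hp v (mx (Sk p) v) = mt (phi z u v p) 2 2 := (mt_phi z u v p 2 2).symm
  rwa [e0, e1, e2] at h1

theorem gk_z (h : ON3 z u v) (s : ℝ) (p : Pp) : gk s p z =
    k0 s (phi z u v p) • sig z u v (zeta s (phi z u v p)) := by
  have hk := k0_ne s (phi z u v p)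
  have e1 : gk s p z = z + (s : ℂ) • mx (Sk p) z := rfl
  have e2 : sig z u v (zeta s (phi z u v p)) = z +
      ((s : ℂ) / k0 s (phi z u v p)) • Lf u v (phi z u v p).2 := by
    unfold sig zeta
    rw [Lf_cm]
  rw [e1, e2, mx_z h, smul_add, smul_add, smul_smul, smul_smul, mul_div_cancel₀ _ hk]
  rw [← add_assoc]
  congr 1
  unfold k0
  rw [add_smul, one_smul]

theorem gk_L (h : ON3 z u v) (s : ℝ) (p : Pp) (w : E) : gk s p (Lf u v w) =
    k0 s (phi z u v p) • (((s : ℂ) * ll (phi z u v p) w / k0 s (phi z u v p)) •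
      sig z u v (zeta s (phi z u v p)) + Lf u v (at' s (phi z u v p) w)) := by
  set q := phi z u v p with hq
  have hk := k0_ne s q
  have e1 : gk s p (Lf u v w) = Lf u v w + (s : ℂ) • mx (Sk p) (Lf u v w) := rfl
  have e2 : mx (Sk p) (Lf u v w) = ll q w • z + Lf u v (Np q w) := by
    rw [Lf_w u v w, mx_add_right, mx_smul_right, mx_smul_right, mx_u h, mx_v h, ← hq,
      Lf_w u v (Np q w)]
    unfold Np
    rw [w1_mkE, w2_mkE]
    unfold ll
    module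
  have e3 : Lf u v (at' s q w) = (k0 s q)⁻¹ • (Lf u v w + (s : ℂ) • Lf u v (Np q w) -
      ((s : ℂ) * ll q w) • Lf u v (zeta s q)) := by
    unfold at'
    rw [Lf_cm, map_sub, map_add, map_smul, Lf_cm, CmpFAux.rsmul]
  rw [e1, e2, e3, smul_add (k0 s q), smul_smul, smul_smul, mul_div_cancel₀ _ hk,
    mul_inv_cancel₀ hk, one_smul]
  unfold sig
  module

/-- the components after the transformation -/
theorem dd_gk {α : W → W →L[ℝ] ℝ} (hα : Conn α) (h : ON3 z u v) (s : ℝ) (p : Pp) (w w' : E) :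
    dd α (gk s p z) (gk s p (Lf u v w)) (gk s p (Lf u v w')) =
      bf (tE α z u v (zeta s (phi z u v p))) (at' s (phi z u v p) w)
        (at' s (phi z u v p) w') := by
  have hk := k0_ne s (phi z u v p)
  have hs := sig_ne h (zeta s (phi z u v p))
  rw [gk_z h, gk_L h, gk_L h, hα.dd_hom hk hs, dd_add_left, hα.dd_left hs, zero_add,
    dd_add_right, kill_right (HK.of_conn hα) hs, zero_add, bf_tE hα h]

/-! ### the distortion -/

theorem sq_sum_two (a b c d : ℂ) : Complex.normSq (a * c + b * d) ≤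
    (Complex.normSq a + Complex.normSq b) * (Complex.normSq c + Complex.normSq d) := by
  have h1 : ‖a * c + b * d‖ ≤ ‖a‖ * ‖c‖ + ‖b‖ * ‖d‖ := by
    refine (norm_add_le _ _).trans ?_
    rw [norm_mul, norm_mul]
  rw [Complex.normSq_eq_norm_sq, Complex.normSq_eq_norm_sq, Complex.normSq_eq_norm_sq,
    Complex.normSq_eq_norm_sq, Complex.normSq_eq_norm_sq]
  have h2 : ‖a * c + b * d‖ ^ 2 ≤ (‖a‖ * ‖c‖ + ‖b‖ * ‖d‖) ^ 2 :=
    pow_le_pow_left₀ (norm_nonneg _) h1 2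
  nlinarith [sq_nonneg (‖a‖ * ‖d‖ - ‖b‖ * ‖c‖)]

theorem ll_le (q : Pp) (w : E) : ‖ll q w‖ ≤ ‖q.2‖ * ‖w‖ := by
  have h1 : ‖ll q w‖ ^ 2 ≤ (‖q.2‖ * ‖w‖) ^ 2 := by
    rw [← Complex.normSq_eq_norm_sq, mul_pow, norm_w w]
    refine (sq_sum_two _ _ _ _).trans (le_of_eq ?_)
    have e : Complex.normSq (mt q 0 1) + Complex.normSq (mt q 0 2) = ‖q.2‖ ^ 2 := by
      rw [norm_sq_four]
      simp [mt, Complex.normSq_apply]
      ring
    rw [e]
    ring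
  exact (sq_le_sq₀ (norm_nonneg _) (by positivity)).1 h1

theorem Np_le (q : Pp) (w : E) : ‖Np q w‖ ^ 2 ≤
    2 * (q.1 1 ^ 2 + q.1 2 ^ 2 + q.1 3 ^ 2 + q.1 4 ^ 2) * ‖w‖ ^ 2 := by
  have h2 : Real.sqrt 2 * Real.sqrt 2 = 2 := Real.mul_self_sqrt (by norm_num)
  rw [norm_w (Np q w), norm_w w]
  unfold Np
  rw [w1_mkE, w2_mkE]
  have k1 := sq_sum_two (w1 w) (w2 w) (mt q 1 1) (mt q 1 2)
  have k2 := sq_sum_two (w1 w) (w2 w) (mt q 2 1) (mt q 2 2)
  have e1 : Complex.normSq (mt q 1 1) + Complex.normSq (mt q 1 2) +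
      (Complex.normSq (mt q 2 1) + Complex.normSq (mt q 2 2)) =
      2 * (q.1 1 ^ 2 + q.1 2 ^ 2 + q.1 3 ^ 2 + q.1 4 ^ 2) := by
    simp [mt, Complex.normSq_apply]
    linear_combination (q.1 1 ^ 2 + q.1 2 ^ 2) * h2
  calc _ ≤ (Complex.normSq (w1 w) + Complex.normSq (w2 w)) *
        (Complex.normSq (mt q 1 1) + Complex.normSq (mt q 1 2) +
      (Complex.normSq (mt q 2 1) + Complex.normSq (mt q 2 2))) := by linarith
    _ = _ := by
        rw [e1]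
        ring

theorem mt00_sq (q : Pp) : ‖mt q 0 0‖ ^ 2 = 2 * q.1 0 ^ 2 := by
  have h2 : Real.sqrt 2 * Real.sqrt 2 = 2 := Real.mul_self_sqrt (by norm_num)
  rw [← Complex.normSq_eq_norm_sq]
  simp [mt, Complex.normSq_apply]
  linear_combination (q.1 0 ^ 2) * h2

theorem norm_five (o : E5) : ‖o‖ ^ 2 = o 0 ^ 2 + o 1 ^ 2 + o 2 ^ 2 + o 3 ^ 2 + o 4 ^ 2 := by
  rw [EuclideanSpace.norm_sq_eq, Fin.sum_univ_five]
  simp

/-- the sum of the first order terms -/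
theorem first_le (q : Pp) (w : E) : ‖Np q w‖ + ‖mt q 0 0‖ * ‖w‖ ≤ 2 * ‖q.1‖ * ‖w‖ := by
  have h1 := Np_le q w
  have h2 := mt00_sq q
  have h3 := norm_five q.1
  have h4 : (‖mt q 0 0‖ * ‖w‖) ^ 2 = 2 * q.1 0 ^ 2 * ‖w‖ ^ 2 := by rw [mul_pow, h2]
  have h5 : (‖Np q w‖ + ‖mt q 0 0‖ * ‖w‖) ^ 2 ≤ (2 * ‖q.1‖ * ‖w‖) ^ 2 := by
    have h6 : (2 * ‖q.1‖ * ‖w‖) ^ 2 = 4 * (q.1 0 ^ 2 + q.1 1 ^ 2 + q.1 2 ^ 2 + q.1 3 ^ 2 +
        q.1 4 ^ 2) * ‖w‖ ^ 2 := by
      rw [← h3]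
      ring
    rw [h6]
    nlinarith [sq_nonneg (‖Np q w‖ - ‖mt q 0 0‖ * ‖w‖)]
  exact (sq_le_sq₀ (by positivity) (by positivity)).1 h5

theorem cm_sub (c : ℂ) (x y : E) : cm c (x - y) = cm c x - cm c y := by
  rw [sub_eq_add_neg, cm_add, sub_eq_add_neg]
  congr 1
  have := cm_smul c (-1) y
  rwa [neg_one_smul, neg_one_smul] at this

theorem cm_mul (a b : ℂ) (x : E) : cm a (cm b x) = cm (a * b) x := by
  have hJ : ∀ y : E, J4 (J4 y) = -y := fun y => Mv_sq 2 y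
  have hJa : ∀ a b : E, J4 (a + b) = J4 a + J4 b := fun a b => (Mv 2).map_add a b
  have hJs : ∀ (r : ℝ) (a : E), J4 (r • a) = r • J4 a := fun r a => (Mv 2).map_smul r a
  unfold cm
  rw [hJa, hJs, hJs, hJ, Complex.mul_re, Complex.mul_im]
  module

theorem cm_one (x : E) : cm 1 x = x := by
  unfold cm
  rw [Complex.one_re, Complex.one_im, one_smul, zero_smul, add_zero]

theorem cm_add_left (a b : ℂ) (x : E) : cm (a + b) x = cm a x + cm b x := by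
  unfold cm
  rw [Complex.add_re, Complex.add_im]
  module

theorem at_sub_le {s : ℝ} (hs0 : 0 ≤ s) (hs1 : s ≤ 1) {q : Pp} (hq : q ∈ Kp) (w : E) :
    ‖at' s q w - w‖ ≤ 2 * s * ‖w‖ := by
  have hk := k0_ne s q
  have hk1 := k0_ge s q
  have e0 : w = cm (k0 s q)⁻¹ (cm (k0 s q) w) := by
    rw [cm_mul, inv_mul_cancel₀ hk, cm_one]
  have e1 : at' s q w - w = cm (k0 s q)⁻¹ (s • Np q w - cm ((s : ℂ) * ll q w) (zeta s q) -
      cm ((s : ℂ) * mt q 0 0) w) := by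
    have e2 : cm (k0 s q) w = w + cm ((s : ℂ) * mt q 0 0) w := by
      unfold k0
      rw [cm_add_left, cm_one]
    conv_lhs => rw [show at' s q w - w = at' s q w - cm (k0 s q)⁻¹ (cm (k0 s q) w) by
      rw [← e0]]
    unfold at'
    rw [← cm_sub, e2]
    congr 1
    abel
  have hinv : ‖(k0 s q)⁻¹‖ ≤ 1 := by
    rw [norm_inv]
    exact inv_le_one_of_one_le₀ hk1
  have hsc : ‖(s : ℂ)‖ = s := by rw [Complex.norm_real, Real.norm_eq_abs, abs_of_nonneg hs0]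
  have hz : ‖zeta s q‖ ≤ s * ‖q.2‖ := by
    unfold zeta
    rw [cm_norm, norm_div, hsc]
    exact mul_le_mul_of_nonneg_right (div_le_self hs0 hk1) (norm_nonneg _)
  have h1 := first_le q w
  have h2 := ll_le q w
  rw [e1, cm_norm]
  have h3 : ‖s • Np q w - cm ((s : ℂ) * ll q w) (zeta s q) - cm ((s : ℂ) * mt q 0 0) w‖ ≤
      s * (2 * ‖q.1‖ * ‖w‖) + s * (‖q.2‖ * ‖w‖) * (s * ‖q.2‖) := by
    refine (norm_sub_le _ _).trans ?_
    refine (add_le_add (norm_sub_le _ _) le_rfl).trans ?_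
    rw [norm_smul, cm_norm, cm_norm, norm_mul, norm_mul, hsc, Real.norm_eq_abs,
      abs_of_nonneg hs0]
    have h4 : s * ‖ll q w‖ * ‖zeta s q‖ ≤ s * (‖q.2‖ * ‖w‖) * (s * ‖q.2‖) := by gcongr
    have h5 := mul_le_mul_of_nonneg_left h1 hs0
    linarith
  have hQ : ‖q.1‖ ^ 2 + ‖q.2‖ ^ 2 ≤ 1 := hq
  have h4 : s * (2 * ‖q.1‖ * ‖w‖) + s * (‖q.2‖ * ‖w‖) * (s * ‖q.2‖) ≤ 2 * s * ‖w‖ := by
    have hP : 0 ≤ ‖q.1‖ := norm_nonneg _
    have hP1 : ‖q.1‖ ≤ 1 := by nlinarith [sq_nonneg ‖q.2‖]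
    have h5 : s * ‖q.2‖ ^ 2 ≤ 2 - 2 * ‖q.1‖ := by
      have h6 : s * ‖q.2‖ ^ 2 ≤ 1 * (1 - ‖q.1‖ ^ 2) := by
        have : 0 ≤ ‖q.2‖ ^ 2 := sq_nonneg _
        nlinarith
      nlinarith
    have h6 : 0 ≤ s * ‖w‖ := by positivity
    calc _ = s * ‖w‖ * (2 * ‖q.1‖ + s * ‖q.2‖ ^ 2) := by ring
      _ ≤ s * ‖w‖ * 2 := mul_le_mul_of_nonneg_left (by linarith) h6
      _ = _ := by ring
  have h5 : 0 ≤ ‖s • Np q w - cm ((s : ℂ) * ll q w) (zeta s q) -
      cm ((s : ℂ) * mt q 0 0) w‖ := norm_nonneg _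
  calc _ ≤ 1 * ‖s • Np q w - cm ((s : ℂ) * ll q w) (zeta s q) -
        cm ((s : ℂ) * mt q 0 0) w‖ := mul_le_mul_of_nonneg_right hinv h5
    _ ≤ 2 * s * ‖w‖ := by
        rw [one_mul]
        exact h3.trans h4

/-! ### Frobenius norms -/

theorem bf_add_left (T : Fin 4 → Fin 4 → ℝ) (a b c : E) : bf T (a + b) c = bf T a c + bf T b c := by
  unfold bf
  simp only [PiLp.add_apply, add_mul, Finset.sum_add_distrib]

theorem bf_add_right (T : Fin 4 → Fin 4 → ℝ) (a b c : E) : bf T a (b + c) = bf T a b + bf T a c := by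
  unfold bf
  simp only [PiLp.add_apply, mul_add, add_mul, Finset.sum_add_distrib]

theorem bf_ev_ev (T : Fin 4 → Fin 4 → ℝ) (i j : Fin 4) : bf T (ev i) (ev j) = T i j := by
  unfold bf ev
  fin_cases i <;> fin_cases j <;> simp [Fin.sum_univ_four]

theorem bf_ev_right (T : Fin 4 → Fin 4 → ℝ) (a : E) (j : Fin 4) :
    bf T a (ev j) = ∑ k, a k * T k j := by
  unfold bf ev
  fin_cases j <;> simp [Fin.sum_univ_four]

theorem bf_ev_left (T : Fin 4 → Fin 4 → ℝ) (a : E) (j : Fin 4) :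
    bf T (ev j) a = ∑ k, a k * T j k := by
  unfold bf ev
  fin_cases j <;> simp [Fin.sum_univ_four]

theorem norm_E_sum (a : E) : ‖a‖ ^ 2 = ∑ k, a k ^ 2 := by
  rw [norm_sq_four, Fin.sum_univ_four]

theorem row_le (T : Fin 4 → Fin 4 → ℝ) (a : E) : ∑ j, bf T a (ev j) ^ 2 ≤ ‖a‖ ^ 2 * nrm2 T := by
  simp only [bf_ev_right]
  have h1 : ∀ j, (∑ k, a k * T k j) ^ 2 ≤ ‖a‖ ^ 2 * ∑ k, T k j ^ 2 := fun j => by
    rw [norm_E_sum]
    exact Finset.sum_mul_sq_le_sq_mul_sq _ _ _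
  calc _ ≤ ∑ j, ‖a‖ ^ 2 * ∑ k, T k j ^ 2 := Finset.sum_le_sum fun j _ => h1 j
    _ = ‖a‖ ^ 2 * nrm2 T := by
        rw [← Finset.mul_sum, Finset.sum_comm]
        rfl

theorem col_le (T : Fin 4 → Fin 4 → ℝ) (a : E) : ∑ j, bf T (ev j) a ^ 2 ≤ ‖a‖ ^ 2 * nrm2 T := by
  simp only [bf_ev_left]
  have h1 : ∀ j, (∑ k, a k * T j k) ^ 2 ≤ ‖a‖ ^ 2 * ∑ k, T j k ^ 2 := fun j => by
    rw [norm_E_sum]
    exact Finset.sum_mul_sq_le_sq_mul_sq _ _ _
  calc _ ≤ ∑ j, ‖a‖ ^ 2 * ∑ k, T j k ^ 2 := Finset.sum_le_sum fun j _ => h1 j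
    _ = ‖a‖ ^ 2 * nrm2 T := by
        rw [← Finset.mul_sum]
        rfl

theorem bf_le (T : Fin 4 → Fin 4 → ℝ) (a b : E) : bf T a b ^ 2 ≤ ‖a‖ ^ 2 * ‖b‖ ^ 2 * nrm2 T := by
  have h1 : bf T a b = ∑ j, b j * bf T a (ev j) := by
    simp only [bf_ev_right, Finset.mul_sum]
    unfold bf
    rw [Finset.sum_comm]
    exact Finset.sum_congr rfl fun j _ => Finset.sum_congr rfl fun k _ => by ring
  rw [h1]
  refine (Finset.sum_mul_sq_le_sq_mul_sq _ _ _).trans ?_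
  rw [← norm_E_sum]
  calc ‖b‖ ^ 2 * ∑ j, bf T a (ev j) ^ 2 ≤ ‖b‖ ^ 2 * (‖a‖ ^ 2 * nrm2 T) :=
        mul_le_mul_of_nonneg_left (row_le T a) (sq_nonneg _)
    _ = _ := by ring

theorem nrm2_UV {T : Fin 4 → Fin 4 → ℝ} (h : Skew T) :
    nrm2 T = ∑ i, Uc T i ^ 2 + ∑ i, Vc T i ^ 2 := by
  obtain ⟨⟨e1, e2, e3, e4⟩, ⟨e5, e6, e7⟩, ⟨e8, e9, e10⟩⟩ := AlgAux.sk h
  simp only [nrm2, Fin.sum_univ_four, Fin.sum_univ_three, Uc, Vc, Matrix.cons_val_zero,
    Matrix.cons_val_one, Matrix.cons_val, e1, e2, e3, e4, e5, e6, e7, e8, e9, e10]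
  ring

theorem nrm2_nn (T : Fin 4 → Fin 4 → ℝ) : 0 ≤ nrm2 T :=
  Finset.sum_nonneg fun _ _ => Finset.sum_nonneg fun _ _ => sq_nonneg _

/-- perturbation of the frame -/
theorem frob {T : Fin 4 → Fin 4 → ℝ} {s : ℝ} (hs : 0 < s) {a : Fin 4 → E}
    (ha : ∀ i, ‖a i - ev i‖ ≤ 2 * s) :
    nrm2 (fun i j => bf T (a i) (a j) - T i j) ≤ (8 * s + 16 * s ^ 2) ^ 2 * nrm2 T := by
  set d : Fin 4 → E := fun i => a i - ev i with hd
  have hai : ∀ i, a i = ev i + d i := fun i => by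
    rw [hd]
    simp
  have hN := nrm2_nn T
  have hd2 : ∀ i, ‖d i‖ ^ 2 ≤ 4 * s ^ 2 := by
    intro i
    have := pow_le_pow_left₀ (norm_nonneg _) (ha i) 2
    calc ‖d i‖ ^ 2 ≤ (2 * s) ^ 2 := this
      _ = 4 * s ^ 2 := by ring
  have e1 : ∀ i j, bf T (a i) (a j) - T i j =
      bf T (d i) (ev j) + bf T (ev i) (d j) + bf T (d i) (d j) := by
    intro i j
    rw [hai i, hai j, bf_add_left, bf_add_right, bf_add_right, bf_ev_ev]
    ring
  have e2 : ∀ x y w : ℝ, (x + y + w) ^ 2 ≤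
      (8 * s + 16 * s ^ 2) * ((4 * s)⁻¹ * x ^ 2 + (4 * s)⁻¹ * y ^ 2 +
        (16 * s ^ 2)⁻¹ * w ^ 2) := by
    intro x y w
    have h1 : (8 * s + 16 * s ^ 2) * ((4 * s)⁻¹ * x ^ 2 + (4 * s)⁻¹ * y ^ 2 +
        (16 * s ^ 2)⁻¹ * w ^ 2) - (x + y + w) ^ 2 =
        (x - y) ^ 2 + (2 * s * x - w / 2) ^ 2 / s + (2 * s * y - w / 2) ^ 2 / s := by
      field_simp
      ring
    have h2 : 0 ≤ (x - y) ^ 2 + (2 * s * x - w / 2) ^ 2 / s + (2 * s * y - w / 2) ^ 2 / s := by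
      positivity
    linarith
  have s1 : ∑ i, ∑ j, bf T (d i) (ev j) ^ 2 ≤ 16 * s ^ 2 * nrm2 T := by
    calc _ ≤ ∑ i, ‖d i‖ ^ 2 * nrm2 T := Finset.sum_le_sum fun i _ => row_le T (d i)
      _ ≤ ∑ _i : Fin 4, 4 * s ^ 2 * nrm2 T :=
          Finset.sum_le_sum fun i _ => mul_le_mul_of_nonneg_right (hd2 i) hN
      _ = 16 * s ^ 2 * nrm2 T := by
          simp
          ring
  have s2 : ∑ i, ∑ j, bf T (ev i) (d j) ^ 2 ≤ 16 * s ^ 2 * nrm2 T := by
    rw [Finset.sum_comm]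
    calc _ ≤ ∑ j, ‖d j‖ ^ 2 * nrm2 T := Finset.sum_le_sum fun j _ => col_le T (d j)
      _ ≤ ∑ _i : Fin 4, 4 * s ^ 2 * nrm2 T :=
          Finset.sum_le_sum fun i _ => mul_le_mul_of_nonneg_right (hd2 i) hN
      _ = 16 * s ^ 2 * nrm2 T := by
          simp
          ring
  have s3 : ∑ i, ∑ j, bf T (d i) (d j) ^ 2 ≤ 256 * s ^ 4 * nrm2 T := by
    calc _ ≤ ∑ _i : Fin 4, ∑ _j : Fin 4, 4 * s ^ 2 * (4 * s ^ 2) * nrm2 T := by
          refine Finset.sum_le_sum fun i _ => Finset.sum_le_sum fun j _ => ?_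
          refine (bf_le T (d i) (d j)).trans ?_
          refine mul_le_mul_of_nonneg_right ?_ hN
          exact mul_le_mul (hd2 i) (hd2 j) (sq_nonneg _) (by positivity)
      _ = 256 * s ^ 4 * nrm2 T := by
          simp
          ring
  calc nrm2 (fun i j => bf T (a i) (a j) - T i j) =
        ∑ i, ∑ j, (bf T (d i) (ev j) + bf T (ev i) (d j) + bf T (d i) (d j)) ^ 2 := by
        unfold nrm2
        simp only [e1]
    _ ≤ ∑ i, ∑ j, (8 * s + 16 * s ^ 2) * ((4 * s)⁻¹ * bf T (d i) (ev j) ^ 2 +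
          (4 * s)⁻¹ * bf T (ev i) (d j) ^ 2 + (16 * s ^ 2)⁻¹ * bf T (d i) (d j) ^ 2) :=
        Finset.sum_le_sum fun i _ => Finset.sum_le_sum fun j _ => e2 _ _ _
    _ = (8 * s + 16 * s ^ 2) * ((4 * s)⁻¹ * (∑ i, ∑ j, bf T (d i) (ev j) ^ 2) +
          (4 * s)⁻¹ * (∑ i, ∑ j, bf T (ev i) (d j) ^ 2) +
          (16 * s ^ 2)⁻¹ * ∑ i, ∑ j, bf T (d i) (d j) ^ 2) := by
        simp only [Finset.mul_sum, ← Finset.sum_add_distrib]
    _ ≤ (8 * s + 16 * s ^ 2) * ((4 * s)⁻¹ * (16 * s ^ 2 * nrm2 T) +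
          (4 * s)⁻¹ * (16 * s ^ 2 * nrm2 T) + (16 * s ^ 2)⁻¹ * (256 * s ^ 4 * nrm2 T)) := by
        gcongr
    _ = _ := by
        field_simp
        ring

/-! ### averages of the components -/

/-- The transformed components. -/
noncomputable def Tq (α : W → W →L[ℝ] ℝ) (z u v : W) (s : ℝ) (q : Pp) (i j : Fin 4) : ℝ :=
  bf (tE α z u v (zeta s q)) (at' s q (ev i)) (at' s q (ev j))

theorem cmp_Ak {α : W → W →L[ℝ] ℝ} (hα : Conn α) (h : ON3 z u v) (s : ℝ) (i j : Fin 4) :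
    Psd.cmp (dd (Ak s α) z) u v i j = cK⁻¹ * ∫ q in Kp, Tq α z u v s q i j := by
  have hz : z ≠ 0 := MainAAux.ne_zero h
  unfold Psd.cmp
  rw [dd_Ak hα s hz, ← phi_integral h fun q => Tq α z u v s q i j]
  congr 1
  refine setIntegral_congr_fun Kp_compact.measurableSet fun p _ => ?_
  have e1 : fr u v i = Lf u v (ev i) := (Lf_ev u v i).symm
  have e2 : fr u v j = Lf u v (ev j) := (Lf_ev u v j).symm
  simp only [e1, e2]
  exact dd_gk hα h s p (ev i) (ev j)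

theorem bf_skew {T : Fin 4 → Fin 4 → ℝ} (h : Skew T) (a b : E) : bf T a b = -bf T b a := by
  unfold bf
  rw [Finset.sum_comm, ← Finset.sum_neg_distrib]
  refine Finset.sum_congr rfl fun i _ => ?_
  rw [← Finset.sum_neg_distrib]
  refine Finset.sum_congr rfl fun j _ => ?_
  rw [h j i]
  ring

theorem Tq_skew (α : W → W →L[ℝ] ℝ) (s : ℝ) (q : Pp) : Skew (Tq α z u v s q) := fun _ _ =>
  bf_skew (tE_skew _) _ _

/-- the difference of the components -/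
theorem diff_le (α : W → W →L[ℝ] ℝ) {s : ℝ} (hs0 : 0 < s) (hs1 : s ≤ 1) {q : Pp} (hq : q ∈ Kp) :
    ∑ i, (Uc (Tq α z u v s q) i - Ue α z u v i (zeta s q)) ^ 2 +
      ∑ i, (Vc (Tq α z u v s q) i - Ve α z u v i (zeta s q)) ^ 2 ≤
      (8 * s + 16 * s ^ 2) ^ 2 * (QU α z u v (zeta s q) + QV α z u v (zeta s q)) := by
  set T := tE α z u v (zeta s q) with hT
  have hn : ∀ i, ‖ev i‖ = 1 := fun i => by simp [ev]
  have h1 := frob (T := T) hs0 (a := fun i => at' s q (ev i)) fun i => by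
    have := at_sub_le hs0.le hs1 hq (ev i)
    rwa [hn, mul_one] at this
  have hTs : Skew T := tE_skew _
  have hD : Skew (fun i j => bf T (at' s q (ev i)) (at' s q (ev j)) - T i j) := by
    intro i j
    show bf T (at' s q (ev i)) (at' s q (ev j)) - T i j =
      -(bf T (at' s q (ev j)) (at' s q (ev i)) - T j i)
    rw [bf_skew hTs (at' s q (ev i)), hTs i j]
    ring
  rw [nrm2_UV hD, nrm2_UV hTs] at h1
  have eU : ∀ i, Uc (fun i j => bf T (at' s q (ev i)) (at' s q (ev j)) - T i j) i =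
      Uc (Tq α z u v s q) i - Ue α z u v i (zeta s q) := by
    intro i
    show _ = Uc (Tq α z u v s q) i - Uc T i
    fin_cases i
    · simp only [Uc, Tq, ← hT, Matrix.cons_val_zero, Fin.zero_eta]
      ring
    · simp only [Uc, Tq, ← hT, Matrix.cons_val_one, Matrix.cons_val_zero, Fin.mk_one]
      ring
    · simp only [Uc, Tq, ← hT, Matrix.cons_val, Fin.reduceFinMk]
      ring
  have eV : ∀ i, Vc (fun i j => bf T (at' s q (ev i)) (at' s q (ev j)) - T i j) i =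
      Vc (Tq α z u v s q) i - Ve α z u v i (zeta s q) := by
    intro i
    show _ = Vc (Tq α z u v s q) i - Vc T i
    fin_cases i
    · simp only [Vc, Tq, ← hT, Matrix.cons_val_zero, Fin.zero_eta]
      ring
    · simp only [Vc, Tq, ← hT, Matrix.cons_val_one, Matrix.cons_val_zero, Fin.mk_one]
      ring
    · simp only [Vc, Tq, ← hT, Matrix.cons_val, Fin.reduceFinMk]
      ring
  simp only [eU, eV] at h1
  exact h1

end

end Pool.Agent.Lib.Pex
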