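import Pool.Agent.Lib.Pex.Geo

set_option autoImplicit false

/-!
# The moving frame

`(zt r x, zr r x, L M₀ x)` is a unitary basis for `‖x‖ = 1`; `UU`, `VV` are the self-dual and anti-self-dual components of `dd γ` in it,
`AA i = pw i (UU i + VV i) / 2`, `BB i = ww i (UU i - VV i) / 2`.
-/

open MeasureTheory Set Metric
open scoped ContDiff

namespace Pool.Agent.Lib.Pex

open Pool.Agent.P28b04d Pool.Agent.Lib.Psd

/-- Self-dual components. -/
def Uc (T : Fin 4 → Fin 4 → ℝ) : Fin 3 → ℝ := ![T 0 2 + T 3 1, T 0 3 + T 1 2, T 0 1 + T 2 3]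

/-- Anti-self-dual components. -/
def Vc (T : Fin 4 → Fin 4 → ℝ) : Fin 3 → ℝ := ![T 0 2 - T 3 1, T 0 3 - T 1 2, T 0 1 - T 2 3]

/-- Components in the moving frame. -/
noncomputable def TT (γ : W → W →L[ℝ] ℝ) (z u v : W) (r : ℝ) (x : E) : Fin 4 → Fin 4 → ℝ :=
  Psd.cmp (dd γ (zt z u v r x)) (zr z u v r x) (Lf u v (Mv 0 x))

noncomputable def UU (γ : W → W →L[ℝ] ℝ) (z u v : W) (r : ℝ) (i : Fin 3) (x : E) : ℝ :=
  Uc (TT γ z u v r x) i

noncomputable def VV (γ : W → W →L[ℝ] ℝ) (z u v : W) (r : ℝ) (i : Fin 3) (x : E) : ℝ :=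
  Vc (TT γ z u v r x) i

noncomputable def pw (r : ℝ) : Fin 3 → ℝ :=
  ![Real.sin r, Real.sin r, Real.sin r * Real.cos r]

noncomputable def ww (r : ℝ) : Fin 3 → ℝ :=
  ![Real.sin r ^ 2 * Real.cos r, Real.sin r ^ 2 * Real.cos r, Real.sin r ^ 2]

theorem pw_mul_ww (r : ℝ) (i : Fin 3) : pw r i * ww r i = Real.sin r ^ 3 * Real.cos r := by
  fin_cases i <;> simp [pw, ww] <;> ring

theorem nrm2_sd {T : Fin 4 → Fin 4 → ℝ} (h : Skew T) : nrm2 (sd T) = ∑ i, Uc T i ^ 2 := by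
  obtain ⟨⟨e1, e2, e3, e4⟩, ⟨e5, e6, e7⟩, ⟨e8, e9, e10⟩⟩ := AlgAux.sk h
  simp only [nrm2, sd, st, Fin.sum_univ_four, Fin.sum_univ_three, Uc, Matrix.cons_val_zero,
    Matrix.cons_val_one, Matrix.cons_val, e1, e2, e3, e4, e5, e6, e7, e8, e9, e10]
  ring

theorem nrm2_asd {T : Fin 4 → Fin 4 → ℝ} (h : Skew T) : nrm2 (asd T) = ∑ i, Vc T i ^ 2 := by
  obtain ⟨⟨e1, e2, e3, e4⟩, ⟨e5, e6, e7⟩, ⟨e8, e9, e10⟩⟩ := AlgAux.sk h
  simp only [nrm2, asd, st, Fin.sum_univ_four, Fin.sum_univ_three, Vc, Matrix.cons_val_zero,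
    Matrix.cons_val_one, Matrix.cons_val, e1, e2, e3, e4, e5, e6, e7, e8, e9, e10]
  ring

theorem cmp_skew (γ : W → W →L[ℝ] ℝ) (y p q : W) : Skew (Psd.cmp (dd γ y) p q) := fun i j => by
  unfold Psd.cmp
  exact dd_skew γ _ _ _

theorem inner_M20 (x : E) : inner ℝ (J4 x) (Mv 0 x) = 0 := by
  rw [inner_four]
  simp [J4, Mv_apply, Mf]
  ring

/-- the moving frame is unitary -/
theorem frame_ON3 {z u v : W} (h : ON3 z u v) (r : ℝ) {x : E} (hx : ‖x‖ = 1) :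
    ON3 (zt z u v r x) (zr z u v r x) (Lf u v (Mv 0 x)) := by
  have hsc := Real.sin_sq_add_cos_sq r
  refine ⟨?_, ?_, ?_, ?_, ?_, ?_⟩
  · unfold zt
    rw [hp_comb h, hx, show Real.cos r * Real.cos r + Real.sin r * Real.sin r * (1 : ℝ) ^ 2 = 1 by
      linarith]
    norm_num
  · unfold zr
    rw [hp_comb h, hx, show -Real.sin r * -Real.sin r + Real.cos r * Real.cos r * (1 : ℝ) ^ 2 = 1 by
      linarith]
    norm_num
  · rw [hp_Lf h, inner_J4_self, real_inner_self_eq_norm_sq, norm_Mv, hx]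
    simp
  · unfold zt zr
    rw [hp_comb h, hx]
    norm_cast
    ring
  · unfold zt
    rw [CmpFAux.rsmul, CmpFAux.rsmul, FrameGAux.hp_add_left, FrameGAux.hp_smul_left,
      FrameGAux.hp_smul_left, hp_z_Lf h, hp_Lf h, inner_M20, inner_Mv]
    simp
  · unfold zr
    rw [CmpFAux.rsmul, CmpFAux.rsmul, FrameGAux.hp_add_left, FrameGAux.hp_smul_left,
      FrameGAux.hp_smul_left, hp_z_Lf h, hp_Lf h, inner_M20, inner_Mv]
    simp

section
variable {γ : W → W →L[ℝ] ℝ} {z u v : W}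

theorem Lx_eq (r : ℝ) (x : E) :
    Lf u v x = (Real.sin r : ℂ) • zt z u v r x + (Real.cos r : ℂ) • zr z u v r x := by
  have hsc := Real.sin_sq_add_cos_sq r
  rw [← CmpFAux.rsmul, ← CmpFAux.rsmul]
  unfold zt zr
  rw [smul_add, smul_add, smul_smul, smul_smul, smul_smul, smul_smul]
  have e : Lf u v x = (Real.sin r * Real.sin r + Real.cos r * Real.cos r) • Lf u v x := by
    have : Real.sin r * Real.sin r + Real.cos r * Real.cos r = 1 := by linarith
    rw [this, one_smul]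
  conv_lhs => rw [e]
  rw [add_smul]
  have e2 : (Real.cos r * -Real.sin r) • z = -((Real.sin r * Real.cos r) • z) := by
    rw [← neg_smul]
    congr 1
    ring
  rw [e2]
  abel

theorem L2_eq (r : ℝ) (x : E) : Lf u v (Mv 2 x) =
    (Complex.I * (Real.sin r : ℂ)) • zt z u v r x +
      Real.cos r • (Complex.I • zr z u v r x) := by
  rw [Mv_two, Lf_J4, Lx_eq (z := z) r x, smul_add, smul_smul, smul_smul, CmpFAux.rsmul, smul_smul,
    mul_comm Complex.I (Real.cos r : ℂ)]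

theorem L1_eq (x : E) : Lf u v (Mv 1 x) = Complex.I • Lf u v (Mv 0 x) := by
  have e : Mv 2 (Mv 0 x) = Mv 1 x := Mv_mul 2 x
  rw [← Lf_J4, ← Mv_two, e]

theorem kill_right (hγ : HK γ) {y : W} (hy : y ≠ 0) (c : ℂ) (w : W) : dd γ y w (c • y) = 0 := by
  rw [dd_skew, hγ.kill y hy, neg_zero]

theorem AA_eq (hγ : HK γ) (h : ON3 z u v) (r : ℝ) (i : Fin 3) {x : E} (hx : x ≠ 0) :
    AA γ z u v r i x = pw r i * ((UU γ z u v r i x + VV γ z u v r i x) / 2) := by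
  have hy := zt_ne h r hx
  unfold AA UU VV TT
  rw [dd_smul_right]
  fin_cases i
  · simp only [pw, Uc, Vc, Psd.cmp, fr, Matrix.cons_val_zero, Matrix.cons_val_one, Matrix.cons_val,
      Fin.zero_eta]
    ring
  · show Real.sin r * dd γ (zt z u v r x) (zr z u v r x) (Lf u v (Mv 1 x)) = _
    rw [L1_eq]
    simp only [pw, Uc, Vc, Psd.cmp, fr, Matrix.cons_val_zero, Matrix.cons_val_one, Matrix.cons_val,
      Fin.mk_one]
    ring
  · show Real.sin r * dd γ (zt z u v r x) (zr z u v r x) (Lf u v (Mv 2 x)) = _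
    rw [L2_eq (z := z) r x, dd_add_right, kill_right hγ hy, zero_add, dd_smul_right]
    simp only [pw, Uc, Vc, Psd.cmp, fr, Matrix.cons_val_zero, Matrix.cons_val_one, Matrix.cons_val,
      Fin.reduceFinMk]
    ring

theorem BB_eq (hγ : HK γ) (h : ON3 z u v) (r : ℝ) (i : Fin 3) {x : E} (hx : x ≠ 0) :
    BB γ z u v r i x = ww r i * ((UU γ z u v r i x - VV γ z u v r i x) / 2) := by
  have hy := zt_ne h r hx
  unfold BB UU VV TT
  rw [dd_smul_right, dd_smul_left]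
  fin_cases i
  · show Real.sin r * (Real.sin r * dd γ (zt z u v r x) (Lf u v (Mv 1 x)) (Lf u v (Mv 2 x))) = _
    rw [L2_eq (z := z) r x, L1_eq, dd_add_right, kill_right hγ hy, zero_add, dd_smul_right]
    simp only [ww, Uc, Vc, Psd.cmp, fr, Matrix.cons_val_zero, Matrix.cons_val_one, Matrix.cons_val,
      Fin.zero_eta]
    ring
  · show Real.sin r * (Real.sin r * dd γ (zt z u v r x) (Lf u v (Mv 2 x)) (Lf u v (Mv 0 x))) = _
    rw [L2_eq (z := z) r x, dd_add_left, hγ.kill _ hy, zero_add, dd_smul_left]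
    simp only [ww, Uc, Vc, Psd.cmp, fr, Matrix.cons_val_zero, Matrix.cons_val_one, Matrix.cons_val,
      Fin.mk_one]
    ring
  · show Real.sin r * (Real.sin r * dd γ (zt z u v r x) (Lf u v (Mv 0 x)) (Lf u v (Mv 1 x))) = _
    rw [L1_eq]
    simp only [ww, Uc, Vc, Psd.cmp, fr, Matrix.cons_val_zero, Matrix.cons_val_one, Matrix.cons_val,
      Fin.reduceFinMk]
    ring

/-- the frame as smooth functions -/
theorem fr_smooth (i : Fin 4) :
    ContDiff ℝ ∞ (fun p : ℝ × E => fr (zr z u v p.1 p.2) (Lf u v (Mv 0 p.2)) i) := by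
  have h1 := zr_smooth z u v
  have h2 : ContDiff ℝ ∞ (fun p : ℝ × E => Lf u v (Mv 0 p.2)) :=
    (Lf u v).contDiff.comp ((Mv 0).contDiff.comp contDiff_snd)
  fin_cases i
  · exact h1
  · exact h1.const_smul Complex.I
  · exact h2
  · exact h2.const_smul Complex.I

theorem TT_joint (hγ : ContDiffOn ℝ ∞ γ {0}ᶜ) (h : ON3 z u v) (i j : Fin 4) :
    ContDiffOn ℝ ∞ (fun p : ℝ × E => TT γ z u v p.1 p.2 i j) Dm :=
  ddgam_smooth hγ h (fr_smooth i) (fr_smooth j)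

theorem UU_joint (hγ : ContDiffOn ℝ ∞ γ {0}ᶜ) (h : ON3 z u v) (i : Fin 3) :
    ContDiffOn ℝ ∞ (fun p : ℝ × E => UU γ z u v p.1 i p.2) Dm := by
  fin_cases i
  · exact (TT_joint hγ h 0 2).add (TT_joint hγ h 3 1)
  · exact (TT_joint hγ h 0 3).add (TT_joint hγ h 1 2)
  · exact (TT_joint hγ h 0 1).add (TT_joint hγ h 2 3)

theorem VV_joint (hγ : ContDiffOn ℝ ∞ γ {0}ᶜ) (h : ON3 z u v) (i : Fin 3) :
    ContDiffOn ℝ ∞ (fun p : ℝ × E => VV γ z u v p.1 i p.2) Dm := by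
  fin_cases i
  · exact (TT_joint hγ h 0 2).sub (TT_joint hγ h 3 1)
  · exact (TT_joint hγ h 0 3).sub (TT_joint hγ h 1 2)
  · exact (TT_joint hγ h 0 1).sub (TT_joint hγ h 2 3)

theorem UU_Sm (hγ : ContDiffOn ℝ ∞ γ {0}ᶜ) (h : ON3 z u v) (r : ℝ) (i : Fin 3) :
    Sm (UU γ z u v r i) := slice_Sm (UU_joint hγ h i) r

theorem VV_Sm (hγ : ContDiffOn ℝ ∞ γ {0}ᶜ) (h : ON3 z u v) (r : ℝ) (i : Fin 3) :
    Sm (VV γ z u v r i) := slice_Sm (VV_joint hγ h i) r

/-! ### the radial functions -/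

/-- Means of the components. -/
noncomputable def ub (γ : W → W →L[ℝ] ℝ) (z u v : W) (r : ℝ) (i : Fin 3) : ℝ :=
  SA (UU γ z u v r i)

noncomputable def vb (γ : W → W →L[ℝ] ℝ) (z u v : W) (r : ℝ) (i : Fin 3) : ℝ :=
  SA (VV γ z u v r i)

noncomputable def u2 (γ : W → W →L[ℝ] ℝ) (z u v : W) (r : ℝ) : ℝ :=
  SA fun x => ∑ i, UU γ z u v r i x ^ 2

noncomputable def v2 (γ : W → W →L[ℝ] ℝ) (z u v : W) (r : ℝ) : ℝ :=
  SA fun x => ∑ i, VV γ z u v r i x ^ 2

theorem u2_smooth (hγ : ContDiffOn ℝ ∞ γ {0}ᶜ) (h : ON3 z u v) : ContDiff ℝ ∞ (u2 γ z u v) := by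
  have h1 : ContDiffOn ℝ ∞ (fun p : ℝ × E => ∑ i, UU γ z u v p.1 i p.2 ^ 2) Dm :=
    ContDiffOn.sum fun i _ => (UU_joint hγ h i).pow 2
  exact SA_smooth h1

theorem v2_smooth (hγ : ContDiffOn ℝ ∞ γ {0}ᶜ) (h : ON3 z u v) : ContDiff ℝ ∞ (v2 γ z u v) := by
  have h1 : ContDiffOn ℝ ∞ (fun p : ℝ × E => ∑ i, VV γ z u v p.1 i p.2 ^ 2) Dm :=
    ContDiffOn.sum fun i _ => (VV_joint hγ h i).pow 2
  exact SA_smooth h1

theorem u2_nonneg (r : ℝ) : 0 ≤ u2 γ z u v r :=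
  SA_nonneg fun _ _ => Finset.sum_nonneg fun _ _ => sq_nonneg _

theorem v2_nonneg (r : ℝ) : 0 ≤ v2 γ z u v r :=
  SA_nonneg fun _ _ => Finset.sum_nonneg fun _ _ => sq_nonneg _

theorem bm_eq' (hγ : HK γ) (h : ON3 z u v) (r : ℝ) (i : Fin 3) :
    bm γ z u v r i = ww r i * ((ub γ z u v r i - vb γ z u v r i) / 2) := by
  have e : bm γ z u v r i = SA fun x => (ww r i / 2) * (UU γ z u v r i x - VV γ z u v r i x) :=
    SA_congr fun x hx => by
      rw [BB_eq hγ h r i (ne_of_norm hx)]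
      ring
  rw [e, SA_smul, SA_sub (UU_Sm hγ.smooth h r i).cont (VV_Sm hγ.smooth h r i).cont]
  unfold ub vb
  ring

theorem bm_deriv' (hγ : HK γ) (h : ON3 z u v) (r : ℝ) (i : Fin 3) :
    HasDerivAt (fun r => bm γ z u v r i) (pw r i * (ub γ z u v r i + vb γ z u v r i)) r := by
  refine (bm_deriv hγ.smooth h r i).congr_deriv ?_
  have e : SA (AA γ z u v r i) = SA fun x => (pw r i / 2) * (UU γ z u v r i x + VV γ z u v r i x) :=
    SA_congr fun x hx => by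
      rw [AA_eq hγ h r i (ne_of_norm hx)]
      ring
  rw [e, SA_smul, SA_add (UU_Sm hγ.smooth h r i).cont (VV_Sm hγ.smooth h r i).cont]
  unfold ub vb
  ring

theorem Th_deriv' (hγ : HK γ) (h : ON3 z u v) (r : ℝ) :
    HasDerivAt (fun r => Th γ z u v r)
      (1 / 2 * (Real.sin r ^ 3 * Real.cos r) * u2 γ z u v r -
        1 / 2 * (Real.sin r ^ 3 * Real.cos r) * v2 γ z u v r) r := by
  refine (Th_deriv hγ.smooth h r).congr_deriv ?_
  have s1 : Sm fun x => ∑ i, UU γ z u v r i x ^ 2 :=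
    Sm.sum _ fun i _ => (UU_Sm hγ.smooth h r i).pow 2
  have s2 : Sm fun x => ∑ i, VV γ z u v r i x ^ 2 :=
    Sm.sum _ fun i _ => (VV_Sm hγ.smooth h r i).pow 2
  have e : SA (fun x => ∑ i, AA γ z u v r i x * BB γ z u v r i x) =
      SA fun x => (1 / 4 * (Real.sin r ^ 3 * Real.cos r)) *
        ((∑ i, UU γ z u v r i x ^ 2) - ∑ i, VV γ z u v r i x ^ 2) :=
    SA_congr fun x hx => by
      rw [← Finset.sum_sub_distrib, Finset.mul_sum]
      refine Finset.sum_congr rfl fun i _ => ?_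
      rw [AA_eq hγ h r i (ne_of_norm hx), BB_eq hγ h r i (ne_of_norm hx), ← pw_mul_ww r i]
      ring
  rw [e, SA_smul, SA_sub s1.cont s2.cont]
  unfold u2 v2
  ring

theorem ub_sq_le (hγ : ContDiffOn ℝ ∞ γ {0}ᶜ) (h : ON3 z u v) (r : ℝ) :
    ∑ i, ub γ z u v r i ^ 2 ≤ u2 γ z u v r := by
  unfold u2 ub
  rw [SA_sum _ fun i _ => ((UU_Sm hγ h r i).pow 2).cont]
  exact Finset.sum_le_sum fun i _ => SA_sq_le (UU_Sm hγ h r i).cont

theorem vb_sq_le (hγ : ContDiffOn ℝ ∞ γ {0}ᶜ) (h : ON3 z u v) (r : ℝ) :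
    ∑ i, vb γ z u v r i ^ 2 ≤ v2 γ z u v r := by
  unfold v2 vb
  rw [SA_sum _ fun i _ => ((VV_Sm hγ h r i).pow 2).cont]
  exact Finset.sum_le_sum fun i _ => SA_sq_le (VV_Sm hγ h r i).cont

/-- mean square of `UU` minus the constants `c` -/
noncomputable def uh2 (γ : W → W →L[ℝ] ℝ) (z u v : W) (r : ℝ) (c : Fin 3 → ℝ) : ℝ :=
  SA fun x => ∑ i, (UU γ z u v r i x - c i) ^ 2

theorem uh2_eq (hγ : ContDiffOn ℝ ∞ γ {0}ᶜ) (h : ON3 z u v) (r : ℝ) (c : Fin 3 → ℝ) :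
    uh2 γ z u v r c = u2 γ z u v r - 2 * ∑ i, c i * ub γ z u v r i + ∑ i, c i ^ 2 := by
  have s1 : Sm fun x => ∑ i, UU γ z u v r i x ^ 2 :=
    Sm.sum _ fun i _ => (UU_Sm hγ h r i).pow 2
  have s2 : Sm fun x => ∑ i, c i * UU γ z u v r i x :=
    Sm.sum _ fun i _ => (UU_Sm hγ h r i).smul (c i)
  have s3 : Sm fun x => 2 * ∑ i, c i * UU γ z u v r i x := s2.smul 2
  have s4 : Sm fun x => (∑ i, UU γ z u v r i x ^ 2) - 2 * ∑ i, c i * UU γ z u v r i x :=
    s1.sub s3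
  have e : (fun x => ∑ i, (UU γ z u v r i x - c i) ^ 2) = fun x =>
      ((∑ i, UU γ z u v r i x ^ 2) - 2 * ∑ i, c i * UU γ z u v r i x) + ∑ i, c i ^ 2 := by
    funext x
    simp only [Fin.sum_univ_three]
    ring
  have e2 : SA (fun x => ∑ i, c i * UU γ z u v r i x) = ∑ i, c i * ub γ z u v r i := by
    rw [SA_sum _ fun i _ => ((UU_Sm hγ h r i).smul (c i)).cont]
    exact Finset.sum_congr rfl fun i _ => SA_smul _ _
  unfold uh2
  rw [e, SA_add s4.cont continuousOn_const, SA_sub s1.cont s3.cont, SA_smul, e2, SA_const]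
  rfl

theorem uh2_nonneg (r : ℝ) (c : Fin 3 → ℝ) : 0 ≤ uh2 γ z u v r c :=
  SA_nonneg fun _ _ => Finset.sum_nonneg fun _ _ => sq_nonneg _

theorem ww_sq_le (r : ℝ) (i : Fin 3) : ww r i ^ 2 ≤ Real.sin r ^ 4 := by
  have h1 := Real.cos_sq_le_one r
  have h2 : 0 ≤ Real.sin r ^ 4 := by positivity
  fin_cases i
  · show (Real.sin r ^ 2 * Real.cos r) ^ 2 ≤ _
    nlinarith
  · show (Real.sin r ^ 2 * Real.cos r) ^ 2 ≤ _
    nlinarith
  · show (Real.sin r ^ 2) ^ 2 ≤ _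
    nlinarith

/-- the key inequality in terms of the components -/
theorem Th_key' (hγ : HK γ) (h : ON3 z u v) (r : ℝ) {c : Fin 3 → ℝ}
    (hc : ∀ i, ww r i * (c i / 2) = bm γ z u v r i) (hw : ∀ i, ww r i ≠ 0) :
    Th γ z u v r ≤ 1 / 2 * ∑ i, bm γ z u v r i ^ 2 +
      Real.sin r ^ 4 / 12 * (11 / 10 * uh2 γ z u v r c + 11 * v2 γ z u v r) := by
  have hU := fun i => UU_Sm hγ.smooth h r i
  have hV := fun i => VV_Sm hγ.smooth h r i
  have hk := Th_key hγ.smooth h r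
  have hci : ∀ i, c i = ub γ z u v r i - vb γ z u v r i := by
    intro i
    have h1 := hc i
    rw [bm_eq' hγ h] at h1
    have h2 := mul_left_cancel₀ (hw i) h1
    linarith
  -- the terms
  have h1 : ∀ i, SA (fun x => (UU γ z u v r i x - VV γ z u v r i x) ^ 2) =
      SA (fun x => (UU γ z u v r i x - VV γ z u v r i x - c i) ^ 2) + c i ^ 2 := by
    intro i
    have s1 : Sm fun x => UU γ z u v r i x - VV γ z u v r i x := (hU i).sub (hV i)
    have s2 : Sm fun x => (UU γ z u v r i x - VV γ z u v r i x - c i) ^ 2 :=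
      (s1.sub (Sm.const (c i))).pow 2
    have s3 : Sm fun x => (2 * c i) * (UU γ z u v r i x - VV γ z u v r i x) := s1.smul _
    have e : (fun x => (UU γ z u v r i x - VV γ z u v r i x) ^ 2) = fun x =>
        ((UU γ z u v r i x - VV γ z u v r i x - c i) ^ 2 +
          (2 * c i) * (UU γ z u v r i x - VV γ z u v r i x)) + -c i ^ 2 := by
      funext x
      ring
    have s4 : Sm fun x => (UU γ z u v r i x - VV γ z u v r i x - c i) ^ 2 +
          (2 * c i) * (UU γ z u v r i x - VV γ z u v r i x) := s2.add s3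
    rw [e, SA_add s4.cont continuousOn_const, SA_add s2.cont s3.cont, SA_smul,
      SA_sub (hU i).cont (hV i).cont, SA_const]
    have h3 := hci i
    unfold ub vb at h3
    rw [← h3]
    ring
  have h2 : SA (fun x => ∑ i, BB γ z u v r i x ^ 2) = ∑ i, bm γ z u v r i ^ 2 +
      ∑ i, ww r i ^ 2 / 4 * SA (fun x => (UU γ z u v r i x - VV γ z u v r i x - c i) ^ 2) := by
    rw [SA_sum _ fun i _ => ((BB_Sm hγ.smooth h r i).pow 2).cont, ← Finset.sum_add_distrib]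
    refine Finset.sum_congr rfl fun i _ => ?_
    have e : SA (fun x => BB γ z u v r i x ^ 2) =
        SA fun x => ww r i ^ 2 / 4 * (UU γ z u v r i x - VV γ z u v r i x) ^ 2 :=
      SA_congr fun x hx => by
        rw [BB_eq hγ h r i (ne_of_norm hx)]
        ring
    rw [e, SA_smul, h1, ← hc i]
    ring
  have h3 : ∀ i, SA (fun x => (UU γ z u v r i x - VV γ z u v r i x - c i) ^ 2) ≤
      11 / 10 * SA (fun x => (UU γ z u v r i x - c i) ^ 2) +
        11 * SA (fun x => VV γ z u v r i x ^ 2) := by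
    intro i
    have s1 : Sm fun x => (UU γ z u v r i x - c i) ^ 2 := ((hU i).sub (Sm.const (c i))).pow 2
    have s2 : Sm fun x => VV γ z u v r i x ^ 2 := (hV i).pow 2
    have s3 : Sm fun x => (UU γ z u v r i x - VV γ z u v r i x - c i) ^ 2 :=
      (((hU i).sub (hV i)).sub (Sm.const (c i))).pow 2
    have s4 : Sm fun x => 11 / 10 * (UU γ z u v r i x - c i) ^ 2 := s1.smul _
    have s5 : Sm fun x => 11 * VV γ z u v r i x ^ 2 := s2.smul _
    rw [← SA_smul, ← SA_smul, ← SA_add s4.cont s5.cont]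
    refine SA_mono s3.cont (s4.add s5).cont fun x _ => ?_
    nlinarith [sq_nonneg ((UU γ z u v r i x - c i) + 10 * VV γ z u v r i x)]
  have h4 : ∑ i, ww r i ^ 2 / 4 * SA (fun x => (UU γ z u v r i x - VV γ z u v r i x - c i) ^ 2) ≤
      Real.sin r ^ 4 / 4 * (11 / 10 * uh2 γ z u v r c + 11 * v2 γ z u v r) := by
    have e1 : uh2 γ z u v r c = ∑ i, SA (fun x => (UU γ z u v r i x - c i) ^ 2) :=
      SA_sum _ fun i _ => (((hU i).sub (Sm.const (c i))).pow 2).cont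
    have e2 : v2 γ z u v r = ∑ i, SA (fun x => VV γ z u v r i x ^ 2) :=
      SA_sum _ fun i _ => ((hV i).pow 2).cont
    rw [e1, e2, Finset.mul_sum, Finset.mul_sum, ← Finset.sum_add_distrib, Finset.mul_sum]
    refine Finset.sum_le_sum fun i _ => ?_
    have n1 : 0 ≤ SA (fun x => (UU γ z u v r i x - VV γ z u v r i x - c i) ^ 2) :=
      SA_nonneg fun x _ => sq_nonneg _
    calc _ ≤ Real.sin r ^ 4 / 4 *
          SA (fun x => (UU γ z u v r i x - VV γ z u v r i x - c i) ^ 2) := by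
          have := ww_sq_le r i
          gcongr
      _ ≤ _ := by
          have := h3 i
          gcongr
  rw [h2] at hk
  linarith

end

end Pool.Agent.Lib.Pex
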