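import Pool.Agent.Lib.Pex.Curl
import Pool.Agent.Lib.Psd.CmpF

set_option autoImplicit false

/-!
# Polar coordinates on the projective plane: calculus

`zt r x = cos r z + sin r L x` (`L = Lf u v`), `zr` its derivative in `r`; `aa i`, `ar` are the components of the one-form `γ` along
`Y_i` and `∂_r`, `AA i = ∂_r (aa i) - Y_i ar` and `BB = crl aa` those of its exterior derivative (`aa_deriv`, `crl_aa`).
-/

open MeasureTheory Set Metric
open scoped ContDiff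

namespace Pool.Agent.Lib.Pex

open Pool.Agent.P28b04d Pool.Agent.Lib.Psd

/-- One-forms on `ℂ³ - 0` whose exterior derivative kills the complex multiples of the point. -/
structure HK (γ : W → W →L[ℝ] ℝ) : Prop where
  smooth : ContDiffOn ℝ ∞ γ {0}ᶜ
  kill : ∀ z : W, z ≠ 0 → ∀ (c : ℂ) (w : W), dd γ z (c • z) w = 0

theorem HK.of_conn {γ : W → W →L[ℝ] ℝ} (h : Conn γ) : HK γ := ⟨h.smooth, fun _ hz c w => h.dd_left hz c w⟩

theorem HK.of_basic {γ : W → W →L[ℝ] ℝ} (h : Basic γ) : HK γ :=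
  ⟨h.smooth, fun _ hz c w => h.dd_left hz c w⟩

/-- The point. -/
noncomputable def zt (z u v : W) (r : ℝ) (x : E) : W := Real.cos r • z + Real.sin r • Lf u v x

/-- Its derivative in `r`. -/
noncomputable def zr (z u v : W) (r : ℝ) (x : E) : W := (-Real.sin r) • z + Real.cos r • Lf u v x

noncomputable def aa (γ : W → W →L[ℝ] ℝ) (z u v : W) (r : ℝ) (i : Fin 3) (x : E) : ℝ :=
  γ (zt z u v r x) (Real.sin r • Lf u v (Mv i x))

noncomputable def ar (γ : W → W →L[ℝ] ℝ) (z u v : W) (r : ℝ) (x : E) : ℝ :=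
  γ (zt z u v r x) (zr z u v r x)

noncomputable def AA (γ : W → W →L[ℝ] ℝ) (z u v : W) (r : ℝ) (i : Fin 3) (x : E) : ℝ :=
  dd γ (zt z u v r x) (zr z u v r x) (Real.sin r • Lf u v (Mv i x))

noncomputable def BB (γ : W → W →L[ℝ] ℝ) (z u v : W) (r : ℝ) (i : Fin 3) (x : E) : ℝ :=
  dd γ (zt z u v r x) (Real.sin r • Lf u v (Mv (i + 1) x)) (Real.sin r • Lf u v (Mv (i + 2) x))

/-- Hermitian products in the chart. -/
theorem hp_Lf {z u v : W} (h : ON3 z u v) (x y : E) : hp (Lf u v x) (Lf u v y) =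
    ((inner ℝ x y : ℝ) : ℂ) + Complex.I * ((inner ℝ (J4 x) y : ℝ) : ℂ) := by
  have hvu : hp v u = 0 := by rw [← hp_star, h.uv, star_zero]
  rw [ActXAux.Lf_eq, ActXAux.Lf_eq, FrameGAux.hp_add_left, FrameGAux.hp_smul_left,
    FrameGAux.hp_smul_left, hp_add_right, hp_add_right, hp_smul_right, hp_smul_right,
    hp_smul_right, hp_smul_right, h.uu, h.vv, h.uv, hvu, inner_four, inner_four]
  apply Complex.ext
  · simp [J4]
    ring
  · simp [J4]
    ring

theorem hp_z_Lf {z u v : W} (h : ON3 z u v) (x : E) : hp z (Lf u v x) = 0 := by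
  rw [ActXAux.Lf_eq, hp_add_right, hp_smul_right, hp_smul_right, h.zu, h.zv]
  ring

theorem hp_Lf_z {z u v : W} (h : ON3 z u v) (x : E) : hp (Lf u v x) z = 0 := by
  rw [← hp_star, hp_z_Lf h, star_zero]

theorem inner_J4_self (x : E) : inner ℝ (J4 x) x = 0 := by
  rw [inner_four]
  simp [J4]
  ring

/-- products of real combinations -/
theorem hp_comb {z u v : W} (h : ON3 z u v) (a b c d : ℝ) (x : E) :
    hp (a • z + b • Lf u v x) (c • z + d • Lf u v x) = ((a * c + b * d * ‖x‖ ^ 2 : ℝ) : ℂ) := by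
  rw [CmpFAux.rsmul a, CmpFAux.rsmul b, CmpFAux.rsmul c, CmpFAux.rsmul d, FrameGAux.hp_add_left,
    FrameGAux.hp_smul_left, FrameGAux.hp_smul_left, hp_add_right, hp_add_right, hp_smul_right,
    hp_smul_right, hp_smul_right, hp_smul_right, h.zz, hp_z_Lf h, hp_Lf_z h, hp_Lf h,
    inner_J4_self, real_inner_self_eq_norm_sq]
  simp
  ring

theorem zt_ne {z u v : W} (h : ON3 z u v) (r : ℝ) {x : E} (hx : x ≠ 0) : zt z u v r x ≠ 0 := by
  intro h0
  have h1 := hp_comb h (Real.cos r) (Real.sin r) (Real.cos r) (Real.sin r) x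
  have h2 : Real.cos r • z + Real.sin r • Lf u v x = 0 := h0
  rw [h2] at h1
  have h3 : hp (0 : W) 0 = 0 := by simp [hp]
  rw [h3] at h1
  have h4 : Real.cos r * Real.cos r + Real.sin r * Real.sin r * ‖x‖ ^ 2 = 0 := by
    exact_mod_cast h1.symm
  have h5 : 0 < ‖x‖ := norm_pos_iff.2 hx
  have h6 := Real.sin_sq_add_cos_sq r
  have h7 : 0 ≤ Real.sin r * Real.sin r * ‖x‖ ^ 2 :=
    mul_nonneg (mul_self_nonneg _) (sq_nonneg _)
  have h8 : Real.cos r = 0 := by nlinarith [mul_self_nonneg (Real.cos r)]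
  rw [h8] at h4 h6
  have h9 : Real.sin r ^ 2 = 1 := by linarith
  have h10 : ‖x‖ ^ 2 = 0 := by nlinarith
  nlinarith

theorem zt_smooth (z u v : W) : ContDiff ℝ ∞ (fun p : ℝ × E => zt z u v p.1 p.2) := by
  unfold zt
  exact ((Real.contDiff_cos.comp contDiff_fst).smul contDiff_const).add
    ((Real.contDiff_sin.comp contDiff_fst).smul ((Lf u v).contDiff.comp contDiff_snd))

theorem zr_smooth (z u v : W) : ContDiff ℝ ∞ (fun p : ℝ × E => zr z u v p.1 p.2) := by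
  unfold zr
  exact ((Real.contDiff_sin.neg.comp contDiff_fst).smul contDiff_const).add
    ((Real.contDiff_cos.comp contDiff_fst).smul ((Lf u v).contDiff.comp contDiff_snd))

theorem sL_smooth (u v : W) (i : Fin 3) :
    ContDiff ℝ ∞ (fun p : ℝ × E => Real.sin p.1 • Lf u v (Mv i p.2)) :=
  (Real.contDiff_sin.comp contDiff_fst).smul
    ((Lf u v).contDiff.comp ((Mv i).contDiff.comp contDiff_snd))

/-- The domain. -/
abbrev Dm : Set (ℝ × E) := univ ×ˢ {0}ᶜ

section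
variable {γ : W → W →L[ℝ] ℝ} {z u v : W}

theorem maps_zt (h : ON3 z u v) : MapsTo (fun p : ℝ × E => zt z u v p.1 p.2) Dm {0}ᶜ :=
  fun p hp => zt_ne h p.1 hp.2

theorem gam_smooth (hγ : ContDiffOn ℝ ∞ γ {0}ᶜ) (h : ON3 z u v) :
    ContDiffOn ℝ ∞ (fun p : ℝ × E => γ (zt z u v p.1 p.2)) Dm :=
  hγ.comp (zt_smooth z u v).contDiffOn (maps_zt h)

theorem dgam_smooth (hγ : ContDiffOn ℝ ∞ γ {0}ᶜ) (h : ON3 z u v) :
    ContDiffOn ℝ ∞ (fun p : ℝ × E => fderiv ℝ γ (zt z u v p.1 p.2)) Dm :=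
  (hγ.fderiv_of_isOpen isOpen_compl_singleton (by simp)).comp (zt_smooth z u v).contDiffOn
    (maps_zt h)

/-- smoothness of the exterior derivative along smooth fields -/
theorem ddgam_smooth (hγ : ContDiffOn ℝ ∞ γ {0}ᶜ) (h : ON3 z u v) {a b : ℝ × E → W}
    (ha : ContDiff ℝ ∞ a) (hb : ContDiff ℝ ∞ b) :
    ContDiffOn ℝ ∞ (fun p : ℝ × E => dd γ (zt z u v p.1 p.2) (a p) (b p)) Dm := by
  unfold dd
  have h1 := dgam_smooth hγ h
  exact ((h1.clm_apply ha.contDiffOn).clm_apply hb.contDiffOn).sub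
    ((h1.clm_apply hb.contDiffOn).clm_apply ha.contDiffOn)

theorem aa_joint (hγ : ContDiffOn ℝ ∞ γ {0}ᶜ) (h : ON3 z u v) (i : Fin 3) :
    ContDiffOn ℝ ∞ (fun p : ℝ × E => aa γ z u v p.1 i p.2) Dm :=
  (gam_smooth hγ h).clm_apply (sL_smooth u v i).contDiffOn

theorem ar_joint (hγ : ContDiffOn ℝ ∞ γ {0}ᶜ) (h : ON3 z u v) :
    ContDiffOn ℝ ∞ (fun p : ℝ × E => ar γ z u v p.1 p.2) Dm :=
  (gam_smooth hγ h).clm_apply (zr_smooth z u v).contDiffOn

theorem AA_joint (hγ : ContDiffOn ℝ ∞ γ {0}ᶜ) (h : ON3 z u v) (i : Fin 3) :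
    ContDiffOn ℝ ∞ (fun p : ℝ × E => AA γ z u v p.1 i p.2) Dm :=
  ddgam_smooth hγ h (zr_smooth z u v) (sL_smooth u v i)

theorem BB_joint (hγ : ContDiffOn ℝ ∞ γ {0}ᶜ) (h : ON3 z u v) (i : Fin 3) :
    ContDiffOn ℝ ∞ (fun p : ℝ × E => BB γ z u v p.1 i p.2) Dm :=
  ddgam_smooth hγ h (sL_smooth u v _) (sL_smooth u v _)

/-- slices of jointly smooth functions -/
theorem slice_Sm {Ψ : ℝ × E → ℝ} (hΨ : ContDiffOn ℝ ∞ Ψ Dm) (r : ℝ) : Sm (fun x => Ψ (r, x)) :=
  hΨ.comp (contDiff_const.prodMk contDiff_id).contDiffOn fun _ hx => ⟨mem_univ _, hx⟩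

theorem slice_deriv {Ψ : ℝ × E → ℝ} (hΨ : ContDiffOn ℝ ∞ Ψ Dm) (r : ℝ) {x : E} (hx : x ≠ 0) :
    ∃ d : ℝ, HasDerivAt (fun ρ => Ψ (ρ, x)) d r := by
  have ho : IsOpen Dm := isOpen_univ.prod isOpen_compl_singleton
  have h1 : DifferentiableAt ℝ Ψ (r, x) :=
    (hΨ.contDiffAt (ho.mem_nhds (show ((r, x) : ℝ × E) ∈ Dm from
      ⟨mem_univ _, hx⟩))).differentiableAt (by simp)
  have h2 : DifferentiableAt ℝ (fun ρ : ℝ => ((ρ, x) : ℝ × E)) r :=
    differentiableAt_id.prodMk (differentiableAt_const x)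
  exact ⟨_, (DifferentiableAt.comp r h1 h2).hasDerivAt⟩

theorem aa_Sm (hγ : ContDiffOn ℝ ∞ γ {0}ᶜ) (h : ON3 z u v) (r : ℝ) (i : Fin 3) :
    Sm (aa γ z u v r i) := slice_Sm (aa_joint hγ h i) r

theorem ar_Sm (hγ : ContDiffOn ℝ ∞ γ {0}ᶜ) (h : ON3 z u v) (r : ℝ) :
    Sm (ar γ z u v r) := slice_Sm (ar_joint hγ h) r

theorem AA_Sm (hγ : ContDiffOn ℝ ∞ γ {0}ᶜ) (h : ON3 z u v) (r : ℝ) (i : Fin 3) :
    Sm (AA γ z u v r i) := slice_Sm (AA_joint hγ h i) r

theorem BB_Sm (hγ : ContDiffOn ℝ ∞ γ {0}ᶜ) (h : ON3 z u v) (r : ℝ) (i : Fin 3) :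
    Sm (BB γ z u v r i) := slice_Sm (BB_joint hγ h i) r

/-- derivative of `γ(p(t))(q(t))` -/
theorem der_curve (hγ : ContDiffOn ℝ ∞ γ {0}ᶜ) {t₀ : ℝ} {p q : ℝ → W} {p' q' : W}
    (hp : HasDerivAt p p' t₀) (hq : HasDerivAt q q' t₀) (hne : p t₀ ≠ 0) :
    HasDerivAt (fun t => γ (p t) (q t)) (fderiv ℝ γ (p t₀) p' (q t₀) + γ (p t₀) q') t₀ := by
  have h1 : HasFDerivAt γ (fderiv ℝ γ (p t₀)) (p t₀) := ConnBAux.diffAt hγ hne
  have h2 : HasDerivAt (γ ∘ p) (fderiv ℝ γ (p t₀) p') t₀ := h1.comp_hasDerivAt t₀ hp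
  exact h2.clm_apply hq

/-- `Y` as a derivative along a line -/
theorem Y_line {f : E → ℝ} (hf : Sm f) (i : Fin 3) {x : E} (hx : x ≠ 0) {d : ℝ}
    (h : HasDerivAt (fun t : ℝ => f (x + t • Mv i x)) d 0) : Y i f x = d := by
  have h1 : HasFDerivAt f (fderiv ℝ f x) (x + (0 : ℝ) • Mv i x) := by
    rw [zero_smul, add_zero]
    exact (hf.diffAt hx).hasFDerivAt
  have h2 : HasDerivAt (fun t : ℝ => x + t • Mv i x) (Mv i x) 0 := by
    have h3 := ((hasDerivAt_id (0 : ℝ)).smul_const (Mv i x)).const_add x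
    simpa using h3
  have h3 := h1.comp_hasDerivAt 0 h2
  exact h3.unique h

theorem zt_line (r : ℝ) (i : Fin 3) (x : E) : HasDerivAt (fun t : ℝ => zt z u v r (x + t • Mv i x))
    (Real.sin r • Lf u v (Mv i x)) 0 := by
  have e : (fun t : ℝ => zt z u v r (x + t • Mv i x)) =
      fun t : ℝ => zt z u v r x + t • (Real.sin r • Lf u v (Mv i x)) := by
    funext t
    unfold zt
    rw [map_add, map_smul, smul_add, smul_comm (Real.sin r) t]
    abel
  rw [e]
  have h3 := ((hasDerivAt_id (0 : ℝ)).smul_const (Real.sin r • Lf u v (Mv i x))).const_add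
    (zt z u v r x)
  simpa using h3

theorem sL_line (r : ℝ) (i j : Fin 3) (x : E) :
    HasDerivAt (fun t : ℝ => Real.sin r • Lf u v (Mv j (x + t • Mv i x)))
      (Real.sin r • Lf u v (Mv j (Mv i x))) 0 := by
  have e : (fun t : ℝ => Real.sin r • Lf u v (Mv j (x + t • Mv i x))) =
      fun t : ℝ => Real.sin r • Lf u v (Mv j x) + t • (Real.sin r • Lf u v (Mv j (Mv i x))) := by
    funext t
    rw [map_add, map_smul, map_add, map_smul, smul_add, smul_comm (Real.sin r) t]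
  rw [e]
  have h3 := ((hasDerivAt_id (0 : ℝ)).smul_const (Real.sin r • Lf u v (Mv j (Mv i x)))).const_add
    (Real.sin r • Lf u v (Mv j x))
  simpa using h3

theorem zr_line (r : ℝ) (i : Fin 3) (x : E) : HasDerivAt (fun t : ℝ => zr z u v r (x + t • Mv i x))
    (Real.cos r • Lf u v (Mv i x)) 0 := by
  have e : (fun t : ℝ => zr z u v r (x + t • Mv i x)) =
      fun t : ℝ => zr z u v r x + t • (Real.cos r • Lf u v (Mv i x)) := by
    funext t
    unfold zr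
    rw [map_add, map_smul, smul_add, smul_comm (Real.cos r) t]
    abel
  rw [e]
  have h3 := ((hasDerivAt_id (0 : ℝ)).smul_const (Real.cos r • Lf u v (Mv i x))).const_add
    (zr z u v r x)
  simpa using h3

theorem Y_aa (hγ : ContDiffOn ℝ ∞ γ {0}ᶜ) (h : ON3 z u v) (r : ℝ) (i j : Fin 3) {x : E}
    (hx : x ≠ 0) : Y j (aa γ z u v r i) x =
      fderiv ℝ γ (zt z u v r x) (Real.sin r • Lf u v (Mv j x)) (Real.sin r • Lf u v (Mv i x)) +
        γ (zt z u v r x) (Real.sin r • Lf u v (Mv i (Mv j x))) := by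
  refine Y_line (aa_Sm hγ h r i) j hx ?_
  have h1 := der_curve hγ (zt_line (z := z) (u := u) (v := v) r j x)
    (sL_line (u := u) (v := v) r j i x) (by
      rw [zero_smul, add_zero]
      exact zt_ne h r hx)
  rw [zero_smul, add_zero] at h1
  exact h1

theorem crl_aa (hγ : ContDiffOn ℝ ∞ γ {0}ᶜ) (h : ON3 z u v) (r : ℝ) (i : Fin 3) {x : E}
    (hx : x ≠ 0) : crl (aa γ z u v r) i x = BB γ z u v r i x := by
  have e1 : i + 1 + 1 = i + 2 := by fin_cases i <;> rfl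
  have e2 : i + 1 + 2 = i := by fin_cases i <;> rfl
  have m1 : Mv (i + 2) (Mv (i + 1) x) = -Mv i x := by
    have := Mv_mul' (i + 1) x
    rwa [e1, e2] at this
  have m2 : Mv (i + 1) (Mv (i + 2) x) = Mv i x := by
    have := Mv_mul (i + 1) x
    rwa [e1, e2] at this
  unfold crl BB dd
  rw [Y_aa hγ h r _ _ hx, Y_aa hγ h r _ _ hx, m1, m2, map_neg, smul_neg, map_neg]
  unfold aa
  ring

theorem Y_ar (hγ : ContDiffOn ℝ ∞ γ {0}ᶜ) (h : ON3 z u v) (r : ℝ) (i : Fin 3) {x : E}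
    (hx : x ≠ 0) : Y i (ar γ z u v r) x =
      fderiv ℝ γ (zt z u v r x) (Real.sin r • Lf u v (Mv i x)) (zr z u v r x) +
        γ (zt z u v r x) (Real.cos r • Lf u v (Mv i x)) := by
  refine Y_line (ar_Sm hγ h r) i hx ?_
  have h1 := der_curve hγ (zt_line (z := z) (u := u) (v := v) r i x)
    (zr_line (z := z) (u := u) (v := v) r i x) (by
      rw [zero_smul, add_zero]
      exact zt_ne h r hx)
  rw [zero_smul, add_zero] at h1
  exact h1

theorem zt_hasDeriv (r : ℝ) (x : E) :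
    HasDerivAt (fun r => zt z u v r x) (zr z u v r x) r :=
  ((Real.hasDerivAt_cos r).smul_const z).add ((Real.hasDerivAt_sin r).smul_const (Lf u v x))

theorem aa_deriv (hγ : ContDiffOn ℝ ∞ γ {0}ᶜ) (h : ON3 z u v) (r : ℝ) (i : Fin 3) {x : E}
    (hx : x ≠ 0) : HasDerivAt (fun ρ => aa γ z u v ρ i x)
      (AA γ z u v r i x + Y i (ar γ z u v r) x) r := by
  have h1 := der_curve hγ (zt_hasDeriv (z := z) (u := u) (v := v) r x)
    ((Real.hasDerivAt_sin r).smul_const (Lf u v (Mv i x))) (zt_ne h r hx)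
  refine h1.congr_deriv ?_
  rw [Y_ar hγ h r i hx]
  unfold AA dd
  ring

/-! ### the means -/

/-- The mean of `BB`. -/
noncomputable def bm (γ : W → W →L[ℝ] ℝ) (z u v : W) (r : ℝ) (i : Fin 3) : ℝ :=
  SA (BB γ z u v r i)

/-- The mean of `aa · BB`. -/
noncomputable def Th (γ : W → W →L[ℝ] ℝ) (z u v : W) (r : ℝ) : ℝ :=
  SA fun x => ∑ i, aa γ z u v r i x * BB γ z u v r i x

theorem bm_eq (hγ : ContDiffOn ℝ ∞ γ {0}ᶜ) (h : ON3 z u v) (r : ℝ) (i : Fin 3) :
    bm γ z u v r i = 2 * SA (aa γ z u v r i) := by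
  rw [← SA_crl (fun i => aa_Sm hγ h r i) i]
  exact SA_congr fun x hx => (crl_aa hγ h r i (ne_of_norm hx)).symm

theorem bm_deriv (hγ : ContDiffOn ℝ ∞ γ {0}ᶜ) (h : ON3 z u v) (r : ℝ) (i : Fin 3) :
    HasDerivAt (fun r => bm γ z u v r i) (2 * SA (AA γ z u v r i)) r := by
  have e : (fun r => bm γ z u v r i) = fun r => 2 * SA (aa γ z u v r i) :=
    funext fun r => bm_eq hγ h r i
  rw [e]
  have h1 := SA_deriv (aa_joint hγ h i) (r := r)
    (g := fun x => AA γ z u v r i x + Y i (ar γ z u v r) x)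
    fun x hx => aa_deriv hγ h r i (ne_of_norm hx)
  have h2 : SA (fun x => AA γ z u v r i x + Y i (ar γ z u v r) x) = SA (AA γ z u v r i) := by
    rw [SA_add (AA_Sm hγ h r i).cont ((ar_Sm hγ h r).Y i).cont, SA_Y (ar_Sm hγ h r), add_zero]
  rw [h2] at h1
  exact h1.const_mul 2

theorem Th_eq (hγ : ContDiffOn ℝ ∞ γ {0}ᶜ) (h : ON3 z u v) (r : ℝ) :
    Th γ z u v r = SA fun x => ∑ i, aa γ z u v r i x * crl (aa γ z u v r) i x :=
  SA_congr fun x hx => Finset.sum_congr rfl fun i _ => by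
    rw [crl_aa hγ h r i (ne_of_norm hx)]

theorem Th_deriv (hγ : ContDiffOn ℝ ∞ γ {0}ᶜ) (h : ON3 z u v) (r : ℝ) :
    HasDerivAt (fun r => Th γ z u v r)
      (2 * SA fun x => ∑ i, AA γ z u v r i x * BB γ z u v r i x) r := by
  have ha := fun r i => aa_Sm hγ h r i
  have hB := fun r i => BB_Sm hγ h r i
  -- the difference
  set Ψ : ℝ × E → ℝ := fun p => ∑ i, (aa γ z u v p.1 i p.2 - aa γ z u v r i p.2) *
    (BB γ z u v p.1 i p.2 + BB γ z u v r i p.2) with hΨ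
  have hpr : ContDiffOn ℝ ∞ (fun p : ℝ × E => p.2) Dm := contDiffOn_snd
  have hmt : MapsTo (fun p : ℝ × E => p.2) Dm {0}ᶜ := fun p hp => hp.2
  have hΨs : ContDiffOn ℝ ∞ Ψ Dm := by
    refine ContDiffOn.sum fun i _ => ContDiffOn.mul ?_ ?_
    · exact (aa_joint hγ h i).sub ((ha r i).comp hpr hmt)
    · exact (BB_joint hγ h i).add ((hB r i).comp hpr hmt)
  have h1 : ∀ ρ, Th γ z u v ρ = Th γ z u v r + SA fun x => Ψ (ρ, x) := by
    intro ρ
    have s1 : Sm fun x => ∑ i, aa γ z u v ρ i x * BB γ z u v ρ i x :=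
      Sm.sum _ fun i _ => (ha ρ i).mul (hB ρ i)
    have s2 : Sm fun x => ∑ i, aa γ z u v r i x * BB γ z u v r i x :=
      Sm.sum _ fun i _ => (ha r i).mul (hB r i)
    have s3 : Sm fun x => ∑ i, aa γ z u v ρ i x * crl (aa γ z u v r) i x :=
      Sm.sum _ fun i _ => (ha ρ i).mul (crl_Sm (ha r) i)
    have s4 : Sm fun x => ∑ i, crl (aa γ z u v ρ) i x * aa γ z u v r i x :=
      Sm.sum _ fun i _ => (crl_Sm (ha ρ) i).mul (ha r i)
    have e1 : SA (fun x => Ψ (ρ, x)) = SA (fun x =>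
        ((∑ i, aa γ z u v ρ i x * BB γ z u v ρ i x) - ∑ i, aa γ z u v r i x * BB γ z u v r i x) +
        ((∑ i, aa γ z u v ρ i x * crl (aa γ z u v r) i x) -
          ∑ i, crl (aa γ z u v ρ) i x * aa γ z u v r i x)) := by
      refine SA_congr fun x hx => ?_
      have hx0 := ne_of_norm hx
      simp only [hΨ, Fin.sum_univ_three, crl_aa hγ h _ _ hx0]
      ring
    rw [e1, SA_add (s1.sub s2).cont (s3.sub s4).cont, SA_sub s1.cont s2.cont,
      SA_sub s3.cont s4.cont, crl_symm (ha ρ) (ha r)]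
    unfold Th
    ring
  have h2 : HasDerivAt (fun ρ => SA fun x => Ψ (ρ, x))
      (SA fun x => ∑ i, (AA γ z u v r i x + Y i (ar γ z u v r) x) *
        (2 * BB γ z u v r i x)) r := by
    refine SA_deriv hΨs fun x hx => ?_
    have hx0 := ne_of_norm hx
    simp only [hΨ]
    have e : (fun ρ => ∑ i, (aa γ z u v ρ i x - aa γ z u v r i x) *
        (BB γ z u v ρ i x + BB γ z u v r i x)) = ∑ i, fun ρ => (aa γ z u v ρ i x -
          aa γ z u v r i x) * (BB γ z u v ρ i x + BB γ z u v r i x) := by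
      funext ρ
      rw [Finset.sum_apply]
    rw [e]
    refine HasDerivAt.sum fun i _ => ?_
    obtain ⟨d, hd⟩ := slice_deriv (BB_joint hγ h i) r hx0
    have h3 := ((aa_deriv hγ h r i hx0).sub_const (aa γ z u v r i x)).mul
      (hd.add_const (BB γ z u v r i x))
    refine h3.congr_deriv ?_
    ring
  have h3 : SA (fun x => ∑ i, (AA γ z u v r i x + Y i (ar γ z u v r) x) *
        (2 * BB γ z u v r i x)) = 2 * SA fun x => ∑ i, AA γ z u v r i x * BB γ z u v r i x := by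
    have hr := ar_Sm hγ h r
    have s1 : Sm fun x => ∑ i, AA γ z u v r i x * BB γ z u v r i x :=
      Sm.sum _ fun i _ => (AA_Sm hγ h r i).mul (hB r i)
    have s2 : Sm fun x => ∑ i, Y i (ar γ z u v r) x * crl (aa γ z u v r) i x :=
      Sm.sum _ fun i _ => (hr.Y i).mul (crl_Sm (ha r) i)
    have z1 : SA (fun x => ∑ i, Y i (ar γ z u v r) x * crl (aa γ z u v r) i x) = 0 := by
      rw [crl_symm (a := fun i => Y i (ar γ z u v r)) (fun i => hr.Y i) (ha r), ← SA_const 0]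
      refine SA_congr fun x hx => Finset.sum_eq_zero fun i _ => ?_
      rw [crl_grad hr i (ne_of_norm hx), zero_mul]
    have e1 : SA (fun x => ∑ i, (AA γ z u v r i x + Y i (ar γ z u v r) x) *
        (2 * BB γ z u v r i x)) = SA (fun x => 2 * (∑ i, AA γ z u v r i x * BB γ z u v r i x) +
          2 * ∑ i, Y i (ar γ z u v r) x * crl (aa γ z u v r) i x) := by
      refine SA_congr fun x hx => ?_
      have hx0 := ne_of_norm hx
      simp only [Fin.sum_univ_three, crl_aa hγ h _ _ hx0]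
      ring
    rw [e1, SA_add (s1.smul 2).cont (s2.smul 2).cont, SA_smul, SA_smul, z1]
    ring
  rw [h3] at h2
  have e : (fun r => Th γ z u v r) = fun ρ => Th γ z u v r + SA fun x => Ψ (ρ, x) := funext h1
  rw [e]
  exact h2.const_add _

theorem Th_key (hγ : ContDiffOn ℝ ∞ γ {0}ᶜ) (h : ON3 z u v) (r : ℝ) :
    Th γ z u v r ≤ 1 / 3 * SA (fun x => ∑ i, BB γ z u v r i x ^ 2) +
      1 / 6 * ∑ i, bm γ z u v r i ^ 2 := by
  have h1 := key (fun i => aa_Sm hγ h r i)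
  rw [← Th_eq hγ h] at h1
  have e1 : SA (fun x => ∑ i, crl (aa γ z u v r) i x ^ 2) =
      SA (fun x => ∑ i, BB γ z u v r i x ^ 2) :=
    SA_congr fun x hx => Finset.sum_congr rfl fun i _ => by
      rw [crl_aa hγ h r i (ne_of_norm hx)]
  have e2 : ∑ i, SA (crl (aa γ z u v r) i) ^ 2 = ∑ i, bm γ z u v r i ^ 2 :=
    Finset.sum_congr rfl fun i _ => by
      congr 1
      exact SA_congr fun x hx => crl_aa hγ h r i (ne_of_norm hx)
  rw [e1, e2] at h1
  exact h1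

theorem aa_zero (i : Fin 3) (x : E) : aa γ z u v 0 i x = 0 := by
  unfold aa
  rw [Real.sin_zero, zero_smul, map_zero]

theorem Th_zero : Th γ z u v 0 = 0 := by
  have e : Th γ z u v 0 = SA fun _ => 0 :=
    SA_congr fun x _ => Finset.sum_eq_zero fun i _ => by rw [aa_zero, zero_mul]
  rw [e, SA_const]

end

end Pool.Agent.Lib.Pex
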