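import Pool.Agent.Lib.Pex.Frm

set_option autoImplicit false

/-!
# The differential inequalities

`RD κ b p q U V N`: radial functions `b` (mean of the tangential part), `p`, `q` (means of the self-dual and anti-self-dual components), `U`,
`V` (mean squares), `N` (integral of the self-dual part over the ball). With `M = Σ b² / 2`: if `N - M ≤ x M` at some radius `r₀` with
`sin² r₀ ≤ 1/10`, then the same holds at all smaller radii and the vectors `dvec` vary slowly (`octave`, `all`).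
-/

open MeasureTheory Set Metric
open scoped ContDiff

namespace Pool.Agent.Lib.Pex

open Pool.Agent.P28b04d Pool.Agent.Lib.Psd

structure RD (κ : ℝ) (b p q : ℝ → Fin 3 → ℝ) (U V N : ℝ → ℝ) : Prop where
  hb : ∀ r i, b r i = ww r i * ((p r i - q r i) / 2)
  hbd : ∀ r i, HasDerivAt (fun r => b r i) (pw r i * (p r i + q r i)) r
  hN : ∀ r, HasDerivAt N (1 / 2 * (Real.sin r ^ 3 * Real.cos r) * U r) r
  hN0 : N 0 = 0
  hU : ∀ r, ∑ i, p r i ^ 2 ≤ U r
  hV : ∀ r, ∑ i, q r i ^ 2 ≤ V r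
  pin : ∀ r, V r ≤ κ ^ 2 * U r
  key : ∀ r, 0 < r → r < Real.pi / 2 → (1 - κ ^ 2) * N r ≤ 1 / 2 * ∑ i, b r i ^ 2 +
    Real.sin r ^ 4 / 12 * (11 / 10 * (U r - ∑ i, p r i ^ 2 + ∑ i, q r i ^ 2) + 11 * V r)

/-- backward comparison -/
theorem back_nonneg {g g' : ℝ → ℝ} {a b : ℝ} (hg : ∀ r ∈ Icc a b, HasDerivAt g (g' r) r)
    (hb : 0 ≤ g b) (h : ∀ r ∈ Icc a b, g r = 0 → g' r < 0) : ∀ r ∈ Icc a b, 0 ≤ g r := by
  have h1 : ∀ t ∈ Icc (-b) (-a), (fun t => -g (-t)) t ≤ (fun _ => (0 : ℝ)) t := by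
    refine image_le_of_deriv_right_lt_deriv_boundary' (f' := fun t => g' (-t))
      (B' := fun _ => 0) ?_ ?_ ?_ continuousOn_const ?_ ?_
    · intro t ht
      have ht' : -t ∈ Icc a b := ⟨by linarith [ht.2], by linarith [ht.1]⟩
      have h2 : ContinuousAt (fun t : ℝ => g (-t)) t :=
        ContinuousAt.comp (f := fun t : ℝ => -t) (g := g) (hg (-t) ht').continuousAt
          continuousAt_neg
      exact h2.neg.continuousWithinAt
    · intro t ht
      have ht' : -t ∈ Icc a b := ⟨by linarith [ht.2], by linarith [ht.1]⟩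
      have h2 : HasDerivAt (fun t : ℝ => g (-t)) (g' (-t) * -1) t :=
        (hg (-t) ht').comp t (hasDerivAt_neg t)
      have h3 := h2.neg
      refine (h3.congr_deriv ?_).hasDerivWithinAt
      ring
    · simp only [neg_neg]
      linarith
    · intro t _
      exact hasDerivWithinAt_const _ _ _
    · intro t ht h0
      have ht' : -t ∈ Icc a b := ⟨by linarith [ht.2], by linarith [ht.1]⟩
      exact h (-t) ht' (by
        have h0' : -g (-t) = 0 := h0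
        linarith)
  intro r hr
  have h2 := h1 (-r) ⟨by linarith [hr.2], by linarith [hr.1]⟩
  simp only [neg_neg] at h2
  linarith

section
variable {κ : ℝ} {b p q : ℝ → Fin 3 → ℝ} {U V N : ℝ → ℝ}

/-- half of the square of the mean -/
noncomputable def Mf2 (b : ℝ → Fin 3 → ℝ) (r : ℝ) : ℝ := 1 / 2 * ∑ i, b r i ^ 2

theorem M_deriv (h : RD κ b p q U V N) (r : ℝ) : HasDerivAt (Mf2 b)
    (1 / 2 * (Real.sin r ^ 3 * Real.cos r) * (∑ i, p r i ^ 2 - ∑ i, q r i ^ 2)) r := by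
  have e : Mf2 b = fun r => 1 / 2 * (b r 0 ^ 2 + b r 1 ^ 2 + b r 2 ^ 2) := by
    funext r
    unfold Mf2
    rw [Fin.sum_univ_three]
  rw [e]
  have h1 := ((((h.hbd r 0).pow 2).add ((h.hbd r 1).pow 2)).add ((h.hbd r 2).pow 2)).const_mul
    (1 / 2)
  refine HasDerivAt.congr_deriv (f := fun r => 1 / 2 * (b r 0 ^ 2 + b r 1 ^ 2 + b r 2 ^ 2)) h1 ?_
  have k0 := pw_mul_ww r 0
  have k1 := pw_mul_ww r 1
  have k2 := pw_mul_ww r 2
  rw [Fin.sum_univ_three, Fin.sum_univ_three, h.hb r 0, h.hb r 1, h.hb r 2]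
  simp only [Nat.cast_ofNat, Nat.add_one_sub_one, pow_one]
  linear_combination (1 / 2 * (p r 0 ^ 2 - q r 0 ^ 2)) * k0 + (1 / 2 * (p r 1 ^ 2 - q r 1 ^ 2)) * k1 +
    (1 / 2 * (p r 2 ^ 2 - q r 2 ^ 2)) * k2

theorem M_lower (h : RD κ b p q U V N) (r : ℝ) : Real.sin r ^ 4 * Real.cos r ^ 2 / 8 *
    ∑ i, (p r i - q r i) ^ 2 ≤ Mf2 b r := by
  unfold Mf2
  simp only [Fin.sum_univ_three]
  rw [h.hb r 0, h.hb r 1, h.hb r 2]
  simp only [ww, Matrix.cons_val_zero, Matrix.cons_val_one, Matrix.cons_val]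
  have h1 : Real.cos r ^ 2 ≤ 1 := Real.cos_sq_le_one r
  have h2 : 0 ≤ Real.sin r ^ 4 * (p r 2 - q r 2) ^ 2 := by positivity
  have h3 : Real.cos r ^ 2 * (Real.sin r ^ 4 * (p r 2 - q r 2) ^ 2) ≤
      1 * (Real.sin r ^ 4 * (p r 2 - q r 2) ^ 2) := mul_le_mul_of_nonneg_right h1 h2
  nlinarith

/-- the algebra at a zero of `x M - X` -/
theorem alg0 {κ S Q P D : ℝ} (hκ0 : 0 ≤ κ) (hκ : κ ≤ 1 / 100) (hQ0 : 0 ≤ Q)
    (hP0 : 0 ≤ P) (hQ : Q ≤ κ ^ 2 * (P + S))
    (hD : 98 / 100 * S - 49 * Q ≤ D) (hD0 : 0 < D) (hDS : D ≤ 2 * S + 2 * Q)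
    (hk : 27 / 20 * ((1 - κ ^ 2) * (1 + 1 / 16) - 1) * D ≤
      11 / 10 * (P + Q) + 11 * (κ ^ 2 * (P + S))) :
    1 / 16 * (S - Q) < P + Q := by
  by_contra hc
  push Not at hc
  have hκ2 : κ ^ 2 ≤ 1 / 10000 := by nlinarith
  have hκ20 : 0 ≤ κ ^ 2 := sq_nonneg κ
  have hP : P ≤ 1 / 16 * S := by linarith
  have hS0 : 0 ≤ S := by linarith
  have hPS : κ ^ 2 * (P + S) ≤ 1 / 10000 * (17 / 16 * S) := by
    have : P + S ≤ 17 / 16 * S := by linarith
    have h0 : 0 ≤ P + S := by linarith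
    calc κ ^ 2 * (P + S) ≤ 1 / 10000 * (P + S) := mul_le_mul_of_nonneg_right hκ2 h0
      _ ≤ 1 / 10000 * (17 / 16 * S) := by linarith
  have hQS : Q ≤ 1 / 10000 * (17 / 16 * S) := hQ.trans hPS
  have hS : 0 < S := by
    by_contra hcc
    push Not at hcc
    have : S = 0 := le_antisymm hcc hS0
    rw [this] at hQS hDS
    linarith
  have hD2 : 97 / 100 * S ≤ D := by linarith
  have hcoef : 623 / 10000 ≤ (1 - κ ^ 2) * (1 + 1 / 16) - 1 := by nlinarith
  have h1 : 27 / 20 * (623 / 10000) * (97 / 100 * S) ≤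
      27 / 20 * ((1 - κ ^ 2) * (1 + 1 / 16) - 1) * D := by
    have h2 : 27 / 20 * (623 / 10000) ≤ 27 / 20 * ((1 - κ ^ 2) * (1 + 1 / 16) - 1) := by linarith
    exact mul_le_mul h2 hD2 (by positivity) (by linarith)
  have h3 : P + Q ≤ 1 / 16 * S := by linarith
  linarith

theorem sin_cos_pos {r : ℝ} (h0 : 0 < r) (h1 : r < Real.pi / 2) :
    0 < Real.sin r ∧ 0 < Real.cos r :=
  ⟨Real.sin_pos_of_pos_of_lt_pi h0 (by linarith [Real.pi_pos]),
    Real.cos_pos_of_mem_Ioo ⟨by linarith, h1⟩⟩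

/-- the derivative of `x M - X` at a zero -/
theorem at_zero (h : RD κ b p q U V N) (hκ0 : 0 ≤ κ) (hκ : κ ≤ 1 / 100) {r : ℝ} (h0 : 0 < r)
    (h1 : r < Real.pi / 2) (hs : Real.sin r ^ 2 ≤ 1 / 10) (hM : 0 < Mf2 b r)
    (hx : N r = (1 + 1 / 16) * Mf2 b r) :
    1 / 16 * (∑ i, p r i ^ 2 - ∑ i, q r i ^ 2) <
      U r - ∑ i, p r i ^ 2 + ∑ i, q r i ^ 2 := by
  obtain ⟨hs0, hc0⟩ := sin_cos_pos h0 h1
  have hsc := Real.sin_sq_add_cos_sq r
  have hU := h.hU r
  have hV := h.hV r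
  have hpin := h.pin r
  have hk := h.key r h0 h1
  have hL := M_lower h r
  set S := ∑ i, p r i ^ 2 with hS
  set Q := ∑ i, q r i ^ 2 with hQ
  set D := ∑ i, (p r i - q r i) ^ 2 with hD
  have hQ0 : 0 ≤ Q := Finset.sum_nonneg fun _ _ => sq_nonneg _
  have hD0' : 0 ≤ D := Finset.sum_nonneg fun _ _ => sq_nonneg _
  have hD1 : 98 / 100 * S - 49 * Q ≤ D := by
    rw [hS, hQ, hD]
    simp only [Fin.sum_univ_three]
    nlinarith [sq_nonneg (p r 0 - 50 * q r 0), sq_nonneg (p r 1 - 50 * q r 1),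
      sq_nonneg (p r 2 - 50 * q r 2)]
  have hD2 : D ≤ 2 * S + 2 * Q := by
    rw [hS, hQ, hD]
    simp only [Fin.sum_univ_three]
    nlinarith [sq_nonneg (p r 0 + q r 0), sq_nonneg (p r 1 + q r 1), sq_nonneg (p r 2 + q r 2)]
  have hM' : Mf2 b r = 1 / 2 * ∑ i, b r i ^ 2 := rfl
  rw [← hM', hx] at hk
  have hs4 : 0 < Real.sin r ^ 4 := by positivity
  have hc2 : 9 / 10 ≤ Real.cos r ^ 2 := by linarith
  have hκ2 : κ ^ 2 ≤ 1 / 10000 := by nlinarith
  have hκ20 : 0 ≤ κ ^ 2 := sq_nonneg κ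
  have hD0 : 0 < D := by
    rcases hD0'.lt_or_eq with h2 | h2
    · exact h2
    · exfalso
      have hb0 : ∀ i, p r i - q r i = 0 := by
        intro i
        have h3 := (Finset.sum_eq_zero_iff_of_nonneg (fun i _ => sq_nonneg (p r i - q r i))).1
          h2.symm i (Finset.mem_univ i)
        exact pow_eq_zero_iff (two_ne_zero) |>.1 h3
      have hM0 : Mf2 b r = 0 := by
        unfold Mf2
        rw [Finset.sum_eq_zero fun i _ => ?_, mul_zero]
        rw [h.hb r i, hb0 i]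
        ring
      linarith
  have hcoef : 0 ≤ (1 - κ ^ 2) * (1 + 1 / 16) - 1 := by nlinarith
  have hML : 9 / 10 * (Real.sin r ^ 4 / 8 * D) ≤ Mf2 b r := by
    refine le_trans ?_ hL
    have h3 : 0 ≤ Real.sin r ^ 4 / 8 * D := by positivity
    nlinarith
  have hk2 : ((1 - κ ^ 2) * (1 + 1 / 16) - 1) * (9 / 10 * (Real.sin r ^ 4 / 8 * D)) ≤
      Real.sin r ^ 4 / 12 * (11 / 10 * (U r - S + Q) + 11 * V r) := by
    have h3 := mul_le_mul_of_nonneg_left hML hcoef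
    linarith
  have hk3 : 27 / 20 * ((1 - κ ^ 2) * (1 + 1 / 16) - 1) * D ≤
      11 / 10 * (U r - S + Q) + 11 * V r := by
    have h3 : Real.sin r ^ 4 / 12 * (27 / 20 * ((1 - κ ^ 2) * (1 + 1 / 16) - 1) * D) ≤
        Real.sin r ^ 4 / 12 * (11 / 10 * (U r - S + Q) + 11 * V r) := by
      calc _ = ((1 - κ ^ 2) * (1 + 1 / 16) - 1) * (9 / 10 * (Real.sin r ^ 4 / 8 * D)) := by ring
        _ ≤ _ := hk2
    exact le_of_mul_le_mul_left h3 (by positivity)
  have h5 : 1 / 16 * (S - Q) < (U r - S) + Q := by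
    refine alg0 hκ0 hκ hQ0 (by linarith) ?_ hD1 hD0 hD2 ?_
    · calc Q ≤ V r := hV
        _ ≤ κ ^ 2 * U r := hpin
        _ = κ ^ 2 * ((U r - S) + S) := by ring
    · calc _ ≤ 11 / 10 * (U r - S + Q) + 11 * V r := hk3
        _ ≤ 11 / 10 * (U r - S + Q) + 11 * (κ ^ 2 * ((U r - S) + S)) := by
          have : V r ≤ κ ^ 2 * ((U r - S) + S) := by
            calc V r ≤ κ ^ 2 * U r := hpin
              _ = κ ^ 2 * ((U r - S) + S) := by ring
          linarith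
  exact h5

/-- the excess stays small as long as `M > 0` -/
theorem excess (h : RD κ b p q U V N) (hκ0 : 0 ≤ κ) (hκ : κ ≤ 1 / 100) {r₁ r₂ : ℝ} (h0 : 0 < r₁)
    (h2 : r₂ < Real.pi / 2) (hs : Real.sin r₂ ^ 2 ≤ 1 / 10)
    (hM : ∀ r ∈ Icc r₁ r₂, 0 < Mf2 b r) (hx : N r₂ ≤ (1 + 1 / 16) * Mf2 b r₂) :
    ∀ r ∈ Icc r₁ r₂, N r ≤ (1 + 1 / 16) * Mf2 b r := by
  have h3 : ∀ r ∈ Icc r₁ r₂, 0 ≤ (fun r => (1 + 1 / 16) * Mf2 b r - N r) r := by
    refine back_nonneg (g' := fun r => (1 + 1 / 16) * (1 / 2 * (Real.sin r ^ 3 * Real.cos r) *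
      (∑ i, p r i ^ 2 - ∑ i, q r i ^ 2)) - 1 / 2 * (Real.sin r ^ 3 * Real.cos r) * U r)
      (fun r _ => ((M_deriv h r).const_mul _).sub (h.hN r)) (by linarith) ?_
    intro r hr hz
    have hr0 : 0 < r := lt_of_lt_of_le h0 hr.1
    have hr1 : r < Real.pi / 2 := lt_of_le_of_lt hr.2 h2
    obtain ⟨hs0, hc0⟩ := sin_cos_pos hr0 hr1
    have hsin : Real.sin r ^ 2 ≤ 1 / 10 := by
      have h4 : Real.sin r ≤ Real.sin r₂ :=
        Real.sin_le_sin_of_le_of_le_pi_div_two (by linarith [Real.pi_pos]) h2.le hr.2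
      have h5 : Real.sin r ^ 2 ≤ Real.sin r₂ ^ 2 := pow_le_pow_left₀ hs0.le h4 2
      linarith
    have h4 := at_zero h hκ0 hκ hr0 hr1 hsin (hM r hr) (by linarith)
    have h5 : 0 < 1 / 2 * (Real.sin r ^ 3 * Real.cos r) := by positivity
    have h6 : (1 + 1 / 16) * (∑ i, p r i ^ 2 - ∑ i, q r i ^ 2) - U r < 0 := by linarith
    have h7 := mul_neg_of_pos_of_neg h5 h6
    calc _ = 1 / 2 * (Real.sin r ^ 3 * Real.cos r) *
          ((1 + 1 / 16) * (∑ i, p r i ^ 2 - ∑ i, q r i ^ 2) - U r) := by ring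
      _ < 0 := h7
  intro r hr
  have h4 : 0 ≤ (1 + 1 / 16) * Mf2 b r - N r := h3 r hr
  linarith

/-! ### the slowly varying vectors -/

/-- The normalised means. -/
noncomputable def dvec (b : ℝ → Fin 3 → ℝ) (r : ℝ) (i : Fin 3) : ℝ :=
  (![2 * Real.cos r ^ 2 / Real.sin r ^ 2, 2 * Real.cos r ^ 2 / Real.sin r ^ 2,
    2 / Real.sin r ^ 2] : Fin 3 → ℝ) i * b r i

/-- The rates. -/
noncomputable def rt (r : ℝ) : Fin 3 → ℝ :=
  ![4 * Real.cos r ^ 2 / Real.sin r, 4 * Real.cos r ^ 2 / Real.sin r, 4 * Real.cos r / Real.sin r]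

theorem dvec_deriv (h : RD κ b p q U V N) {r : ℝ} (hs : Real.sin r ≠ 0) (i : Fin 3) :
    HasDerivAt (fun r => dvec b r i) (rt r i * q r i) r := by
  have hsd := Real.hasDerivAt_sin r
  have hcd := Real.hasDerivAt_cos r
  have hs2 : Real.sin r ^ 2 ≠ 0 := pow_ne_zero 2 hs
  have hA : HasDerivAt (fun r => 2 * Real.cos r ^ 2 / Real.sin r ^ 2)
      (-4 * Real.cos r / Real.sin r ^ 3) r := by
    have h1 := (((hcd.pow 2).const_mul 2).div (hsd.pow 2) hs2)
    refine HasDerivAt.congr_deriv (f := fun r => 2 * Real.cos r ^ 2 / Real.sin r ^ 2) h1 ?_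
    have hsc := Real.sin_sq_add_cos_sq r
    simp only [Nat.cast_ofNat, Nat.add_one_sub_one, pow_one, Pi.pow_apply]
    rw [div_eq_div_iff (by positivity) (by positivity)]
    linear_combination (-4 * Real.cos r * Real.sin r ^ 4) * hsc
  have hB : HasDerivAt (fun r => 2 / Real.sin r ^ 2) (-4 * Real.cos r / Real.sin r ^ 3) r := by
    have h1 := (hasDerivAt_const r (2 : ℝ)).div (hsd.pow 2) hs2
    refine HasDerivAt.congr_deriv (f := fun r => 2 / Real.sin r ^ 2) h1 ?_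
    simp only [Nat.cast_ofNat, Nat.add_one_sub_one, pow_one, Pi.pow_apply]
    rw [div_eq_div_iff (by positivity) (by positivity)]
    ring
  have hbi := h.hbd r i
  have hbv := h.hb r i
  fin_cases i
  · refine HasDerivAt.congr_deriv (f := fun r => 2 * Real.cos r ^ 2 / Real.sin r ^ 2 * b r 0)
      (hA.mul hbi) ?_
    simp only [rt, pw, ww, Matrix.cons_val_zero, Matrix.cons_val_one, Matrix.cons_val,
      Fin.zero_eta] at hbv ⊢
    rw [hbv]
    field_simp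
    ring
  · refine HasDerivAt.congr_deriv (f := fun r => 2 * Real.cos r ^ 2 / Real.sin r ^ 2 * b r 1)
      (hA.mul hbi) ?_
    simp only [rt, pw, ww, Matrix.cons_val_zero, Matrix.cons_val_one, Matrix.cons_val,
      Fin.mk_one] at hbv ⊢
    rw [hbv]
    field_simp
    ring
  · refine HasDerivAt.congr_deriv (f := fun r => 2 / Real.sin r ^ 2 * b r 2)
      (hB.mul hbi) ?_
    simp only [rt, pw, ww, Matrix.cons_val_zero, Matrix.cons_val_one, Matrix.cons_val,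
      Fin.reduceFinMk] at hbv ⊢
    rw [hbv]
    field_simp
    ring

/-- `M` in terms of `dvec` -/
theorem M_dvec {r : ℝ} (hs : Real.sin r ≠ 0) (hc : Real.cos r ≠ 0) :
    Mf2 b r = Real.sin r ^ 4 / 8 * ((dvec b r 0 ^ 2 + dvec b r 1 ^ 2) / Real.cos r ^ 4 +
      dvec b r 2 ^ 2) := by
  unfold Mf2 dvec
  rw [Fin.sum_univ_three]
  simp only [Matrix.cons_val_zero, Matrix.cons_val_one, Matrix.cons_val]
  field_simp
  ring

/-- square norm of `dvec` -/
noncomputable def dn (b : ℝ → Fin 3 → ℝ) (r : ℝ) : ℝ := ∑ i, dvec b r i ^ 2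

theorem dn_nonneg (r : ℝ) : 0 ≤ dn b r := Finset.sum_nonneg fun _ _ => sq_nonneg _

theorem M_le_dn {r : ℝ} (hs : Real.sin r ≠ 0) (hc : 9 / 10 ≤ Real.cos r ^ 2) :
    Mf2 b r ≤ Real.sin r ^ 4 / 8 * (100 / 81 * dn b r) := by
  have hc0 : Real.cos r ≠ 0 := by
    rintro h0
    rw [h0] at hc
    norm_num at hc
  rw [M_dvec hs hc0]
  have h1 : 81 / 100 ≤ Real.cos r ^ 4 := by
    have : Real.cos r ^ 4 = (Real.cos r ^ 2) ^ 2 := by ring
    rw [this]
    nlinarith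
  have h2 : (dvec b r 0 ^ 2 + dvec b r 1 ^ 2) / Real.cos r ^ 4 ≤
      100 / 81 * (dvec b r 0 ^ 2 + dvec b r 1 ^ 2) := by
    rw [div_le_iff₀ (by linarith)]
    have : 0 ≤ dvec b r 0 ^ 2 + dvec b r 1 ^ 2 := by positivity
    nlinarith
  have h3 : 0 ≤ Real.sin r ^ 4 / 8 := by positivity
  refine mul_le_mul_of_nonneg_left ?_ h3
  unfold dn
  rw [Fin.sum_univ_three]
  have : 0 ≤ dvec b r 2 ^ 2 := sq_nonneg _
  linarith

theorem dn_le_M {r : ℝ} (hs : Real.sin r ≠ 0) (hc : Real.cos r ≠ 0) :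
    Real.sin r ^ 4 / 8 * dn b r ≤ Mf2 b r := by
  rw [M_dvec hs hc]
  have h1 : Real.cos r ^ 4 ≤ 1 := by
    have h2 := Real.cos_sq_le_one r
    have : Real.cos r ^ 4 = (Real.cos r ^ 2) ^ 2 := by ring
    rw [this]
    nlinarith [sq_nonneg (Real.cos r)]
  have h0 : 0 < Real.cos r ^ 4 := by positivity
  have h2 : dvec b r 0 ^ 2 + dvec b r 1 ^ 2 ≤
      (dvec b r 0 ^ 2 + dvec b r 1 ^ 2) / Real.cos r ^ 4 := by
    rw [le_div_iff₀ h0]
    have : 0 ≤ dvec b r 0 ^ 2 + dvec b r 1 ^ 2 := by positivity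
    nlinarith
  have h3 : 0 ≤ Real.sin r ^ 4 / 8 := by positivity
  refine mul_le_mul_of_nonneg_left ?_ h3
  unfold dn
  rw [Fin.sum_univ_three]
  linarith

theorem rt_bound {r : ℝ} (h0 : 0 < r) (h1 : r < Real.pi / 2) (i : Fin 3) :
    0 ≤ rt r i ∧ rt r i ≤ 4 * (Real.cos r / Real.sin r) := by
  obtain ⟨hs0, hc0⟩ := sin_cos_pos h0 h1
  have h2 : Real.cos r ≤ 1 := Real.cos_le_one r
  have h3 : 4 * Real.cos r ^ 2 / Real.sin r ≤ 4 * (Real.cos r / Real.sin r) := by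
    rw [← mul_div_assoc]
    refine div_le_div_of_nonneg_right ?_ hs0.le
    nlinarith
  fin_cases i
  · exact ⟨by show 0 ≤ 4 * Real.cos r ^ 2 / Real.sin r; positivity, h3⟩
  · exact ⟨by show 0 ≤ 4 * Real.cos r ^ 2 / Real.sin r; positivity, h3⟩
  · refine ⟨by show 0 ≤ 4 * Real.cos r / Real.sin r; positivity, le_of_eq ?_⟩
    show 4 * Real.cos r / Real.sin r = _
    ring

/-- the variation over a factor two -/
theorem octave_dir (h : RD κ b p q U V N) (hκ0 : 0 ≤ κ) {r₁ r₂ : ℝ} (h0 : 0 < r₁)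
    (h12 : r₁ ≤ r₂) (h2 : r₂ < Real.pi / 2) (hs : Real.sin r₂ ≤ 2 * Real.sin r₁)
    {e : Fin 3 → ℝ} (he : ∑ i, e i ^ 2 = 1) {m : ℝ} (hm : 0 < m) :
    ∑ i, e i * (dvec b r₂ i - dvec b r₁ i) ≤
      2 * κ * N r₂ / m + 15 * κ * m / Real.sin r₂ ^ 4 := by
  -- the comparison function
  set g : ℝ → ℝ := fun r => 2 * κ / m * N r - κ * m / Real.sin r ^ 4 - ∑ i, e i * dvec b r i
    with hg
  have hpos : ∀ r ∈ Icc r₁ r₂, 0 < Real.sin r ∧ 0 < Real.cos r := fun r hr =>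
    sin_cos_pos (lt_of_lt_of_le h0 hr.1) (lt_of_le_of_lt hr.2 h2)
  have hder : ∀ r ∈ Icc r₁ r₂, HasDerivAt g (2 * κ / m * (1 / 2 *
      (Real.sin r ^ 3 * Real.cos r) * U r) + 4 * κ * m * Real.cos r / Real.sin r ^ 5 -
        ∑ i, e i * (rt r i * q r i)) r := by
    intro r hr
    obtain ⟨hs0, hc0⟩ := hpos r hr
    have h3 : HasDerivAt (fun r => κ * m / Real.sin r ^ 4)
        (-(4 * κ * m * Real.cos r / Real.sin r ^ 5)) r := by
      have h4 := (hasDerivAt_const r (κ * m)).div ((Real.hasDerivAt_sin r).pow 4)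
        (pow_ne_zero 4 hs0.ne')
      refine HasDerivAt.congr_deriv (f := fun r => κ * m / Real.sin r ^ 4) h4 ?_
      simp only [Nat.cast_ofNat, Nat.add_one_sub_one, Pi.pow_apply]
      field_simp
      ring
    have h5 : HasDerivAt (fun r => ∑ i, e i * dvec b r i) (∑ i, e i * (rt r i * q r i)) r := by
      have e1 : (fun r => ∑ i, e i * dvec b r i) = ∑ i, fun r => e i * dvec b r i := by
        funext r
        rw [Finset.sum_apply]
      rw [e1]
      exact HasDerivAt.sum fun i _ => (dvec_deriv h hs0.ne' i).const_mul (e i)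
    have h6 := (((h.hN r).const_mul (2 * κ / m)).sub h3).sub h5
    refine HasDerivAt.congr_deriv (f := g) h6 ?_
    ring
  have hnn : ∀ r ∈ Icc r₁ r₂, 0 ≤ 2 * κ / m * (1 / 2 *
      (Real.sin r ^ 3 * Real.cos r) * U r) + 4 * κ * m * Real.cos r / Real.sin r ^ 5 -
        ∑ i, e i * (rt r i * q r i) := by
    intro r hr
    obtain ⟨hs0, hc0⟩ := hpos r hr
    have hr0 : 0 < r := lt_of_lt_of_le h0 hr.1
    have hr1 : r < Real.pi / 2 := lt_of_le_of_lt hr.2 h2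
    set w := Real.cos r / Real.sin r with hw
    have hw0 : 0 < w := div_pos hc0 hs0
    have hU0 : 0 ≤ U r := (Finset.sum_nonneg fun _ _ => sq_nonneg _).trans (h.hU r)
    -- Cauchy-Schwarz
    have h3 : (∑ i, e i * (rt r i * q r i)) ^ 2 ≤ (4 * w * κ) ^ 2 * U r := by
      have h4 := Finset.sum_mul_sq_le_sq_mul_sq Finset.univ e (fun i => rt r i * q r i)
      rw [he, one_mul] at h4
      refine h4.trans ?_
      have h5 : ∀ i, (rt r i * q r i) ^ 2 ≤ (4 * w) ^ 2 * q r i ^ 2 := by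
        intro i
        obtain ⟨b1, b2⟩ := rt_bound hr0 hr1 i
        rw [mul_pow]
        exact mul_le_mul_of_nonneg_right (pow_le_pow_left₀ b1 b2 2) (sq_nonneg _)
      calc ∑ i, (rt r i * q r i) ^ 2 ≤ ∑ i, (4 * w) ^ 2 * q r i ^ 2 :=
            Finset.sum_le_sum fun i _ => h5 i
        _ = (4 * w) ^ 2 * ∑ i, q r i ^ 2 := by rw [Finset.mul_sum]
        _ ≤ (4 * w) ^ 2 * (κ ^ 2 * U r) :=
            mul_le_mul_of_nonneg_left ((h.hV r).trans (h.pin r)) (sq_nonneg _)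
        _ = (4 * w * κ) ^ 2 * U r := by ring
    -- arithmetic-geometric mean
    set A := 2 * κ / m * (1 / 2 * (Real.sin r ^ 3 * Real.cos r) * U r) with hA
    set B := 4 * κ * m * Real.cos r / Real.sin r ^ 5 with hB
    have hA0 : 0 ≤ A := by positivity
    have hB0 : 0 ≤ B := by positivity
    have hAB : 4 * (A * B) = (4 * w * κ) ^ 2 * U r := by
      rw [hA, hB, hw]
      field_simp
    have h6 : (∑ i, e i * (rt r i * q r i)) ^ 2 ≤ (A + B) ^ 2 := by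
      rw [← hAB] at h3
      nlinarith [sq_nonneg (A - B)]
    have h7 := abs_le_of_sq_le_sq h6 (by positivity)
    have h8 := (abs_le.1 h7).2
    linarith
  have hmono : MonotoneOn g (Icc r₁ r₂) := by
    refine monotoneOn_of_deriv_nonneg (convex_Icc _ _) ?_ ?_ ?_
    · exact fun r hr => (hder r hr).continuousAt.continuousWithinAt
    · exact fun r hr => (hder r (interior_subset hr)).differentiableAt.differentiableWithinAt
    · intro r hr
      rw [(hder r (interior_subset hr)).deriv]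
      exact hnn r (interior_subset hr)
  have h3 := hmono (left_mem_Icc.2 h12) (right_mem_Icc.2 h12) h12
  simp only [hg] at h3
  obtain ⟨hs1, -⟩ := hpos r₁ (left_mem_Icc.2 h12)
  obtain ⟨hs2, -⟩ := hpos r₂ (right_mem_Icc.2 h12)
  have hN1 : 0 ≤ N r₁ := by
    have hm2 : MonotoneOn N (Icc 0 r₁) := by
      refine monotoneOn_of_deriv_nonneg (convex_Icc _ _) ?_ ?_ ?_
      · exact fun r _ => (h.hN r).continuousAt.continuousWithinAt
      · exact fun r _ => (h.hN r).differentiableAt.differentiableWithinAt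
      · intro r hr
        rw [(h.hN r).deriv]
        rw [interior_Icc] at hr
        obtain ⟨a1, a2⟩ := sin_cos_pos hr.1 (by linarith [hr.2] : r < Real.pi / 2)
        have hU0 : 0 ≤ U r := (Finset.sum_nonneg fun _ _ => sq_nonneg _).trans (h.hU r)
        positivity
    have := hm2 (left_mem_Icc.2 h0.le) (right_mem_Icc.2 h0.le) h0.le
    rwa [h.hN0] at this
  have h4 : κ * m / Real.sin r₁ ^ 4 ≤ 16 * (κ * m / Real.sin r₂ ^ 4) := by
    have h5 : Real.sin r₂ ^ 4 ≤ 16 * Real.sin r₁ ^ 4 := by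
      calc Real.sin r₂ ^ 4 ≤ (2 * Real.sin r₁) ^ 4 := pow_le_pow_left₀ hs2.le hs 4
        _ = 16 * Real.sin r₁ ^ 4 := by ring
    rw [← mul_div_assoc, div_le_div_iff₀ (by positivity) (by positivity)]
    have h6 : 0 ≤ κ * m := by positivity
    nlinarith
  have h5 : 0 ≤ 2 * κ / m * N r₁ := by positivity
  have e1 : ∑ i, e i * (dvec b r₂ i - dvec b r₁ i) =
      (∑ i, e i * dvec b r₂ i) - ∑ i, e i * dvec b r₁ i := by
    rw [← Finset.sum_sub_distrib]
    exact Finset.sum_congr rfl fun i _ => by ring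
  rw [e1]
  have e2 : 2 * κ * N r₂ / m = 2 * κ / m * N r₂ := by ring
  have e3 : 15 * κ * m / Real.sin r₂ ^ 4 = 15 * (κ * m / Real.sin r₂ ^ 4) := by ring
  rw [e2, e3]
  linarith

end

end Pool.Agent.Lib.Pex
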