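import Pool.Agent.Lib.Pex.Ode

set_option autoImplicit false

/-!
# Slow variation of the means
-/

open MeasureTheory Set Metric
open scoped ContDiff

namespace Pool.Agent.Lib.Pex

open Pool.Agent.P28b04d Pool.Agent.Lib.Psd

/-- Euclidean norm of a vector of `Fin 3 → ℝ` -/
noncomputable def n3 (v : Fin 3 → ℝ) : ℝ := Real.sqrt (∑ i, v i ^ 2)

theorem n3_nonneg (v : Fin 3 → ℝ) : 0 ≤ n3 v := Real.sqrt_nonneg _

theorem n3_sq (v : Fin 3 → ℝ) : n3 v ^ 2 = ∑ i, v i ^ 2 :=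
  Real.sq_sqrt (Finset.sum_nonneg fun _ _ => sq_nonneg _)

theorem n3_eq_norm (v : Fin 3 → ℝ) : n3 v = ‖(WithLp.toLp 2 v : EuclideanSpace ℝ (Fin 3))‖ := by
  rw [EuclideanSpace.norm_eq]
  unfold n3
  congr 1
  refine Finset.sum_congr rfl fun i _ => ?_
  rw [Real.norm_eq_abs, sq_abs]

theorem n3_add (v w : Fin 3 → ℝ) : n3 (v + w) ≤ n3 v + n3 w := by
  rw [n3_eq_norm, n3_eq_norm, n3_eq_norm, WithLp.toLp_add]
  exact norm_add_le _ _

theorem n3_neg (v : Fin 3 → ℝ) : n3 (-v) = n3 v := by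
  rw [n3_eq_norm, n3_eq_norm, WithLp.toLp_neg, norm_neg]

theorem n3_sub_comm (v w : Fin 3 → ℝ) : n3 (v - w) = n3 (w - v) := by
  rw [← n3_neg, neg_sub]

theorem n3_tri (u v w : Fin 3 → ℝ) : n3 (u - w) ≤ n3 (u - v) + n3 (v - w) := by
  have h := n3_add (u - v) (v - w)
  rwa [sub_add_sub_cancel] at h

theorem n3_le_add (u v : Fin 3 → ℝ) : n3 u ≤ n3 (u - v) + n3 v := by
  have h := n3_add (u - v) v
  rwa [sub_add_cancel] at h

theorem n3_smul (c : ℝ) (v : Fin 3 → ℝ) : n3 (c • v) = |c| * n3 v := by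
  rw [n3_eq_norm, n3_eq_norm, WithLp.toLp_smul, norm_smul, Real.norm_eq_abs]

/-- dual description -/
theorem n3_le_of_dir {v : Fin 3 → ℝ} {B : ℝ} (hB : 0 ≤ B)
    (h : ∀ e : Fin 3 → ℝ, ∑ i, e i ^ 2 = 1 → ∑ i, e i * v i ≤ B) : n3 v ≤ B := by
  rcases (n3_nonneg v).lt_or_eq with h1 | h1
  · have h2 := h (fun i => v i / n3 v) (by
      have : ∀ i, (v i / n3 v) ^ 2 = v i ^ 2 * (n3 v ^ 2)⁻¹ := by
        intro i
        rw [div_pow, div_eq_mul_inv]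
      rw [Finset.sum_congr rfl fun i _ => this i, ← Finset.sum_mul, ← n3_sq]
      exact mul_inv_cancel₀ (pow_ne_zero 2 h1.ne'))
    have h3 : ∑ i, v i / n3 v * v i = n3 v := by
      have : ∀ i, v i / n3 v * v i = v i ^ 2 * (n3 v)⁻¹ := by
        intro i
        rw [div_eq_mul_inv]
        ring
      rw [Finset.sum_congr rfl fun i _ => this i, ← Finset.sum_mul, ← n3_sq]
      field_simp
    rwa [h3] at h2
  · rw [← h1]
    exact hB

section
variable {κ : ℝ} {b p q : ℝ → Fin 3 → ℝ} {U V N : ℝ → ℝ}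

theorem n3_dvec_sq (r : ℝ) : n3 (dvec b r) ^ 2 = dn b r := n3_sq _

/-- `M > 0` and the excess is small -/
def Good (b : ℝ → Fin 3 → ℝ) (N : ℝ → ℝ) (r : ℝ) : Prop :=
  0 < Mf2 b r ∧ N r ≤ (1 + 1 / 16) * Mf2 b r

theorem cos_sq_ge {r : ℝ} (hs : Real.sin r ^ 2 ≤ 1 / 10) : 9 / 10 ≤ Real.cos r ^ 2 := by
  have := Real.sin_sq_add_cos_sq r
  linarith

theorem M_pos_iff {r : ℝ} (h0 : 0 < r) (h1 : r < Real.pi / 2) (hs : Real.sin r ^ 2 ≤ 1 / 10) :
    0 < Mf2 b r ↔ 0 < n3 (dvec b r) := by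
  obtain ⟨hs0, hc0⟩ := sin_cos_pos h0 h1
  have h2 : 0 < n3 (dvec b r) ↔ 0 < dn b r := by
    rw [← n3_dvec_sq]
    constructor
    · intro h
      positivity
    · intro h
      exact lt_of_le_of_ne (n3_nonneg _) (fun h3 => by rw [← h3] at h; norm_num at h)
  rw [h2]
  constructor
  · intro h
    have h3 := M_le_dn (b := b) hs0.ne' (cos_sq_ge hs)
    by_contra hc
    push Not at hc
    have h4 : dn b r = 0 := le_antisymm hc (dn_nonneg r)
    rw [h4] at h3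
    linarith
  · intro h
    exact lt_of_lt_of_le (by positivity) (dn_le_M (b := b) hs0.ne' hc0.ne')

/-- variation over one octave -/
theorem octave (h : RD κ b p q U V N) (hκ0 : 0 ≤ κ) {r₁ r₂ : ℝ} (h0 : 0 < r₁)
    (h12 : r₁ ≤ r₂) (h2 : r₂ < Real.pi / 2) (hs2 : Real.sin r₂ ^ 2 ≤ 1 / 10)
    (hs : Real.sin r₂ ≤ 2 * Real.sin r₁) (hg : Good b N r₂) :
    n3 (dvec b r₁ - dvec b r₂) ≤ 89 / 20 * κ * n3 (dvec b r₂) := by
  have hr2 : 0 < r₂ := lt_of_lt_of_le h0 h12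
  obtain ⟨hs0, hc0⟩ := sin_cos_pos hr2 h2
  have hd := (M_pos_iff hr2 h2 hs2).1 hg.1
  set d := n3 (dvec b r₂) with hdd
  have hB : 0 ≤ 89 / 20 * κ * d := by positivity
  refine n3_le_of_dir hB fun e he => ?_
  have hm : 0 < 3 / 20 * Real.sin r₂ ^ 4 * d := by positivity
  have h3 := octave_dir h hκ0 h0 h12 h2 hs (e := fun i => -e i)
    (by simpa using he) hm
  have e1 : ∑ i, -e i * (dvec b r₂ i - dvec b r₁ i) = ∑ i, e i * (dvec b r₁ - dvec b r₂) i := by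
    refine Finset.sum_congr rfl fun i _ => ?_
    rw [Pi.sub_apply]
    ring
  rw [e1] at h3
  refine h3.trans ?_
  have h4 := M_le_dn (b := b) hs0.ne' (cos_sq_ge hs2)
  rw [← n3_dvec_sq, ← hdd] at h4
  have h5 : N r₂ ≤ (1 + 1 / 16) * (Real.sin r₂ ^ 4 / 8 * (100 / 81 * d ^ 2)) := by
    have := hg.2
    linarith
  have h6 : 2 * κ * N r₂ / (3 / 20 * Real.sin r₂ ^ 4 * d) ≤
      2 * κ * ((1 + 1 / 16) * (Real.sin r₂ ^ 4 / 8 * (100 / 81 * d ^ 2))) /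
        (3 / 20 * Real.sin r₂ ^ 4 * d) :=
    div_le_div_of_nonneg_right (mul_le_mul_of_nonneg_left h5 (by positivity)) hm.le
  have h7 : 2 * κ * ((1 + 1 / 16) * (Real.sin r₂ ^ 4 / 8 * (100 / 81 * d ^ 2))) /
        (3 / 20 * Real.sin r₂ ^ 4 * d) = 2 * (17 / 16) / 8 * (100 / 81) * (20 / 3) * (κ * d) := by
    field_simp
    ring
  have h8 : 15 * κ * (3 / 20 * Real.sin r₂ ^ 4 * d) / Real.sin r₂ ^ 4 = 9 / 4 * (κ * d) := by
    field_simp
    ring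
  rw [h8]
  rw [h7] at h6
  have h9 : 0 ≤ κ * d := by positivity
  linarith

/-- one step down -/
theorem step_down (h : RD κ b p q U V N) (hκ0 : 0 ≤ κ) (hκ : κ ≤ 1 / 100) {r₁ r₂ : ℝ} (h0 : 0 < r₁)
    (h12 : r₁ ≤ r₂) (h2 : r₂ < Real.pi / 2) (hs2 : Real.sin r₂ ^ 2 ≤ 1 / 10)
    (hs : Real.sin r₂ ≤ 2 * Real.sin r₁) (hg : Good b N r₂) : Good b N r₁ := by
  have hr2 : 0 < r₂ := lt_of_lt_of_le h0 h12
  have hd := (M_pos_iff hr2 h2 hs2).1 hg.1
  have hsin : ∀ r ∈ Icc r₁ r₂, Real.sin r ^ 2 ≤ 1 / 10 ∧ Real.sin r₂ ≤ 2 * Real.sin r := by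
    intro r hr
    have hr0 : 0 < r := lt_of_lt_of_le h0 hr.1
    have hr1 : r < Real.pi / 2 := lt_of_le_of_lt hr.2 h2
    obtain ⟨hs0, hc0⟩ := sin_cos_pos hr0 hr1
    have h4 : Real.sin r ≤ Real.sin r₂ :=
      Real.sin_le_sin_of_le_of_le_pi_div_two (by linarith [Real.pi_pos]) h2.le hr.2
    have h4' : Real.sin r₁ ≤ Real.sin r :=
      Real.sin_le_sin_of_le_of_le_pi_div_two (by linarith [Real.pi_pos]) hr1.le hr.1
    have h5 : Real.sin r ^ 2 ≤ Real.sin r₂ ^ 2 := pow_le_pow_left₀ hs0.le h4 2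
    exact ⟨by linarith, by linarith⟩
  have hM : ∀ r ∈ Icc r₁ r₂, 0 < Mf2 b r := by
    intro r hr
    obtain ⟨a1, a2⟩ := hsin r hr
    have hr0 : 0 < r := lt_of_lt_of_le h0 hr.1
    have hr1 : r < Real.pi / 2 := lt_of_le_of_lt hr.2 h2
    refine (M_pos_iff hr0 hr1 a1).2 ?_
    have h3 := octave h hκ0 hr0 hr.2 h2 hs2 a2 hg
    have h4 := n3_le_add (dvec b r₂) (dvec b r)
    rw [n3_sub_comm] at h4
    have h5 : 89 / 20 * κ * n3 (dvec b r₂) ≤ 1 / 2 * n3 (dvec b r₂) := by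
      refine mul_le_mul_of_nonneg_right ?_ hd.le
      linarith
    linarith
  exact ⟨hM r₁ (left_mem_Icc.2 h12),
    excess h hκ0 hκ h0 h2 hs2 hM hg.2 r₁ (left_mem_Icc.2 h12)⟩

/-- all smaller radii -/
theorem all_down (h : RD κ b p q U V N) (hκ0 : 0 ≤ κ) (hκ : κ ≤ 1 / 100) {r₂ : ℝ}
    (h02 : 0 < r₂) (h2 : r₂ < Real.pi / 2) (hs2 : Real.sin r₂ ^ 2 ≤ 1 / 10)
    (hg : Good b N r₂) (n : ℕ) : ∀ r : ℝ, 0 < r → r ≤ r₂ → Real.sin r₂ ≤ 2 ^ n * Real.sin r →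
    Good b N r ∧ n3 (dvec b r - dvec b r₂) ≤ ((1 + 89 / 20 * κ) ^ n - 1) * n3 (dvec b r₂) ∧
      (1 - 89 / 20 * κ) ^ n * n3 (dvec b r₂) ≤ n3 (dvec b r) := by
  have hθ0 : 0 ≤ 89 / 20 * κ := by positivity
  have hθ1 : 0 ≤ 1 - 89 / 20 * κ := by linarith
  induction n with
  | zero =>
    intro r h0 hr hs
    have hr' : r = r₂ := by
      rw [pow_zero, one_mul] at hs
      rcases hr.lt_or_eq with h3 | h3
      · exfalso
        have h4 : Real.sin r < Real.sin r₂ :=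
          Real.sin_lt_sin_of_lt_of_le_pi_div_two (by linarith [Real.pi_pos]) h2.le h3
        linarith
      · exact h3
    subst hr'
    refine ⟨hg, ?_, ?_⟩
    · have : dvec b r - dvec b r = 0 := sub_self _
      rw [this]
      have h0 : n3 (0 : Fin 3 → ℝ) = 0 := by
        unfold n3
        simp
      rw [h0]
      simp
    · simp
  | succ n ih =>
    intro r h0 hr hs
    have hr1 : r < Real.pi / 2 := lt_of_le_of_lt hr h2
    obtain ⟨hsr, hcr⟩ := sin_cos_pos h0 hr1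
    obtain ⟨hs0, hc0⟩ := sin_cos_pos h02 h2
    have hle : Real.sin r ≤ Real.sin r₂ :=
      Real.sin_le_sin_of_le_of_le_pi_div_two (by linarith [Real.pi_pos]) h2.le hr
    -- the intermediate radius
    set y := min (2 * Real.sin r) (Real.sin r₂) with hy
    have hy1 : y ≤ 1 := (min_le_right _ _).trans (Real.sin_le_one _)
    have hy0 : 0 < y := lt_min (by positivity) hs0
    have hsy : Real.sin (Real.arcsin y) = y := Real.sin_arcsin (by linarith) hy1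
    set r' := Real.arcsin y with hr'
    have hr'2 : r' ≤ r₂ := by
      have : r₂ = Real.arcsin (Real.sin r₂) :=
        (Real.arcsin_sin (by linarith [Real.pi_pos]) h2.le).symm
      rw [this]
      exact Real.arcsin_le_arcsin (min_le_right _ _)
    have hrr' : r ≤ r' := by
      have : r = Real.arcsin (Real.sin r) :=
        (Real.arcsin_sin (by linarith [Real.pi_pos]) hr1.le).symm
      rw [this]
      exact Real.arcsin_le_arcsin (le_min (by linarith) hle)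
    have hr'0 : 0 < r' := lt_of_lt_of_le h0 hrr'
    have hs' : Real.sin r₂ ≤ 2 ^ n * Real.sin r' := by
      rw [hsy, hy]
      rcases min_choice (2 * Real.sin r) (Real.sin r₂) with h3 | h3
      · rw [h3]
        calc Real.sin r₂ ≤ 2 ^ (n + 1) * Real.sin r := hs
          _ = 2 ^ n * (2 * Real.sin r) := by ring
      · rw [h3]
        have h4 : (1 : ℝ) ≤ 2 ^ n := one_le_pow₀ (by norm_num)
        calc Real.sin r₂ = 1 * Real.sin r₂ := (one_mul _).symm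
          _ ≤ 2 ^ n * Real.sin r₂ := mul_le_mul_of_nonneg_right h4 hs0.le
    obtain ⟨g1, g2, g3⟩ := ih r' hr'0 hr'2 hs'
    have hs'' : Real.sin r' ≤ 2 * Real.sin r := by
      rw [hsy]
      exact min_le_left _ _
    have hs'2 : Real.sin r' ^ 2 ≤ 1 / 10 := by
      rw [hsy]
      have h3 : y ≤ Real.sin r₂ := min_le_right _ _
      have h4 : y ^ 2 ≤ Real.sin r₂ ^ 2 := pow_le_pow_left₀ hy0.le h3 2
      linarith
    have hr'1 : r' < Real.pi / 2 := lt_of_le_of_lt hr'2 h2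
    have k1 := step_down h hκ0 hκ h0 hrr' hr'1 hs'2 hs'' g1
    have k2 := octave h hκ0 h0 hrr' hr'1 hs'2 hs'' g1
    set d := n3 (dvec b r₂) with hd
    have hd0 : 0 ≤ d := n3_nonneg _
    set d' := n3 (dvec b r') with hd'
    have hd'0 : 0 ≤ d' := n3_nonneg _
    have k3 : d' ≤ (1 + 89 / 20 * κ) ^ n * d := by
      have := n3_le_add (dvec b r') (dvec b r₂)
      linarith
    refine ⟨k1, ?_, ?_⟩
    · have h3 := n3_tri (dvec b r) (dvec b r') (dvec b r₂)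
      have h4 : 89 / 20 * κ * d' ≤ 89 / 20 * κ * ((1 + 89 / 20 * κ) ^ n * d) :=
        mul_le_mul_of_nonneg_left k3 hθ0
      calc _ ≤ 89 / 20 * κ * ((1 + 89 / 20 * κ) ^ n * d) + ((1 + 89 / 20 * κ) ^ n - 1) * d := by
            linarith
        _ = ((1 + 89 / 20 * κ) ^ (n + 1) - 1) * d := by ring
    · have h3 := n3_le_add (dvec b r') (dvec b r)
      rw [n3_sub_comm] at h3
      have h4 : (1 - 89 / 20 * κ) * d' ≤ n3 (dvec b r) := by linarith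
      refine le_trans ?_ h4
      calc (1 - 89 / 20 * κ) ^ (n + 1) * d = (1 - 89 / 20 * κ) * ((1 - 89 / 20 * κ) ^ n * d) := by
            ring
        _ ≤ _ := mul_le_mul_of_nonneg_left g3 hθ1

/-- `(1 + θ) ^ n - 1 ≤ θ (2 ^ n - 1)` -/
theorem pow_conv {θ : ℝ} (h0 : 0 ≤ θ) (h1 : θ ≤ 1) (n : ℕ) :
    (1 + θ) ^ n - 1 ≤ θ * (2 ^ n - 1) := by
  induction n with
  | zero => simp
  | succ n ih =>
    have h2 : (0 : ℝ) ≤ 2 ^ n - 1 := by
      have : (1 : ℝ) ≤ 2 ^ n := one_le_pow₀ (by norm_num)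
      linarith
    have h3 : (1 + θ) * ((1 + θ) ^ n - 1) ≤ (1 + θ) * (θ * (2 ^ n - 1)) :=
      mul_le_mul_of_nonneg_left ih (by linarith)
    have h4 : (1 + θ) * (θ * (2 ^ n - 1)) ≤ 2 * (θ * (2 ^ n - 1)) :=
      mul_le_mul_of_nonneg_right (by linarith) (mul_nonneg h0 h2)
    calc (1 + θ) ^ (n + 1) - 1 = (1 + θ) * ((1 + θ) ^ n - 1) + θ := by ring
      _ ≤ 2 * (θ * (2 ^ n - 1)) + θ := by linarith
      _ = θ * (2 ^ (n + 1) - 1) := by ring

/-- variation in terms of the ratio of the scales -/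
theorem ratio_bound (h : RD κ b p q U V N) (hκ0 : 0 ≤ κ) (hκ : κ ≤ 1 / 100) {r₂ : ℝ}
    (h02 : 0 < r₂) (h2 : r₂ < Real.pi / 2) (hs2 : Real.sin r₂ ^ 2 ≤ 1 / 10)
    (hg : Good b N r₂) {r : ℝ} (h0 : 0 < r) (hr : r ≤ r₂) :
    n3 (dvec b r - dvec b r₂) ≤ 89 / 20 * κ * (2 * Real.sin r₂ / Real.sin r - 1) *
      n3 (dvec b r₂) := by
  have hr1 : r < Real.pi / 2 := lt_of_le_of_lt hr h2
  obtain ⟨hsr, hcr⟩ := sin_cos_pos h0 hr1
  obtain ⟨hs0, hc0⟩ := sin_cos_pos h02 h2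
  have hle : Real.sin r ≤ Real.sin r₂ :=
    Real.sin_le_sin_of_le_of_le_pi_div_two (by linarith [Real.pi_pos]) h2.le hr
  have hq : 1 ≤ Real.sin r₂ / Real.sin r := by
    rw [le_div_iff₀ hsr]
    linarith
  obtain ⟨n, hn1, hn2⟩ := exists_nat_pow_near hq (by norm_num : (1 : ℝ) < 2)
  -- `2 ^ n ≤ ratio < 2 ^ (n + 1)`
  have h3 := (all_down h hκ0 hκ h02 h2 hs2 hg (n + 1) r h0 hr (by
    rw [div_lt_iff₀ hsr] at hn2
    exact hn2.le)).2.1
  refine h3.trans (mul_le_mul_of_nonneg_right ?_ (n3_nonneg _))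
  refine (pow_conv (by positivity) (by linarith) (n + 1)).trans ?_
  refine mul_le_mul_of_nonneg_left ?_ (by positivity)
  have h4 : (2 : ℝ) ^ (n + 1) ≤ 2 * (Real.sin r₂ / Real.sin r) := by
    rw [pow_succ]
    linarith
  calc (2 : ℝ) ^ (n + 1) - 1 ≤ 2 * (Real.sin r₂ / Real.sin r) - 1 := by linarith
    _ = _ := by ring

end

end Pool.Agent.Lib.Pex
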