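import Pool.Agent.Lib.Pex.OdeB
import Pool.Agent.Lib.Psd.MainA

set_option autoImplicit false

/-!
# The radial functions of a pinched form

`Nn`, `Yn`: the integrals of the self-dual and anti-self-dual energies over balls. For a pinched connection form they satisfy `RD`; the
comparison with the Fubini-Study form on the whole plane gives the starting values (`start_good`, `start_near`).
-/

open MeasureTheory Set Metric
open scoped ContDiff

namespace Pool.Agent.Lib.Pex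

open Pool.Agent.P28b04d Pool.Agent.Lib.Psd

noncomputable def Nn (γ : W → W →L[ℝ] ℝ) (z u v : W) (r : ℝ) : ℝ :=
  ∫ t in (0 : ℝ)..r, 1 / 2 * (Real.sin t ^ 3 * Real.cos t) * u2 γ z u v t

noncomputable def Yn (γ : W → W →L[ℝ] ℝ) (z u v : W) (r : ℝ) : ℝ :=
  ∫ t in (0 : ℝ)..r, 1 / 2 * (Real.sin t ^ 3 * Real.cos t) * v2 γ z u v t

section
variable {γ : W → W →L[ℝ] ℝ} {z u v : W}

theorem Nn_zero : Nn γ z u v 0 = 0 := intervalIntegral.integral_same

theorem Yn_zero : Yn γ z u v 0 = 0 := intervalIntegral.integral_same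

theorem wt_cont : Continuous fun t : ℝ => 1 / 2 * (Real.sin t ^ 3 * Real.cos t) := by fun_prop

theorem Nn_deriv (hγ : ContDiffOn ℝ ∞ γ {0}ᶜ) (h : ON3 z u v) (r : ℝ) :
    HasDerivAt (Nn γ z u v) (1 / 2 * (Real.sin r ^ 3 * Real.cos r) * u2 γ z u v r) r := by
  have hc : Continuous fun t : ℝ => 1 / 2 * (Real.sin t ^ 3 * Real.cos t) * u2 γ z u v t :=
    wt_cont.mul (u2_smooth hγ h).continuous
  exact intervalIntegral.integral_hasDerivAt_right (hc.intervalIntegrable _ _)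
    (hc.stronglyMeasurableAtFilter _ _) hc.continuousAt

theorem Yn_deriv (hγ : ContDiffOn ℝ ∞ γ {0}ᶜ) (h : ON3 z u v) (r : ℝ) :
    HasDerivAt (Yn γ z u v) (1 / 2 * (Real.sin r ^ 3 * Real.cos r) * v2 γ z u v r) r := by
  have hc : Continuous fun t : ℝ => 1 / 2 * (Real.sin t ^ 3 * Real.cos t) * v2 γ z u v t :=
    wt_cont.mul (v2_smooth hγ h).continuous
  exact intervalIntegral.integral_hasDerivAt_right (hc.intervalIntegrable _ _)
    (hc.stronglyMeasurableAtFilter _ _) hc.continuousAt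

/-- two functions with the same derivative and the same value at `0` -/
theorem eq_of_der {f g : ℝ → ℝ} {f' : ℝ → ℝ} (hf : ∀ r, HasDerivAt f (f' r) r)
    (hg : ∀ r, HasDerivAt g (f' r) r) (h0 : f 0 = g 0) (r : ℝ) : f r = g r := by
  have h1 : ∀ r, HasDerivAt (fun r => f r - g r) 0 r := fun r => by
    have := (hf r).sub (hg r)
    rwa [sub_self] at this
  have h2 := is_const_of_deriv_eq_zero (fun r => (h1 r).differentiableAt)
    (fun r => (h1 r).deriv) r 0
  simp only [h0, sub_self] at h2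
  linarith

theorem Th_sub (hγ : HK γ) (h : ON3 z u v) (r : ℝ) :
    Th γ z u v r = Nn γ z u v r - Yn γ z u v r := by
  refine eq_of_der (f := fun r => Th γ z u v r) (g := fun r => Nn γ z u v r - Yn γ z u v r)
    (fun r => Th_deriv' hγ h r)
    (fun r => (Nn_deriv hγ.smooth h r).sub (Yn_deriv hγ.smooth h r)) ?_ r
  simp only [Th_zero, Nn_zero, Yn_zero, sub_self]

/-- monotonicity on the quarter period from the sign of the factor of the weight -/
theorem mono_of_wt {f g : ℝ → ℝ}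
    (hf : ∀ r, HasDerivAt f (1 / 2 * (Real.sin r ^ 3 * Real.cos r) * g r) r)
    (hg : ∀ r ∈ Ioo 0 (Real.pi / 2), 0 ≤ g r) : MonotoneOn f (Icc 0 (Real.pi / 2)) := by
  refine monotoneOn_of_deriv_nonneg (convex_Icc _ _) ?_ ?_ ?_
  · exact fun r _ => (hf r).continuousAt.continuousWithinAt
  · exact fun r _ => (hf r).differentiableAt.differentiableWithinAt
  · intro r hr
    rw [(hf r).deriv]
    rw [interior_Icc] at hr
    obtain ⟨a1, a2⟩ := sin_cos_pos hr.1 hr.2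
    have := hg r hr
    positivity

theorem nonneg_of_wt {f g : ℝ → ℝ}
    (hf : ∀ r, HasDerivAt f (1 / 2 * (Real.sin r ^ 3 * Real.cos r) * g r) r) (h0 : f 0 = 0)
    (hg : ∀ r ∈ Ioo 0 (Real.pi / 2), 0 ≤ g r) {r : ℝ} (hr : r ∈ Icc 0 (Real.pi / 2)) : 0 ≤ f r := by
  have h1 := mono_of_wt hf hg (left_mem_Icc.2 (by linarith [Real.pi_pos])) hr hr.1
  rwa [h0] at h1

/-- comparison of two integrals -/
theorem le_of_wt {f₁ g₁ f₂ g₂ : ℝ → ℝ}
    (h1 : ∀ r, HasDerivAt f₁ (1 / 2 * (Real.sin r ^ 3 * Real.cos r) * g₁ r) r)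
    (h2 : ∀ r, HasDerivAt f₂ (1 / 2 * (Real.sin r ^ 3 * Real.cos r) * g₂ r) r)
    (h0 : f₁ 0 = f₂ 0)
    (hg : ∀ r ∈ Ioo 0 (Real.pi / 2), g₁ r ≤ g₂ r) {r : ℝ} (hr : r ∈ Icc 0 (Real.pi / 2)) :
    f₁ r ≤ f₂ r := by
  have h3 := nonneg_of_wt (f := fun r => f₂ r - f₁ r) (g := fun r => g₂ r - g₁ r)
    (fun r => ((h2 r).sub (h1 r)).congr_deriv (by ring)) (by simp [h0])
    (fun r hr => sub_nonneg.2 (hg r hr)) hr
  linarith

theorem Yn_le (hγ : ContDiffOn ℝ ∞ γ {0}ᶜ) (h : ON3 z u v) {κ : ℝ}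
    (hp : ∀ r, v2 γ z u v r ≤ κ ^ 2 * u2 γ z u v r) {r : ℝ} (hr : r ∈ Icc 0 (Real.pi / 2)) :
    Yn γ z u v r ≤ κ ^ 2 * Nn γ z u v r :=
  le_of_wt (fun r => Yn_deriv hγ h r)
    (f₂ := fun r => κ ^ 2 * Nn γ z u v r) (g₂ := fun r => κ ^ 2 * u2 γ z u v r)
    (fun r => ((Nn_deriv hγ h r).const_mul (κ ^ 2)).congr_deriv (by ring))
    (by simp only [Nn_zero, Yn_zero, mul_zero]) (fun r _ => hp r) hr

theorem pin_v2 {α : W → W →L[ℝ] ℝ} (hα : Conn α) {κ : ℝ} (hp : Pinched κ α) (h : ON3 z u v)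
    (r : ℝ) : v2 α z u v r ≤ κ ^ 2 * u2 α z u v r := by
  have s1 : Sm fun x => ∑ i, UU α z u v r i x ^ 2 :=
    Sm.sum _ fun i _ => (UU_Sm hα.smooth h r i).pow 2
  have s2 : Sm fun x => ∑ i, VV α z u v r i x ^ 2 :=
    Sm.sum _ fun i _ => (VV_Sm hα.smooth h r i).pow 2
  unfold u2 v2
  rw [← SA_smul]
  refine SA_mono s2.cont (s1.smul _).cont fun x hx => ?_
  have h1 := hp _ _ _ (frame_ON3 h r hx)
  rw [nrm2_sd (cmp_skew _ _ _ _), nrm2_asd (cmp_skew _ _ _ _)] at h1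
  exact h1

theorem Th_le_key {α : W → W →L[ℝ] ℝ} (hα : HK α) (h : ON3 z u v) {r : ℝ} (h0 : 0 < r)
    (h1 : r < Real.pi / 2) : Th α z u v r ≤ 1 / 2 * ∑ i, bm α z u v r i ^ 2 +
      Real.sin r ^ 4 / 12 * (11 / 10 * (u2 α z u v r - ∑ i, ub α z u v r i ^ 2 +
        ∑ i, vb α z u v r i ^ 2) + 11 * v2 α z u v r) := by
  obtain ⟨hs0, hc0⟩ := sin_cos_pos h0 h1
  have h2 := Th_key' hα h r (c := fun i => ub α z u v r i - vb α z u v r i)
    (fun i => (bm_eq' hα h r i).symm) (by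
      intro i
      fin_cases i
      · show Real.sin r ^ 2 * Real.cos r ≠ 0
        positivity
      · show Real.sin r ^ 2 * Real.cos r ≠ 0
        positivity
      · show Real.sin r ^ 2 ≠ 0
        positivity)
  rw [uh2_eq hα.smooth h] at h2
  have e : u2 α z u v r - 2 * ∑ i, (ub α z u v r i - vb α z u v r i) * ub α z u v r i +
      ∑ i, (ub α z u v r i - vb α z u v r i) ^ 2 = u2 α z u v r - ∑ i, ub α z u v r i ^ 2 +
        ∑ i, vb α z u v r i ^ 2 := by
    simp only [Fin.sum_univ_three]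
    ring
  rw [e] at h2
  exact h2

theorem rd_of_pinched {α : W → W →L[ℝ] ℝ} (hα : Conn α) {κ : ℝ} (hp : Pinched κ α)
    (h : ON3 z u v) : RD κ (bm α z u v) (ub α z u v) (vb α z u v) (u2 α z u v) (v2 α z u v)
      (Nn α z u v) := by
  have hK := HK.of_conn hα
  refine ⟨fun r i => bm_eq' hK h r i, fun r i => bm_deriv' hK h r i,
    fun r => Nn_deriv hα.smooth h r, Nn_zero, fun r => ub_sq_le hα.smooth h r,
    fun r => vb_sq_le hα.smooth h r, fun r => pin_v2 hα hp h r, fun r h0 h1 => ?_⟩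
  refine le_trans ?_ (Th_le_key hK h h0 h1)
  rw [Th_sub hK h]
  have := Yn_le hα.smooth h (fun r => pin_v2 hα hp h r) (r := r) ⟨h0.le, h1.le⟩
  linarith

/-! ### the starting values -/

/-- components of the Fubini-Study form -/
def c3 : Fin 3 → ℝ := ![0, 0, 4]

theorem UU_sub {α : W → W →L[ℝ] ℝ} (hα : Conn α) (h : ON3 z u v) (r : ℝ) (i : Fin 3) {x : E}
    (hx : ‖x‖ = 1) : UU (fun y => α y - a0 y) z u v r i x = UU α z u v r i x - c3 i := by
  have hne := zt_ne h r (ne_of_norm hx)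
  have hT : ∀ j k, TT (fun y => α y - a0 y) z u v r x j k = TT α z u v r x j k - c0 j k := by
    intro j k
    rw [← MainAAux.cmp_a0 (frame_ON3 h r hx) j k]
    unfold TT Psd.cmp
    rw [dd_sub hα.smooth a0_conn.smooth hne]
  unfold UU
  fin_cases i
  · simp only [Uc, c3, hT, c0, Matrix.cons_val_zero, Matrix.cons_val_one, Matrix.cons_val,
      Fin.zero_eta]
    ring
  · simp only [Uc, c3, hT, c0, Matrix.cons_val_zero, Matrix.cons_val_one, Matrix.cons_val,
      Fin.mk_one]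
    ring
  · simp only [Uc, c3, hT, c0, Matrix.cons_val_zero, Matrix.cons_val_one, Matrix.cons_val,
      Fin.reduceFinMk]
    ring

theorem VV_sub {α : W → W →L[ℝ] ℝ} (hα : Conn α) (h : ON3 z u v) (r : ℝ) (i : Fin 3) {x : E}
    (hx : ‖x‖ = 1) : VV (fun y => α y - a0 y) z u v r i x = VV α z u v r i x := by
  have hne := zt_ne h r (ne_of_norm hx)
  have hT : ∀ j k, TT (fun y => α y - a0 y) z u v r x j k = TT α z u v r x j k - c0 j k := by
    intro j k
    rw [← MainAAux.cmp_a0 (frame_ON3 h r hx) j k]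
    unfold TT Psd.cmp
    rw [dd_sub hα.smooth a0_conn.smooth hne]
  unfold VV
  fin_cases i
  · simp only [Vc, hT, c0, Matrix.cons_val_zero, Matrix.cons_val_one, Matrix.cons_val,
      Fin.zero_eta]
    ring
  · simp only [Vc, hT, c0, Matrix.cons_val_zero, Matrix.cons_val_one, Matrix.cons_val,
      Fin.mk_one]
    ring
  · simp only [Vc, hT, c0, Matrix.cons_val_zero, Matrix.cons_val_one, Matrix.cons_val,
      Fin.reduceFinMk]
    ring

section start
variable {α : W → W →L[ℝ] ℝ}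

/-- the difference from the Fubini-Study connection -/
noncomputable abbrev df (α : W → W →L[ℝ] ℝ) : W → W →L[ℝ] ℝ := fun y => α y - a0 y

theorem ub_sub (hα : Conn α) (h : ON3 z u v) (r : ℝ) (i : Fin 3) :
    ub (df α) z u v r i = ub α z u v r i - c3 i := by
  have e : ub (df α) z u v r i = SA fun x => UU α z u v r i x - c3 i :=
    SA_congr fun x hx => UU_sub hα h r i hx
  rw [e, SA_sub (UU_Sm hα.smooth h r i).cont continuousOn_const, SA_const]
  rfl

theorem vb_sub (hα : Conn α) (h : ON3 z u v) (r : ℝ) (i : Fin 3) :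
    vb (df α) z u v r i = vb α z u v r i :=
  SA_congr fun x hx => VV_sub hα h r i hx

theorem v2_sub (hα : Conn α) (h : ON3 z u v) (r : ℝ) : v2 (df α) z u v r = v2 α z u v r :=
  SA_congr fun x hx => Finset.sum_congr rfl fun i _ => by rw [VV_sub hα h r i hx]

theorem u2_sub (hα : Conn α) (h : ON3 z u v) (r : ℝ) :
    u2 (df α) z u v r = u2 α z u v r - 8 * ub α z u v r 2 + 16 := by
  have e : u2 (df α) z u v r = uh2 α z u v r c3 :=
    SA_congr fun x hx => Finset.sum_congr rfl fun i _ => by rw [UU_sub hα h r i hx]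
  rw [e, uh2_eq hα.smooth h]
  simp only [Fin.sum_univ_three, c3, Matrix.cons_val_zero, Matrix.cons_val_one, Matrix.cons_val]
  ring

theorem bm_sub (hα : Conn α) (h : ON3 z u v) (r : ℝ) (i : Fin 3) :
    bm (df α) z u v r i = bm α z u v r i - ww r i * (c3 i / 2) := by
  rw [bm_eq' (HK.of_basic (hα.sub a0_conn)) h, bm_eq' (HK.of_conn hα) h, ub_sub hα h, vb_sub hα h]
  ring

/-- comparison of the energies -/
theorem u2_le_sub (hα : Conn α) (h : ON3 z u v) (r : ℝ) :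
    u2 α z u v r ≤ 51 / 50 * 16 + 51 * u2 (df α) z u v r := by
  have h1 := ub_sq_le (γ := df α) (hα.sub a0_conn).smooth h r
  have h2 := u2_sub hα h r
  have h3 := ub_sub hα h r 2
  have e : c3 2 = 4 := rfl
  rw [e] at h3
  rw [Fin.sum_univ_three] at h1
  have h4 : ub (df α) z u v r 2 ^ 2 ≤ u2 (df α) z u v r := by
    nlinarith [sq_nonneg (ub (df α) z u v r 0), sq_nonneg (ub (df α) z u v r 1)]
  nlinarith [sq_nonneg (ub (df α) z u v r 2 - 4 / 50)]

theorem Th_half {γ : W → W →L[ℝ] ℝ} (hγ : Basic γ) (h : ON3 z u v) :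
    Th γ z u v (Real.pi / 2) = 0 := by
  have e : Th γ z u v (Real.pi / 2) = SA fun _ => 0 := by
    refine SA_congr fun x hx => ?_
    have hx0 := ne_of_norm hx
    have b0 : BB γ z u v (Real.pi / 2) 0 x = 0 := by
      rw [BB_eq (HK.of_basic hγ) h _ _ hx0]
      simp [ww]
    have b1 : BB γ z u v (Real.pi / 2) 1 x = 0 := by
      rw [BB_eq (HK.of_basic hγ) h _ _ hx0]
      simp [ww]
    have a2 : aa γ z u v (Real.pi / 2) 2 x = 0 := by
      have hne := zt_ne h (Real.pi / 2) hx0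
      unfold aa
      have e1 : Real.sin (Real.pi / 2) • Lf u v (Mv 2 x) =
          Complex.I • zt z u v (Real.pi / 2) x := by
        unfold zt
        rw [Real.sin_pi_div_two, Real.cos_pi_div_two, one_smul, zero_smul, zero_add, one_smul,
          Mv_two, Lf_J4]
      rw [e1]
      exact hγ.rot _ hne
    rw [Fin.sum_univ_three, b0, b1, a2]
    ring
  rw [e, SA_const]

theorem sin4_deriv (r : ℝ) : HasDerivAt (fun r => Real.sin r ^ 4 / 8)
    (1 / 2 * (Real.sin r ^ 3 * Real.cos r) * 1) r := by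
  have h := ((Real.hasDerivAt_sin r).pow 4).div_const 8
  refine HasDerivAt.congr_deriv (f := fun r => Real.sin r ^ 4 / 8) h ?_
  simp only [Nat.cast_ofNat, Nat.add_one_sub_one]
  ring

/-- the total energy of the difference -/
theorem total (hα : Conn α) {κ : ℝ} (hκ0 : 0 ≤ κ) (hκ : κ ≤ 1 / 100) (hp : Pinched κ α)
    (h : ON3 z u v) : Nn (df α) z u v (Real.pi / 2) ≤ 206 / 100 * κ ^ 2 := by
  have hb := hα.sub a0_conn
  have hmem : Real.pi / 2 ∈ Icc 0 (Real.pi / 2) := right_mem_Icc.2 (by linarith [Real.pi_pos])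
  have h1 := Th_sub (HK.of_basic hb) h (Real.pi / 2)
  rw [Th_half hb h] at h1
  have h2 : Yn (df α) z u v (Real.pi / 2) = Yn α z u v (Real.pi / 2) :=
    eq_of_der (fun r => Yn_deriv hb.smooth h r)
      (fun r => by
        rw [v2_sub hα h]
        exact Yn_deriv hα.smooth h r) (by rw [Yn_zero, Yn_zero]) _
  have h3 := Yn_le hα.smooth h (fun r => pin_v2 hα hp h r) hmem
  have h4 : Nn α z u v (Real.pi / 2) ≤
      51 / 50 * 16 * (Real.sin (Real.pi / 2) ^ 4 / 8) + 51 * Nn (df α) z u v (Real.pi / 2) := by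
    refine le_of_wt (f₂ := fun r => 51 / 50 * 16 * (Real.sin r ^ 4 / 8) +
      51 * Nn (df α) z u v r) (g₂ := fun r => 51 / 50 * 16 + 51 * u2 (df α) z u v r)
      (fun r => Nn_deriv hα.smooth h r) (fun r => ?_) ?_ (fun r _ => u2_le_sub hα h r) hmem
    · refine (((sin4_deriv r).const_mul (51 / 50 * 16)).add
        ((Nn_deriv hb.smooth h r).const_mul 51)).congr_deriv ?_
      ring
    · rw [Nn_zero, Nn_zero, Real.sin_zero]
      norm_num
  rw [Real.sin_pi_div_two] at h4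
  have hκ2 : κ ^ 2 ≤ 1 / 10000 := by nlinarith
  have hκ20 : 0 ≤ κ ^ 2 := sq_nonneg κ
  set G := Nn (df α) z u v (Real.pi / 2) with hG
  have h5 : G ≤ κ ^ 2 * (204 / 100 + 51 * G) := by
    have : G ≤ κ ^ 2 * Nn α z u v (Real.pi / 2) := by
      change 0 = G - Yn (df α) z u v (Real.pi / 2) at h1
      linarith
    refine this.trans (mul_le_mul_of_nonneg_left ?_ hκ20)
    linarith
  by_contra hc
  push Not at hc
  have h6 : 0 < G := lt_of_le_of_lt (by positivity) hc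
  have h7 : κ ^ 2 * (51 * G) ≤ 1 / 10000 * (51 * G) :=
    mul_le_mul_of_nonneg_right hκ2 (by positivity)
  nlinarith

/-- the energy dominates the square of the mean -/
theorem M_le_N {γ : W → W →L[ℝ] ℝ} (hγ : HK γ) (h : ON3 z u v) {r : ℝ}
    (hr : r ∈ Icc 0 (Real.pi / 2)) : Mf2 (bm γ z u v) r ≤ Nn γ z u v r := by
  have hM0 : Mf2 (bm γ z u v) 0 = 0 := by
    unfold Mf2
    rw [Finset.sum_eq_zero fun i _ => ?_, mul_zero]
    rw [bm_eq' hγ h]
    fin_cases i <;> simp [ww]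
  refine le_of_wt (g₁ := fun r => ∑ i, ub γ z u v r i ^ 2 - ∑ i, vb γ z u v r i ^ 2)
    (fun r => ?_) (fun r => Nn_deriv hγ.smooth h r) (by rw [hM0, Nn_zero]) (fun r _ => ?_) hr
  · have e : Mf2 (bm γ z u v) = fun r => 1 / 2 * (bm γ z u v r 0 ^ 2 + bm γ z u v r 1 ^ 2 +
        bm γ z u v r 2 ^ 2) := by
      funext r
      unfold Mf2
      rw [Fin.sum_univ_three]
    rw [e]
    have h1 := ((((bm_deriv' hγ h r 0).pow 2).add ((bm_deriv' hγ h r 1).pow 2)).add
      ((bm_deriv' hγ h r 2).pow 2)).const_mul (1 / 2)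
    refine HasDerivAt.congr_deriv (f := fun r => 1 / 2 * (bm γ z u v r 0 ^ 2 +
      bm γ z u v r 1 ^ 2 + bm γ z u v r 2 ^ 2)) h1 ?_
    have k0 := pw_mul_ww r 0
    have k1 := pw_mul_ww r 1
    have k2 := pw_mul_ww r 2
    rw [Fin.sum_univ_three, Fin.sum_univ_three, bm_eq' hγ h r 0, bm_eq' hγ h r 1,
      bm_eq' hγ h r 2]
    simp only [Nat.cast_ofNat, Nat.add_one_sub_one, pow_one]
    linear_combination
      (1 / 2 * (ub γ z u v r 0 ^ 2 - vb γ z u v r 0 ^ 2)) * k0 +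
      (1 / 2 * (ub γ z u v r 1 ^ 2 - vb γ z u v r 1 ^ 2)) * k1 +
      (1 / 2 * (ub γ z u v r 2 ^ 2 - vb γ z u v r 2 ^ 2)) * k2
  · have h1 := ub_sq_le hγ.smooth h r
    have h2 : 0 ≤ ∑ i, vb γ z u v r i ^ 2 := Finset.sum_nonneg fun _ _ => sq_nonneg _
    linarith

theorem Mf2_deriv {γ : W → W →L[ℝ] ℝ} (hγ : HK γ) (h : ON3 z u v) (r : ℝ) :
    HasDerivAt (Mf2 (bm γ z u v)) (1 / 2 * (Real.sin r ^ 3 * Real.cos r) *
      (∑ i, ub γ z u v r i ^ 2 - ∑ i, vb γ z u v r i ^ 2)) r := by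
  have e : Mf2 (bm γ z u v) = fun r => 1 / 2 * (bm γ z u v r 0 ^ 2 + bm γ z u v r 1 ^ 2 +
      bm γ z u v r 2 ^ 2) := by
    funext r
    unfold Mf2
    rw [Fin.sum_univ_three]
  rw [e]
  have h1 := ((((bm_deriv' hγ h r 0).pow 2).add ((bm_deriv' hγ h r 1).pow 2)).add
    ((bm_deriv' hγ h r 2).pow 2)).const_mul (1 / 2)
  refine HasDerivAt.congr_deriv (f := fun r => 1 / 2 * (bm γ z u v r 0 ^ 2 +
    bm γ z u v r 1 ^ 2 + bm γ z u v r 2 ^ 2)) h1 ?_
  have k0 := pw_mul_ww r 0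
  have k1 := pw_mul_ww r 1
  have k2 := pw_mul_ww r 2
  rw [Fin.sum_univ_three, Fin.sum_univ_three, bm_eq' hγ h r 0, bm_eq' hγ h r 1,
    bm_eq' hγ h r 2]
  simp only [Nat.cast_ofNat, Nat.add_one_sub_one, pow_one]
  linear_combination
    (1 / 2 * (ub γ z u v r 0 ^ 2 - vb γ z u v r 0 ^ 2)) * k0 +
    (1 / 2 * (ub γ z u v r 1 ^ 2 - vb γ z u v r 1 ^ 2)) * k1 +
    (1 / 2 * (ub γ z u v r 2 ^ 2 - vb γ z u v r 2 ^ 2)) * k2

theorem Mf2_zero {γ : W → W →L[ℝ] ℝ} (hγ : HK γ) (h : ON3 z u v) :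
    Mf2 (bm γ z u v) 0 = 0 := by
  unfold Mf2
  rw [Finset.sum_eq_zero fun i _ => ?_, mul_zero]
  rw [bm_eq' hγ h]
  fin_cases i <;> simp [ww]

/-- the variances of `α` and of the difference agree -/
theorem X_eq (hα : Conn α) (h : ON3 z u v) (r : ℝ) :
    Nn α z u v r - Mf2 (bm α z u v) r = Nn (df α) z u v r - Mf2 (bm (df α) z u v) r := by
  have hb := hα.sub a0_conn
  have hK := HK.of_conn hα
  have hK' := HK.of_basic hb
  refine eq_of_der (f := fun r => Nn α z u v r - Mf2 (bm α z u v) r)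
    (g := fun r => Nn (df α) z u v r - Mf2 (bm (df α) z u v) r)
    (fun r => (Nn_deriv hα.smooth h r).sub (Mf2_deriv hK h r))
    (fun r => ?_) ?_ r
  · refine ((Nn_deriv hb.smooth h r).sub (Mf2_deriv hK' h r)).congr_deriv ?_
    change 1 / 2 * (Real.sin r ^ 3 * Real.cos r) * u2 (df α) z u v r -
      1 / 2 * (Real.sin r ^ 3 * Real.cos r) *
      (∑ i, ub (df α) z u v r i ^ 2 - ∑ i, vb (df α) z u v r i ^ 2) = _
    rw [u2_sub hα h]
    simp only [Fin.sum_univ_three, ub_sub hα h, vb_sub hα h, c3, Matrix.cons_val_zero,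
      Matrix.cons_val_one, Matrix.cons_val]
    ring
  · simp only [Nn_zero, Mf2_zero hK h, Mf2_zero hK' h]

/-- the starting radius: `sin² = 1 / 10` -/
noncomputable def r0 : ℝ := Real.arcsin (Real.sqrt (1 / 10))

theorem r0_sin : Real.sin r0 ^ 2 = 1 / 10 := by
  have h1 : Real.sqrt (1 / 10) ≤ 1 := by
    rw [Real.sqrt_le_one]
    norm_num
  have h2 : 0 ≤ Real.sqrt (1 / 10) := Real.sqrt_nonneg _
  unfold r0
  rw [Real.sin_arcsin (by linarith) h1, Real.sq_sqrt (by norm_num)]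

theorem r0_pos : 0 < r0 := Real.arcsin_pos.2 (Real.sqrt_pos.2 (by norm_num))

theorem r0_lt : r0 < Real.pi / 2 := by
  unfold r0
  rw [Real.arcsin_lt_pi_div_two]
  rw [Real.sqrt_lt' (by norm_num)]
  norm_num

theorem start (hα : Conn α) {κ : ℝ} (hκ0 : 0 ≤ κ) (hκ : κ ≤ 1 / 100) (hp : Pinched κ α)
    (h : ON3 z u v) : Good (bm α z u v) (Nn α z u v) r0 ∧
      n3 (dvec (bm α z u v) r0 - c3) ≤ 406 / 10 * κ := by
  have hb := hα.sub a0_conn
  have hK := HK.of_conn hα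
  have hK' := HK.of_basic hb
  have hsin := r0_sin
  have hcos : Real.cos r0 ^ 2 = 9 / 10 := by
    have := Real.sin_sq_add_cos_sq r0
    linarith
  have hmem : r0 ∈ Icc 0 (Real.pi / 2) := ⟨r0_pos.le, r0_lt.le⟩
  have hmono := mono_of_wt (fun r => Nn_deriv hb.smooth h r) (fun r _ => u2_nonneg r)
  have h1 : Nn (df α) z u v r0 ≤ 206 / 100 * κ ^ 2 :=
    (hmono hmem (right_mem_Icc.2 (by linarith [Real.pi_pos])) hmem.2).trans
      (total hα hκ0 hκ hp h)
  have h2 := M_le_N hK' h hmem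
  have h3 := X_eq hα h r0
  have h4 : Mf2 (bm (df α) z u v) r0 = 1 / 2 * (bm (df α) z u v r0 0 ^ 2 +
      bm (df α) z u v r0 1 ^ 2 + bm (df α) z u v r0 2 ^ 2) := by
    unfold Mf2
    rw [Fin.sum_univ_three]
  have h5 : Mf2 (bm α z u v) r0 = 1 / 2 * (bm (df α) z u v r0 0 ^ 2 +
      bm (df α) z u v r0 1 ^ 2 + (bm (df α) z u v r0 2 + 2 / 10) ^ 2) := by
    unfold Mf2
    rw [Fin.sum_univ_three, bm_sub hα h, bm_sub hα h, bm_sub hα h]
    simp only [c3, ww, Matrix.cons_val_zero, Matrix.cons_val_one, Matrix.cons_val, hsin]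
    ring
  set β := bm (df α) z u v r0 with hβ
  have hβs : β 0 ^ 2 + β 1 ^ 2 + β 2 ^ 2 ≤ 2 * (206 / 100 * κ ^ 2) := by
    have : Mf2 (bm (df α) z u v) r0 ≤ 206 / 100 * κ ^ 2 := h2.trans h1
    rw [h4] at this
    linarith
  have hκ2 : κ ^ 2 ≤ 1 / 10000 := by nlinarith
  have hβ2 : β 2 ^ 2 ≤ (21 / 1000) ^ 2 := by
    nlinarith [sq_nonneg (β 0), sq_nonneg (β 1)]
  have hβ2' := (abs_le.1 (abs_le_of_sq_le_sq hβ2 (by norm_num))).1
  have hM : 15 / 1000 < Mf2 (bm α z u v) r0 := by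
    rw [h5]
    nlinarith [sq_nonneg (β 0), sq_nonneg (β 1), sq_nonneg (β 2)]
  refine ⟨⟨by linarith, ?_⟩, ?_⟩
  · have hX : Nn α z u v r0 - Mf2 (bm α z u v) r0 ≤ 206 / 100 * κ ^ 2 := by
      rw [h3, h4]
      nlinarith [sq_nonneg (β 0), sq_nonneg (β 1), sq_nonneg (β 2)]
    nlinarith
  · have hn : n3 (dvec (bm α z u v) r0 - c3) ^ 2 ≤ (406 / 10 * κ) ^ 2 := by
      rw [n3_sq, Fin.sum_univ_three]
      have hs4 : Real.sin r0 ^ 2 ≠ 0 := by
        rw [hsin]
        norm_num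
      have e0 : (dvec (bm α z u v) r0 - c3) 0 = 18 * β 0 := by
        rw [Pi.sub_apply, hβ, bm_sub hα h]
        simp only [dvec, c3, ww, Matrix.cons_val_zero, Matrix.cons_val_one, Matrix.cons_val,
          hsin, hcos]
        norm_num
      have e1 : (dvec (bm α z u v) r0 - c3) 1 = 18 * β 1 := by
        rw [Pi.sub_apply, hβ, bm_sub hα h]
        simp only [dvec, c3, ww, Matrix.cons_val_zero, Matrix.cons_val_one, Matrix.cons_val,
          hsin, hcos]
        norm_num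
      have e2 : (dvec (bm α z u v) r0 - c3) 2 = 20 * β 2 := by
        rw [Pi.sub_apply, hβ, bm_sub hα h]
        simp only [dvec, c3, ww, Matrix.cons_val_zero, Matrix.cons_val_one, Matrix.cons_val,
          hsin, hcos]
        ring
      rw [e0, e1, e2]
      nlinarith [sq_nonneg (β 0), sq_nonneg (β 1), sq_nonneg (β 2), sq_nonneg κ]
    exact (abs_le_of_sq_le_sq hn (by positivity)).trans' (le_abs_self _)

end start

end

end Pool.Agent.Lib.Pex
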