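import Pool.Agent.Lib.Pex.Cht

set_option autoImplicit false

/-!
# Skew Hermitian matrices and unitary changes of coordinates
-/

open MeasureTheory Set Metric
open scoped ContDiff

namespace Pool.Agent.Lib.Pex

open Pool.Agent.P28b04d Pool.Agent.Lib.Psd

/-- The space of parameters. -/
abbrev Pp : Type := EuclideanSpace ℝ (Fin 5) × E

/-- The entries of the skew Hermitian matrix. -/
noncomputable def mt (p : Pp) (i j : Fin 3) : ℂ :=
  (![![Complex.I * ((Real.sqrt 2 * p.1 0 : ℝ) : ℂ), -((p.2 0 : ℂ) - p.2 1 * Complex.I),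
      -((p.2 2 : ℂ) - p.2 3 * Complex.I)],
    ![(p.2 0 : ℂ) + p.2 1 * Complex.I, Complex.I * ((Real.sqrt 2 * p.1 1 : ℝ) : ℂ),
      -((p.1 3 : ℂ) - p.1 4 * Complex.I)],
    ![(p.2 2 : ℂ) + p.2 3 * Complex.I, (p.1 3 : ℂ) + p.1 4 * Complex.I,
      Complex.I * ((Real.sqrt 2 * p.1 2 : ℝ) : ℂ)]] : Fin 3 → Fin 3 → ℂ) i j

theorem mt_skew (p : Pp) (i j : Fin 3) : mt p i j = -star (mt p j i) := by
  fin_cases i <;> fin_cases j <;>
    simp [mt, Complex.ext_iff]

theorem mt_add (p q : Pp) (i j : Fin 3) : mt (p + q) i j = mt p i j + mt q i j := by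
  fin_cases i <;> fin_cases j <;>
    simp [mt, Complex.ext_iff] <;> ring_nf <;> simp

theorem mt_smul (c : ℝ) (p : Pp) (i j : Fin 3) : mt (c • p) i j = (c : ℂ) * mt p i j := by
  fin_cases i <;> fin_cases j <;>
    simp [mt, Complex.ext_iff] <;> ring_nf <;> simp

/-- The columns. -/
noncomputable def Sk : Pp →ₗ[ℝ] XX where
  toFun p := fun j i => mt p i j
  map_add' p q := by
    funext j i
    exact mt_add p q i j
  map_smul' c p := by
    funext j i
    simp only [Pi.smul_apply, RingHom.id_apply, Complex.real_smul]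
    exact mt_smul c p i j

theorem Sk_apply (p : Pp) (j i : Fin 3) : Sk p j i = mt p i j := rfl

/-- Square norm of the parameters. -/
noncomputable def Qn (p : Pp) : ℝ := ‖p.1‖ ^ 2 + ‖p.2‖ ^ 2

/-- The unit ball. -/
def Kp : Set Pp := {p | Qn p ≤ 1}

theorem mx_Sk (p : Pp) (w : W) (i : Fin 3) : mx (Sk p) w i = ∑ j, w j * mt p i j := by
  unfold mx
  rw [Finset.sum_apply]
  rfl

/-- skew Hermitian -/
theorem hp_skew (p : Pp) (a b : W) : hp a (mx (Sk p) b) = -star (hp b (mx (Sk p) a)) := by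
  unfold hp
  simp only [mx_Sk, Fin.sum_univ_three]
  rw [mt_skew p 0 1, mt_skew p 0 2, mt_skew p 1 2, mt_skew p 0 0, mt_skew p 1 1, mt_skew p 2 2]
  simp only [star_add, star_mul', star_star, star_neg]
  have h0 := mt_skew p 0 0
  have h1 := mt_skew p 1 1
  have h2 := mt_skew p 2 2
  linear_combination (-(star (a 0) * b 0)) * h0 - (star (a 1) * b 1) * h1 -
    (star (a 2) * b 2) * h2

theorem hp_self_re (p : Pp) (a : W) : (hp a (mx (Sk p) a)).re = 0 := by
  have h := congrArg Complex.re (hp_skew p a a)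
  simp only [Complex.neg_re, Complex.star_def, Complex.conj_re] at h
  linarith

/-- Entries in a frame. -/
noncomputable def Gm (z u v : W) (p : Pp) (a b : Fin 3) : ℂ :=
  hp ((![z, u, v] : Fin 3 → W) a) (mx (Sk p) ((![z, u, v] : Fin 3 → W) b))

theorem mx_add_left (X Y : XX) (w : W) : mx (X + Y) w = mx X w + mx Y w := by
  unfold mx
  rw [← Finset.sum_add_distrib]
  exact Finset.sum_congr rfl fun j _ => by rw [Pi.add_apply, smul_add]

theorem mx_smul_left (c : ℝ) (X : XX) (w : W) : mx (c • X) w = c • mx X w := by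
  unfold mx
  rw [Finset.smul_sum]
  exact Finset.sum_congr rfl fun j _ => by rw [Pi.smul_apply, smul_comm]

theorem Gm_add (z u v : W) (p q : Pp) (a b : Fin 3) :
    Gm z u v (p + q) a b = Gm z u v p a b + Gm z u v q a b := by
  unfold Gm
  rw [map_add, mx_add_left, hp_add_right]

theorem Gm_smul (z u v : W) (c : ℝ) (p : Pp) (a b : Fin 3) :
    Gm z u v (c • p) a b = (c : ℂ) * Gm z u v p a b := by
  unfold Gm
  rw [map_smul, mx_smul_left, CmpFAux.rsmul, hp_smul_right]

/-- The change of coordinates. -/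
noncomputable def phi (z u v : W) : Pp →ₗ[ℝ] Pp where
  toFun p := (!₂[(Gm z u v p 0 0).im / Real.sqrt 2, (Gm z u v p 1 1).im / Real.sqrt 2,
      (Gm z u v p 2 2).im / Real.sqrt 2, (Gm z u v p 2 1).re, (Gm z u v p 2 1).im],
    !₂[(Gm z u v p 1 0).re, (Gm z u v p 1 0).im, (Gm z u v p 2 0).re, (Gm z u v p 2 0).im])
  map_add' p q := by
    refine Prod.ext ?_ ?_
    · ext i
      fin_cases i <;> simp [Gm_add, add_div]
    · ext i
      fin_cases i <;> simp [Gm_add]
  map_smul' c p := by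
    refine Prod.ext ?_ ?_
    · ext i
      fin_cases i <;> simp [Gm_smul, mul_div_assoc]
    · ext i
      fin_cases i <;> simp [Gm_smul]

theorem sqrt2_pos : 0 < Real.sqrt 2 := Real.sqrt_pos.2 (by norm_num)

theorem Gm_skew (z u v : W) (p : Pp) (a b : Fin 3) :
    Gm z u v p a b = -star (Gm z u v p b a) := hp_skew p _ _

theorem mt_phi_low (z u v : W) (p : Pp) : mt (phi z u v p) 1 0 = Gm z u v p 1 0 ∧
    mt (phi z u v p) 2 0 = Gm z u v p 2 0 ∧ mt (phi z u v p) 2 1 = Gm z u v p 2 1 := by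
  refine ⟨?_, ?_, ?_⟩
  · show (((Gm z u v p 1 0).re : ℂ) + ((Gm z u v p 1 0).im : ℂ) * Complex.I) = _
    exact Complex.re_add_im _
  · show (((Gm z u v p 2 0).re : ℂ) + ((Gm z u v p 2 0).im : ℂ) * Complex.I) = _
    exact Complex.re_add_im _
  · show (((Gm z u v p 2 1).re : ℂ) + ((Gm z u v p 2 1).im : ℂ) * Complex.I) = _
    exact Complex.re_add_im _

theorem diag_eq {w : ℂ} (h : w.re = 0) :
    Complex.I * ((Real.sqrt 2 * (w.im / Real.sqrt 2) : ℝ) : ℂ) = w := by
  have h2 := sqrt2_pos.ne'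
  have e : Real.sqrt 2 * (w.im / Real.sqrt 2) = w.im := by field_simp
  rw [e]
  apply Complex.ext
  · simp [h]
  · simp

theorem mt_phi_diag (z u v : W) (p : Pp) : mt (phi z u v p) 0 0 = Gm z u v p 0 0 ∧
    mt (phi z u v p) 1 1 = Gm z u v p 1 1 ∧ mt (phi z u v p) 2 2 = Gm z u v p 2 2 :=
  ⟨diag_eq (hp_self_re p _), diag_eq (hp_self_re p _), diag_eq (hp_self_re p _)⟩

theorem mt_phi (z u v : W) (p : Pp) (a b : Fin 3) : mt (phi z u v p) a b = Gm z u v p a b := by
  obtain ⟨l1, l2, l3⟩ := mt_phi_low z u v p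
  obtain ⟨d0, d1, d2⟩ := mt_phi_diag z u v p
  fin_cases a <;> fin_cases b
  · exact d0
  · show mt (phi z u v p) 0 1 = Gm z u v p 0 1
    rw [mt_skew, l1, Gm_skew z u v p 0 1]
  · show mt (phi z u v p) 0 2 = Gm z u v p 0 2
    rw [mt_skew, l2, Gm_skew z u v p 0 2]
  · exact l1
  · exact d1
  · show mt (phi z u v p) 1 2 = Gm z u v p 1 2
    rw [mt_skew, l3, Gm_skew z u v p 1 2]
  · exact l2
  · exact l3
  · exact d2

/-! ### the norms -/

theorem parseval {z u v : W} (h : ON3 z u v) (w : W) :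
    nsq w = Complex.normSq (hp z w) + Complex.normSq (hp u w) + Complex.normSq (hp v w) := by
  have h1 := ActXAux.expand h w
  have h2 : hp w w = hp z w * hp w z + hp u w * hp w u + hp v w * hp w v := by
    conv_lhs => rw [h1]
    rw [hp_add_right, hp_add_right, hp_smul_right, hp_smul_right, hp_smul_right]
    rw [← h1]
  have h3 : ∀ a : W, hp a w * hp w a = (Complex.normSq (hp a w) : ℂ) := by
    intro a
    rw [← hp_star a w, mul_comm, Complex.normSq_eq_conj_mul_self]
    rfl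
  rw [← nsq_eq_hp, h3, h3, h3] at h2
  exact_mod_cast h2

theorem normSq_hp_comm (a b : W) : Complex.normSq (hp a b) = Complex.normSq (hp b a) := by
  rw [← hp_star a b, Complex.star_def, Complex.normSq_conj]

/-- Hilbert-Schmidt norm -/
noncomputable def hs (M : Fin 3 → Fin 3 → ℂ) : ℝ := ∑ i, ∑ j, Complex.normSq (M i j)

theorem hs_mt (p : Pp) : hs (mt p) = 2 * Qn p := by
  have h2 : Real.sqrt 2 * Real.sqrt 2 = 2 := Real.mul_self_sqrt (by norm_num)
  unfold hs Qn
  rw [EuclideanSpace.norm_sq_eq, EuclideanSpace.norm_sq_eq, Fin.sum_univ_five, Fin.sum_univ_four]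
  simp only [Fin.sum_univ_three, Real.norm_eq_abs, sq_abs, Complex.normSq_apply]
  simp [mt]
  linear_combination (p.1 0 ^ 2 + p.1 1 ^ 2 + p.1 2 ^ 2) * h2

theorem hs_Gm {z u v : W} (h : ON3 z u v) (p : Pp) : hs (Gm z u v p) = hs (mt p) := by
  have h1 : hs (Gm z u v p) = nsq (mx (Sk p) z) + nsq (mx (Sk p) u) + nsq (mx (Sk p) v) := by
    rw [parseval h, parseval h (mx (Sk p) u), parseval h (mx (Sk p) v)]
    unfold hs
    simp only [Fin.sum_univ_three, Gm, Matrix.cons_val_zero, Matrix.cons_val_one, Matrix.cons_val]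
    ring
  have h2 : ∀ (w : W) (i : Fin 3), mx (Sk p) w i = hp (fun j => star (mt p i j)) w := by
    intro w i
    rw [mx_Sk]
    unfold hp
    exact Finset.sum_congr rfl fun j _ => by rw [star_star, mul_comm]
  have h3 : ∀ w : W, nsq (mx (Sk p) w) =
      ∑ i, Complex.normSq (hp w (fun j => star (mt p i j))) := by
    intro w
    rw [ConnBAux.nsq_eq]
    exact Finset.sum_congr rfl fun i _ => by rw [h2, normSq_hp_comm]
  rw [h1, h3, h3, h3, ← Finset.sum_add_distrib, ← Finset.sum_add_distrib]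
  unfold hs
  refine Finset.sum_congr rfl fun i _ => ?_
  rw [← parseval h, ConnBAux.nsq_eq]
  exact Finset.sum_congr rfl fun j _ => by rw [Complex.star_def, Complex.normSq_conj]

theorem Qn_phi {z u v : W} (h : ON3 z u v) (p : Pp) : Qn (phi z u v p) = Qn p := by
  have h1 := hs_mt (phi z u v p)
  have h2 : hs (mt (phi z u v p)) = hs (Gm z u v p) := by
    unfold hs
    simp only [mt_phi]
  rw [h2, hs_Gm h, hs_mt] at h1
  linarith

/-! ### the measure -/

theorem Qn_cont : Continuous Qn := by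
  unfold Qn
  fun_prop

theorem Kp_closed : IsClosed Kp := isClosed_le Qn_cont continuous_const

theorem Kp_sub : Kp ⊆ closedBall (0 : Pp) 1 := by
  intro p hp
  have h1 : ‖p.1‖ ^ 2 + ‖p.2‖ ^ 2 ≤ 1 := hp
  rw [mem_closedBall_zero_iff, Prod.norm_def]
  refine max_le ?_ ?_
  · nlinarith [sq_nonneg ‖p.2‖, norm_nonneg p.1]
  · nlinarith [sq_nonneg ‖p.1‖, norm_nonneg p.2]

theorem Kp_compact : IsCompact Kp :=
  (isCompact_closedBall (0 : Pp) 1).of_isClosed_subset Kp_closed Kp_sub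

theorem Kp_pos : 0 < volume Kp := by
  have h1 : ball (0 : Pp) (1 / 2) ⊆ Kp := by
    intro p hp
    rw [mem_ball_zero_iff, Prod.norm_def, max_lt_iff] at hp
    show ‖p.1‖ ^ 2 + ‖p.2‖ ^ 2 ≤ 1
    nlinarith [norm_nonneg p.1, norm_nonneg p.2]
  exact lt_of_lt_of_le (measure_ball_pos volume (0 : Pp) (by norm_num)) (measure_mono h1)

theorem Kp_fin : volume Kp ≠ ⊤ := Kp_compact.measure_lt_top.ne

theorem phi_inj {z u v : W} (h : ON3 z u v) : Function.Injective (phi z u v) := by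
  rw [← LinearMap.ker_eq_bot, LinearMap.ker_eq_bot']
  intro p hp
  have h1 := Qn_phi h p
  rw [hp] at h1
  have h2 : Qn (0 : Pp) = 0 := by
    unfold Qn
    simp
  rw [h2] at h1
  have h3 : ‖p.1‖ ^ 2 + ‖p.2‖ ^ 2 = 0 := h1.symm
  have h4 : ‖p.1‖ = 0 := by nlinarith [sq_nonneg ‖p.1‖, sq_nonneg ‖p.2‖]
  have h5 : ‖p.2‖ = 0 := by nlinarith [sq_nonneg ‖p.1‖, sq_nonneg ‖p.2‖]
  exact Prod.ext (norm_eq_zero.1 h4) (norm_eq_zero.1 h5)

theorem phi_pre {z u v : W} (h : ON3 z u v) : phi z u v ⁻¹' Kp = Kp := by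
  ext p
  show Qn (phi z u v p) ≤ 1 ↔ Qn p ≤ 1
  rw [Qn_phi h]

instance haar_Pp : (volume : Measure Pp).IsAddHaarMeasure :=
  inferInstanceAs ((volume : Measure (EuclideanSpace ℝ (Fin 5))).prod
    (volume : Measure E)).IsAddHaarMeasure

theorem phi_mp {z u v : W} (h : ON3 z u v) :
    MeasurePreserving (phi z u v) (volume : Measure Pp) volume := by
  set f := phi z u v with hf
  have hdet : LinearMap.det f ≠ 0 := by
    have h1 := (LinearEquiv.ofInjectiveEndo f (phi_inj h)).isUnit_det'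
    have e : ((LinearEquiv.ofInjectiveEndo f (phi_inj h) : Pp ≃ₗ[ℝ] Pp) : Pp →ₗ[ℝ] Pp) = f :=
      LinearMap.ext fun _ => rfl
    rw [e] at h1
    exact h1.ne_zero
  have h2 := Measure.addHaar_preimage_linearMap (volume : Measure Pp) hdet Kp
  rw [hf, phi_pre h, ← hf] at h2
  have h3 : ENNReal.ofReal |(LinearMap.det f)⁻¹| = 1 := by
    have h4 : 1 * volume Kp = ENNReal.ofReal |(LinearMap.det f)⁻¹| * volume Kp := by
      rw [one_mul]
      exact h2
    exact ((ENNReal.mul_left_inj Kp_pos.ne' Kp_fin).1 h4).symm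
  refine ⟨(LinearMap.continuous_of_finiteDimensional f).measurable, ?_⟩
  rw [Measure.map_linearMap_addHaar_eq_smul_addHaar (volume : Measure Pp) hdet, h3, one_smul]

theorem phi_integral {z u v : W} (h : ON3 z u v) (F : Pp → ℝ) :
    ∫ p in Kp, F (phi z u v p) = ∫ p in Kp, F p := by
  have hemb : MeasurableEmbedding (phi z u v) := by
    have h1 := (LinearEquiv.ofInjectiveEndo (phi z u v)
      (phi_inj h)).toContinuousLinearEquiv.toHomeomorph.measurableEmbedding
    exact h1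
  have h2 := (phi_mp h).setIntegral_preimage_emb hemb F Kp
  rwa [phi_pre h] at h2

end Pool.Agent.Lib.Pex
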