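import Pool.Agent.Lib.Psd.AvC

set_option autoImplicit false

/-!
# The uniform measure on the unit sphere of `ℝ⁴` and the left invariant fields

`sg` is the normalised surface measure of the unit sphere of `E = ℝ⁴`, as a measure on `E`, `SA f` the mean of `f`. `Mv i` are
three skew maps with `M₀ M₁ = M₂` (cyclic), `M_i² = -1`; `Y i f` is the derivative of `f` along `x ↦ M_i x`.
`Sm f`: `f` is smooth off the origin.
-/

open MeasureTheory Set Metric
open scoped ContDiff Pointwise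

namespace Pool.Agent.Lib.Pex

open Pool.Agent.Lib.Psd

/-- Normalised surface measure of the unit sphere. -/
noncomputable def sg : Measure E :=
  ((volume : Measure E).toSphere univ)⁻¹ • Measure.map Subtype.val (volume : Measure E).toSphere

/-- Mean over the unit sphere. -/
noncomputable def SA (f : E → ℝ) : ℝ := ∫ x, f x ∂sg

theorem ts_pos : (volume : Measure E).toSphere univ ≠ 0 := by
  rw [Measure.measure_univ_ne_zero]
  exact (volume : Measure E).toSphere_ne_zero

theorem ts_fin : (volume : Measure E).toSphere univ ≠ ⊤ := measure_ne_top _ _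

theorem sg_apply {A : Set E} (hA : MeasurableSet A) :
    sg A = ((volume : Measure E).toSphere univ)⁻¹ *
      (volume : Measure E).toSphere (Subtype.val ⁻¹' A) := by
  unfold sg
  rw [Measure.smul_apply, smul_eq_mul, Measure.map_apply measurable_subtype_coe hA]

instance sg_prob : IsProbabilityMeasure sg := ⟨by
  rw [sg_apply MeasurableSet.univ, preimage_univ]
  exact ENNReal.inv_mul_cancel ts_pos ts_fin⟩

theorem sg_compl : sg (sphere (0 : E) 1)ᶜ = 0 := by
  rw [sg_apply isClosed_sphere.measurableSet.compl]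
  have h : (Subtype.val ⁻¹' (sphere (0 : E) 1)ᶜ : Set (sphere (0 : E) 1)) = ∅ := by
    ext x
    simp
  rw [h, measure_empty, mul_zero]

theorem sg_ae : ∀ᵐ x ∂sg, ‖x‖ = 1 := by
  rw [ae_iff]
  have h : {x : E | ¬ ‖x‖ = 1} = (sphere (0 : E) 1)ᶜ := by
    ext x
    simp
  rw [h]
  exact sg_compl

theorem sg_restrict : sg.restrict (sphere (0 : E) 1) = sg :=
  Measure.restrict_eq_self_of_ae_mem (by
    filter_upwards [sg_ae] with x hx
    simpa using hx)

theorem sphere_compact : IsCompact (sphere (0 : E) 1) := isCompact_sphere 0 1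

theorem sphere_sub : sphere (0 : E) 1 ⊆ ({0}ᶜ : Set E) := by
  intro x hx h0
  rw [mem_singleton_iff] at h0
  rw [h0, mem_sphere_zero_iff_norm, norm_zero] at hx
  exact zero_ne_one hx

theorem SA_eq (f : E → ℝ) : SA f = ∫ x in sphere (0 : E) 1, f x ∂sg := by
  rw [sg_restrict]
  rfl

theorem integrable_sg {f : E → ℝ} (h : ContinuousOn f (sphere (0 : E) 1)) : Integrable f sg := by
  rw [← sg_restrict]
  exact h.integrableOn_compact sphere_compact

/-! ### linearity -/

theorem SA_congr {f g : E → ℝ} (h : ∀ x : E, ‖x‖ = 1 → f x = g x) : SA f = SA g := by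
  refine integral_congr_ae ?_
  filter_upwards [sg_ae] with x hx
  exact h x hx

theorem SA_const (c : ℝ) : SA (fun _ => c) = c := by
  unfold SA
  rw [integral_const]
  simp

theorem SA_add {f g : E → ℝ} (hf : ContinuousOn f (sphere (0 : E) 1))
    (hg : ContinuousOn g (sphere (0 : E) 1)) : SA (fun x => f x + g x) = SA f + SA g :=
  integral_add (integrable_sg hf) (integrable_sg hg)

theorem SA_sub {f g : E → ℝ} (hf : ContinuousOn f (sphere (0 : E) 1))
    (hg : ContinuousOn g (sphere (0 : E) 1)) : SA (fun x => f x - g x) = SA f - SA g :=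
  integral_sub (integrable_sg hf) (integrable_sg hg)

theorem SA_smul (c : ℝ) (f : E → ℝ) : SA (fun x => c * f x) = c * SA f :=
  integral_const_mul c f

theorem SA_neg (f : E → ℝ) : SA (fun x => -f x) = -SA f := integral_neg f

theorem SA_sum {ι : Type} (s : Finset ι) {f : ι → E → ℝ}
    (hf : ∀ i ∈ s, ContinuousOn (f i) (sphere (0 : E) 1)) :
    SA (fun x => ∑ i ∈ s, f i x) = ∑ i ∈ s, SA (f i) :=
  integral_finset_sum s fun i hi => integrable_sg (hf i hi)

theorem SA_mono {f g : E → ℝ} (hf : ContinuousOn f (sphere (0 : E) 1))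
    (hg : ContinuousOn g (sphere (0 : E) 1)) (h : ∀ x : E, ‖x‖ = 1 → f x ≤ g x) :
    SA f ≤ SA g := by
  refine integral_mono_ae (integrable_sg hf) (integrable_sg hg) ?_
  filter_upwards [sg_ae] with x hx
  exact h x hx

theorem SA_nonneg {f : E → ℝ} (h : ∀ x : E, ‖x‖ = 1 → 0 ≤ f x) : 0 ≤ SA f := by
  refine integral_nonneg_of_ae ?_
  filter_upwards [sg_ae] with x hx
  exact h x hx

/-- square of the mean -/
theorem SA_sq_le {f : E → ℝ} (hf : ContinuousOn f (sphere (0 : E) 1)) :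
    SA f ^ 2 ≤ SA (fun x => f x ^ 2) := by
  have h1 : 0 ≤ SA (fun x => (f x - SA f) ^ 2) := SA_nonneg fun x _ => sq_nonneg _
  have h2 : SA (fun x => (f x - SA f) ^ 2) = SA (fun x => f x ^ 2) - SA f ^ 2 := by
    have e : (fun x => (f x - SA f) ^ 2) = fun x => (f x ^ 2 - (2 * SA f) * f x) + SA f ^ 2 := by
      funext x
      ring
    have c1 : ContinuousOn (fun x => f x ^ 2) (sphere (0 : E) 1) := hf.pow 2
    have c2 : ContinuousOn (fun x => (2 * SA f) * f x) (sphere (0 : E) 1) :=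
      continuousOn_const.mul hf
    rw [e, SA_add (f := fun x => f x ^ 2 - (2 * SA f) * f x) (c1.sub c2) continuousOn_const,
      SA_sub c1 c2, SA_smul, SA_const]
    ring
  linarith

/-! ### invariance -/

theorem sg_inv (O : E ≃ₗᵢ[ℝ] E) : MeasurePreserving O sg sg := by
  refine ⟨O.continuous.measurable, ?_⟩
  ext A hA
  rw [Measure.map_apply O.continuous.measurable hA, sg_apply (O.continuous.measurable hA),
    sg_apply hA]
  congr 1
  rw [Measure.toSphere_apply' _ (measurable_subtype_coe (O.continuous.measurable hA)),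
    Measure.toSphere_apply' _ (measurable_subtype_coe hA)]
  congr 1
  have h1 : Ioo (0 : ℝ) 1 • (Subtype.val '' (Subtype.val ⁻¹' (O ⁻¹' A) : Set (sphere (0 : E) 1))) =
      O ⁻¹' (Ioo (0 : ℝ) 1 • (Subtype.val '' (Subtype.val ⁻¹' A : Set (sphere (0 : E) 1)))) := by
    ext y
    constructor
    · rintro ⟨r, hr, x, ⟨x', hx', rfl⟩, rfl⟩
      refine ⟨r, hr, O x', ⟨⟨O x', ?_⟩, hx', rfl⟩, ?_⟩
      · rw [mem_sphere_zero_iff_norm, O.norm_map]
        exact mem_sphere_zero_iff_norm.1 x'.2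
      · exact (O.map_smul r _).symm
    · rintro ⟨r, hr, x, ⟨x', hx', rfl⟩, hy⟩
      refine ⟨r, hr, O.symm x', ⟨⟨O.symm x', ?_⟩, ?_, rfl⟩, ?_⟩
      · rw [mem_sphere_zero_iff_norm, O.symm.norm_map]
        exact mem_sphere_zero_iff_norm.1 x'.2
      · simp only [mem_preimage, LinearIsometryEquiv.apply_symm_apply]
        exact hx'
      · have h2 := congrArg O.symm hy
        rw [LinearIsometryEquiv.symm_apply_apply] at h2
        rw [← h2]
        exact (O.symm.map_smul r _).symm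
  rw [h1]
  exact O.measurePreserving.measure_preimage_emb O.toHomeomorph.measurableEmbedding _

theorem SA_inv (O : E ≃ₗᵢ[ℝ] E) (f : E → ℝ) : SA (fun x => f (O x)) = SA f :=
  (sg_inv O).integral_comp O.toHomeomorph.measurableEmbedding f

/-! ### the fields -/

/-- Signed permutations. -/
noncomputable def Mf (i : Fin 3) (x : E) : E :=
  (![!₂[-x 2, x 3, x 0, -x 1], !₂[-x 3, -x 2, x 1, x 0], !₂[-x 1, x 0, -x 3, x 2]] : Fin 3 → E) i

/-- The three skew maps. -/
noncomputable def Mv (i : Fin 3) : E →L[ℝ] E :=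
  LinearMap.toContinuousLinearMap
    { toFun := Mf i
      map_add' := by
        intro x y
        ext k
        fin_cases i <;> fin_cases k <;> simp [Mf] <;> ring
      map_smul' := by
        intro c x
        ext k
        fin_cases i <;> fin_cases k <;> simp [Mf] }

theorem Mv_apply (i : Fin 3) (x : E) : Mv i x = Mf i x := rfl

theorem Mv_two (x : E) : Mv 2 x = J4 x := rfl

theorem Mv_mul (i : Fin 3) (x : E) : Mv i (Mv (i + 1) x) = Mv (i + 2) x := by
  ext k
  fin_cases i <;> fin_cases k <;> simp [Mv_apply, Mf]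

theorem Mv_mul' (i : Fin 3) (x : E) : Mv (i + 1) (Mv i x) = -Mv (i + 2) x := by
  ext k
  fin_cases i <;> fin_cases k <;> simp [Mv_apply, Mf]

theorem Mv_sq (i : Fin 3) (x : E) : Mv i (Mv i x) = -x := by
  ext k
  fin_cases i <;> fin_cases k <;> simp [Mv_apply, Mf]

theorem inner_four (x y : E) :
    inner ℝ x y = x 0 * y 0 + x 1 * y 1 + x 2 * y 2 + x 3 * y 3 := by
  rw [PiLp.inner_apply, Fin.sum_univ_four]
  simp only [RCLike.inner_apply, conj_trivial]
  ring

theorem norm_sq_four (x : E) : ‖x‖ ^ 2 = x 0 ^ 2 + x 1 ^ 2 + x 2 ^ 2 + x 3 ^ 2 := by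
  rw [EuclideanSpace.norm_sq_eq, Fin.sum_univ_four]
  simp

theorem inner_Mv (i : Fin 3) (x : E) : inner ℝ x (Mv i x) = 0 := by
  rw [inner_four]
  fin_cases i <;> simp [Mv_apply, Mf] <;> ring

theorem norm_Mv (i : Fin 3) (x : E) : ‖Mv i x‖ = ‖x‖ := by
  have h : ‖Mv i x‖ ^ 2 = ‖x‖ ^ 2 := by
    rw [norm_sq_four, norm_sq_four]
    fin_cases i <;> simp [Mv_apply, Mf] <;> ring
  exact (sq_eq_sq₀ (norm_nonneg _) (norm_nonneg _)).1 h

/-- for all `v`, the sum of the squares of `⟨v, M_i x⟩` -/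
theorem sum_inner_Mv (v x : E) :
    ∑ i, (inner ℝ v (Mv i x)) ^ 2 = ‖v‖ ^ 2 * ‖x‖ ^ 2 - (inner ℝ v x) ^ 2 := by
  rw [Fin.sum_univ_three, inner_four, inner_four, inner_four, inner_four, norm_sq_four,
    norm_sq_four]
  simp [Mv_apply, Mf]
  ring

/-- The rotations. -/
noncomputable def rotM (i : Fin 3) (t : ℝ) (x : E) : E := Real.cos t • x + Real.sin t • Mv i x

theorem norm_rotM (i : Fin 3) (t : ℝ) (x : E) : ‖rotM i t x‖ = ‖x‖ := by
  have h : ‖rotM i t x‖ ^ 2 = ‖x‖ ^ 2 := by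
    unfold rotM
    rw [norm_add_sq_real, norm_smul, norm_smul, norm_Mv, inner_smul_left, inner_smul_right,
      inner_Mv]
    simp only [Real.norm_eq_abs, mul_pow, sq_abs, mul_zero, add_zero]
    linear_combination (‖x‖ ^ 2) * Real.sin_sq_add_cos_sq t
  exact (sq_eq_sq₀ (norm_nonneg _) (norm_nonneg _)).1 h

/-- The rotations as isometries. -/
noncomputable def rotO (i : Fin 3) (t : ℝ) : E ≃ₗᵢ[ℝ] E where
  toFun := rotM i t
  invFun := rotM i (-t)
  map_add' x y := by
    unfold rotM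
    rw [map_add, smul_add, smul_add]
    abel
  map_smul' c x := by
    unfold rotM
    rw [map_smul, RingHom.id_apply, smul_add, smul_comm, smul_comm (Real.sin t)]
  left_inv x := by
    unfold rotM
    rw [map_add, map_smul, map_smul, Mv_sq, Real.cos_neg, Real.sin_neg]
    have h := Real.sin_sq_add_cos_sq t
    ext k
    simp only [PiLp.add_apply, PiLp.smul_apply, smul_eq_mul, PiLp.neg_apply]
    linear_combination (x k) * h
  right_inv x := by
    unfold rotM
    rw [map_add, map_smul, map_smul, Mv_sq, Real.cos_neg, Real.sin_neg]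
    have h := Real.sin_sq_add_cos_sq t
    ext k
    simp only [PiLp.add_apply, PiLp.smul_apply, smul_eq_mul, PiLp.neg_apply]
    linear_combination (x k) * h
  norm_map' := norm_rotM i t

/-- Smooth off the origin. -/
def Sm (f : E → ℝ) : Prop := ContDiffOn ℝ ∞ f {0}ᶜ

/-- The derivative along `M_i x`. -/
noncomputable def Y (i : Fin 3) (f : E → ℝ) (x : E) : ℝ := fderiv ℝ f x (Mv i x)

theorem Sm.cont {f : E → ℝ} (h : Sm f) : ContinuousOn f (sphere (0 : E) 1) :=
  h.continuousOn.mono sphere_sub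

theorem Sm.diffAt {f : E → ℝ} (h : Sm f) {x : E} (hx : x ≠ 0) : DifferentiableAt ℝ f x :=
  (h.contDiffAt (isOpen_compl_singleton.mem_nhds hx)).differentiableAt (by simp)

theorem Sm.add {f g : E → ℝ} (hf : Sm f) (hg : Sm g) : Sm (fun x => f x + g x) :=
  ContDiffOn.add hf hg

theorem Sm.sub {f g : E → ℝ} (hf : Sm f) (hg : Sm g) : Sm (fun x => f x - g x) :=
  ContDiffOn.sub hf hg

theorem Sm.mul {f g : E → ℝ} (hf : Sm f) (hg : Sm g) : Sm (fun x => f x * g x) :=
  ContDiffOn.mul hf hg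

theorem Sm.pow {f : E → ℝ} (hf : Sm f) (n : ℕ) : Sm (fun x => f x ^ n) :=
  ContDiffOn.pow hf n

theorem Sm.smul {f : E → ℝ} (c : ℝ) (hf : Sm f) : Sm (fun x => c * f x) :=
  ContDiffOn.mul contDiffOn_const hf

theorem Sm.const (c : ℝ) : Sm (fun _ => c) := contDiffOn_const

theorem Sm.neg {f : E → ℝ} (hf : Sm f) : Sm (fun x => -f x) := ContDiffOn.neg hf

theorem Sm.sum {ι : Type} (s : Finset ι) {f : ι → E → ℝ} (hf : ∀ i ∈ s, Sm (f i)) :
    Sm (fun x => ∑ i ∈ s, f i x) := ContDiffOn.sum hf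

theorem Sm.Y {f : E → ℝ} (h : Sm f) (i : Fin 3) : Sm (Y i f) := by
  have h1 : ContDiffOn ℝ ∞ (fderiv ℝ f) {0}ᶜ :=
    h.fderiv_of_isOpen isOpen_compl_singleton (by simp)
  exact h1.clm_apply (Mv i).contDiff.contDiffOn

variable {f g : E → ℝ}

theorem Y_add (hf : Sm f) (hg : Sm g) (i : Fin 3) {x : E} (hx : x ≠ 0) :
    Y i (fun x => f x + g x) x = Y i f x + Y i g x := by
  unfold Y
  rw [fderiv_fun_add (hf.diffAt hx) (hg.diffAt hx)]
  rfl

theorem Y_sub (hf : Sm f) (hg : Sm g) (i : Fin 3) {x : E} (hx : x ≠ 0) :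
    Y i (fun x => f x - g x) x = Y i f x - Y i g x := by
  unfold Y
  rw [fderiv_fun_sub (hf.diffAt hx) (hg.diffAt hx)]
  rfl

theorem Y_mul (hf : Sm f) (hg : Sm g) (i : Fin 3) {x : E} (hx : x ≠ 0) :
    Y i (fun x => f x * g x) x = Y i f x * g x + f x * Y i g x := by
  unfold Y
  rw [fderiv_fun_mul (hf.diffAt hx) (hg.diffAt hx)]
  simp only [add_apply, smul_apply, smul_eq_mul]
  ring

theorem Y_smul (c : ℝ) (hf : Sm f) (i : Fin 3) {x : E} (hx : x ≠ 0) :
    Y i (fun x => c * f x) x = c * Y i f x := by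
  unfold Y
  rw [fderiv_const_mul (hf.diffAt hx)]
  rfl

theorem Y_const (c : ℝ) (i : Fin 3) (x : E) : Y i (fun _ => c) x = 0 := by
  unfold Y
  simp

theorem Y_sum {ι : Type} (s : Finset ι) {f : ι → E → ℝ} (hf : ∀ i ∈ s, Sm (f i)) (i : Fin 3)
    {x : E} (hx : x ≠ 0) : Y i (fun x => ∑ j ∈ s, f j x) x = ∑ j ∈ s, Y i (f j) x := by
  unfold Y
  rw [fderiv_fun_sum fun j hj => (hf j hj).diffAt hx]
  simp

theorem Y_congr {x : E} (hx : x ≠ 0) (h : ∀ y : E, y ≠ 0 → f y = g y) (i : Fin 3) :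
    Y i f x = Y i g x := by
  have h1 : f =ᶠ[nhds x] g := by
    filter_upwards [isOpen_compl_singleton.mem_nhds (show x ∈ ({0}ᶜ : Set E) from hx)] with y hy
    exact h y hy
  unfold Y
  rw [h1.fderiv_eq]

/-- the commutators -/
theorem Y_comm (hf : Sm f) (i : Fin 3) {x : E} (hx : x ≠ 0) :
    Y i (Y (i + 1) f) x - Y (i + 1) (Y i f) x = -2 * Y (i + 2) f x := by
  have hd : DifferentiableAt ℝ (fderiv ℝ f) x :=
    ((hf.fderiv_of_isOpen (m := ∞) isOpen_compl_singleton (by simp)).contDiffAt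
      (isOpen_compl_singleton.mem_nhds hx)).differentiableAt (by simp)
  have key : ∀ a b : Fin 3, Y a (Y b f) x =
      fderiv ℝ (fderiv ℝ f) x (Mv a x) (Mv b x) + fderiv ℝ f x (Mv b (Mv a x)) := by
    intro a b
    have h1 : Y b f = fun y => fderiv ℝ f y (Mv b y) := rfl
    unfold Y
    rw [fderiv_clm_apply hd (Mv b).differentiableAt]
    simp [add_comm]
  have hs : IsSymmSndFDerivAt ℝ f x :=
    (hf.contDiffAt (isOpen_compl_singleton.mem_nhds hx)).isSymmSndFDerivAt (by
      rw [minSmoothness_of_isRCLikeNormedField]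
      exact WithTop.coe_le_coe.2 le_top)
  rw [key, key, hs.eq (Mv (i + 1) x) (Mv i x), Mv_mul, Mv_mul', map_neg]
  unfold Y
  ring

/-- differentiation of the mean with respect to a parameter -/
theorem SA_smooth {Ψ : ℝ × E → ℝ} (hΨ : ContDiffOn ℝ ∞ Ψ (univ ×ˢ {0}ᶜ)) :
    ContDiff ℝ ∞ (fun r => SA fun x => Ψ (r, x)) := by
  rw [← contDiffOn_univ]
  have h := Pool.Agent.Lib.P28e.contDiffOn_param (E := ℝ) (F := E) sg isOpen_univ
    isOpen_compl_singleton sphere_compact sphere_sub hΨ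
  refine h.congr fun r _ => ?_
  exact SA_eq _

theorem SA_deriv {Ψ : ℝ × E → ℝ} (hΨ : ContDiffOn ℝ ∞ Ψ (univ ×ˢ {0}ᶜ)) {r : ℝ} {g : E → ℝ}
    (hg : ∀ x : E, ‖x‖ = 1 → HasDerivAt (fun ρ => Ψ (ρ, x)) (g x) r) :
    HasDerivAt (fun ρ => SA fun x => Ψ (ρ, x)) (SA g) r := by
  have h1 : DifferentiableAt ℝ (fun ρ => SA fun x => Ψ (ρ, x)) r :=
    ((SA_smooth hΨ).differentiable (by simp)).differentiableAt
  have h2 := AvCAux.fderiv_param (E' := ℝ) (F := E) (G := ℝ) sg isOpen_univ
    isOpen_compl_singleton sphere_compact sphere_sub hΨ (mem_univ r) 1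
  have h3 : (fun ρ => SA fun x => Ψ (ρ, x)) =
      fun ρ => ∫ x in sphere (0 : E) 1, Ψ (ρ, x) ∂sg := funext fun ρ => SA_eq _
  have h4 : deriv (fun ρ => SA fun x => Ψ (ρ, x)) r = SA g := by
    rw [← fderiv_apply_one_eq_deriv, h3, h2.2, SA_eq g]
    refine setIntegral_congr_fun isClosed_sphere.measurableSet fun x hx => ?_
    have h5 := (hg x (mem_sphere_zero_iff_norm.1 hx)).hasFDerivAt.fderiv
    simp only [h5]
    simp
  rw [← h4]
  exact h1.hasDerivAt

theorem rot_ne (i : Fin 3) (t : ℝ) {x : E} (hx : x ≠ 0) : rotM i t x ≠ 0 := by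
  intro h
  have h1 := norm_rotM i t x
  rw [h, norm_zero] at h1
  exact hx (norm_eq_zero.1 h1.symm)

/-- the mean of a derivative vanishes -/
theorem SA_Y (hf : Sm f) (i : Fin 3) : SA (Y i f) = 0 := by
  have hΨ : ContDiffOn ℝ ∞ (fun p : ℝ × E => f (rotM i p.1 p.2)) (univ ×ˢ {0}ᶜ) := by
    have h1 : ContDiff ℝ ∞ (fun p : ℝ × E => rotM i p.1 p.2) := by
      unfold rotM
      exact ((Real.contDiff_cos.comp contDiff_fst).smul contDiff_snd).add
        ((Real.contDiff_sin.comp contDiff_fst).smul ((Mv i).contDiff.comp contDiff_snd))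
    refine ContDiffOn.comp (t := {0}ᶜ) hf h1.contDiffOn ?_
    rintro ⟨t, x⟩ ⟨-, hx⟩
    exact rot_ne i t hx
  have h1 : HasDerivAt (fun t => SA fun x => f (rotM i t x)) (SA (Y i f)) 0 := by
    refine SA_deriv hΨ fun x hx => ?_
    have hx0 : x ≠ 0 := by
      intro h0
      rw [h0, norm_zero] at hx
      exact zero_ne_one hx
    have h2 : HasDerivAt (fun t => rotM i t x) (Mv i x) 0 := by
      have h3 := ((Real.hasDerivAt_cos 0).smul_const x).add
        ((Real.hasDerivAt_sin 0).smul_const (Mv i x))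
      refine HasDerivAt.congr_deriv (f := fun t => rotM i t x) h3 ?_
      simp
    have h4 : rotM i 0 x = x := by
      unfold rotM
      simp
    have h5 : HasFDerivAt f (fderiv ℝ f x) (rotM i 0 x) := by
      rw [h4]
      exact (hf.diffAt hx0).hasFDerivAt
    exact h5.comp_hasDerivAt 0 h2
  have h2 : (fun t => SA fun x => f (rotM i t x)) = fun _ => SA f := by
    funext t
    exact SA_inv (rotO i t) f
  rw [h2] at h1
  exact h1.unique (hasDerivAt_const 0 (SA f))

/-- integration by parts -/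
theorem SA_ibp (hf : Sm f) (hg : Sm g) (i : Fin 3) :
    SA (fun x => f x * Y i g x) = -SA (fun x => Y i f x * g x) := by
  have h1 := SA_Y (hf.mul hg) i
  have h2 : SA (Y i fun x => f x * g x) = SA (fun x => Y i f x * g x + f x * Y i g x) :=
    SA_congr fun x hx => Y_mul hf hg i (sphere_sub (mem_sphere_zero_iff_norm.2 hx))
  rw [h2, SA_add ((hf.Y i).mul hg).cont (hf.mul (hg.Y i)).cont] at h1
  linarith

end Pool.Agent.Lib.Pex
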