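import Pool.Agent.Lib.Pex.Sph
import Mathlib.Topology.ContinuousMap.StoneWeierstrass

set_option autoImplicit false

/-!
# Density of the range of the Laplacian of the sphere

`Lp g = ∑ Y_i Y_i g`. Every continuous function of mean zero on the sphere is a uniform limit of functions `Lp g`. PROOF. The powers of
linear forms are of the form `c + Lp g` on the sphere (induction on the exponent), so the exponentials of linear forms are in the closure;
these span a subalgebra which separates the points (Stone-Weierstrass).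
-/

open MeasureTheory Set Metric
open scoped ContDiff

namespace Pool.Agent.Lib.Pex

open Pool.Agent.Lib.Psd

/-- Laplacian of the sphere. -/
noncomputable def Lp (g : E → ℝ) (x : E) : ℝ := ∑ i, Y i (Y i g) x

theorem Sm.Lp {g : E → ℝ} (h : Sm g) : Sm (Lp g) := Sm.sum _ fun i _ => (h.Y i).Y i

theorem SA_Lp {g : E → ℝ} (h : Sm g) : SA (Lp g) = 0 := by
  have h1 : SA (Pex.Lp g) = ∑ i : Fin 3, SA (Y i (Y i g)) :=
    SA_sum Finset.univ fun i _ => ((h.Y i).Y i).cont
  rw [h1]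
  exact Finset.sum_eq_zero fun i _ => SA_Y (h.Y i) i

theorem Y_fun_congr {f g : E → ℝ} (h : ∀ y : E, y ≠ 0 → f y = g y) (i : Fin 3) {x : E}
    (hx : x ≠ 0) : Y i f x = Y i g x := Y_congr hx h i

theorem Lp_add {f g : E → ℝ} (hf : Sm f) (hg : Sm g) {x : E} (hx : x ≠ 0) :
    Lp (fun x => f x + g x) x = Lp f x + Lp g x := by
  unfold Lp
  rw [← Finset.sum_add_distrib]
  refine Finset.sum_congr rfl fun i _ => ?_
  rw [Y_congr hx (fun y hy => Y_add hf hg i hy) i, Y_add (hf.Y i) (hg.Y i) i hx]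

theorem Lp_smul (c : ℝ) {f : E → ℝ} (hf : Sm f) {x : E} (hx : x ≠ 0) :
    Lp (fun x => c * f x) x = c * Lp f x := by
  unfold Lp
  rw [Finset.mul_sum]
  refine Finset.sum_congr rfl fun i _ => ?_
  rw [Y_congr hx (fun y hy => Y_smul c hf i hy) i, Y_smul c (hf.Y i) i hx]

namespace SphDAux

/-- linear forms -/
noncomputable def lf (v x : E) : ℝ := inner ℝ v x

theorem lf_contDiff (v : E) : ContDiff ℝ ∞ (lf v) := (innerSL ℝ v).contDiff

theorem lf_Sm (v : E) : Sm (lf v) := (lf_contDiff v).contDiffOn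

theorem pow_Sm (v : E) (m : ℕ) : Sm (fun x => lf v x ^ m) := (lf_Sm v).pow m

theorem hasF (v x : E) : HasFDerivAt (lf v) (innerSL ℝ v) x := (innerSL ℝ v).hasFDerivAt

theorem Y_pow (v : E) (m : ℕ) (i : Fin 3) (x : E) :
    Y i (fun x => lf v x ^ (m + 1)) x = (m + 1) * lf v x ^ m * lf v (Mv i x) := by
  unfold Y
  have h := ((hasF v x).pow (m + 1)).fderiv
  rw [h]
  simp [lf]

theorem Y_lfM (v : E) (i : Fin 3) (x : E) : Y i (fun x => lf v (Mv i x)) x = -lf v x := by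
  unfold Y
  have h : HasFDerivAt (fun x => lf v (Mv i x)) ((innerSL ℝ v).comp (Mv i)) x :=
    (hasF v (Mv i x)).comp x (Mv i).hasFDerivAt
  rw [h.fderiv]
  simp only [ContinuousLinearMap.comp_apply, Mv_sq]
  simp [lf]

theorem lfM_Sm (v : E) (i : Fin 3) : Sm (fun x => lf v (Mv i x)) :=
  ((lf_contDiff v).comp (Mv i).contDiff).contDiffOn

theorem sum_lfM (v x : E) : ∑ i, lf v (Mv i x) ^ 2 = ‖v‖ ^ 2 * ‖x‖ ^ 2 - lf v x ^ 2 :=
  sum_inner_Mv v x

theorem Lp_one (v x : E) (hx : x ≠ 0) : Lp (fun x => lf v x ^ 1) x = -3 * lf v x ^ 1 := by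
  unfold Lp
  have h : ∀ i : Fin 3, Y i (Y i fun x => lf v x ^ 1) x = -lf v x := by
    intro i
    rw [Y_congr hx (g := fun x => lf v (Mv i x)) (fun y _ => by
      have := Y_pow v 0 i y
      simpa using this) i]
    exact Y_lfM v i x
  rw [Finset.sum_congr rfl fun i _ => h i]
  simp

theorem Lp_two (v x : E) (m : ℕ) (hx : x ≠ 0) : Lp (fun x => lf v x ^ (m + 2)) x =
    (m + 2) * (m + 1) * (‖v‖ ^ 2 * ‖x‖ ^ 2) * lf v x ^ m -
      (m + 2) * (m + 4) * lf v x ^ (m + 2) := by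
  unfold Lp
  have h : ∀ i : Fin 3, Y i (Y i fun x => lf v x ^ (m + 2)) x =
      (m + 2) * ((m + 1) * lf v x ^ m * lf v (Mv i x) ^ 2 - lf v x ^ (m + 2)) := by
    intro i
    rw [Y_congr hx (g := fun x => ((m : ℝ) + 2) * (lf v x ^ (m + 1) * lf v (Mv i x)))
      (fun y _ => by
        have := Y_pow v (m + 1) i y
        rw [this]
        push_cast
        ring) i]
    rw [Y_smul _ ((pow_Sm v (m + 1)).mul (lfM_Sm v i)) i hx,
      Y_mul (pow_Sm v (m + 1)) (lfM_Sm v i) i hx, Y_pow, Y_lfM]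
    ring
  rw [Finset.sum_congr rfl fun i _ => h i, ← Finset.mul_sum, Finset.sum_sub_distrib,
    ← Finset.mul_sum, sum_lfM]
  simp only [Finset.sum_const, Finset.card_univ, Fintype.card_fin, nsmul_eq_mul]
  push_cast
  ring

abbrev S : Type := sphere (0 : E) 1

theorem S_ne (ξ : S) : (ξ : E) ≠ 0 := sphere_sub ξ.2

theorem S_norm (ξ : S) : ‖(ξ : E)‖ = 1 := mem_sphere_zero_iff_norm.1 ξ.2

/-- functions `c + Lp g` -/
noncomputable def Rng : Submodule ℝ C(S, ℝ) where
  carrier := {φ | ∃ g, Sm g ∧ ∃ c : ℝ, ∀ ξ : S, φ ξ = c + Lp g ξ}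
  add_mem' := by
    rintro φ ψ ⟨g, hg, c, hc⟩ ⟨h, hh, d, hd⟩
    refine ⟨fun x => g x + h x, hg.add hh, c + d, fun ξ => ?_⟩
    rw [Lp_add hg hh (S_ne ξ), ContinuousMap.add_apply, hc, hd]
    ring
  zero_mem' := ⟨fun _ => 0, Sm.const 0, 0, fun ξ => by
    have h : Lp (fun _ : E => (0 : ℝ)) (ξ : E) = 0 := by
      unfold Lp
      refine Finset.sum_eq_zero fun i _ => ?_
      rw [Y_congr (S_ne ξ) (g := fun _ => 0) (fun y _ => Y_const 0 i y) i]
      exact Y_const 0 i _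
    rw [h]
    simp⟩
  smul_mem' := by
    rintro a φ ⟨g, hg, c, hc⟩
    refine ⟨fun x => a * g x, hg.smul a, a * c, fun ξ => ?_⟩
    rw [Lp_smul a hg (S_ne ξ), ContinuousMap.smul_apply, hc, smul_eq_mul]
    ring

/-- linear forms on the sphere -/
noncomputable def lin (v : E) : C(S, ℝ) :=
  ⟨fun ξ => lf v ξ, (lf_contDiff v).continuous.comp continuous_subtype_val⟩

theorem pow_mem (v : E) : ∀ m : ℕ, (lin v ^ m ∈ Rng) ∧ (lin v ^ (m + 1) ∈ Rng) := by
  intro m
  induction m with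
  | zero =>
    constructor
    · rw [pow_zero]
      refine ⟨fun _ => 0, Sm.const 0, 1, fun ξ => ?_⟩
      have h : Lp (fun _ : E => (0 : ℝ)) (ξ : E) = 0 := by
        unfold Lp
        refine Finset.sum_eq_zero fun i _ => ?_
        rw [Y_congr (S_ne ξ) (g := fun _ => 0) (fun y _ => Y_const 0 i y) i]
        exact Y_const 0 i _
      rw [h]
      simp
    · refine ⟨fun x => (-(1 / 3)) * lf v x ^ 1, (pow_Sm v 1).smul _, 0, fun ξ => ?_⟩
      rw [Lp_smul _ (pow_Sm v 1) (S_ne ξ), Lp_one v _ (S_ne ξ)]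
      rw [ContinuousMap.pow_apply]
      show lf v ξ ^ (0 + 1) = _
      ring
  | succ m ih =>
    refine ⟨ih.2, ?_⟩
    have hne : ((m : ℝ) + 2) * (m + 4) ≠ 0 := by positivity
    have h1 : lin v ^ (m + 1 + 1) = (((m : ℝ) + 2) * (m + 4))⁻¹ •
        ((((m : ℝ) + 2) * (m + 1) * ‖v‖ ^ 2) • lin v ^ m - ⟨fun ξ : S => Lp (fun x => lf v x ^ (m + 2)) ξ, by
          have h2 := (pow_Sm v (m + 2)).Lp.cont
          exact continuousOn_iff_continuous_restrict.1 h2⟩) := by
      ext ξ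
      simp only [ContinuousMap.pow_apply, ContinuousMap.smul_apply, ContinuousMap.sub_apply,
        ContinuousMap.coe_mk, smul_eq_mul]
      rw [Lp_two v _ m (S_ne ξ), S_norm]
      show lf v ξ ^ (m + 1 + 1) = (((m : ℝ) + 2) * (m + 4))⁻¹ *
        (((m : ℝ) + 2) * (m + 1) * ‖v‖ ^ 2 * lf v ξ ^ m - _)
      field_simp
      ring
    rw [h1]
    refine Rng.smul_mem _ (Rng.sub_mem (Rng.smul_mem _ ih.1) ?_)
    exact ⟨fun x => lf v x ^ (m + 2), pow_Sm v _, 0, fun ξ => by simp⟩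

theorem pow_mem' (v : E) (m : ℕ) : lin v ^ m ∈ Rng := (pow_mem v m).1

/-- exponentials of linear forms -/
noncomputable def ex (v : E) : C(S, ℝ) :=
  ⟨fun ξ => Real.exp (lf v ξ), Real.continuous_exp.comp
    ((lf_contDiff v).continuous.comp continuous_subtype_val)⟩

theorem ex_hasSum (v : E) : HasSum (fun n : ℕ => ((n.factorial : ℝ)⁻¹) • lin v ^ n) (ex v) := by
  have h := NormedSpace.exp_series_hasSum_exp' (𝕂 := ℝ) (lin v)
  have e : NormedSpace.exp (lin v) = ex v := by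
    ext ξ
    have h1 := h.mapL (ContinuousMap.evalCLM ℝ ξ)
    have h2 := NormedSpace.exp_series_hasSum_exp' (𝕂 := ℝ) (lf v ξ)
    rw [← Real.exp_eq_exp_ℝ] at h2
    have h3 : (fun n : ℕ => (ContinuousMap.evalCLM ℝ ξ) (((n.factorial : ℝ)⁻¹) • lin v ^ n)) =
        fun n : ℕ => ((n.factorial : ℝ)⁻¹) • lf v ξ ^ n := by
      funext n
      rfl
    rw [h3] at h1
    exact h1.unique h2
  rw [e] at h
  exact h

theorem ex_mem (v : E) : ex v ∈ Rng.topologicalClosure := by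
  have h := (ex_hasSum v).tendsto_sum_nat
  refine mem_closure_of_tendsto h (Filter.Eventually.of_forall fun n => ?_)
  exact Rng.sum_mem fun i _ => Rng.smul_mem _ (pow_mem' v i)

/-- the multiplicative monoid of the exponentials -/
noncomputable def Mon : Submonoid C(S, ℝ) where
  carrier := range ex
  mul_mem' := by
    rintro _ _ ⟨v, rfl⟩ ⟨w, rfl⟩
    refine ⟨v + w, ?_⟩
    ext ξ
    show Real.exp (lf (v + w) ξ) = Real.exp (lf v ξ) * Real.exp (lf w ξ)
    rw [← Real.exp_add]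
    congr 1
    unfold lf
    rw [inner_add_left]
  one_mem' := ⟨0, by
    ext ξ
    show Real.exp (lf 0 ξ) = 1
    unfold lf
    rw [inner_zero_left, Real.exp_zero]⟩

theorem adj_le : (Subalgebra.toSubmodule (Algebra.adjoin ℝ (Mon : Set C(S, ℝ)))) ≤
    Rng.topologicalClosure := by
  rw [Algebra.adjoin_eq_span, Submonoid.closure_eq, Submodule.span_le]
  rintro _ ⟨v, rfl⟩
  exact ex_mem v

theorem sep : (Algebra.adjoin ℝ (Mon : Set C(S, ℝ))).SeparatesPoints := by
  intro ξ η hne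
  refine ⟨ex ((ξ : E) - η), ⟨ex ((ξ : E) - η), Algebra.subset_adjoin ⟨_, rfl⟩, rfl⟩, ?_⟩
  intro h
  have h1 : lf ((ξ : E) - η) ξ = lf ((ξ : E) - η) η := Real.exp_injective h
  unfold lf at h1
  have h2 : inner ℝ ((ξ : E) - η) ((ξ : E) - η) = 0 := by
    rw [inner_sub_right, h1, sub_self]
  rw [inner_self_eq_zero, sub_eq_zero] at h2
  exact hne (Subtype.ext h2)

theorem all_mem (φ : C(S, ℝ)) : φ ∈ Rng.topologicalClosure := by
  have h := ContinuousMap.continuousMap_mem_subalgebra_closure_of_separatesPoints _ sep φ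
  have h1 : (Algebra.adjoin ℝ (Mon : Set C(S, ℝ)) : Set C(S, ℝ)) ⊆
      (Rng.topologicalClosure : Set C(S, ℝ)) := adj_le
  have h2 := closure_minimal h1 Rng.isClosed_topologicalClosure
  exact h2 h

end SphDAux

open SphDAux in
theorem dense {f : E → ℝ} (hf : ContinuousOn f (sphere (0 : E) 1)) (h0 : SA f = 0) {ε : ℝ}
    (hε : 0 < ε) : ∃ g, Sm g ∧ ∀ x : E, ‖x‖ = 1 → |Lp g x - f x| ≤ ε := by
  set φ : C(S, ℝ) := ⟨fun ξ => f ξ, continuousOn_iff_continuous_restrict.1 hf⟩ with hφ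
  obtain ⟨ψ, ⟨g, hg, c, hc⟩, hψ⟩ := Metric.mem_closure_iff.1 (all_mem φ) (ε / 2) (by positivity)
  have h1 : ∀ x : E, ‖x‖ = 1 → |f x - (c + Lp g x)| ≤ ε / 2 := by
    intro x hx
    have hx' : x ∈ sphere (0 : E) 1 := mem_sphere_zero_iff_norm.2 hx
    have h2 : dist (φ ⟨x, hx'⟩) (ψ ⟨x, hx'⟩) ≤ dist φ ψ := ContinuousMap.dist_apply_le_dist _
    rw [hc, Real.dist_eq] at h2
    exact h2.trans hψ.le
  have hL := hg.Lp.cont
  have hc1 : ContinuousOn (fun x => f x - (c + Lp g x)) (sphere (0 : E) 1) :=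
    hf.sub (continuousOn_const.add hL)
  have h3 : SA (fun x => f x - (c + Lp g x)) = -c := by
    have c1 : ContinuousOn (fun x => c + Lp g x) (sphere (0 : E) 1) := continuousOn_const.add hL
    have c2 : ContinuousOn (fun _ : E => c) (sphere (0 : E) 1) := continuousOn_const
    rw [SA_sub hf c1, SA_add c2 hL, h0, SA_const, SA_Lp hg]
    ring
  have h4 : -(ε / 2) ≤ SA (fun x => f x - (c + Lp g x)) := by
    rw [← SA_const (-(ε / 2))]
    exact SA_mono continuousOn_const hc1 fun x hx => (abs_le.1 (h1 x hx)).1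
  have h5 : SA (fun x => f x - (c + Lp g x)) ≤ ε / 2 := by
    conv_rhs => rw [← SA_const (ε / 2)]
    exact SA_mono hc1 continuousOn_const fun x hx => (abs_le.1 (h1 x hx)).2
  refine ⟨g, hg, fun x hx => ?_⟩
  have h6 := abs_le.1 (h1 x hx)
  rw [abs_le]
  constructor <;> linarith [h6.1, h6.2]

end Pool.Agent.Lib.Pex
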